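import Pool.Agent.Work.MP_c03b66_an.Bd.B01

/-! Bundle of small proof modules (one section per former module). -/

section

/-!
Item C1 of `MP_c03b66_an`: an abstract Calderón–Zygmund weak type `(1,1)` theorem on a finite
group.
-/

namespace MP_c03b66_an

open Finset

section core

variable {X : Type} [Fintype X] [DecidableEq X]

theorem C1_dc {E : Type} [AddCommMonoid E] (R : X → Finset X) (hR1 : ∀ x, x ∈ R x)
    (hR2 : ∀ x, ∀ y ∈ R x, R y = R x) (Om : Finset X) (hOm : ∀ x ∈ Om, ∀ y ∈ R x, y ∈ Om)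
    (F : X → X → E) :
    ∑ x ∈ Om, ∑ y ∈ R x, F x y = ∑ y ∈ Om, ∑ x ∈ R y, F x y := by
  apply Finset.sum_comm'
  intro x y
  constructor
  · rintro ⟨hx, hy⟩
    have h1 := hR2 x y hy
    exact ⟨by rw [h1]; exact hR1 x, hOm x hx y hy⟩
  · rintro ⟨hx, hy⟩
    have h1 := hR2 y x hx
    exact ⟨hOm y hy x hx, by rw [h1]; exact hR1 y⟩

theorem C1_cardpos (R : X → Finset X) (hR1 : ∀ x, x ∈ R x) (x : X) : (0 : ℝ) < (R x).card := by
  have : 0 < (R x).card := Finset.card_pos.mpr ⟨x, hR1 x⟩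
  exact_mod_cast this

theorem C1_avg (R : X → Finset X) (hR1 : ∀ x, x ∈ R x)
    (hR2 : ∀ x, ∀ y ∈ R x, R y = R x) (Om : Finset X) (hOm : ∀ x ∈ Om, ∀ y ∈ R x, y ∈ Om)
    (f : X → ℝ) :
    ∑ x ∈ Om, ((R x).card : ℝ)⁻¹ * ∑ y ∈ R x, f y = ∑ y ∈ Om, f y := by
  have h1 : ∑ x ∈ Om, ((R x).card : ℝ)⁻¹ * ∑ y ∈ R x, f y =
      ∑ x ∈ Om, ∑ y ∈ R x, ((R x).card : ℝ)⁻¹ * f y := by
    refine Finset.sum_congr rfl fun x _ => ?_
    rw [Finset.mul_sum]
  rw [h1, C1_dc R hR1 hR2 Om hOm]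
  refine Finset.sum_congr rfl fun y _ => ?_
  have h2 : ∑ x ∈ R y, ((R x).card : ℝ)⁻¹ * f y = ∑ x ∈ R y, ((R y).card : ℝ)⁻¹ * f y := by
    refine Finset.sum_congr rfl fun x hx => ?_
    rw [hR2 y x hx]
  rw [h2, Finset.sum_const, nsmul_eq_mul, ← mul_assoc,
    mul_inv_cancel₀ (C1_cardpos R hR1 y).ne', one_mul]

theorem C1_gnorm (R : X → Finset X) (hR1 : ∀ x, x ∈ R x) (h : X → ℂ) (x : X) :
    ‖((R x).card : ℂ)⁻¹ * ∑ y ∈ R x, h y‖ ≤ ((R x).card : ℝ)⁻¹ * ∑ y ∈ R x, ‖h y‖ := by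
  rw [norm_mul, norm_inv, Complex.norm_natCast]
  exact mul_le_mul_of_nonneg_left (norm_sum_le _ _)
    (inv_nonneg.mpr (C1_cardpos R hR1 x).le)

theorem C1_markov1 (F : X → ℝ) (hF : ∀ x, 0 ≤ F x) (S : Finset X) (s : ℝ) :
    s * ((S.filter fun x => s < F x).card : ℝ) ≤ ∑ x ∈ S, F x := by
  calc s * ((S.filter fun x => s < F x).card : ℝ)
      = ∑ x ∈ S.filter (fun x => s < F x), s := by
        rw [Finset.sum_const, nsmul_eq_mul, mul_comm]
    _ ≤ ∑ x ∈ S.filter (fun x => s < F x), F x := by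
        refine Finset.sum_le_sum fun x hx => ?_
        exact (Finset.mem_filter.mp hx).2.le
    _ ≤ ∑ x ∈ S, F x :=
        Finset.sum_le_sum_of_subset_of_nonneg (Finset.filter_subset _ _) fun x _ _ => hF x

/-- the dilated set is small. -/
theorem C1_star (R : X → Finset X) (hR1 : ∀ x, x ∈ R x)
    (hR2 : ∀ x, ∀ y ∈ R x, R y = R x) (Om : Finset X) (hOm : ∀ x ∈ Om, ∀ y ∈ R x, y ∈ Om)
    (Dl : X → Finset X) (hDl : ∀ x ∈ Om, ∀ y ∈ R x, Dl y = Dl x) (D : ℝ)
    (hD : ∀ x ∈ Om, ((Dl x).card : ℝ) ≤ D * (R x).card) :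
    (((Om.biUnion Dl).card : ℕ) : ℝ) ≤ D * Om.card := by
  have h1 : ∀ u ∈ Om.biUnion Dl,
      (1 : ℝ) ≤ ∑ z ∈ Om, (if u ∈ Dl z then ((R z).card : ℝ)⁻¹ else 0) := by
    intro u hu
    obtain ⟨x, hx, hux⟩ := Finset.mem_biUnion.mp hu
    have hsub : R x ⊆ Om := fun y hy => hOm x hx y hy
    calc (1 : ℝ) = ∑ z ∈ R x, ((R x).card : ℝ)⁻¹ := by
          rw [Finset.sum_const, nsmul_eq_mul, mul_inv_cancel₀ (C1_cardpos R hR1 x).ne']
      _ = ∑ z ∈ R x, (if u ∈ Dl z then ((R z).card : ℝ)⁻¹ else 0) := by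
          refine Finset.sum_congr rfl fun z hz => ?_
          rw [hDl x hx z hz, if_pos hux, hR2 x z hz]
      _ ≤ ∑ z ∈ Om, (if u ∈ Dl z then ((R z).card : ℝ)⁻¹ else 0) := by
          refine Finset.sum_le_sum_of_subset_of_nonneg hsub fun z _ _ => ?_
          split_ifs
          · exact inv_nonneg.mpr (C1_cardpos R hR1 z).le
          · exact le_refl _
  calc (((Om.biUnion Dl).card : ℕ) : ℝ) = ∑ u ∈ Om.biUnion Dl, (1 : ℝ) := by
        rw [Finset.sum_const, nsmul_eq_mul, mul_one]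
    _ ≤ ∑ u ∈ Om.biUnion Dl, ∑ z ∈ Om, (if u ∈ Dl z then ((R z).card : ℝ)⁻¹ else 0) :=
        Finset.sum_le_sum h1
    _ = ∑ z ∈ Om, ∑ u ∈ Om.biUnion Dl, (if u ∈ Dl z then ((R z).card : ℝ)⁻¹ else 0) :=
        Finset.sum_comm
    _ ≤ ∑ z ∈ Om, D := by
        refine Finset.sum_le_sum fun z hz => ?_
        have hc := C1_cardpos R hR1 z
        have h2 : ∑ u ∈ Om.biUnion Dl, (if u ∈ Dl z then ((R z).card : ℝ)⁻¹ else 0) =
            ((Dl z).card : ℝ) * ((R z).card : ℝ)⁻¹ := by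
          rw [← Finset.sum_filter, Finset.sum_const, nsmul_eq_mul]
          congr 2
          congr 1
          ext u
          simp only [Finset.mem_filter, Finset.mem_biUnion]
          constructor
          · rintro ⟨_, h⟩
            exact h
          · intro h
            exact ⟨⟨z, hz, h⟩, h⟩
        rw [h2]
        calc ((Dl z).card : ℝ) * ((R z).card : ℝ)⁻¹ ≤ (D * (R z).card) * ((R z).card : ℝ)⁻¹ :=
              mul_le_mul_of_nonneg_right (hD z hz) (inv_nonneg.mpr hc.le)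
          _ = D := by rw [mul_assoc, mul_inv_cancel₀ hc.ne', mul_one]
    _ = D * Om.card := by rw [Finset.sum_const, nsmul_eq_mul, mul_comm]

variable [AddCommGroup X]

/-- the bad part as an integral of differences of the kernel. -/
theorem C1_bad (R : X → Finset X) (hR1 : ∀ x, x ∈ R x)
    (hR2 : ∀ x, ∀ y ∈ R x, R y = R x) (M h : X → ℂ) (u : X) :
    ∑ y, M (u - y) * (h y - ((R y).card : ℂ)⁻¹ * ∑ z ∈ R y, h z) =
      ∑ z, h z * (((R z).card : ℂ)⁻¹ * ∑ y ∈ R z, (M (u - z) - M (u - y))) := by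
  have h0 : ∑ y, M (u - y) * (((R y).card : ℂ)⁻¹ * ∑ z ∈ R y, h z) =
      ∑ z, h z * (((R z).card : ℂ)⁻¹ * ∑ y ∈ R z, M (u - y)) := by
    have h1 : ∑ y, M (u - y) * (((R y).card : ℂ)⁻¹ * ∑ z ∈ R y, h z) =
        ∑ y, ∑ z ∈ R y, M (u - y) * (((R y).card : ℂ)⁻¹ * h z) := by
      refine Finset.sum_congr rfl fun y _ => ?_
      rw [Finset.mul_sum, Finset.mul_sum]
    rw [h1, C1_dc R hR1 hR2 Finset.univ (fun x _ y _ => Finset.mem_univ y)]
    refine Finset.sum_congr rfl fun z _ => ?_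
    rw [Finset.mul_sum, Finset.mul_sum]
    refine Finset.sum_congr rfl fun y hy => ?_
    rw [hR2 z y hy]
    ring
  have h2 : ∑ y, M (u - y) * (h y - ((R y).card : ℂ)⁻¹ * ∑ z ∈ R y, h z) =
      ∑ y, M (u - y) * h y - ∑ y, M (u - y) * (((R y).card : ℂ)⁻¹ * ∑ z ∈ R y, h z) := by
    rw [← Finset.sum_sub_distrib]
    refine Finset.sum_congr rfl fun y _ => ?_
    ring
  rw [h2, h0, ← Finset.sum_sub_distrib]
  refine Finset.sum_congr rfl fun z _ => ?_
  have hc : ((R z).card : ℂ) ≠ 0 := by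
    have := (C1_cardpos R hR1 z).ne'
    exact_mod_cast this
  rw [Finset.sum_sub_distrib, Finset.sum_const, nsmul_eq_mul]
  field_simp

/-- the theorem for a given Calderón–Zygmund decomposition. -/
theorem C1_core (R Dl : X → Finset X) (Om : Finset X) (M : X → ℂ) (A B D : ℝ)
    (hA0 : 0 ≤ A) (hB0 : 0 ≤ B) (hD0 : 0 ≤ D) (hR1 : ∀ x, x ∈ R x)
    (hR2 : ∀ x, ∀ y ∈ R x, R y = R x) (hOm : ∀ x ∈ Om, ∀ y ∈ R x, y ∈ Om)
    (hDl : ∀ x ∈ Om, ∀ y ∈ R x, Dl y = Dl x) (hoff : ∀ x, x ∉ Om → R x = {x})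
    (h : X → ℂ) (t : ℝ) (ht : 0 < t)
    (h4 : ∀ x, ∑ y ∈ R x, ‖h y‖ ≤ 2 * t * (R x).card)
    (h5 : ∀ x ∈ Om, t * (R x).card ≤ ∑ y ∈ R x, ‖h y‖)
    (hD : ∀ x ∈ Om, ((Dl x).card : ℝ) ≤ D * (R x).card)
    (hA : ∀ g : X → ℂ, ∑ x, ‖cv M g x‖ ^ 2 ≤ A * ∑ x, ‖g x‖ ^ 2)
    (hB : ∀ x ∈ Om, ∀ y ∈ R x,
      ∑ u ∈ (Dl x)ᶜ, ‖M (u - x) - M (u - y)‖ ≤ B * Fintype.card X) :
    t * ((Finset.univ.filter fun x => t < ‖cv M h x‖).card : ℝ) ≤
      (8 * A + 2 * B + D) * ∑ x, ‖h x‖ := by
  classical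
  set S : ℝ := ∑ x, ‖h x‖ with hS
  have hn0 : (0 : ℝ) < Fintype.card X := by
    have : 0 < Fintype.card X := Fintype.card_pos_iff.mpr ⟨0⟩
    exact_mod_cast this
  have hSOm : ∑ y ∈ Om, ‖h y‖ ≤ S :=
    Finset.sum_le_sum_of_subset_of_nonneg (Finset.subset_univ _) fun x _ _ => norm_nonneg _
  set g : X → ℂ := fun x => ((R x).card : ℂ)⁻¹ * ∑ y ∈ R x, h y with hg
  set b : X → ℂ := fun x => h x - g x with hb
  -- the good part
  have hg1 : ∀ x, ‖g x‖ ≤ ((R x).card : ℝ)⁻¹ * ∑ y ∈ R x, ‖h y‖ := C1_gnorm R hR1 h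
  have hg2 : ∀ x, ‖g x‖ ≤ 2 * t := by
    intro x
    have hc := C1_cardpos R hR1 x
    calc ‖g x‖ ≤ ((R x).card : ℝ)⁻¹ * ∑ y ∈ R x, ‖h y‖ := hg1 x
      _ ≤ ((R x).card : ℝ)⁻¹ * (2 * t * (R x).card) :=
          mul_le_mul_of_nonneg_left (h4 x) (inv_nonneg.mpr hc.le)
      _ = 2 * t := by field_simp
  have hg3 : ∑ x, ‖g x‖ ≤ S := by
    calc ∑ x, ‖g x‖ ≤ ∑ x, ((R x).card : ℝ)⁻¹ * ∑ y ∈ R x, ‖h y‖ :=
          Finset.sum_le_sum fun x _ => hg1 x
      _ = S := C1_avg R hR1 hR2 Finset.univ (fun x _ y _ => Finset.mem_univ y) _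
  have hg4 : ∑ x, ‖g x‖ ^ 2 ≤ 2 * t * S := by
    calc ∑ x, ‖g x‖ ^ 2 ≤ ∑ x, 2 * t * ‖g x‖ := by
          refine Finset.sum_le_sum fun x _ => ?_
          rw [pow_two]
          exact mul_le_mul_of_nonneg_right (hg2 x) (norm_nonneg _)
      _ = 2 * t * ∑ x, ‖g x‖ := by rw [Finset.mul_sum]
      _ ≤ 2 * t * S := mul_le_mul_of_nonneg_left hg3 (by linarith)
  set G : Finset X := Finset.univ.filter fun x => t / 2 < ‖cv M g x‖ with hG
  have hGc : t * (G.card : ℝ) ≤ 8 * A * S := by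
    have h1 : (t / 2) ^ 2 *
        ((Finset.univ.filter fun x => (t / 2) ^ 2 < ‖cv M g x‖ ^ 2).card : ℝ) ≤
        ∑ x, ‖cv M g x‖ ^ 2 := by
      have := C1_markov1 (fun x => ‖cv M g x‖ ^ 2) (fun x => by positivity) Finset.univ
        ((t / 2) ^ 2)
      simpa using this
    have h2 : G ⊆ Finset.univ.filter fun x => (t / 2) ^ 2 < ‖cv M g x‖ ^ 2 := by
      intro x hx
      rw [hG, Finset.mem_filter] at hx
      rw [Finset.mem_filter]
      refine ⟨Finset.mem_univ _, ?_⟩
      exact pow_lt_pow_left₀ hx.2 (by linarith) (by norm_num)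
    have h3 : (G.card : ℝ) ≤
        ((Finset.univ.filter fun x => (t / 2) ^ 2 < ‖cv M g x‖ ^ 2).card : ℝ) := by
      exact_mod_cast Finset.card_le_card h2
    have h4' : (t / 2) ^ 2 * (G.card : ℝ) ≤ A * (2 * t * S) := by
      calc (t / 2) ^ 2 * (G.card : ℝ) ≤ (t / 2) ^ 2 *
            ((Finset.univ.filter fun x => (t / 2) ^ 2 < ‖cv M g x‖ ^ 2).card : ℝ) :=
            mul_le_mul_of_nonneg_left h3 (by positivity)
        _ ≤ ∑ x, ‖cv M g x‖ ^ 2 := h1
        _ ≤ A * ∑ x, ‖g x‖ ^ 2 := hA g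
        _ ≤ A * (2 * t * S) := mul_le_mul_of_nonneg_left hg4 hA0
    have h6 : t * (t * (G.card : ℝ)) ≤ t * (8 * A * S) := by
      have e1 : t * (t * (G.card : ℝ)) = 4 * ((t / 2) ^ 2 * (G.card : ℝ)) := by ring
      have e2 : t * (8 * A * S) = 4 * (A * (2 * t * S)) := by ring
      rw [e1, e2]
      linarith
    exact le_of_mul_le_mul_left h6 ht
  -- the exceptional set
  set Os : Finset X := Om.biUnion Dl with hOs
  have hOmc : t * (Om.card : ℝ) ≤ S := by
    calc t * (Om.card : ℝ) = ∑ x ∈ Om, t := by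
          rw [Finset.sum_const, nsmul_eq_mul, mul_comm]
      _ ≤ ∑ x ∈ Om, ((R x).card : ℝ)⁻¹ * ∑ y ∈ R x, ‖h y‖ := by
          refine Finset.sum_le_sum fun x hx => ?_
          have hc := C1_cardpos R hR1 x
          calc t = ((R x).card : ℝ)⁻¹ * (t * (R x).card) := by field_simp
            _ ≤ ((R x).card : ℝ)⁻¹ * ∑ y ∈ R x, ‖h y‖ :=
                mul_le_mul_of_nonneg_left (h5 x hx) (inv_nonneg.mpr hc.le)
      _ = ∑ y ∈ Om, ‖h y‖ := C1_avg R hR1 hR2 Om hOm _
      _ ≤ S := hSOm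
  have hOsc : t * (Os.card : ℝ) ≤ D * S := by
    have h1 := C1_star R hR1 hR2 Om hOm Dl hDl D hD
    calc t * (Os.card : ℝ) ≤ t * (D * Om.card) := mul_le_mul_of_nonneg_left h1 ht.le
      _ = D * (t * Om.card) := by ring
      _ ≤ D * S := mul_le_mul_of_nonneg_left hOmc hD0
  -- the bad part
  have hbad : ∀ u, ‖cv M b u‖ ≤ (1 / (Fintype.card X : ℝ)) *
      ∑ z ∈ Om, ‖h z‖ * (((R z).card : ℝ)⁻¹ * ∑ y ∈ R z, ‖M (u - z) - M (u - y)‖) := by
    intro u
    have h1 : cv M b u = (1 / (Fintype.card X : ℂ)) *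
        ∑ z ∈ Om, h z * (((R z).card : ℂ)⁻¹ * ∑ y ∈ R z, (M (u - z) - M (u - y))) := by
      have h2 := C1_bad R hR1 hR2 M h u
      have h3 : ∑ z, h z * (((R z).card : ℂ)⁻¹ * ∑ y ∈ R z, (M (u - z) - M (u - y))) =
          ∑ z ∈ Om, h z * (((R z).card : ℂ)⁻¹ * ∑ y ∈ R z, (M (u - z) - M (u - y))) := by
        symm
        refine Finset.sum_subset (Finset.subset_univ _) fun z _ hz => ?_
        rw [hoff z hz, Finset.sum_singleton]
        simp
      have h4' : cv M b u = (1 / (Fintype.card X : ℂ)) *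
          ∑ y, M (u - y) * (h y - ((R y).card : ℂ)⁻¹ * ∑ z ∈ R y, h z) := rfl
      rw [h4', h2, h3]
    rw [h1, norm_mul, norm_div, norm_one, Complex.norm_natCast]
    refine mul_le_mul_of_nonneg_left ?_ (by positivity)
    refine (norm_sum_le _ _).trans (Finset.sum_le_sum fun z _ => ?_)
    rw [norm_mul, norm_mul, norm_inv, Complex.norm_natCast]
    refine mul_le_mul_of_nonneg_left ?_ (norm_nonneg _)
    exact mul_le_mul_of_nonneg_left (norm_sum_le _ _)
      (inv_nonneg.mpr (C1_cardpos R hR1 z).le)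
  have hbsum : ∑ u ∈ Osᶜ, ‖cv M b u‖ ≤ B * S := by
    have hz : ∀ z ∈ Om, ∑ u ∈ Osᶜ, ‖h z‖ * (((R z).card : ℝ)⁻¹ *
        ∑ y ∈ R z, ‖M (u - z) - M (u - y)‖) ≤ ‖h z‖ * (B * Fintype.card X) := by
      intro z hz
      have hc := C1_cardpos R hR1 z
      rw [← Finset.mul_sum, ← Finset.mul_sum, Finset.sum_comm]
      refine mul_le_mul_of_nonneg_left ?_ (norm_nonneg _)
      have h1 : ∑ y ∈ R z, ∑ u ∈ Osᶜ, ‖M (u - z) - M (u - y)‖ ≤
          ∑ y ∈ R z, B * Fintype.card X := by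
        refine Finset.sum_le_sum fun y hy => ?_
        refine le_trans ?_ (hB z hz y hy)
        refine Finset.sum_le_sum_of_subset_of_nonneg ?_ fun u _ _ => norm_nonneg _
        intro u hu
        rw [Finset.mem_compl] at hu ⊢
        intro hu2
        exact hu (Finset.mem_biUnion.mpr ⟨z, hz, hu2⟩)
      rw [Finset.sum_const, nsmul_eq_mul] at h1
      calc ((R z).card : ℝ)⁻¹ * ∑ y ∈ R z, ∑ u ∈ Osᶜ, ‖M (u - z) - M (u - y)‖ ≤
            ((R z).card : ℝ)⁻¹ * ((R z).card * (B * Fintype.card X)) :=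
            mul_le_mul_of_nonneg_left h1 (inv_nonneg.mpr hc.le)
        _ = B * Fintype.card X := by field_simp
    calc ∑ u ∈ Osᶜ, ‖cv M b u‖ ≤ ∑ u ∈ Osᶜ, (1 / (Fintype.card X : ℝ)) *
          ∑ z ∈ Om, ‖h z‖ * (((R z).card : ℝ)⁻¹ * ∑ y ∈ R z, ‖M (u - z) - M (u - y)‖) :=
          Finset.sum_le_sum fun u _ => hbad u
      _ = (1 / (Fintype.card X : ℝ)) * ∑ z ∈ Om, ∑ u ∈ Osᶜ,
          ‖h z‖ * (((R z).card : ℝ)⁻¹ * ∑ y ∈ R z, ‖M (u - z) - M (u - y)‖) := by
          rw [← Finset.mul_sum, Finset.sum_comm]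
      _ ≤ (1 / (Fintype.card X : ℝ)) * ∑ z ∈ Om, ‖h z‖ * (B * Fintype.card X) :=
          mul_le_mul_of_nonneg_left (Finset.sum_le_sum hz) (by positivity)
      _ = B * ∑ z ∈ Om, ‖h z‖ := by
          rw [← Finset.sum_mul]
          field_simp
      _ ≤ B * S := mul_le_mul_of_nonneg_left hSOm hB0
  set Bd : Finset X := Osᶜ.filter fun x => t / 2 < ‖cv M b x‖ with hBd
  have hBdc : t * (Bd.card : ℝ) ≤ 2 * B * S := by
    have h1 := C1_markov1 (fun x => ‖cv M b x‖) (fun x => norm_nonneg _) Osᶜ (t / 2)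
    have h2 : t / 2 * (Bd.card : ℝ) ≤ B * S := le_trans h1 hbsum
    linarith
  -- the union
  have hcv : ∀ x, cv M h x = cv M g x + cv M b x := by
    intro x
    unfold cv
    rw [← mul_add, ← Finset.sum_add_distrib]
    congr 1
    refine Finset.sum_congr rfl fun y _ => ?_
    rw [hb]
    ring
  have hsub : (Finset.univ.filter fun x => t < ‖cv M h x‖) ⊆ (G ∪ Os) ∪ Bd := by
    intro x hx
    rw [Finset.mem_filter] at hx
    have hx2 := hx.2
    rw [hcv x] at hx2
    have h1 : t < ‖cv M g x‖ + ‖cv M b x‖ := lt_of_lt_of_le hx2 (norm_add_le _ _)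
    by_cases hxG : t / 2 < ‖cv M g x‖
    · exact Finset.mem_union_left _ (Finset.mem_union_left _
        (Finset.mem_filter.mpr ⟨Finset.mem_univ _, hxG⟩))
    · by_cases hxO : x ∈ Os
      · exact Finset.mem_union_left _ (Finset.mem_union_right _ hxO)
      · refine Finset.mem_union_right _ (Finset.mem_filter.mpr
          ⟨Finset.mem_compl.mpr hxO, ?_⟩)
        push Not at hxG
        linarith
  have hcard : ((Finset.univ.filter fun x => t < ‖cv M h x‖).card : ℝ) ≤
      G.card + Os.card + Bd.card := by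
    have h1 := Finset.card_le_card hsub
    have h2 := Finset.card_union_le (G ∪ Os) Bd
    have h3 := Finset.card_union_le G Os
    have h4' : (Finset.univ.filter fun x => t < ‖cv M h x‖).card ≤ G.card + Os.card + Bd.card := by
      omega
    exact_mod_cast h4'
  calc t * ((Finset.univ.filter fun x => t < ‖cv M h x‖).card : ℝ) ≤
        t * (G.card + Os.card + Bd.card) := mul_le_mul_of_nonneg_left hcard ht.le
    _ = t * G.card + t * Os.card + t * Bd.card := by ring
    _ ≤ 8 * A * S + D * S + 2 * B * S := by linarith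
    _ = (8 * A + 2 * B + D) * S := by ring

end core

theorem item_C1 : S_C1 := by
  intro X _ _ _ L cl dl M A B D hA0 hB0 hD0 hmem heq h0 hL hnest hdbl hdil hA hB h t ht
  classical
  have hn0 : (0 : ℝ) < Fintype.card X := by
    have : 0 < Fintype.card X := Fintype.card_pos_iff.mpr ⟨0⟩
    exact_mod_cast this
  have hS0 : 0 ≤ ∑ x, ‖h x‖ := Finset.sum_nonneg fun x _ => norm_nonneg _
  by_cases hcase : t * (Fintype.card X : ℝ) ≤ ∑ x, ‖h x‖
  · have h1 : ((Finset.univ.filter fun x => t < ‖cv M h x‖).card : ℝ) ≤ Fintype.card X := by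
      exact_mod_cast Finset.card_le_univ _
    calc t * ((Finset.univ.filter fun x => t < ‖cv M h x‖).card : ℝ) ≤
          t * (Fintype.card X : ℝ) := mul_le_mul_of_nonneg_left h1 ht.le
      _ ≤ ∑ x, ‖h x‖ := hcase
      _ = 1 * ∑ x, ‖h x‖ := (one_mul _).symm
      _ ≤ (1 + 8 * A + 2 * B + D) * ∑ x, ‖h x‖ :=
          mul_le_mul_of_nonneg_right (by linarith) hS0
  · push Not at hcase
    -- nestedness
    have hnest2 : ∀ m, m ≤ L → ∀ k, k ≤ m → ∀ x, cl m x ⊆ cl k x := by
      intro m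
      induction m with
      | zero =>
        intro _ k hk x
        obtain rfl : k = 0 := Nat.le_zero.mp hk
        exact Finset.Subset.refl _
      | succ m ih =>
        intro hm k hk x
        rcases Nat.lt_or_ge m k with h1 | h1
        · obtain rfl : k = m + 1 := by omega
          exact Finset.Subset.refl _
        · exact (hnest m (by omega) x).trans (ih (by omega) k h1 x)
    let P : X → ℕ → Prop := fun x m => m ≤ L ∧ t * ((cl m x).card : ℝ) < ∑ y ∈ cl m x, ‖h y‖
    let mu : X → ℕ := fun x => if hx : ∃ m, P x m then Nat.find hx else L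
    have hmuL : ∀ x, mu x ≤ L := by
      intro x
      by_cases hx : ∃ m, P x m
      · have : mu x = Nat.find hx := dif_pos hx
        rw [this]
        exact (Nat.find_spec hx).1
      · have : mu x = L := dif_neg hx
        rw [this]
    have hmuP : ∀ x, (∃ m, P x m) → P x (mu x) := by
      intro x hx
      have : mu x = Nat.find hx := dif_pos hx
      rw [this]
      exact Nat.find_spec hx
    have hmumin : ∀ x, ∀ m < mu x, (∃ m, P x m) → ¬ P x m := by
      intro x m hm hx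
      have : mu x = Nat.find hx := dif_pos hx
      rw [this] at hm
      exact Nat.find_min hx hm
    have hmuoff : ∀ x, ¬ (∃ m, P x m) → mu x = L := fun x hx => dif_neg hx
    -- transfer along a cell
    have htrans : ∀ x y, y ∈ cl (mu x) x → ∀ m ≤ mu x, (P y m ↔ P x m) := by
      intro x y hy m hm
      have h1 : y ∈ cl m x := hnest2 (mu x) (hmuL x) m hm x hy
      have h2 := (heq m (le_trans hm (hmuL x)) x y h1).1
      change (m ≤ L ∧ t * ((cl m y).card : ℝ) < ∑ z ∈ cl m y, ‖h z‖) ↔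
        (m ≤ L ∧ t * ((cl m x).card : ℝ) < ∑ z ∈ cl m x, ‖h z‖)
      rw [h2]
    have hsel : ∀ x y, (∃ m, P x m) → y ∈ cl (mu x) x → (∃ m, P y m) ∧ mu y = mu x := by
      intro x y hx hy
      have h1 : P y (mu x) := (htrans x y hy (mu x) le_rfl).mpr (hmuP x hx)
      have hy2 : ∃ m, P y m := ⟨_, h1⟩
      refine ⟨hy2, ?_⟩
      apply le_antisymm
      · by_contra hlt
        push Not at hlt
        exact hmumin y (mu x) hlt hy2 h1
      · by_contra hlt
        push Not at hlt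
        exact hmumin x (mu y) hlt hx ((htrans x y hy (mu y) hlt.le).mp (hmuP y hy2))
    have hmueq : ∀ x, ∀ y ∈ cl (mu x) x, mu y = mu x := by
      intro x y hy
      by_cases hx : ∃ m, P x m
      · exact (hsel x y hx hy).2
      · rw [hmuoff x hx, hL x, Finset.mem_singleton] at hy
        rw [hy]
    have hOmmem : ∀ x, x ∈ Finset.univ.filter (fun x => ∃ m, P x m) ↔ ∃ m, P x m := by
      intro x
      simp only [Finset.mem_filter, Finset.mem_univ, true_and]
    have hcore := C1_core (fun x => cl (mu x) x) (fun x => dl (mu x) x)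
      (Finset.univ.filter fun x => ∃ m, P x m) M A B D hA0 hB0 hD0
      (fun x => hmem _ (hmuL x) x)
      (fun x y hy => by
        have h1 := hmueq x y hy
        change cl (mu y) y = cl (mu x) x
        rw [h1]
        exact (heq (mu x) (hmuL x) x y hy).1)
      (fun x hx y hy => (hOmmem y).mpr (hsel x y ((hOmmem x).mp hx) hy).1)
      (fun x _ y hy => by
        have h1 := hmueq x y hy
        change dl (mu y) y = dl (mu x) x
        rw [h1]
        exact (heq (mu x) (hmuL x) x y hy).2)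
      (fun x hx => by
        have h1 : ¬ ∃ m, P x m := fun h2 => hx ((hOmmem x).mpr h2)
        change cl (mu x) x = {x}
        rw [hmuoff x h1]
        exact hL x)
      h t ht
      (fun x => by
        change ∑ y ∈ cl (mu x) x, ‖h y‖ ≤ 2 * t * ((cl (mu x) x).card : ℝ)
        by_cases hx : ∃ m, P x m
        · have hpos : 0 < mu x := by
            rcases Nat.eq_zero_or_pos (mu x) with h1 | h1
            · exfalso
              have h2 := (hmuP x hx).2
              rw [h1, h0 x] at h2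
              have h3 : ((Finset.univ : Finset X).card : ℝ) = Fintype.card X := rfl
              rw [h3] at h2
              linarith
            · exact h1
          obtain ⟨m, hm⟩ : ∃ m, mu x = m + 1 := ⟨mu x - 1, by omega⟩
          have hmL : m < L := by have := hmuL x; omega
          have h1 : ¬ P x m := hmumin x m (by omega) hx
          have h2 : ∑ y ∈ cl m x, ‖h y‖ ≤ t * ((cl m x).card : ℝ) := by
            by_contra h3
            push Not at h3
            exact h1 ⟨hmL.le, h3⟩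
          have h3 : ∑ y ∈ cl (m + 1) x, ‖h y‖ ≤ ∑ y ∈ cl m x, ‖h y‖ :=
            Finset.sum_le_sum_of_subset_of_nonneg (hnest m hmL x) fun y _ _ => norm_nonneg _
          have h4 : ((cl m x).card : ℝ) ≤ 2 * ((cl (m + 1) x).card : ℝ) := by
            exact_mod_cast hdbl m hmL x
          rw [hm]
          calc ∑ y ∈ cl (m + 1) x, ‖h y‖ ≤ t * ((cl m x).card : ℝ) := h3.trans h2
            _ ≤ t * (2 * ((cl (m + 1) x).card : ℝ)) := mul_le_mul_of_nonneg_left h4 ht.le
            _ = 2 * t * ((cl (m + 1) x).card : ℝ) := by ring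
        · have h1 : ∑ y ∈ cl L x, ‖h y‖ ≤ t * ((cl L x).card : ℝ) := by
            by_contra h3
            push Not at h3
            exact hx ⟨L, le_rfl, h3⟩
          rw [hmuoff x hx]
          have h2 : (0 : ℝ) ≤ t * ((cl L x).card : ℝ) := by positivity
          linarith)
      (fun x hx => (hmuP x ((hOmmem x).mp hx)).2.le)
      (fun x _ => hdil (mu x) (hmuL x) x)
      hA
      (fun x _ y hy => hB (mu x) (hmuL x) x x (hmem _ (hmuL x) x) y hy)
    calc t * ((Finset.univ.filter fun x => t < ‖cv M h x‖).card : ℝ) ≤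
          (8 * A + 2 * B + D) * ∑ x, ‖h x‖ := hcore
      _ ≤ (1 + 8 * A + 2 * B + D) * ∑ x, ‖h x‖ :=
          mul_le_mul_of_nonneg_right (by linarith) hS0

end MP_c03b66_an

end

section

set_option autoImplicit false

/-! C2: from weak type (1,1) to an `L^{1/2}` bound. -/

namespace MP_c03b66_an

theorem C2_geom (J : ℕ) : ∑ i ∈ Finset.range J, (2 : ℝ) ^ i = 2 ^ J - 1 := by
  induction J with
  | zero => simp
  | succ J ih => rw [Finset.sum_range_succ, ih]; ring

theorem C2_geom2 (J : ℕ) : ∑ i ∈ Finset.range J, (2 : ℝ) ^ i * (1 / 4 ^ i) ≤ 2 := by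
  have h : ∑ i ∈ Finset.range J, (2 : ℝ) ^ i * (1 / 4 ^ i) = 2 - 2 * (1 / 2) ^ J := by
    induction J with
    | zero => simp
    | succ J ih =>
      rw [Finset.sum_range_succ, ih]
      have h4 : (2 : ℝ) ^ J * (1 / 4 ^ J) = (1 / 2) ^ J := by
        have : (4 : ℝ) ^ J = 2 ^ J * 2 ^ J := by
          rw [← mul_pow]; norm_num
        rw [this, one_div_pow]
        have h2 : (2 : ℝ) ^ J ≠ 0 := by positivity
        field_simp
      rw [h4]
      ring
  rw [h]
  have : (0 : ℝ) ≤ 2 * (1 / 2) ^ J := by positivity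
  linarith

open Classical in
/-- pointwise dyadic bound -/
theorem C2_pt {c a : ℝ} (hc : 0 ≤ c) (J : ℕ) (h : a ≤ c * 4 ^ J) :
    Real.sqrt a ≤
      Real.sqrt c * (1 + ∑ i ∈ Finset.range J, if c * 4 ^ i < a then (2 : ℝ) ^ i else 0) := by
  induction J with
  | zero =>
    simp only [pow_zero, mul_one, Finset.range_zero, Finset.sum_empty, add_zero] at h ⊢
    exact Real.sqrt_le_sqrt h
  | succ J ih =>
    rw [Finset.sum_range_succ]
    by_cases hJ : c * 4 ^ J < a
    · have h1 : ∀ i ∈ Finset.range J, (if c * 4 ^ i < a then (2 : ℝ) ^ i else 0) = 2 ^ i := by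
        intro i hi
        refine if_pos (lt_of_le_of_lt ?_ hJ)
        refine mul_le_mul_of_nonneg_left ?_ hc
        exact pow_le_pow_right₀ (by norm_num) (Finset.mem_range.1 hi).le
      rw [Finset.sum_congr rfl h1, C2_geom, if_pos hJ]
      have h2 : (1 : ℝ) + (2 ^ J - 1 + 2 ^ J) = 2 ^ (J + 1) := by ring
      rw [h2]
      have h3 : c * 4 ^ (J + 1) = c * (2 ^ (J + 1)) ^ 2 := by
        congr 1
        rw [← pow_mul, mul_comm, pow_mul]
        norm_num
      rw [h3] at h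
      calc Real.sqrt a ≤ Real.sqrt (c * (2 ^ (J + 1)) ^ 2) := Real.sqrt_le_sqrt h
        _ = Real.sqrt c * 2 ^ (J + 1) := by
            rw [Real.sqrt_mul hc, Real.sqrt_sq (by positivity)]
    · rw [if_neg hJ, add_zero]
      exact ih (not_lt.1 hJ)

theorem item_C2 : S_C2 := by
  classical
  intro X _ F c hF hc hw
  rcases hc.eq_or_lt with rfl | hc'
  · have h0 : ∀ x, F x = 0 := by
      intro x
      by_contra hx
      have hx' : 0 < F x := lt_of_le_of_ne (hF x) (Ne.symm hx)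
      have h1 := hw (F x / 2) (by linarith)
      rw [zero_mul] at h1
      have h2 : 0 < ((Finset.univ.filter fun y => F x / 2 < F y).card : ℝ) := by
        rw [Nat.cast_pos, Finset.card_pos]
        exact ⟨x, by simp only [Finset.mem_filter, Finset.mem_univ, true_and]; linarith⟩
      have h3 : 0 < F x / 2 * ((Finset.univ.filter fun y => F x / 2 < F y).card : ℝ) :=
        mul_pos (by linarith) h2
      linarith
    simp [h0]
  · -- choose `J`
    obtain ⟨J, hJ⟩ : ∃ J : ℕ, (∑ x, F x) / c < 4 ^ J :=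
      pow_unbounded_of_one_lt _ (by norm_num)
    have hle : ∀ x, F x ≤ c * 4 ^ J := by
      intro x
      have h1 : F x ≤ ∑ x, F x := Finset.single_le_sum (fun y _ => hF y) (Finset.mem_univ x)
      rw [div_lt_iff₀ hc'] at hJ
      linarith
    have hcard : ∀ i : ℕ, ((Finset.univ.filter fun x => c * 4 ^ i < F x).card : ℝ) ≤
        Fintype.card X * (1 / 4 ^ i) := by
      intro i
      have h4 : (0 : ℝ) < 4 ^ i := by positivity
      have h1 := hw (c * 4 ^ i) (mul_pos hc' h4)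
      rw [mul_assoc] at h1
      have h2 := le_of_mul_le_mul_left h1 hc'
      rw [mul_one_div, le_div_iff₀ h4]
      linarith
    have hs : 0 ≤ Real.sqrt c := Real.sqrt_nonneg c
    have hX : (0 : ℝ) ≤ Fintype.card X := Nat.cast_nonneg _
    calc ∑ x, Real.sqrt (F x)
        ≤ ∑ x, Real.sqrt c *
            (1 + ∑ i ∈ Finset.range J, if c * 4 ^ i < F x then (2 : ℝ) ^ i else 0) :=
          Finset.sum_le_sum fun x _ => C2_pt hc J (hle x)
      _ = Real.sqrt c * (Fintype.card X + ∑ i ∈ Finset.range J,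
            (2 : ℝ) ^ i * ((Finset.univ.filter fun x => c * 4 ^ i < F x).card : ℝ)) := by
          rw [← Finset.mul_sum, Finset.sum_add_distrib, Finset.sum_comm]
          congr 2
          · simp
          · refine Finset.sum_congr rfl fun i _ => ?_
            rw [← Finset.sum_filter, Finset.sum_const, nsmul_eq_mul, mul_comm]
      _ ≤ Real.sqrt c * (Fintype.card X + ∑ i ∈ Finset.range J,
            (2 : ℝ) ^ i * (Fintype.card X * (1 / 4 ^ i))) := by
          refine mul_le_mul_of_nonneg_left (add_le_add le_rfl ?_) hs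
          exact Finset.sum_le_sum fun i _ =>
            mul_le_mul_of_nonneg_left (hcard i) (by positivity)
      _ = Real.sqrt c * Fintype.card X *
            (1 + ∑ i ∈ Finset.range J, (2 : ℝ) ^ i * (1 / 4 ^ i)) := by
          have h9 : ∑ i ∈ Finset.range J, (2 : ℝ) ^ i * ((Fintype.card X : ℝ) * (1 / 4 ^ i)) =
              (Fintype.card X : ℝ) * ∑ i ∈ Finset.range J, (2 : ℝ) ^ i * (1 / 4 ^ i) := by
            rw [Finset.mul_sum]
            refine Finset.sum_congr rfl fun i _ => ?_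
            ring
          rw [h9]
          ring
      _ ≤ Real.sqrt c * Fintype.card X * (1 + 2) :=
          mul_le_mul_of_nonneg_left (add_le_add le_rfl (C2_geom2 J)) (mul_nonneg hs hX)
      _ ≤ 6 * Real.sqrt c * Fintype.card X := by
          have := mul_nonneg hs hX
          nlinarith

end MP_c03b66_an

end

section

/-! Item G1: chain of shapes. -/

namespace MP_c03b66_an

theorem G1_step {ι : Type} [Fintype ι] [DecidableEq ι] (J K : ℕ) (E : ℕ → ι → ℕ)
    (hE : ∀ j l, E j l ≤ E (j + 1) l) (hK : ∀ j < J, ∀ l, E j l ≤ K) (e : ι → ℕ)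
    (he : ∀ l, e l ≤ K) (hc : ∀ j < J, (∀ l, e l ≤ E j l) ∨ (∀ l, E j l ≤ e l))
    (hne : ∃ l, e l < K) :
    ∃ l, e l < K ∧ ∀ j < J, (∀ l', Function.update e l (e l + 1) l' ≤ E j l') ∨
      (∀ l', E j l' ≤ Function.update e l (e l + 1) l') := by
  classical
  have hmono : ∀ j j', j ≤ j' → ∀ l, E j l ≤ E j' l := by
    intro j j' hjj'
    induction hjj' with
    | refl => intro l; exact le_refl _
    | step _ ih => intro l; exact (ih l).trans (hE _ l)
  have hle : ∀ l l', e l' ≤ Function.update e l (e l + 1) l' := by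
    intro l l'
    by_cases h : l' = l
    · subst h; simp
    · simp [Function.update_of_ne h]
  by_cases hex : ∃ j, j < J ∧ ¬ (∀ l, E j l ≤ e l)
  · have hsp := Nat.find_spec hex
    have hmin : ∀ j, j < Nat.find hex → ¬ (j < J ∧ ¬ (∀ l, E j l ≤ e l)) :=
      fun j hj => Nat.find_min hex hj
    generalize Nat.find hex = j0 at hsp hmin
    obtain ⟨hj0, hnot⟩ := hsp
    have hle0 : ∀ l, e l ≤ E j0 l := by
      rcases hc j0 hj0 with h | h
      · exact h
      · exact absurd h hnot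
    push Not at hnot
    obtain ⟨l, hl⟩ := hnot
    refine ⟨l, lt_of_lt_of_le hl (hK j0 hj0 l), fun j hj => ?_⟩
    by_cases hjj : j < j0
    · right
      have h1 : ∀ l, E j l ≤ e l := by
        by_contra h2
        exact hmin j hjj ⟨hj, h2⟩
      intro l'
      exact (h1 l').trans (hle l l')
    · left
      intro l'
      have h2 := hmono j0 j (by omega) l'
      refine le_trans ?_ h2
      by_cases h : l' = l
      · subst h; simp; omega
      · rw [Function.update_of_ne h]; exact hle0 l'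
  · push Not at hex
    obtain ⟨l, hl⟩ := hne
    refine ⟨l, hl, fun j hj => Or.inr fun l' => ?_⟩
    exact (hex j hj l').trans (hle l l')

theorem G1_aux {ι : Type} [Fintype ι] [DecidableEq ι] (J K : ℕ) (E : ℕ → ι → ℕ)
    (hE : ∀ j l, E j l ≤ E (j + 1) l) (hK : ∀ j < J, ∀ l, E j l ≤ K) (r : ℕ) :
    ∀ e0 : ι → ℕ, (∀ l, e0 l ≤ K) →
    (∀ j < J, (∀ l, e0 l ≤ E j l) ∨ (∀ l, E j l ≤ e0 l)) → ∑ l, (K - e0 l) = r →
    ∃ (L : ℕ) (e : ℕ → ι → ℕ), e 0 = e0 ∧ (∀ l, e L l = K) ∧
    (∀ m < L, ∃ l, e (m + 1) = Function.update (e m) l (e m l + 1)) ∧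
    (∀ m ≤ L, ∀ l, e m l ≤ K) ∧
    (∀ m ≤ L, ∀ j < J, (∀ l, e m l ≤ E j l) ∨ (∀ l, E j l ≤ e m l)) := by
  induction r with
  | zero =>
    intro e0 he0 hc hs
    refine ⟨0, fun _ => e0, rfl, ?_, ?_, ?_, ?_⟩
    · intro l
      have h1 : ∀ l ∈ Finset.univ, K - e0 l = 0 :=
        (Finset.sum_eq_zero_iff_of_nonneg (fun l _ => Nat.zero_le _)).1 hs
      have h2 := h1 l (Finset.mem_univ l)
      have h3 := he0 l
      show e0 l = K
      omega
    · intro m hm; omega
    · intro m _; exact he0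
    · intro m _; exact hc
  | succ r ih =>
    intro e0 he0 hc hs
    have hne : ∃ l, e0 l < K := by
      by_contra h
      push Not at h
      have h1 : ∑ l, (K - e0 l) = 0 := Finset.sum_eq_zero fun l _ => by
        have := h l; omega
      omega
    obtain ⟨l, hl, hc'⟩ := G1_step J K E hE hK e0 he0 hc hne
    have hb : ∀ l', Function.update e0 l (e0 l + 1) l' ≤ K := by
      intro l'
      by_cases h : l' = l
      · subst h; simp; omega
      · rw [Function.update_of_ne h]; exact he0 l'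
    have hs' : ∑ l', (K - Function.update e0 l (e0 l + 1) l') = r := by
      rw [← Finset.add_sum_erase _ _ (Finset.mem_univ l)] at hs ⊢
      have h1 : ∑ x ∈ Finset.univ.erase l, (K - Function.update e0 l (e0 l + 1) x) =
          ∑ x ∈ Finset.univ.erase l, (K - e0 x) := by
        refine Finset.sum_congr rfl fun x hx => ?_
        rw [Function.update_of_ne (Finset.ne_of_mem_erase hx)]
      rw [h1, Function.update_self]
      omega
    obtain ⟨L, e, h0, hL, hst, hbd, hcm⟩ := ih _ hb hc' hs'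
    refine ⟨L + 1, fun m => Nat.casesOn m e0 e, rfl, hL, ?_, ?_, ?_⟩
    · intro m hm
      rcases m with _ | m
      · exact ⟨l, h0⟩
      · exact hst m (by omega)
    · intro m hm
      rcases m with _ | m
      · exact he0
      · exact hbd m (by omega)
    · intro m hm
      rcases m with _ | m
      · exact hc
      · exact hcm m (by omega)

theorem item_G1 : S_G1 := by
  intro ι _ _ J K E hE hK
  obtain ⟨L, e, h0, h1, h2, h3, h4⟩ := G1_aux J K E hE hK _ (fun _ => 0) (fun _ => Nat.zero_le _)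
    (fun j _ => Or.inl fun _ => Nat.zero_le _) rfl
  exact ⟨L, e, fun l => by rw [h0], h1, h2, h3, h4⟩

end MP_c03b66_an

end

section

/-! Item G2: properties of dyadic cells. -/

namespace MP_c03b66_an

theorem G2_gd_le {q : ℕ} [NeZero q] (n : ℤ) : gd ((n : ZMod q)) ≤ n.natAbs := by
  unfold gd
  refine ZMod.natAbs_min_of_le_div_two q _ n ?_ (ZMod.natAbs_valMinAbs_le _)
  rw [ZMod.coe_valMinAbs]

theorem G2_pow {K e : ℕ} (he : e ≤ K) : 2 ^ K = 2 ^ e * 2 ^ (K - e) := by
  rw [← pow_add]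
  congr 1
  omega

theorem G2_a_lt {K e : ℕ} (he : e ≤ K) (x : ZMod (2 ^ K)) :
    (x.val / 2 ^ (K - e) + 1) * 2 ^ (K - e) ≤ 2 ^ K := by
  have h1 : x.val < 2 ^ K := ZMod.val_lt x
  have h2 : x.val / 2 ^ (K - e) < 2 ^ e := by
    rw [Nat.div_lt_iff_lt_mul (by positivity), ← G2_pow he]
    exact h1
  exact (Nat.mul_le_mul_right _ h2).trans (G2_pow he).ge

theorem G2_card1 {K e : ℕ} (he : e ≤ K) (x : ZMod (2 ^ K)) :
    ((Finset.univ : Finset (ZMod (2 ^ K))).filter
      (fun y => y.val / 2 ^ (K - e) = x.val / 2 ^ (K - e))).card = 2 ^ (K - e) := by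
  set w := 2 ^ (K - e) with hw
  set a := x.val / w with ha
  have hw0 : 0 < w := by rw [hw]; positivity
  have haw : (a + 1) * w ≤ 2 ^ K := G2_a_lt he x
  conv_rhs => rw [← Finset.card_range w]
  symm
  refine Finset.card_nbij' (fun i => ((a * w + i : ℕ) : ZMod (2 ^ K))) (fun y => y.val % w)
    ?_ ?_ ?_ ?_
  · intro i hi
    simp only [Finset.coe_range, Set.mem_Iio] at hi
    have h1 : a * w + i < 2 ^ K := by
      have : a * w + w = (a + 1) * w := by ring
      omega
    simp only [Finset.coe_filter, Finset.mem_univ, true_and, Set.mem_ofPred_eq]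
    rw [ZMod.val_natCast_of_lt h1, mul_comm a w, Nat.mul_add_div hw0, Nat.div_eq_of_lt hi, add_zero]
  · intro y _
    simp only [Finset.coe_range, Set.mem_Iio]
    exact Nat.mod_lt _ hw0
  · intro i hi
    simp only [Finset.coe_range, Set.mem_Iio] at hi
    have h1 : a * w + i < 2 ^ K := by
      have : a * w + w = (a + 1) * w := by ring
      omega
    show ((a * w + i : ℕ) : ZMod (2 ^ K)).val % w = i
    rw [ZMod.val_natCast_of_lt h1, mul_comm a w, Nat.mul_add_mod]
    exact Nat.mod_eq_of_lt hi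
  · intro y hy
    simp only [Finset.coe_filter, Finset.mem_univ, true_and, Set.mem_ofPred_eq] at hy
    show ((a * w + y.val % w : ℕ) : ZMod (2 ^ K)) = y
    rw [← hy, mul_comm, Nat.div_add_mod]
    exact ZMod.natCast_zmod_val y

theorem G2_gd1 {K e : ℕ} {y z : ZMod (2 ^ K)}
    (h : y.val / 2 ^ (K - e) = z.val / 2 ^ (K - e)) : gd (y - z) < 2 ^ (K - e) := by
  set w := 2 ^ (K - e) with hw
  have hw0 : 0 < w := by rw [hw]; positivity
  have h1 : y - z = (((y.val : ℤ) - (z.val : ℤ) : ℤ) : ZMod (2 ^ K)) := by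
    push_cast
    rw [ZMod.natCast_zmod_val, ZMod.natCast_zmod_val]
  rw [h1]
  refine lt_of_le_of_lt (G2_gd_le _) ?_
  have h2 := Nat.div_add_mod y.val w
  have h3 := Nat.div_add_mod z.val w
  have h4 := Nat.mod_lt y.val hw0
  have h5 := Nat.mod_lt z.val hw0
  rw [h] at h2
  omega

theorem G2_card2 {K e : ℕ} (a : ℕ) :
    ((Finset.univ : Finset (ZMod (2 ^ K))).filter
      (fun u => ∃ v : ZMod (2 ^ K), v.val / 2 ^ (K - e) = a ∧ gd (u - v) < 2 ^ (K - e))).card ≤
      3 * 2 ^ (K - e) := by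
  classical
  set w := 2 ^ (K - e) with hw
  have hw0 : 0 < w := by rw [hw]; positivity
  have hsub : ((Finset.univ : Finset (ZMod (2 ^ K))).filter
      (fun u => ∃ v : ZMod (2 ^ K), v.val / w = a ∧ gd (u - v) < w)) ⊆
      (Finset.Ico ((a * w : ℕ) - (w : ℤ)) ((a * w : ℕ) + 2 * (w : ℤ))).image
        (fun n : ℤ => (n : ZMod (2 ^ K))) := by
    intro u hu
    simp only [Finset.mem_filter, Finset.mem_univ, true_and] at hu
    obtain ⟨v, hv, hg⟩ := hu
    rw [Finset.mem_image]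
    refine ⟨(v.val : ℤ) + (u - v).valMinAbs, ?_, ?_⟩
    · rw [Finset.mem_Ico]
      have h2 := Nat.div_add_mod v.val w
      have h4 := Nat.mod_lt v.val hw0
      rw [hv, mul_comm] at h2
      unfold gd at hg
      omega
    · push_cast
      rw [ZMod.natCast_zmod_val]
      ring
  refine (Finset.card_le_card hsub).trans (Finset.card_image_le.trans ?_)
  rw [Int.card_Ico]
  omega

theorem item_G2 : S_G2 := by
  classical
  intro ι _ _ K e he
  have hcell : ∀ x : ι → ZMod (2 ^ K), cell K e x = Fintype.piFinset (fun l =>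
      (Finset.univ : Finset (ZMod (2 ^ K))).filter
        (fun y => y.val / 2 ^ (K - e l) = (x l).val / 2 ^ (K - e l))) := by
    intro x
    ext y
    simp [cell, Fintype.mem_piFinset]
  have hdil : ∀ x : ι → ZMod (2 ^ K), dil K e x = Fintype.piFinset (fun l =>
      (Finset.univ : Finset (ZMod (2 ^ K))).filter
        (fun u => ∃ v : ZMod (2 ^ K), v.val / 2 ^ (K - e l) = (x l).val / 2 ^ (K - e l) ∧
          gd (u - v) < 2 ^ (K - e l))) := by
    intro x
    ext y
    simp [dil, Fintype.mem_piFinset]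
  have hmem : ∀ x y : ι → ZMod (2 ^ K), y ∈ cell K e x ↔
      ∀ l, (y l).val / 2 ^ (K - e l) = (x l).val / 2 ^ (K - e l) := by
    intro x y
    simp [cell]
  have hcard : ∀ x : ι → ZMod (2 ^ K), (cell K e x).card = ∏ l, 2 ^ (K - e l) := by
    intro x
    rw [hcell, Fintype.card_piFinset]
    exact Finset.prod_congr rfl (fun l _ => G2_card1 (he l) (x l))
  refine ⟨?_, ?_, hcard, ?_, ?_, ?_, ?_, ?_, ?_⟩
  · intro x
    rw [hmem]
    intro l; rfl
  · intro x y hy
    rw [hmem] at hy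
    constructor
    · rw [hcell, hcell]
      simp only [hy]
    · rw [hdil, hdil]
      simp only [hy]
  · intro x
    rw [hcard, hdil, Fintype.card_piFinset]
    calc ∏ l, _ ≤ ∏ l, 3 * 2 ^ (K - e l) :=
          Finset.prod_le_prod' (fun l _ => G2_card2 _)
      _ = 3 ^ Fintype.card ι * ∏ l, 2 ^ (K - e l) := by
          rw [Finset.prod_mul_distrib, Finset.prod_const, Finset.card_univ]
  · intro x y hy z hz l
    rw [hmem] at hy hz
    exact G2_gd1 ((hy l).trans (hz l).symm)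
  · intro x u hu
    simp only [dil, Finset.mem_filter, Finset.mem_univ, true_and] at hu
    push Not at hu
    obtain ⟨l, hl⟩ := hu
    refine ⟨l, fun y hy => ?_⟩
    rw [hmem] at hy
    exact hl (y l) (hy l)
  · intro x h0
    ext y
    rw [hmem]
    simp only [Finset.mem_univ, iff_true]
    intro l
    rw [h0 l, Nat.sub_zero, Nat.div_eq_of_lt (ZMod.val_lt _), Nat.div_eq_of_lt (ZMod.val_lt _)]
  · intro x h0
    ext y
    rw [hmem, Finset.mem_singleton]
    constructor
    · intro h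
      funext l
      have := h l
      rw [h0 l, Nat.sub_self, pow_zero, Nat.div_one, Nat.div_one] at this
      exact ZMod.val_injective _ this
    · rintro rfl l; rfl
  · intro x l hl y hy
    rw [hmem]
    simp only [cell, Finset.mem_filter, Finset.mem_univ, true_and] at hy
    intro i
    have h1 := hy i
    by_cases hi : i = l
    · subst hi
      rw [Function.update_self] at h1
      have h2 : 2 ^ (K - e i) = 2 ^ (K - (e i + 1)) * 2 := by
        rw [← pow_succ]
        congr 1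
        omega
      rw [h2, ← Nat.div_div_eq_div_mul, ← Nat.div_div_eq_div_mul, h1]
    · rw [Function.update_of_ne hi] at h1
      exact h1

end MP_c03b66_an

end

section

/-!
Item K1: Parseval on `ZMod q` and the `L¹` norm of the modulated Fejér kernel.
-/

open MeasureTheory UnitAddTorus

namespace MP_c03b66_an

noncomputable section

theorem K1_orth (q : ℕ) [NeZero q] (N : ℕ) (hN : N ≤ q) (a b : ℕ) (ha : a < N) (hb : b < N) :
    ∑ x : ZMod q, ZMod.stdAddChar ((a : ZMod q) * x) *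
      (starRingEnd ℂ) (ZMod.stdAddChar ((b : ZMod q) * x)) = if a = b then (q : ℂ) else 0 := by
  have h1 : ∀ x : ZMod q, ZMod.stdAddChar ((a : ZMod q) * x) *
      (starRingEnd ℂ) (ZMod.stdAddChar ((b : ZMod q) * x)) =
      ZMod.stdAddChar (x * ((a : ZMod q) - (b : ZMod q))) := by
    intro x
    rw [← AddChar.map_neg_eq_conj, ← AddChar.map_add_eq_mul]
    congr 1
    ring
  simp only [h1]
  rw [AddChar.sum_mulShift _ (ZMod.isPrimitive_stdAddChar q)]
  have h2 : (a : ZMod q) - (b : ZMod q) = 0 ↔ a = b := by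
    rw [sub_eq_zero, ZMod.natCast_eq_natCast_iff']
    rw [Nat.mod_eq_of_lt (lt_of_lt_of_le ha hN), Nat.mod_eq_of_lt (lt_of_lt_of_le hb hN)]
  simp only [h2, ZMod.card]
  split_ifs <;> simp

/-- Parseval. -/
theorem K1_parseval (q : ℕ) [NeZero q] (N : ℕ) (hN : N ≤ q) (c : ℕ → ℂ) :
    ∑ x : ZMod q, ‖∑ a ∈ Finset.range N, c a * ZMod.stdAddChar ((a : ZMod q) * x)‖ ^ 2 =
      q * ∑ a ∈ Finset.range N, ‖c a‖ ^ 2 := by
  have key : ((∑ x : ZMod q,
      ‖∑ a ∈ Finset.range N, c a * ZMod.stdAddChar ((a : ZMod q) * x)‖ ^ 2 : ℝ) : ℂ) =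
      ((q * ∑ a ∈ Finset.range N, ‖c a‖ ^ 2 : ℝ) : ℂ) := by
    push_cast
    have h1 : ∀ x : ZMod q,
        ((‖∑ a ∈ Finset.range N, c a * ZMod.stdAddChar ((a : ZMod q) * x)‖ : ℂ)) ^ 2 =
        ∑ a ∈ Finset.range N, ∑ b ∈ Finset.range N, (c a * (starRingEnd ℂ) (c b)) *
          (ZMod.stdAddChar ((a : ZMod q) * x) *
            (starRingEnd ℂ) (ZMod.stdAddChar ((b : ZMod q) * x))) := by
      intro x
      rw [← Complex.mul_conj', map_sum, Finset.sum_mul_sum]
      refine Finset.sum_congr rfl fun a _ => Finset.sum_congr rfl fun b _ => ?_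
      rw [map_mul (starRingEnd ℂ)]
      ring
    simp only [h1]
    rw [Finset.sum_comm]
    have h2 : ∀ a ∈ Finset.range N, (∑ x : ZMod q, ∑ b ∈ Finset.range N,
        (c a * (starRingEnd ℂ) (c b)) * (ZMod.stdAddChar ((a : ZMod q) * x) *
            (starRingEnd ℂ) (ZMod.stdAddChar ((b : ZMod q) * x)))) =
        (q : ℂ) * (‖c a‖ : ℂ) ^ 2 := by
      intro a ha
      rw [Finset.sum_comm]
      simp only [← Finset.mul_sum]
      have h3 : ∀ b ∈ Finset.range N, (c a * (starRingEnd ℂ) (c b)) *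
          ∑ x : ZMod q, ZMod.stdAddChar ((a : ZMod q) * x) *
            (starRingEnd ℂ) (ZMod.stdAddChar ((b : ZMod q) * x)) =
          if a = b then (q : ℂ) * (‖c a‖ : ℂ) ^ 2 else 0 := by
        intro b hb
        rw [K1_orth q N hN a b (Finset.mem_range.1 ha) (Finset.mem_range.1 hb)]
        split_ifs with hab
        · subst hab
          rw [Complex.mul_conj']
          ring
        · rw [mul_zero]
      rw [Finset.sum_congr rfl h3, Finset.sum_ite_eq, if_pos ha]
    rw [Finset.sum_congr rfl h2, Finset.mul_sum]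
  exact_mod_cast key

theorem item_K1 : S_K1 := by
  intro q _ s N hN1 hN
  have h := K1_parseval q N hN (fun _ => 1)
  simp only [one_mul, norm_one, one_pow, Finset.sum_const, Finset.card_range, nsmul_eq_mul,
    mul_one] at h
  have hN0 : (N : ℝ) ≠ 0 := by
    have : (1 : ℝ) ≤ N := by exact_mod_cast hN1
    linarith
  have h2 : ∀ x : ZMod q, ‖Mk s N x‖ = ‖Dk N x‖ ^ 2 / N := by
    intro x
    rw [Mk, norm_mul, AddChar.norm_apply, one_mul, Complex.norm_real, Real.norm_of_nonneg]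
    positivity
  simp only [h2]
  rw [← Finset.sum_div, div_eq_iff hN0]
  exact h

end

end MP_c03b66_an

end

section

/-!
K2: tail of the Fejer kernel on `ZMod q`
-/

set_option autoImplicit false

namespace MP_c03b66_an

open Finset

theorem K2_norm_char {q : ℕ} [NeZero q] (x : ZMod q) : ‖ZMod.stdAddChar x‖ = 1 := by
  rw [ZMod.stdAddChar_apply]
  exact Circle.norm_coe _

theorem K2_eq {q : ℕ} [NeZero q] (x : ZMod q) : ZMod.stdAddChar x =
    Complex.exp (Complex.I * ((2 * Real.pi * x.valMinAbs / q : ℝ) : ℂ)) := by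
  conv_lhs => rw [← ZMod.coe_valMinAbs x]
  rw [ZMod.stdAddChar_coe]
  congr 1
  push_cast
  ring

theorem K2_sub {q : ℕ} [NeZero q] (x : ZMod q) : 4 * (gd x : ℝ) / q ≤ ‖ZMod.stdAddChar x - 1‖ := by
  have hq : (0 : ℝ) < q := by exact_mod_cast Nat.pos_of_ne_zero (NeZero.ne q)
  rw [K2_eq, Complex.norm_exp_I_mul_ofReal_sub_one, norm_mul, Real.norm_eq_abs, Real.norm_eq_abs,
    abs_of_pos (two_pos)]
  have h1 : (2 * Real.pi * x.valMinAbs / q : ℝ) / 2 = Real.pi * x.valMinAbs / q := by ring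
  rw [h1]
  have hg : |(x.valMinAbs : ℝ)| = gd x := by
    unfold gd
    rw [← Int.cast_abs, Int.abs_eq_natAbs]
    simp
  have h2 : |Real.pi * x.valMinAbs / q| = Real.pi * gd x / q := by
    rw [abs_div, abs_mul, hg, abs_of_pos Real.pi_pos, abs_of_pos hq]
  have hle : (gd x : ℝ) ≤ q / 2 := by
    have h3 : gd x ≤ q / 2 := ZMod.natAbs_valMinAbs_le x
    have h4 : 2 * gd x ≤ q := by omega
    have h5 : (2 : ℝ) * gd x ≤ q := by exact_mod_cast h4
    linarith
  have h3 := Real.mul_abs_le_abs_sin (x := Real.pi * x.valMinAbs / q) (by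
    rw [h2, div_le_div_iff₀ hq two_pos]
    nlinarith [Real.pi_pos])
  rw [h2] at h3
  have h4 : 2 / Real.pi * (Real.pi * gd x / q) = 2 * gd x / q := by
    field_simp
  rw [h4] at h3
  have h5 : 4 * (gd x : ℝ) / q = 2 * (2 * gd x / q) := by ring
  rw [h5]
  linarith

theorem K2_Dk {q : ℕ} [NeZero q] (N : ℕ) (x : ZMod q) (hx : 1 ≤ gd x) :
    ‖Dk N x‖ ≤ q / (2 * gd x) := by
  have hq : (0 : ℝ) < q := by exact_mod_cast Nat.pos_of_ne_zero (NeZero.ne q)
  have hg : (0 : ℝ) < gd x := by exact_mod_cast hx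
  have h1 : ∀ a : ℕ, ZMod.stdAddChar ((a : ZMod q) * x) = ZMod.stdAddChar x ^ a := by
    intro a
    rw [← nsmul_eq_mul, AddChar.map_nsmul_eq_pow]
  have h2 : Dk N x * (ZMod.stdAddChar x - 1) = ZMod.stdAddChar x ^ N - 1 := by
    unfold Dk
    rw [Finset.sum_congr rfl fun a _ => h1 a, geom_sum_mul]
  have h3 : ‖ZMod.stdAddChar x ^ N - 1‖ ≤ 2 := by
    refine (norm_sub_le _ _).trans ?_
    rw [norm_pow, K2_norm_char, one_pow, norm_one]
    norm_num
  have h4 := K2_sub x
  rw [← h2, norm_mul] at h3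
  have h5 : ‖Dk N x‖ * (4 * (gd x : ℝ) / q) ≤ 2 :=
    (mul_le_mul_of_nonneg_left h4 (norm_nonneg _)).trans h3
  rw [le_div_iff₀ (by positivity)]
  have h6 : ‖Dk N x‖ * (4 * (gd x : ℝ) / q) = ‖Dk N x‖ * (4 * gd x) / q := by ring
  rw [h6, div_le_iff₀ hq] at h5
  linarith

theorem K2_Mk {q : ℕ} [NeZero q] (s N : ℕ) (hN : 1 ≤ N) (x : ZMod q) (hx : 1 ≤ gd x) :
    ‖Mk s N x‖ ≤ (q : ℝ) ^ 2 / (4 * N) * ((gd x : ℝ) ^ 2)⁻¹ := by
  have hN' : (0 : ℝ) < N := by exact_mod_cast hN
  have hg : (0 : ℝ) < gd x := by exact_mod_cast hx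
  unfold Mk
  rw [norm_mul, K2_norm_char, one_mul, Complex.norm_real, Real.norm_of_nonneg (by positivity)]
  have h1 := K2_Dk N x hx
  have h2 : ‖Dk N x‖ ^ 2 ≤ (q / (2 * gd x) : ℝ) ^ 2 := pow_le_pow_left₀ (norm_nonneg _) h1 2
  calc ‖Dk N x‖ ^ 2 / N ≤ (q / (2 * gd x) : ℝ) ^ 2 / N := by gcongr
    _ = _ := by
      field_simp
      ring

theorem K2_card {q : ℕ} [NeZero q] (a : ℕ) :
    (univ.filter fun x : ZMod q => gd x = a).card ≤ 2 := by
  classical
  refine (Finset.card_le_card (t := {((a : ℤ) : ZMod q), ((-(a : ℤ) : ℤ) : ZMod q)}) ?_).trans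
    Finset.card_le_two
  intro x hx
  simp only [mem_filter, mem_univ, true_and, gd] at hx
  simp only [mem_insert, mem_singleton]
  rcases Int.natAbs_eq x.valMinAbs with h | h
  · left
    rw [hx] at h
    rw [← h, ZMod.coe_valMinAbs]
  · right
    rw [hx] at h
    rw [← h, ZMod.coe_valMinAbs]

theorem item_K2 : S_K2 := by
  intro q _ s N w hN hw
  have hN' : (0 : ℝ) < N := by exact_mod_cast hN
  have hw' : (0 : ℝ) < w := by exact_mod_cast hw
  have h1 : ∑ x : ZMod q with w ≤ gd x, ‖Mk s N x‖ ≤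
      ∑ x : ZMod q with w ≤ gd x, (q : ℝ) ^ 2 / (4 * N) * ((gd x : ℝ) ^ 2)⁻¹ := by
    refine Finset.sum_le_sum fun x hx => ?_
    simp only [mem_filter, mem_univ, true_and] at hx
    exact K2_Mk s N hN x (hw.trans hx)
  refine h1.trans ?_
  rw [← Finset.mul_sum]
  have hmap : ∀ x ∈ univ.filter (fun x : ZMod q => w ≤ gd x), gd x ∈ Ioo (w - 1) (q + 1) := by
    intro x hx
    simp only [mem_filter, mem_univ, true_and] at hx
    have h3 : gd x ≤ q / 2 := ZMod.natAbs_valMinAbs_le x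
    rw [Finset.mem_Ioo]
    omega
  have h2 : ∑ x : ZMod q with w ≤ gd x, ((gd x : ℝ) ^ 2)⁻¹ ≤
      ∑ a ∈ Ioo (w - 1) (q + 1), 2 * ((a : ℝ) ^ 2)⁻¹ := by
    rw [← Finset.sum_fiberwise_of_maps_to hmap]
    refine Finset.sum_le_sum fun a _ => ?_
    have h3 : ∑ x ∈ (univ.filter (fun x : ZMod q => w ≤ gd x)).filter (fun x => gd x = a),
        ((gd x : ℝ) ^ 2)⁻¹ = ∑ x ∈ (univ.filter (fun x : ZMod q => w ≤ gd x)).filter
          (fun x => gd x = a), ((a : ℝ) ^ 2)⁻¹ := by
      refine Finset.sum_congr rfl fun x hx => ?_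
      rw [(Finset.mem_filter.1 hx).2]
    rw [h3, Finset.sum_const, nsmul_eq_mul]
    apply mul_le_mul_of_nonneg_right _ (by positivity)
    have h4 : ((univ.filter (fun x : ZMod q => w ≤ gd x)).filter (fun x => gd x = a)).card ≤ 2 := by
      refine (Finset.card_le_card ?_).trans (K2_card (q := q) a)
      intro x hx
      simp only [mem_filter, mem_univ, true_and] at hx ⊢
      exact hx.2
    exact_mod_cast h4
  have h3 := sum_Ioo_inv_sq_le (α := ℝ) (w - 1) (q + 1)
  have h4 : (2 : ℝ) / (((w - 1 : ℕ) : ℝ) + 1) = 2 / w := by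
    have : ((w - 1 : ℕ) : ℝ) + 1 = w := by
      have h5 : w - 1 + 1 = w := by omega
      exact_mod_cast h5
    rw [this]
  rw [h4] at h3
  rw [← Finset.mul_sum] at h2
  calc (q : ℝ) ^ 2 / (4 * N) * ∑ x : ZMod q with w ≤ gd x, ((gd x : ℝ) ^ 2)⁻¹
      ≤ (q : ℝ) ^ 2 / (4 * N) * (2 * (2 / w)) := by
        apply mul_le_mul_of_nonneg_left _ (by positivity)
        linarith
    _ = (q : ℝ) ^ 2 / (N * w) := by
        field_simp
        ring

end MP_c03b66_an

end

section

/-! Item K3: smoothness of the modulated Fejer kernel (helper50). -/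

set_option autoImplicit false

namespace MP_c03b66_an

open Finset

noncomputable section

theorem K3_orth {q : ℕ} [NeZero q] {N : ℕ} (hN : N ≤ q) (a b : ℕ) (ha : a < N) (hb : b < N) :
    ∑ x : ZMod q, (ZMod.stdAddChar ((a : ZMod q) * x) : ℂ) *
      (starRingEnd ℂ) (ZMod.stdAddChar ((b : ZMod q) * x)) = if a = b then (q : ℂ) else 0 := by
  have h1 : ∀ x : ZMod q, (ZMod.stdAddChar ((a : ZMod q) * x) : ℂ) *
      (starRingEnd ℂ) (ZMod.stdAddChar ((b : ZMod q) * x)) =
      ZMod.stdAddChar (x * ((a : ZMod q) - (b : ZMod q))) := by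
    intro x
    rw [← AddChar.map_neg_eq_conj, ← AddChar.map_add_eq_mul]
    congr 1
    ring
  rw [Finset.sum_congr rfl fun x _ => h1 x,
    AddChar.sum_mulShift _ (ZMod.isPrimitive_stdAddChar q), ZMod.card]
  by_cases hab : a = b
  · subst hab
    simp
  · rw [if_neg, if_neg hab]
    · simp
    · intro h0
      rw [sub_eq_zero] at h0
      apply hab
      have h2 := congrArg ZMod.val h0
      rwa [ZMod.val_natCast_of_lt (ha.trans_le hN), ZMod.val_natCast_of_lt (hb.trans_le hN)] at h2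

theorem K3_parseval {q : ℕ} [NeZero q] {N : ℕ} (hN : N ≤ q) (c : ℕ → ℂ) :
    ∑ x : ZMod q, ‖∑ a ∈ range N, c a * ZMod.stdAddChar ((a : ZMod q) * x)‖ ^ 2 =
      q * ∑ a ∈ range N, ‖c a‖ ^ 2 := by
  have h1 : ((∑ x : ZMod q, ‖∑ a ∈ range N, c a * ZMod.stdAddChar ((a : ZMod q) * x)‖ ^ 2 : ℝ) :
      ℂ) = ((q * ∑ a ∈ range N, ‖c a‖ ^ 2 : ℝ) : ℂ) := by
    push_cast
    have h2 : ∀ x : ZMod q,
        ((‖∑ a ∈ range N, c a * ZMod.stdAddChar ((a : ZMod q) * x)‖ : ℝ) : ℂ) ^ 2 =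
        ∑ a ∈ range N, ∑ b ∈ range N, (c a * (starRingEnd ℂ) (c b)) *
          (ZMod.stdAddChar ((a : ZMod q) * x) *
            (starRingEnd ℂ) (ZMod.stdAddChar ((b : ZMod q) * x))) := by
      intro x
      rw [← Complex.mul_conj', map_sum, Finset.sum_mul_sum]
      refine Finset.sum_congr rfl fun a _ => Finset.sum_congr rfl fun b _ => ?_
      rw [map_mul (starRingEnd ℂ)]
      ring
    rw [Finset.sum_congr rfl fun x _ => h2 x, Finset.sum_comm, Finset.mul_sum]
    refine Finset.sum_congr rfl fun a ha => ?_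
    rw [Finset.sum_comm]
    have h3 : ∀ b ∈ range N, ∑ x : ZMod q, (c a * (starRingEnd ℂ) (c b)) *
          (ZMod.stdAddChar ((a : ZMod q) * x) *
            (starRingEnd ℂ) (ZMod.stdAddChar ((b : ZMod q) * x))) =
        (c a * (starRingEnd ℂ) (c b)) * (if a = b then (q : ℂ) else 0) := by
      intro b hb
      rw [← Finset.mul_sum, K3_orth hN a b (mem_range.1 ha) (mem_range.1 hb)]
    rw [Finset.sum_congr rfl h3]
    simp only [mul_ite, mul_zero, Finset.sum_ite_eq, ha, if_true]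
    rw [← Complex.mul_conj']
    ring
  exact_mod_cast h1

theorem K3_char {q : ℕ} [NeZero q] (a : ℕ) (u : ZMod q) :
    ‖(ZMod.stdAddChar ((a : ZMod q) * u) : ℂ) - 1‖ ≤ 2 * Real.pi * a * gd u / q := by
  have h1 : ((a : ZMod q) * u) = (((a : ℤ) * u.valMinAbs : ℤ) : ZMod q) := by
    rw [Int.cast_mul, ZMod.coe_valMinAbs, Int.cast_natCast]
  rw [h1, ZMod.stdAddChar_coe]
  have h2 : (2 * (Real.pi : ℂ) * Complex.I * (((a : ℤ) * u.valMinAbs : ℤ) : ℂ) / (q : ℂ)) =
      Complex.I * ((2 * Real.pi * a * u.valMinAbs / q : ℝ) : ℂ) := by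
    push_cast
    ring
  rw [h2]
  refine Real.norm_exp_I_mul_ofReal_sub_one_le.trans (le_of_eq ?_)
  rw [Real.norm_eq_abs, abs_div, abs_mul, abs_mul, abs_mul, abs_two,
    abs_of_pos Real.pi_pos, Nat.abs_cast, Nat.abs_cast]
  congr 2
  unfold gd
  rw [Nat.cast_natAbs, Int.cast_abs]

theorem K3_gd_neg {q : ℕ} (u : ZMod q) : gd (-u) = gd u := by
  unfold gd
  exact ZMod.natAbs_valMinAbs_neg u

theorem K3_sumD {q : ℕ} [NeZero q] {N : ℕ} (hN : N ≤ q) :
    ∑ x : ZMod q, ‖Dk N x‖ ^ 2 = q * N := by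
  have h := K3_parseval hN (fun _ => 1)
  simp only [one_mul, norm_one, one_pow, Finset.sum_const, Finset.card_range, nsmul_eq_mul,
    mul_one] at h
  exact h

theorem K3_diffD {q : ℕ} [NeZero q] {N : ℕ} (hN : N ≤ q) (u : ZMod q) :
    ∑ x : ZMod q, ‖Dk N (x - u) - Dk N x‖ ^ 2 ≤
      q * (N * (2 * Real.pi * N * gd u / q) ^ 2) := by
  have h1 : ∀ x : ZMod q, Dk N (x - u) - Dk N x =
      ∑ a ∈ range N, ((ZMod.stdAddChar ((a : ZMod q) * (-u)) : ℂ) - 1) *
        ZMod.stdAddChar ((a : ZMod q) * x) := by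
    intro x
    unfold Dk
    rw [← Finset.sum_sub_distrib]
    refine Finset.sum_congr rfl fun a _ => ?_
    rw [sub_mul, one_mul, ← AddChar.map_add_eq_mul]
    congr 2
    ring
  rw [Finset.sum_congr rfl fun x _ => by rw [h1 x], K3_parseval hN]
  refine mul_le_mul_of_nonneg_left ?_ (Nat.cast_nonneg _)
  have h2 : ∀ a ∈ range N, ‖(ZMod.stdAddChar ((a : ZMod q) * (-u)) : ℂ) - 1‖ ^ 2 ≤
      (2 * Real.pi * N * gd u / q) ^ 2 := by
    intro a ha
    have h3 := K3_char a (-u)
    rw [K3_gd_neg] at h3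
    refine pow_le_pow_left₀ (norm_nonneg _) (h3.trans ?_) 2
    have h4 : (a : ℝ) ≤ N := by exact_mod_cast (mem_range.1 ha).le
    have := Real.pi_pos
    gcongr
  refine (Finset.sum_le_sum h2).trans (le_of_eq ?_)
  rw [Finset.sum_const, Finset.card_range, nsmul_eq_mul]

theorem K3_diffF {q : ℕ} [NeZero q] {N : ℕ} (hN : N ≤ q) (u : ZMod q) :
    ∑ x : ZMod q, |‖Dk N (x - u)‖ ^ 2 - ‖Dk N x‖ ^ 2| ≤ 4 * Real.pi * N ^ 2 * gd u := by
  have hq : (0 : ℝ) < q := by exact_mod_cast Nat.pos_of_ne_zero (NeZero.ne q)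
  have h1 : ∀ x : ZMod q, |‖Dk N (x - u)‖ ^ 2 - ‖Dk N x‖ ^ 2| ≤
      ‖Dk N (x - u) - Dk N x‖ * (‖Dk N (x - u)‖ + ‖Dk N x‖) := by
    intro x
    have e : ‖Dk N (x - u)‖ ^ 2 - ‖Dk N x‖ ^ 2 =
        (‖Dk N (x - u)‖ - ‖Dk N x‖) * (‖Dk N (x - u)‖ + ‖Dk N x‖) := by ring
    rw [e, abs_mul, abs_of_nonneg (add_nonneg (norm_nonneg (Dk N (x - u))) (norm_nonneg (Dk N x)))]
    exact mul_le_mul_of_nonneg_right (abs_norm_sub_norm_le _ _) (by positivity)
  refine (Finset.sum_le_sum fun x _ => h1 x).trans ?_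
  refine le_of_sq_le_sq ?_ (by have := Real.pi_pos; positivity)
  refine (Finset.sum_mul_sq_le_sq_mul_sq _ _ _).trans ?_
  have h2 := K3_diffD hN u
  have h3 : ∑ x : ZMod q, (‖Dk N (x - u)‖ + ‖Dk N x‖) ^ 2 ≤ 4 * (q * N) := by
    have h4 : ∀ x : ZMod q, (‖Dk N (x - u)‖ + ‖Dk N x‖) ^ 2 ≤
        2 * ‖Dk N (x - u)‖ ^ 2 + 2 * ‖Dk N x‖ ^ 2 := by
      intro x
      nlinarith [sq_nonneg (‖Dk N (x - u)‖ - ‖Dk N x‖)]
    refine (Finset.sum_le_sum fun x _ => h4 x).trans (le_of_eq ?_)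
    rw [Finset.sum_add_distrib, ← Finset.mul_sum, ← Finset.mul_sum, K3_sumD hN]
    have h5 : ∑ x : ZMod q, ‖Dk N (x - u)‖ ^ 2 = ∑ x : ZMod q, ‖Dk N x‖ ^ 2 :=
      Equiv.sum_comp (Equiv.subRight u) fun x => ‖Dk N x‖ ^ 2
    rw [h5, K3_sumD hN]
    ring
  refine (mul_le_mul h2 h3 (Finset.sum_nonneg fun _ _ => by positivity)
    (by positivity)).trans (le_of_eq ?_)
  field_simp
  ring

theorem K3_norm {q : ℕ} [NeZero q] (a : ZMod q) : ‖(ZMod.stdAddChar a : ℂ)‖ = 1 :=
  AddChar.norm_apply _ _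

theorem item_K3 : S_K3 := by
  intro q _ s N y z hN1 hN
  have hq : (0 : ℝ) < q := by exact_mod_cast Nat.pos_of_ne_zero (NeZero.ne q)
  have hNp : (0 : ℝ) < N := by exact_mod_cast hN1
  set u := y - z with hu
  have h0 : ∑ x : ZMod q, ‖Mk s N (x - y) - Mk s N (x - z)‖ =
      ∑ x : ZMod q, ‖Mk s N (x - u) - Mk s N x‖ := by
    rw [← Equiv.sum_comp (Equiv.subRight z) fun x => ‖Mk s N (x - u) - Mk s N x‖]
    refine Finset.sum_congr rfl fun x _ => ?_
    show _ = ‖Mk s N ((x - z) - u) - Mk s N (x - z)‖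
    rw [hu]
    congr 3
    ring
  rw [h0]
  have h1 : ∀ x : ZMod q, ‖Mk s N (x - u) - Mk s N x‖ ≤
      (2 * Real.pi * (s * N : ℕ) * gd u / q) * (‖Dk N (x - u)‖ ^ 2 / N) +
        |‖Dk N (x - u)‖ ^ 2 - ‖Dk N x‖ ^ 2| / N := by
    intro x
    have e : Mk s N (x - u) - Mk s N x =
        ZMod.stdAddChar (((s * N : ℕ) : ZMod q) * x) *
          (((ZMod.stdAddChar (((s * N : ℕ) : ZMod q) * (-u)) : ℂ) - 1) *
            ((‖Dk N (x - u)‖ ^ 2 / N : ℝ) : ℂ) +
          (((‖Dk N (x - u)‖ ^ 2 - ‖Dk N x‖ ^ 2) / N : ℝ) : ℂ)) := by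
      unfold Mk
      have e1 : (ZMod.stdAddChar (((s * N : ℕ) : ZMod q) * (x - u)) : ℂ) =
          ZMod.stdAddChar (((s * N : ℕ) : ZMod q) * x) *
            ZMod.stdAddChar (((s * N : ℕ) : ZMod q) * (-u)) := by
        rw [← AddChar.map_add_eq_mul]
        congr 1
        ring
      rw [e1]
      push_cast
      ring
    rw [e, norm_mul, K3_norm, one_mul]
    refine (norm_add_le _ _).trans (add_le_add ?_ ?_)
    · rw [norm_mul, Complex.norm_real, Real.norm_of_nonneg (by positivity)]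
      have h3 := K3_char (s * N) (-u)
      rw [K3_gd_neg] at h3
      exact mul_le_mul_of_nonneg_right h3 (by positivity)
    · rw [Complex.norm_real, Real.norm_eq_abs, abs_div, Nat.abs_cast]
  refine (Finset.sum_le_sum fun x _ => h1 x).trans ?_
  rw [Finset.sum_add_distrib, ← Finset.mul_sum, ← Finset.sum_div, ← Finset.sum_div]
  have h5 : ∑ x : ZMod q, ‖Dk N (x - u)‖ ^ 2 = q * N :=
    (Equiv.sum_comp (Equiv.subRight u) fun x => ‖Dk N x‖ ^ 2).trans (K3_sumD hN)
  rw [h5]
  have h6 := K3_diffF hN u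
  have h7 : (∑ x : ZMod q, |‖Dk N (x - u)‖ ^ 2 - ‖Dk N x‖ ^ 2|) / N ≤
      4 * Real.pi * N * gd u := by
    rw [div_le_iff₀ hNp]
    refine h6.trans (le_of_eq (by ring))
  have h8 : 2 * Real.pi * ((s * N : ℕ) : ℝ) * gd u / q * (q * N / N) =
      2 * Real.pi * s * N * gd u := by
    push_cast
    field_simp
  rw [h8]
  refine (add_le_add_right h7 _).trans ?_
  have hpi : Real.pi ≤ 3.15 := Real.pi_lt_d2.le
  have hg : (0 : ℝ) ≤ N * gd u := by positivity
  have hs : (0 : ℝ) ≤ s := Nat.cast_nonneg _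
  have h9 : 2 * Real.pi * s + 4 * Real.pi ≤ 13 * (s + 1) := by nlinarith
  calc 2 * Real.pi * s * N * gd u + 4 * Real.pi * N * gd u =
        (2 * Real.pi * s + 4 * Real.pi) * (N * gd u) := by ring
    _ ≤ 13 * (s + 1) * (N * gd u) := mul_le_mul_of_nonneg_right h9 hg
    _ = 13 * (s + 1) * N * gd u := by ring

end

end MP_c03b66_an

end

section

/-! Item K4: Fourier expansion of the kernel on `ZMod q`. -/

namespace MP_c03b66_an

theorem K4_card (N : ℕ) (d : ℤ) :
    ((Finset.range N ×ˢ Finset.range N).filter (fun p => (p.1 : ℤ) - p.2 = d)).card =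
      N - d.natAbs := by
  have h : (Finset.range N ×ˢ Finset.range N).filter (fun p => (p.1 : ℤ) - p.2 = d) =
      (Finset.range (N - d.natAbs)).image (fun t => (t + d.toNat, t + (-d).toNat)) := by
    ext ⟨a, b⟩
    simp only [Finset.mem_filter, Finset.mem_product, Finset.mem_range, Finset.mem_image,
      Prod.mk.injEq]
    constructor
    · rintro ⟨⟨ha, hb⟩, hd⟩
      refine ⟨min a b, ?_, ?_, ?_⟩ <;> omega
    · rintro ⟨t, ht, h1, h2⟩
      refine ⟨⟨?_, ?_⟩, ?_⟩ <;> omega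
  rw [h, Finset.card_image_of_injective, Finset.card_range]
  intro t t' h
  simp only [Prod.mk.injEq] at h
  omega

theorem K4_tri (N s : ℕ) (hN : 1 ≤ N) (k : ℤ) :
    tri N s k = ((N - (k - s * N).natAbs : ℕ) : ℝ) / N := by
  have hN0 : (0 : ℝ) < N := by exact_mod_cast hN
  have habs : |(k : ℝ) - s * N| = (((k - s * N).natAbs : ℕ) : ℝ) := by
    rw [Nat.cast_natAbs]
    push_cast
    rfl
  unfold tri
  rw [habs]
  by_cases h : (k - s * N).natAbs ≤ N
  · rw [Nat.cast_sub h, max_eq_right]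
    · field_simp
    · have h1 : (((k - s * N).natAbs : ℕ) : ℝ) ≤ N := by exact_mod_cast h
      have h2 : (((k - s * N).natAbs : ℕ) : ℝ) / N ≤ 1 := (div_le_one hN0).2 h1
      linarith
  · rw [Nat.sub_eq_zero_of_le (by omega), max_eq_left]
    · simp
    · have h1 : (N : ℝ) ≤ (((k - s * N).natAbs : ℕ) : ℝ) := by exact_mod_cast (by omega)
      have h2 : 1 ≤ (((k - s * N).natAbs : ℕ) : ℝ) / N := (one_le_div hN0).2 h1
      linarith

theorem item_K4 : S_K4 := by
  intro q _ s N Q hN hQ x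
  have hN0 : (N : ℂ) ≠ 0 := by
    have : N ≠ 0 := by omega
    exact_mod_cast this
  have h1 : Mk s N x = (1 / (N : ℂ)) * ∑ p ∈ Finset.range N ×ˢ Finset.range N,
      ZMod.stdAddChar (((((s * N : ℕ) : ℤ) + ((p.1 : ℤ) - p.2) : ℤ) : ZMod q) * x) := by
    unfold Mk
    have h2 : ((‖Dk N x‖ ^ 2 / N : ℝ) : ℂ) = (1 / (N : ℂ)) * (Dk N x * star (Dk N x)) := by
      have h3 : Dk N x * star (Dk N x) = ((‖Dk N x‖ ^ 2 : ℝ) : ℂ) := by
        have := Complex.mul_conj (Dk N x)
        rw [Complex.normSq_eq_norm_sq] at this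
        exact this
      rw [h3]
      push_cast
      ring
    rw [h2]
    have h4 : star (Dk N x) = ∑ b ∈ Finset.range N, ZMod.stdAddChar (-((b : ZMod q) * x)) := by
      unfold Dk
      rw [star_sum]
      refine Finset.sum_congr rfl fun b _ => ?_
      rw [AddChar.map_neg_eq_conj]
      rfl
    rw [h4]
    unfold Dk
    rw [Finset.sum_mul_sum, ← Finset.sum_product', mul_left_comm, Finset.mul_sum]
    congr 1
    refine Finset.sum_congr rfl fun p _ => ?_
    rw [← AddChar.map_add_eq_mul, ← AddChar.map_add_eq_mul]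
    congr 1
    push_cast
    ring
  rw [h1, ← Finset.sum_fiberwise_of_maps_to (s := Finset.range N ×ˢ Finset.range N)
    (t := Finset.Ioo (-(Q : ℤ)) Q) (g := fun p => ((s * N : ℕ) : ℤ) + ((p.1 : ℤ) - p.2))]
  · rw [Finset.mul_sum]
    refine Finset.sum_congr rfl fun k _ => ?_
    have h5 : ∑ p ∈ Finset.range N ×ˢ Finset.range N with
        ((s * N : ℕ) : ℤ) + ((p.1 : ℤ) - p.2) = k,
        (ZMod.stdAddChar (((((s * N : ℕ) : ℤ) + ((p.1 : ℤ) - p.2) : ℤ) : ZMod q) * x) : ℂ) =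
        ∑ p ∈ Finset.range N ×ˢ Finset.range N with
        ((s * N : ℕ) : ℤ) + ((p.1 : ℤ) - p.2) = k, (ZMod.stdAddChar ((k : ZMod q) * x) : ℂ) := by
      refine Finset.sum_congr rfl fun p hp => ?_
      rw [(Finset.mem_filter.1 hp).2]
    rw [h5, Finset.sum_const]
    have h6 : (Finset.range N ×ˢ Finset.range N).filter
        (fun p => ((s * N : ℕ) : ℤ) + ((p.1 : ℤ) - p.2) = k) =
        (Finset.range N ×ˢ Finset.range N).filter
        (fun p => ((p.1 : ℤ) - p.2) = k - s * N) := by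
      refine Finset.filter_congr fun p _ => ?_
      push_cast
      constructor <;> intro h <;> linarith
    rw [h6, K4_card, K4_tri N s hN k, nsmul_eq_mul]
    push_cast
    ring
  · intro p hp
    rw [Finset.mem_product, Finset.mem_range, Finset.mem_range] at hp
    rw [Finset.mem_Ioo]
    have h7 : ((s + 1) * N : ℤ) ≤ Q := by exact_mod_cast hQ
    have h8 : (0 : ℤ) ≤ s * N := by positivity
    have h9 : (p.1 : ℤ) < N := by exact_mod_cast hp.1
    have h10 : (p.2 : ℤ) < N := by exact_mod_cast hp.2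
    have h11 : (0 : ℤ) ≤ p.1 := by positivity
    have h12 : (0 : ℤ) ≤ p.2 := by positivity
    push_cast
    constructor <;> nlinarith

end MP_c03b66_an

end

section

/-! The symbols sum up to at most 3. -/

namespace MP_c03b66_an

theorem L1_step (s x : ℝ) (hs : 1 ≤ s) (hx : 0 ≤ x) :
    max 0 (1 - |x - s|) + min 2 (x / s) ≤ min 2 (2 * (x / s)) := by
  have hs0 : 0 < s := by linarith
  set y := x / s with hy
  have hxy : x = s * y := by rw [hy]; field_simp
  have hy0 : 0 ≤ y := div_nonneg hx hs0.le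
  have h1 : max 0 (1 - |x - s|) ≤ max 0 (1 - |y - 1|) := by
    apply max_le_max le_rfl
    have h2 : |x - s| = s * |y - 1| := by
      rw [hxy, show s * y - s = s * (y - 1) by ring, abs_mul, abs_of_pos hs0]
    have h3 := abs_nonneg (y - 1)
    nlinarith
  refine (add_le_add_left h1 _).trans ?_
  rcases le_total y 1 with h | h
  · rw [abs_of_nonpos (by linarith : y - 1 ≤ 0), min_eq_right (by linarith : y ≤ 2),
      min_eq_right (by linarith : 2 * y ≤ 2), max_eq_right (by linarith)]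
    linarith
  · rw [abs_of_nonneg (by linarith : 0 ≤ y - 1), min_eq_left (by linarith : (2 : ℝ) ≤ 2 * y)]
    rcases le_total y 2 with h' | h'
    · rw [min_eq_right h', max_eq_right (by linarith)]
      linarith
    · rw [min_eq_left h', max_eq_left (by linarith)]
      linarith

theorem L1_sum (s : ℝ) (hs : 1 ≤ s) (J : ℕ) : ∀ (x : ℕ → ℝ), (∀ j, 0 ≤ x j) →
    (∀ j, x (j + 1) ≤ x j / 2) →
    ∑ j ∈ Finset.range J, max 0 (1 - |x j - s|) ≤ min 2 (2 * (x 0 / s)) := by
  have hs0 : 0 < s := by linarith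
  induction J with
  | zero =>
    intro x hx _
    simp only [Finset.range_zero, Finset.sum_empty]
    have := hx 0
    exact le_min (by norm_num) (by positivity)
  | succ J ih =>
    intro x hx hd
    rw [Finset.sum_range_succ']
    have h1 := ih (fun j => x (j + 1)) (fun j => hx _) (fun j => hd _)
    have h2 := L1_step s (x 0) hs (hx 0)
    have h3 : min 2 (2 * (x (0 + 1) / s)) ≤ min 2 (x 0 / s) := by
      apply min_le_min le_rfl
      rw [← mul_div_assoc]
      apply div_le_div_of_nonneg_right _ hs0.le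
      have := hd 0
      linarith
    linarith

theorem L1_tri (N s : ℕ) (hN : 1 ≤ N) (k : ℤ) :
    tri N s k = max 0 (1 - |(k : ℝ) / N - s|) := by
  have h0 : (0 : ℝ) < N := by exact_mod_cast hN
  unfold tri
  congr 2
  rw [show (k : ℝ) - s * N = ((k : ℝ) / N - s) * N by field_simp, abs_mul, abs_of_pos h0]
  field_simp

theorem L1_tri_nonneg (N s : ℕ) (k : ℤ) : 0 ≤ tri N s k := le_max_left _ _

theorem L1_tri_le (N s : ℕ) (k : ℤ) : tri N s k ≤ 1 := by
  unfold tri
  apply max_le (by norm_num)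
  have : 0 ≤ |(k : ℝ) - s * N| / N := by positivity
  linarith

theorem item_L1 : S_L1 := by
  classical
  intro ι _ s N hN ⟨l0, hl0⟩ J k
  obtain ⟨hN0, hN1⟩ := hN
  have hpos : ∀ j l, 1 ≤ N j l := by
    intro j l
    induction j with
    | zero => exact hN0 l
    | succ j ih => have := hN1 j l; omega
  have hs : (1 : ℝ) ≤ s l0 := by exact_mod_cast hl0
  have h1 : ∀ j, ∏ l, tri (N j l) (s l) (k l) ≤ tri (N j l0) (s l0) (k l0) := by
    intro j
    rw [← Finset.mul_prod_erase Finset.univ _ (Finset.mem_univ l0)]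
    apply mul_le_of_le_one_right (L1_tri_nonneg _ _ _)
    exact Finset.prod_le_one (fun l _ => L1_tri_nonneg _ _ _) (fun l _ => L1_tri_le _ _ _)
  refine (Finset.sum_le_sum fun j _ => h1 j).trans ?_
  rcases le_or_gt (k l0) 0 with hk | hk
  · have h2 : ∀ j ∈ Finset.range J, tri (N j l0) (s l0) (k l0) ≤ 0 := by
      intro j _
      rw [L1_tri _ _ (hpos j l0)]
      apply max_le le_rfl
      have h0 : (0 : ℝ) < N j l0 := by exact_mod_cast hpos j l0
      have hk' : (k l0 : ℝ) ≤ 0 := by exact_mod_cast hk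
      have h3 : (k l0 : ℝ) / N j l0 ≤ 0 := div_nonpos_of_nonpos_of_nonneg hk' h0.le
      have h4 := neg_abs_le ((k l0 : ℝ) / N j l0 - s l0)
      linarith
    exact (Finset.sum_nonpos h2).trans (by norm_num)
  · have hk' : (0 : ℝ) < k l0 := by exact_mod_cast hk
    have h2 := L1_sum (s l0) hs J (fun j => (k l0 : ℝ) / N j l0)
      (fun j => div_nonneg hk'.le (by positivity))
      (fun j => by
        have h0 : (0 : ℝ) < N j l0 := by exact_mod_cast hpos j l0
        have h3 : (2 : ℝ) * N j l0 ≤ N (j + 1) l0 := by exact_mod_cast hN1 j l0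
        rw [div_div]
        apply div_le_div_of_nonneg_left hk'.le (by positivity)
        linarith)
    have h5 : ∑ j ∈ Finset.range J, tri (N j l0) (s l0) (k l0) =
        ∑ j ∈ Finset.range J, max 0 (1 - |(k l0 : ℝ) / N j l0 - s l0|) :=
      Finset.sum_congr rfl fun j _ => L1_tri _ _ (hpos j l0) _
    rw [h5]
    refine h2.trans ((min_le_left _ _).trans (by norm_num))

end MP_c03b66_an

end

section

open MeasureTheory UnitAddTorus

namespace MP_c03b66_an

open scoped ComplexConjugate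

/-- the character of the grid with frequency `k`. -/
noncomputable def L2chi {ι : Type} [Fintype ι] {q : ℕ} [NeZero q] (k : ι → ℤ) (u : ι → ZMod q) : ℂ :=
  ∏ l, ZMod.stdAddChar ((k l : ZMod q) * u l)

theorem L2chi_sub {ι : Type} [Fintype ι] {q : ℕ} [NeZero q] (k : ι → ℤ) (x y : ι → ZMod q) :
    L2chi k (x - y) = L2chi k x * conj (L2chi k y) := by
  unfold L2chi
  rw [map_prod, ← Finset.prod_mul_distrib]
  apply Finset.prod_congr rfl
  intro l _
  rw [Pi.sub_apply, mul_sub, sub_eq_add_neg, AddChar.map_add_eq_mul, AddChar.map_neg_eq_conj]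

theorem L2_sum1 {q : ℕ} [NeZero q] (a b : ℤ) :
    ∑ t : ZMod q, ZMod.stdAddChar ((a : ZMod q) * t) * conj (ZMod.stdAddChar ((b : ZMod q) * t)) =
      if ((a : ZMod q) - b) = 0 then (q : ℂ) else 0 := by
  have h := AddChar.sum_mulShift (((a : ZMod q) - b)) (ZMod.isPrimitive_stdAddChar q)
  rw [ZMod.card] at h
  have h' : (((if ((a : ZMod q) - b) = 0 then q else 0 : ℕ)) : ℂ) =
      if ((a : ZMod q) - b) = 0 then (q : ℂ) else 0 := by
    split_ifs <;> simp
  rw [← h', ← h]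
  apply Finset.sum_congr rfl
  intro t _
  rw [← AddChar.map_neg_eq_conj, ← AddChar.map_add_eq_mul]
  congr 1
  ring

theorem L2_orth {ι : Type} [Fintype ι] [DecidableEq ι] {q : ℕ} [NeZero q] (Q : ℕ) (hQ : 2 * Q ≤ q)
    (k k' : ι → ℤ) (hk : k ∈ Fintype.piFinset fun _ : ι => Finset.Ioo (-(Q : ℤ)) Q)
    (hk' : k' ∈ Fintype.piFinset fun _ : ι => Finset.Ioo (-(Q : ℤ)) Q) :
    ∑ x : ι → ZMod q, L2chi k x * conj (L2chi k' x) =
      if k = k' then (Fintype.card (ι → ZMod q) : ℂ) else 0 := by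
  have h1 : ∑ x : ι → ZMod q, L2chi k x * conj (L2chi k' x) =
      ∏ l : ι, ∑ t : ZMod q, ZMod.stdAddChar ((k l : ZMod q) * t) *
        conj (ZMod.stdAddChar ((k' l : ZMod q) * t)) := by
    rw [Finset.prod_univ_sum, Fintype.piFinset_univ]
    apply Finset.sum_congr rfl
    intro x _
    unfold L2chi
    rw [map_prod, ← Finset.prod_mul_distrib]
  rw [h1]
  simp_rw [L2_sum1]
  split_ifs with h
  · subst h
    rw [Fintype.card_pi]
    simp [ZMod.card]
  · obtain ⟨l, hl⟩ := Function.ne_iff.mp h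
    apply Finset.prod_eq_zero (Finset.mem_univ l)
    rw [if_neg]
    intro h0
    rw [← Int.cast_sub, ZMod.intCast_zmod_eq_zero_iff_dvd] at h0
    rw [Fintype.mem_piFinset] at hk hk'
    have h2 := Finset.mem_Ioo.mp (hk l)
    have h3 := Finset.mem_Ioo.mp (hk' l)
    have h4 : |k l - k' l| < (q : ℤ) := by
      rw [abs_lt]
      constructor <;> omega
    have h5 := Int.eq_zero_of_abs_lt_dvd h0 h4
    exact hl (by omega)

theorem L2_parseval {ι : Type} [Fintype ι] [DecidableEq ι] {q : ℕ} [NeZero q] (Q : ℕ)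
    (hQ : 2 * Q ≤ q) (c : (ι → ℤ) → ℂ) :
    ∑ x : ι → ZMod q,
      ‖∑ k ∈ Fintype.piFinset fun _ : ι => Finset.Ioo (-(Q : ℤ)) Q, c k * L2chi k x‖ ^ 2 =
    (Fintype.card (ι → ZMod q) : ℝ) *
      ∑ k ∈ Fintype.piFinset fun _ : ι => Finset.Ioo (-(Q : ℤ)) Q, ‖c k‖ ^ 2 := by
  set B := Fintype.piFinset fun _ : ι => Finset.Ioo (-(Q : ℤ)) (Q : ℤ) with hB
  have h : ((∑ x : ι → ZMod q, ‖∑ k ∈ B, c k * L2chi k x‖ ^ 2 : ℝ) : ℂ) =
      (((Fintype.card (ι → ZMod q) : ℝ) * ∑ k ∈ B, ‖c k‖ ^ 2 : ℝ) : ℂ) := by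
    push_cast
    simp_rw [← Complex.mul_conj']
    simp_rw [map_sum, Finset.sum_mul_sum]
    rw [Finset.sum_comm]
    rw [Finset.mul_sum]
    apply Finset.sum_congr rfl
    intro k hk
    rw [Finset.sum_comm]
    rw [Finset.sum_eq_single k]
    · have := L2_orth Q hQ k k hk hk
      rw [if_pos rfl] at this
      rw [← this, Finset.sum_mul]
      apply Finset.sum_congr rfl
      intro x _
      rw [map_mul]
      ring
    · intro k' hk' hne
      have := L2_orth Q hQ k k' hk hk'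
      rw [if_neg (Ne.symm hne)] at this
      calc ∑ x : ι → ZMod q, c k * L2chi k x * conj (c k' * L2chi k' x) =
          (c k * conj (c k')) * ∑ x : ι → ZMod q, L2chi k x * conj (L2chi k' x) := by
            rw [Finset.mul_sum]
            apply Finset.sum_congr rfl
            intro x _
            rw [map_mul]
            ring
        _ = 0 := by rw [this, mul_zero]
    · intro h
      exact absurd hk h
  exact_mod_cast h

theorem L2_bessel {ι : Type} [Fintype ι] [DecidableEq ι] {q : ℕ} [NeZero q] (Q : ℕ)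
    (hQ : 2 * Q ≤ q) (g : (ι → ZMod q) → ℂ) :
    (Fintype.card (ι → ZMod q) : ℝ) *
      ∑ k ∈ Fintype.piFinset fun _ : ι => Finset.Ioo (-(Q : ℤ)) Q,
        ‖(1 / (Fintype.card (ι → ZMod q) : ℂ)) * ∑ y, g y * conj (L2chi k y)‖ ^ 2 ≤
      ∑ x, ‖g x‖ ^ 2 := by
  set B := Fintype.piFinset fun _ : ι => Finset.Ioo (-(Q : ℤ)) (Q : ℤ) with hB
  set N : ℝ := (Fintype.card (ι → ZMod q) : ℝ) with hN
  have hN0 : (Fintype.card (ι → ZMod q) : ℂ) ≠ 0 := by
    exact_mod_cast Fintype.card_ne_zero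
  set gh : (ι → ℤ) → ℂ := fun k =>
    (1 / (Fintype.card (ι → ZMod q) : ℂ)) * ∑ y, g y * conj (L2chi k y) with hgh
  have hp := L2_parseval Q hQ gh
  rw [← hB] at hp
  set S : (ι → ZMod q) → ℂ := fun x => ∑ k ∈ B, gh k * L2chi k x with hS
  -- cross term
  have hc : ∑ x, g x * conj (S x) = ((N * ∑ k ∈ B, ‖gh k‖ ^ 2 : ℝ) : ℂ) := by
    rw [hS]
    simp_rw [map_sum, Finset.mul_sum]
    rw [Finset.sum_comm]
    push_cast
    apply Finset.sum_congr rfl
    intro k _
    have e1 : ∑ y, g y * conj (L2chi k y) = (N : ℂ) * gh k := by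
      rw [hgh, hN]
      push_cast
      field_simp
    calc ∑ x, g x * conj (gh k * L2chi k x) = conj (gh k) * ∑ x, g x * conj (L2chi k x) := by
          rw [Finset.mul_sum]
          apply Finset.sum_congr rfl
          intro x _
          rw [map_mul]
          ring
      _ = (N : ℂ) * (gh k * conj (gh k)) := by rw [e1]; ring
      _ = (N : ℂ) * (‖gh k‖ : ℂ) ^ 2 := by rw [Complex.mul_conj']
  have h0 : 0 ≤ ∑ x, ‖g x - S x‖ ^ 2 := Finset.sum_nonneg fun x _ => by positivity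
  have h1 : ∀ x, ‖g x - S x‖ ^ 2 = ‖g x‖ ^ 2 + ‖S x‖ ^ 2 - 2 * (g x * conj (S x)).re := by
    intro x
    rw [← Complex.normSq_eq_norm_sq, ← Complex.normSq_eq_norm_sq, ← Complex.normSq_eq_norm_sq,
      Complex.normSq_sub]
  simp_rw [h1] at h0
  rw [Finset.sum_sub_distrib, Finset.sum_add_distrib, ← Finset.mul_sum, hp,
    ← Complex.re_sum, hc, Complex.ofReal_re] at h0
  linarith

theorem item_L2 : S_L2 := by
  intro ι _ _ q _ Q m A hQ hm g
  set B := Fintype.piFinset fun _ : ι => Finset.Ioo (-(Q : ℤ)) (Q : ℤ) with hB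
  set gh : (ι → ℤ) → ℂ := fun k =>
    (1 / (Fintype.card (ι → ZMod q) : ℂ)) * ∑ y, g y * conj (L2chi k y) with hgh
  have h1 : ∀ x : ι → ZMod q, cv (fun u : ι → ZMod q => ∑ k ∈ B,
      (m k : ℂ) * ∏ l, ZMod.stdAddChar ((k l : ZMod q) * u l)) g x =
      ∑ k ∈ B, ((m k : ℂ) * gh k) * L2chi k x := by
    intro x
    unfold cv
    have e : ∀ y : ι → ZMod q, (∑ k ∈ B, (m k : ℂ) *
        ∏ l, ZMod.stdAddChar ((k l : ZMod q) * (x - y) l)) * g y =
        ∑ k ∈ B, (m k : ℂ) * L2chi k x * (g y * conj (L2chi k y)) := by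
      intro y
      rw [Finset.sum_mul]
      apply Finset.sum_congr rfl
      intro k _
      have := L2chi_sub k x y
      unfold L2chi at this ⊢
      rw [this]
      ring
    simp_rw [e]
    rw [Finset.sum_comm, Finset.mul_sum]
    apply Finset.sum_congr rfl
    intro k _
    rw [hgh, ← Finset.mul_sum]
    ring
  simp_rw [h1]
  have h2 := L2_parseval Q hQ (fun k => (m k : ℂ) * gh k)
  rw [← hB] at h2
  rw [h2]
  have h3 := L2_bessel Q hQ g
  rw [← hB] at h3
  have hA : 0 ≤ A := le_trans (abs_nonneg _) (hm 0)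
  calc (Fintype.card (ι → ZMod q) : ℝ) * ∑ k ∈ B, ‖(m k : ℂ) * gh k‖ ^ 2 ≤
      (Fintype.card (ι → ZMod q) : ℝ) * ∑ k ∈ B, A ^ 2 * ‖gh k‖ ^ 2 := by
        apply mul_le_mul_of_nonneg_left _ (by positivity)
        apply Finset.sum_le_sum
        intro k _
        rw [norm_mul, mul_pow]
        apply mul_le_mul_of_nonneg_right _ (by positivity)
        rw [Complex.norm_real, Real.norm_eq_abs]
        exact pow_le_pow_left₀ (abs_nonneg _) (hm k) 2
    _ = A ^ 2 * ((Fintype.card (ι → ZMod q) : ℝ) * ∑ k ∈ B, ‖gh k‖ ^ 2) := by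
        rw [← Finset.mul_sum]
        ring
    _ ≤ A ^ 2 * ∑ x, ‖g x‖ ^ 2 := by
        apply mul_le_mul_of_nonneg_left h3 (by positivity)

end MP_c03b66_an

end

section

/-!
Product kernels: norm, tails, smoothness (helper67).
-/

set_option autoImplicit false

namespace MP_c03b66_an

theorem P_prodsum {ι : Type} [Fintype ι] [DecidableEq ι] {q : ℕ} [NeZero q]
    (f : ι → ZMod q → ℝ) : ∑ x : ι → ZMod q, ∏ l, f l (x l) = ∏ l, ∑ t, f l t := by
  rw [Finset.prod_univ_sum, Fintype.piFinset_univ]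

theorem P_prod_le {ι : Type} [Fintype ι] [DecidableEq ι] {q : ℝ} (hq : 0 < q) {G : ι → ℝ} {l : ι}
    {E : ℝ} (hG : ∀ m, m ≠ l → G m = q) (hl : G l ≤ E) :
    ∏ m, G m ≤ q ^ Fintype.card ι * (E / q) := by
  rw [← Finset.mul_prod_erase Finset.univ G (Finset.mem_univ l)]
  have h1 : ∏ m ∈ Finset.univ.erase l, G m = ∏ _m ∈ Finset.univ.erase l, q :=
    Finset.prod_congr rfl fun m hm => hG m (Finset.ne_of_mem_erase hm)
  have h2 : q ^ Fintype.card ι = q * ∏ _m ∈ Finset.univ.erase l, q := by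
    rw [Finset.mul_prod_erase Finset.univ (fun _ : ι => q) (Finset.mem_univ l),
      Finset.prod_const, Finset.card_univ]
  have h3 : 0 ≤ ∏ _m ∈ Finset.univ.erase l, q := Finset.prod_nonneg fun _ _ => hq.le
  rw [h1, h2]
  calc G l * ∏ _m ∈ Finset.univ.erase l, q ≤ E * ∏ _m ∈ Finset.univ.erase l, q :=
        mul_le_mul_of_nonneg_right hl h3
    _ = q * (∏ _m ∈ Finset.univ.erase l, q) * (E / q) := by
        field_simp

theorem P_norm {ι : Type} [Fintype ι] {q : ℕ} [NeZero q] (s N : ι → ℕ) (x : ι → ZMod q) :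
    ‖Mp s N x‖ = ∏ l, ‖Mk (s l) (N l) (x l)‖ := by
  unfold Mp
  rw [norm_prod]

theorem item_P1 (h1 : S_K1) : S_P1 := by
  intro ι _ _ q _ s N hN hq
  have e1 : ∀ x : ι → ZMod q, ‖Mp s N x‖ = ∏ l, ‖Mk (s l) (N l) (x l)‖ := fun x => P_norm s N x
  rw [Finset.sum_congr rfl fun x _ => e1 x, P_prodsum fun l t => ‖Mk (s l) (N l) t‖]
  rw [Finset.prod_congr rfl fun l _ => h1 q (s l) (N l) (hN l) (hq l), Finset.prod_const,
    Finset.card_univ]

theorem item_P2 (h1 : S_K1) (h2 : S_K2) : S_P2 := by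
  intro ι _ _ q _ s N w hN hq hw
  have hq0 : (0 : ℝ) < q := by
    have := NeZero.pos q
    exact_mod_cast this
  have hone : ∀ l : ι, ∑ x : ι → ZMod q with w l ≤ gd (x l), ‖Mp s N x‖ ≤
      (q : ℝ) ^ Fintype.card ι * ((q : ℝ) / (N l * w l)) := by
    intro l
    set f : ι → ZMod q → ℝ := fun m t =>
      if m = l ∧ ¬ (w l ≤ gd t) then 0 else ‖Mk (s m) (N m) t‖ with hf
    have e1 : ∑ x : ι → ZMod q with w l ≤ gd (x l), ‖Mp s N x‖ =
        ∑ x : ι → ZMod q, ∏ m, f m (x m) := by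
      rw [Finset.sum_filter]
      refine Finset.sum_congr rfl fun x _ => ?_
      by_cases hx : w l ≤ gd (x l)
      · rw [if_pos hx, P_norm]
        refine Finset.prod_congr rfl fun m _ => ?_
        have : ¬ (m = l ∧ ¬ (w l ≤ gd (x m))) := by
          rintro ⟨rfl, h⟩
          exact h hx
        rw [hf]
        simp only [if_neg this]
      · rw [if_neg hx]
        symm
        refine Finset.prod_eq_zero (Finset.mem_univ l) ?_
        have : l = l ∧ ¬ (w l ≤ gd (x l)) := ⟨rfl, hx⟩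
        exact if_pos this
    rw [e1, P_prodsum]
    have h3 : (q : ℝ) / (N l * w l) = ((q : ℝ) ^ 2 / (N l * w l)) / q := by
      have hn : (0 : ℝ) < N l := by exact_mod_cast hN l
      have hw' : (0 : ℝ) < w l := by exact_mod_cast hw l
      field_simp
    rw [h3]
    refine P_prod_le hq0 (l := l) (fun m hm => ?_) ?_
    · rw [← h1 q (s m) (N m) (hN m) (hq m)]
      refine Finset.sum_congr rfl fun t _ => ?_
      have : ¬ (m = l ∧ ¬ (w l ≤ gd t)) := fun h => hm h.1
      rw [hf]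
      simp only [if_neg this]
    · refine le_trans (le_of_eq ?_) (h2 q (s l) (N l) (w l) (hN l) (hw l))
      rw [Finset.sum_filter]
      refine Finset.sum_congr rfl fun t _ => ?_
      rw [hf]
      by_cases ht : w l ≤ gd t
      · simp only [ht, not_true_eq_false, and_false, if_false, if_true]
      · simp only [ht, not_false_eq_true, and_self, if_true, if_false]
  calc ∑ x : ι → ZMod q with (∃ l, w l ≤ gd (x l)), ‖Mp s N x‖
      ≤ ∑ l, ∑ x : ι → ZMod q with w l ≤ gd (x l), ‖Mp s N x‖ := by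
        rw [Finset.sum_filter]
        have e2 : ∀ l : ι, ∑ x : ι → ZMod q with w l ≤ gd (x l), ‖Mp s N x‖ =
            ∑ x : ι → ZMod q, if w l ≤ gd (x l) then ‖Mp s N x‖ else 0 := fun l => by
          rw [Finset.sum_filter]
        rw [Finset.sum_congr rfl fun l _ => e2 l, Finset.sum_comm]
        refine Finset.sum_le_sum fun x _ => ?_
        have h0 : ∀ l ∈ (Finset.univ : Finset ι),
            0 ≤ (if w l ≤ gd (x l) then ‖Mp s N x‖ else 0) := fun l _ => by
          split_ifs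
          · exact norm_nonneg _
          · exact le_rfl
        by_cases hx : ∃ l, w l ≤ gd (x l)
        · rw [if_pos hx]
          obtain ⟨l, hl⟩ := hx
          refine le_trans (le_of_eq ?_) (Finset.single_le_sum h0 (Finset.mem_univ l))
          rw [if_pos hl]
        · rw [if_neg hx]
          exact Finset.sum_nonneg h0
    _ ≤ ∑ l, (q : ℝ) ^ Fintype.card ι * ((q : ℝ) / (N l * w l)) :=
        Finset.sum_le_sum fun l _ => hone l
    _ = _ := by rw [Finset.mul_sum]

theorem item_P3 (h1 : S_K1) (h3 : S_K3) : S_P3 := by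
  intro ι _ _ q _ s N y z hN hq
  have hq0 : (0 : ℝ) < q := by
    have := NeZero.pos q
    exact_mod_cast this
  -- translates of the kernels
  have hsum : ∀ (m : ι) (c : ZMod q), ∑ t : ZMod q, ‖Mk (s m) (N m) (t - c)‖ = q := by
    intro m c
    rw [← h1 q (s m) (N m) (hN m) (hq m)]
    exact (Equiv.subRight c).sum_comp (fun t => ‖Mk (s m) (N m) t‖)
  -- the hybrid functions
  set h : Finset ι → (ι → ZMod q) → ℂ := fun T x =>
    ∏ m, if m ∈ T then Mk (s m) (N m) (x m - z m) else Mk (s m) (N m) (x m - y m) with hh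
  have key : ∀ T : Finset ι, ∑ x : ι → ZMod q, ‖h ∅ x - h T x‖ ≤
      ∑ l ∈ T, (q : ℝ) ^ Fintype.card ι * ((13 * (s l + 1) * N l * gd (y l - z l) : ℝ) / q) := by
    intro T
    induction T using Finset.induction_on with
    | empty => simp
    | insert l T hl ih =>
      rw [Finset.sum_insert hl]
      have e1 : ∀ x : ι → ZMod q, ‖h ∅ x - h (insert l T) x‖ ≤
          ‖h T x - h (insert l T) x‖ + ‖h ∅ x - h T x‖ := by
        intro x
        have e2 : h ∅ x - h (insert l T) x =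
            (h T x - h (insert l T) x) + (h ∅ x - h T x) := by ring
        rw [e2]
        exact norm_add_le _ _
      refine (Finset.sum_le_sum fun x _ => e1 x).trans ?_
      rw [Finset.sum_add_distrib]
      refine add_le_add ?_ ih
      -- one step
      set f : ι → ZMod q → ℝ := fun m t =>
        if m = l then ‖Mk (s m) (N m) (t - y m) - Mk (s m) (N m) (t - z m)‖
        else if m ∈ T then ‖Mk (s m) (N m) (t - z m)‖ else ‖Mk (s m) (N m) (t - y m)‖ with hf
      have e3 : ∀ x : ι → ZMod q, ‖h T x - h (insert l T) x‖ = ∏ m, f m (x m) := by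
        intro x
        have e4 : h T x = Mk (s l) (N l) (x l - y l) * ∏ m ∈ Finset.univ.erase l,
            (if m ∈ T then Mk (s m) (N m) (x m - z m) else Mk (s m) (N m) (x m - y m)) := by
          rw [hh]
          simp only
          rw [← Finset.mul_prod_erase Finset.univ _ (Finset.mem_univ l), if_neg hl]
        have e5 : h (insert l T) x = Mk (s l) (N l) (x l - z l) * ∏ m ∈ Finset.univ.erase l,
            (if m ∈ T then Mk (s m) (N m) (x m - z m) else Mk (s m) (N m) (x m - y m)) := by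
          rw [hh]
          simp only
          rw [← Finset.mul_prod_erase Finset.univ _ (Finset.mem_univ l),
            if_pos (Finset.mem_insert_self l T)]
          congr 1
          refine Finset.prod_congr rfl fun m hm => ?_
          have hne : m ≠ l := Finset.ne_of_mem_erase hm
          by_cases hmT : m ∈ T
          · rw [if_pos hmT, if_pos (Finset.mem_insert_of_mem hmT)]
          · rw [if_neg hmT, if_neg]
            intro h'
            rcases Finset.mem_insert.1 h' with h'' | h''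
            · exact hne h''
            · exact hmT h''
        rw [e4, e5, ← sub_mul, norm_mul, norm_prod,
          ← Finset.mul_prod_erase Finset.univ (fun m => f m (x m)) (Finset.mem_univ l)]
        congr 1
        · rw [hf]
          simp only [if_true]
        · refine Finset.prod_congr rfl fun m hm => ?_
          have hne : m ≠ l := Finset.ne_of_mem_erase hm
          rw [hf]
          simp only [if_neg hne]
          by_cases hmT : m ∈ T
          · rw [if_pos hmT, if_pos hmT]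
          · rw [if_neg hmT, if_neg hmT]
      rw [Finset.sum_congr rfl fun x _ => e3 x, P_prodsum]
      refine P_prod_le hq0 (l := l) (fun m hm => ?_) ?_
      · by_cases hmT : m ∈ T
        · rw [← hsum m (z m)]
          refine Finset.sum_congr rfl fun t _ => ?_
          rw [hf]
          simp only [if_neg hm, if_pos hmT]
        · rw [← hsum m (y m)]
          refine Finset.sum_congr rfl fun t _ => ?_
          rw [hf]
          simp only [if_neg hm, if_neg hmT]
      · refine le_trans (le_of_eq ?_) (h3 q (s l) (N l) (y l) (z l) (hN l) (hq l))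
        refine Finset.sum_congr rfl fun t _ => ?_
        rw [hf]
        simp only [if_true]
  have e6 : ∀ x : ι → ZMod q, h ∅ x = Mp s N (x - y) := by
    intro x
    rw [hh]
    simp only [Finset.notMem_empty, if_false]
    rfl
  have e7 : ∀ x : ι → ZMod q, h Finset.univ x = Mp s N (x - z) := by
    intro x
    rw [hh]
    simp only [Finset.mem_univ, if_true]
    rfl
  have h4 := key Finset.univ
  simp only [e6, e7] at h4
  refine h4.trans (le_of_eq ?_)
  rw [Finset.mul_sum]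
  refine Finset.sum_congr rfl fun l _ => ?_
  ring

end MP_c03b66_an

end

section

/-! Items Q1, Q2: Hormander condition for one term, both scales. -/

namespace MP_c03b66_an

theorem item_Q1 (h3 : S_P3) (hG : S_G2) : S_Q1 := by
  classical
  intro ι _ _ K e s N he hN hNK x y hy z hz
  obtain ⟨-, -, -, -, h5, -⟩ := hG ι K e he
  refine (Finset.sum_le_univ_sum_of_nonneg (fun u => norm_nonneg _)).trans ?_
  refine (h3 ι (2 ^ K) s N y z hN hNK).trans ?_
  rw [Nat.cast_pow, Nat.cast_ofNat]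
  refine mul_le_mul_of_nonneg_left ?_ (by positivity)
  refine Finset.sum_le_sum (fun l _ => ?_)
  have h6 : (gd (y l - z l) : ℝ) ≤ 2 ^ (K - e l) := by
    have := (h5 x y hy z hz l).le
    exact_mod_cast this
  have h7 : (2 : ℝ) ^ K = 2 ^ e l * 2 ^ (K - e l) := by
    rw [← pow_add]
    congr 1
    have := he l
    omega
  have h8 : (gd (y l - z l) : ℝ) / 2 ^ K ≤ 1 / 2 ^ e l := by
    rw [h7, div_le_div_iff₀ (by positivity) (by positivity)]
    have : (0 : ℝ) < 2 ^ e l := by positivity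
    nlinarith
  calc 13 * ((s l : ℝ) + 1) * N l * (gd (y l - z l) / 2 ^ K)
      ≤ 13 * ((s l : ℝ) + 1) * N l * (1 / 2 ^ e l) :=
        mul_le_mul_of_nonneg_left h8 (by positivity)
    _ = 13 * ((s l : ℝ) + 1) * (N l / 2 ^ e l) := by ring

/-- the tail of the kernel seen from a point of the cell -/
theorem Q12_tail (h2 : S_P2) (hG : S_G2) (ι : Type) [Fintype ι] [DecidableEq ι] (K : ℕ)
    (e s N : ι → ℕ) (he : ∀ l, e l ≤ K) (hN : ∀ l, 1 ≤ N l) (hNK : ∀ l, N l ≤ 2 ^ K)
    (x y : ι → ZMod (2 ^ K)) (hy : y ∈ cell K e x) :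
    ∑ u ∈ (dil K e x)ᶜ, ‖Mp s N (u - y)‖ ≤
      (2 ^ K : ℝ) ^ Fintype.card ι * ∑ l, (2 : ℝ) ^ e l / N l := by
  classical
  obtain ⟨-, -, -, -, -, h6, -⟩ := hG ι K e he
  have h7 := h2 ι (2 ^ K) s N (fun l => 2 ^ (K - e l)) hN hNK (fun l => Nat.one_le_two_pow)
  have h8 : ∑ u ∈ (dil K e x)ᶜ, ‖Mp s N (u - y)‖ ≤
      ∑ v : ι → ZMod (2 ^ K) with (∃ l, 2 ^ (K - e l) ≤ gd (v l)), ‖Mp s N v‖ := by
    rw [← Finset.sum_image (f := fun v => ‖Mp s N v‖) (g := fun u => u - y)
      (fun a _ b _ hab => sub_left_injective hab)]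
    refine Finset.sum_le_sum_of_subset_of_nonneg ?_ (fun _ _ _ => norm_nonneg _)
    intro v hv
    obtain ⟨u, hu, rfl⟩ := Finset.mem_image.1 hv
    rw [Finset.mem_compl] at hu
    obtain ⟨l, hl⟩ := h6 x u hu
    simp only [Finset.mem_filter, Finset.mem_univ, true_and]
    exact ⟨l, hl y hy⟩
  refine h8.trans (h7.trans ?_)
  rw [Nat.cast_pow, Nat.cast_ofNat]
  refine mul_le_mul_of_nonneg_left ?_ (by positivity)
  refine Finset.sum_le_sum (fun l _ => ?_)
  have h9 : (2 : ℝ) ^ K = 2 ^ e l * 2 ^ (K - e l) := by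
    rw [← pow_add]
    congr 1
    have := he l
    omega
  have hNl : (0 : ℝ) < N l := by
    have := hN l
    exact_mod_cast this
  push_cast
  rw [h9, div_le_div_iff₀ (by positivity) (by positivity)]
  apply le_of_eq
  ring

theorem item_Q2 (h2 : S_P2) (hG : S_G2) : S_Q2 := by
  classical
  intro ι _ _ K e s N he hN hNK x y hy z hz
  have h1 := Q12_tail h2 hG ι K e s N he hN hNK x y hy
  have h3 := Q12_tail h2 hG ι K e s N he hN hNK x z hz
  have h4 : ∑ u ∈ (dil K e x)ᶜ, ‖Mp s N (u - y) - Mp s N (u - z)‖ ≤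
      ∑ u ∈ (dil K e x)ᶜ, ‖Mp s N (u - y)‖ + ∑ u ∈ (dil K e x)ᶜ, ‖Mp s N (u - z)‖ := by
    rw [← Finset.sum_add_distrib]
    exact Finset.sum_le_sum (fun u _ => norm_sub_le _ _)
  refine h4.trans ((add_le_add h1 h3).trans (le_of_eq ?_))
  ring

end MP_c03b66_an

end

section

/-! Hormander condition: geometric sums. -/

namespace MP_c03b66_an

theorem Q3_full (a : ℕ → ℝ) (h0 : 0 ≤ a 0) (h : ∀ j, 2 * a j ≤ a (j + 1)) (n : ℕ) :
    ∑ j ∈ Finset.range n, a j ≤ a n := by
  induction n with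
  | zero => simpa using h0
  | succ n ih =>
    rw [Finset.sum_range_succ]
    have := h n
    linarith

theorem Q3_A (a : ℕ → ℝ) (M : ℝ) (hM : 0 < M) (h0 : 0 ≤ a 0) (h : ∀ j, 2 * a j ≤ a (j + 1))
    (J : ℕ) : ∑ j ∈ Finset.range J, (if a j < 2 * M then a j / M else 0) ≤ 4 := by
  have hpos : ∀ j, 0 ≤ a j := by
    intro j
    induction j with
    | zero => exact h0
    | succ j ih => have := h j; linarith
  induction J with
  | zero => simp
  | succ J ih =>
    rw [Finset.sum_range_succ]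
    by_cases hJ : a J < 2 * M
    · rw [if_pos hJ]
      have h1 : ∑ j ∈ Finset.range J, (if a j < 2 * M then a j / M else 0) ≤
          ∑ j ∈ Finset.range J, a j / M := by
        apply Finset.sum_le_sum
        intro j _
        split_ifs
        · exact le_rfl
        · exact div_nonneg (hpos j) hM.le
      rw [← Finset.sum_div] at h1
      have h2 := Q3_full a h0 h J
      have h3 : (∑ j ∈ Finset.range J, a j) / M ≤ a J / M := div_le_div_of_nonneg_right h2 hM.le
      have h4 : a J / M < 2 := by rw [div_lt_iff₀ hM]; exact hJ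
      linarith
    · rw [if_neg hJ]
      linarith

theorem Q3_B (a : ℕ → ℝ) (M : ℝ) (hM : 0 < M) (h0 : 0 < a 0) (h : ∀ j, 2 * a j ≤ a (j + 1))
    (J : ℕ) : ∑ j ∈ Finset.range J, (if M ≤ a j then M / a j else 0) ≤
      max 0 (2 - 2 * (M / a J)) := by
  have hpos : ∀ j, 0 < a j := by
    intro j
    induction j with
    | zero => exact h0
    | succ j ih => have := h j; linarith
  induction J with
  | zero => simp
  | succ J ih =>
    rw [Finset.sum_range_succ]
    by_cases hJ : M ≤ a J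
    · rw [if_pos hJ]
      have h1 : M / a J ≤ 1 := by rw [div_le_one (hpos J)]; exact hJ
      rw [max_eq_right (by linarith)] at ih
      have h2 : 2 * (M / a (J + 1)) ≤ M / a J := by
        rw [← mul_div_assoc, div_le_div_iff₀ (hpos _) (hpos _)]
        have := h J
        nlinarith
      refine le_trans ?_ (le_max_right _ _)
      linarith
    · rw [if_neg hJ]
      push Not at hJ
      have h1 : 1 ≤ M / a J := by rw [one_le_div (hpos J)]; exact hJ.le
      rw [max_eq_left (by linarith)] at ih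
      refine le_trans ?_ (le_max_left _ _)
      linarith

theorem Q3_B' (a : ℕ → ℝ) (M : ℝ) (hM : 0 < M) (h0 : 0 < a 0) (h : ∀ j, 2 * a j ≤ a (j + 1))
    (J : ℕ) : ∑ j ∈ Finset.range J, (if M ≤ a j then M / a j else 0) ≤ 2 := by
  have hpos : ∀ j, 0 < a j := by
    intro j
    induction j with
    | zero => exact h0
    | succ j ih => have := h j; linarith
  refine (Q3_B a M hM h0 h J).trans (max_le (by norm_num) ?_)
  have : 0 ≤ M / a J := div_nonneg hM.le (hpos J).le
  linarith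

theorem item_Q3 : S_Q3 := by
  intro ι _ _ s N hN J e hcomp
  obtain ⟨hN0, hN1⟩ := hN
  have hpos : ∀ j l, 1 ≤ N j l := by
    intro j l
    induction j with
    | zero => exact hN0 l
    | succ j ih => have := hN1 j l; omega
  have hM : ∀ l, (0 : ℝ) < 2 ^ e l := fun l => by positivity
  have key : ∀ j ∈ Finset.range J, min (∑ l, 13 * ((s l : ℝ) + 1) * ((N j l : ℝ) / 2 ^ e l))
      (2 * ∑ l, (2 : ℝ) ^ e l / N j l) ≤
      ∑ l, (13 * ((s l : ℝ) + 1) * (if (N j l : ℝ) < 2 * 2 ^ e l then (N j l : ℝ) / 2 ^ e l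
        else 0) + 2 * (if (2 : ℝ) ^ e l ≤ N j l then (2 : ℝ) ^ e l / N j l else 0)) := by
    intro j hj
    have hA : ∀ l, 0 ≤ 13 * ((s l : ℝ) + 1) * (if (N j l : ℝ) < 2 * 2 ^ e l then
        (N j l : ℝ) / 2 ^ e l else 0) := by
      intro l
      split_ifs <;> positivity
    have hB : ∀ l, 0 ≤ 2 * (if (2 : ℝ) ^ e l ≤ N j l then (2 : ℝ) ^ e l / N j l else 0) := by
      intro l
      split_ifs <;> positivity
    rcases hcomp j (Finset.mem_range.1 hj) with h | h
    · refine (min_le_right _ _).trans ?_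
      rw [Finset.mul_sum]
      apply Finset.sum_le_sum
      intro l _
      have h1 : 2 ^ e l ≤ N j l :=
        Nat.pow_le_of_le_log (by have := hpos j l; omega) (h l)
      have h2 : (2 : ℝ) ^ e l ≤ N j l := by exact_mod_cast h1
      have h3 := hA l
      rw [if_pos h2]
      linarith
    · refine (min_le_left _ _).trans ?_
      apply Finset.sum_le_sum
      intro l _
      have h1 : N j l < 2 ^ (e l + 1) :=
        Nat.lt_pow_of_log_lt (by norm_num) (Nat.lt_succ_of_le (h l))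
      have h2 : (N j l : ℝ) < 2 * 2 ^ e l := by
        have : (N j l : ℝ) < 2 ^ (e l + 1) := by exact_mod_cast h1
        rw [pow_succ] at this
        linarith
      have h3 := hB l
      rw [if_pos h2]
      linarith
  refine (Finset.sum_le_sum key).trans ?_
  rw [Finset.sum_comm]
  apply Finset.sum_le_sum
  intro l _
  rw [Finset.sum_add_distrib, ← Finset.mul_sum, ← Finset.mul_sum]
  have h0 : (0 : ℝ) < (N 0 l : ℝ) := by exact_mod_cast hN0 l
  have hd : ∀ j, 2 * (N j l : ℝ) ≤ (N (j + 1) l : ℝ) := fun j => by exact_mod_cast hN1 j l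
  have h1 := Q3_A (fun j => (N j l : ℝ)) (2 ^ e l) (hM l) h0.le hd J
  have h2 := Q3_B' (fun j => (N j l : ℝ)) (2 ^ e l) (hM l) h0 hd J
  have h3 : (0 : ℝ) ≤ (s l : ℝ) := by positivity
  have h4 := mul_le_mul_of_nonneg_left h1 (by positivity : (0 : ℝ) ≤ 13 * ((s l : ℝ) + 1))
  linarith

end MP_c03b66_an

end

section

/-! Item W1: weak type on the grid. -/

set_option autoImplicit false

open MeasureTheory UnitAddTorus

namespace MP_c03b66_an

theorem W1_expand (hK : S_K4) {ι : Type} [Fintype ι] [DecidableEq ι] (K Q : ℕ)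
    (s : ι → ℕ) (N : ℕ → ι → ℕ) (J : ℕ) (hN : ∀ j l, 1 ≤ N j l)
    (hQ : ∀ j < J, ∀ l, (s l + 1) * N j l ≤ Q) (u : ι → ZMod (2 ^ K)) :
    ∑ j ∈ Finset.range J, Mp s (N j) u =
      ∑ k ∈ Fintype.piFinset fun _ : ι => Finset.Ioo (-(Q : ℤ)) Q,
        (((∑ j ∈ Finset.range J, ∏ l, tri (N j l) (s l) (k l) : ℝ)) : ℂ) *
          ∏ l, ZMod.stdAddChar ((k l : ZMod (2 ^ K)) * u l) := by
  have h1 : ∀ j ∈ Finset.range J, Mp s (N j) u =
      ∑ k ∈ Fintype.piFinset fun _ : ι => Finset.Ioo (-(Q : ℤ)) Q,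
        ((∏ l, tri (N j l) (s l) (k l) : ℝ) : ℂ) *
          ∏ l, ZMod.stdAddChar ((k l : ZMod (2 ^ K)) * u l) := by
    intro j hj
    rw [Finset.mem_range] at hj
    unfold Mp
    rw [Finset.prod_congr rfl fun l _ => hK (2 ^ K) (s l) (N j l) Q (hN j l) (hQ j hj l) (u l),
      Finset.prod_univ_sum]
    refine Finset.sum_congr rfl fun k _ => ?_
    rw [Finset.prod_mul_distrib, Complex.ofReal_prod]
  rw [Finset.sum_congr rfl h1, Finset.sum_comm]
  refine Finset.sum_congr rfl fun k _ => ?_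
  rw [← Finset.sum_mul, Complex.ofReal_sum]

theorem W1_card {ι : Type} [Fintype ι] [DecidableEq ι] (K : ℕ) (e : ι → ℕ) (l : ι)
    (hl : e l < K) :
    ∏ i, 2 ^ (K - e i) ≤ 2 * ∏ i, 2 ^ (K - Function.update e l (e l + 1) i) := by
  rw [← Finset.mul_prod_erase Finset.univ (fun i => 2 ^ (K - e i)) (Finset.mem_univ l),
    ← Finset.mul_prod_erase Finset.univ (fun i => 2 ^ (K - Function.update e l (e l + 1) i))
      (Finset.mem_univ l), Function.update_self]
  have h1 : ∏ x ∈ Finset.univ.erase l, 2 ^ (K - Function.update e l (e l + 1) x)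
      = ∏ x ∈ Finset.univ.erase l, 2 ^ (K - e x) := by
    refine Finset.prod_congr rfl fun x hx => ?_
    rw [Function.update_of_ne (Finset.ne_of_mem_erase hx)]
  rw [h1, ← mul_assoc, ← pow_succ']
  have h2 : K - (e l + 1) + 1 = K - e l := by omega
  rw [h2]

theorem item_W1 (hC : S_C1) (hL1 : S_L1) (hL2 : S_L2) (hK : S_K4) (hG1 : S_G1) (hG2 : S_G2)
    (hQ1 : S_Q1) (hQ2 : S_Q2) (hQ3 : S_Q3) : S_W1 := by
  intro ι _ _ s hs
  have hB0 : (0 : ℝ) ≤ ∑ l, 56 * ((s l : ℝ) + 1) :=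
    Finset.sum_nonneg fun l _ => by positivity
  have hD0 : (0 : ℝ) ≤ 3 ^ Fintype.card ι := by positivity
  refine ⟨1 + 8 * 9 + 2 * (∑ l, 56 * ((s l : ℝ) + 1)) + 3 ^ Fintype.card ι, by positivity, ?_⟩
  intro N hN J K hJK h t ht
  rcases Nat.eq_zero_or_pos J with hJ | hJ
  · subst hJ
    have h0 : ∀ x, cv (fun u : ι → ZMod (2 ^ K) =>
        ∑ j ∈ Finset.range 0, Mp s (N j) u) h x = 0 := by
      intro x
      simp [cv]
    have h1 : (Finset.univ.filter fun x => t < ‖cv (fun u : ι → ZMod (2 ^ K) =>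
        ∑ j ∈ Finset.range 0, Mp s (N j) u) h x‖) = ∅ := by
      refine Finset.filter_eq_empty_iff.mpr fun x _ => ?_
      rw [h0 x, norm_zero]
      exact not_lt.mpr ht.le
    rw [h1]
    have : 0 ≤ ∑ x, ‖h x‖ := Finset.sum_nonneg fun x _ => norm_nonneg _
    simp only [Finset.card_empty, Nat.cast_zero, mul_zero]
    positivity
  · obtain ⟨l₀, hl₀⟩ := hs
    have hN1 : ∀ j l, 1 ≤ N j l := by
      intro j l
      induction j with
      | zero => exact hN.1 l
      | succ j ih => exact le_trans (by omega) (hN.2 j l)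
    have hK1 : 1 ≤ K := by
      by_contra hK0
      have hK0 : K = 0 := by omega
      have h1 := hJK 0 hJ l₀
      have h2 := hN1 0 l₀
      rw [hK0, pow_zero] at h1
      have h3 : 1 ≤ (s l₀ + 1) * N 0 l₀ := Nat.one_le_iff_ne_zero.mpr (by positivity)
      omega
    obtain ⟨k, rfl⟩ : ∃ k, K = k + 1 := ⟨K - 1, by omega⟩
    have hQ : ∀ j < J, ∀ l, (s l + 1) * N j l ≤ 2 ^ k := by
      intro j hj l
      have h1 := hJK j hj l
      rw [pow_succ] at h1
      omega
    have hNK : ∀ j < J, ∀ l, N j l ≤ 2 ^ (k + 1) := by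
      intro j hj l
      have h1 := hQ j hj l
      have h2 : N j l ≤ (s l + 1) * N j l := Nat.le_mul_of_pos_left _ (by omega)
      rw [pow_succ]
      omega
    obtain ⟨L, e, he0, heL, hes, heK, hec⟩ := hG1 ι J (k + 1) (fun j l => Nat.log 2 (N j l))
      (fun j l => Nat.log_mono_right (by have := hN.2 j l; omega))
      (fun j hj l => by
        have h1 := Nat.log_mono_right (b := 2) (hNK j hj l)
        rwa [Nat.log_pow (by norm_num)] at h1)
    refine hC (ι → ZMod (2 ^ (k + 1))) L (fun m => cell (k + 1) (e m))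
      (fun m => dil (k + 1) (e m)) (fun u => ∑ j ∈ Finset.range J, Mp s (N j) u) 9
      (∑ l, 56 * ((s l : ℝ) + 1)) (3 ^ Fintype.card ι) (by norm_num) hB0 hD0 ?_ ?_ ?_ ?_ ?_ ?_ ?_
      ?_ ?_ h t ht
    · intro m hm x
      exact (hG2 ι (k + 1) (e m) (heK m hm)).1 x
    · intro m hm x y hy
      exact (hG2 ι (k + 1) (e m) (heK m hm)).2.1 x y hy
    · intro x
      exact (hG2 ι (k + 1) (e 0) (heK 0 (Nat.zero_le _))).2.2.2.2.2.2.1 x he0
    · intro x
      exact (hG2 ι (k + 1) (e L) (heK L le_rfl)).2.2.2.2.2.2.2.1 x heL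
    · intro m hm x
      obtain ⟨l, hl⟩ := hes m hm
      have h1 : e m l < k + 1 := by
        have h2 := heK (m + 1) hm l
        rw [hl, Function.update_self] at h2
        omega
      have h3 := (hG2 ι (k + 1) (e m) (heK m hm.le)).2.2.2.2.2.2.2.2 x l h1
      show cell (k + 1) (e (m + 1)) x ⊆ cell (k + 1) (e m) x
      rw [hl]
      exact h3
    · intro m hm x
      obtain ⟨l, hl⟩ := hes m hm
      have h1 : e m l < k + 1 := by
        have h2 := heK (m + 1) hm l
        rw [hl, Function.update_self] at h2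
        omega
      show (cell (k + 1) (e m) x).card ≤ 2 * (cell (k + 1) (e (m + 1)) x).card
      rw [(hG2 ι (k + 1) (e m) (heK m hm.le)).2.2.1 x,
        (hG2 ι (k + 1) (e (m + 1)) (heK (m + 1) hm)).2.2.1 x, hl]
      exact W1_card (k + 1) (e m) l h1
    · intro m hm x
      have h1 := (hG2 ι (k + 1) (e m) (heK m hm)).2.2.2.1 x
      exact_mod_cast h1
    · intro g
      have h1 := hL2 ι (2 ^ (k + 1)) (2 ^ k)
        (fun κ => ∑ j ∈ Finset.range J, ∏ l, tri (N j l) (s l) (κ l)) 3 (by rw [pow_succ]; omega)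
        (fun κ => by
          rw [abs_of_nonneg]
          · exact hL1 ι s N hN ⟨l₀, hl₀⟩ J κ
          · exact Finset.sum_nonneg fun j _ => Finset.prod_nonneg fun l _ => le_max_left _ _) g
      have h2 : (fun u : ι → ZMod (2 ^ (k + 1)) => ∑ j ∈ Finset.range J, Mp s (N j) u) =
          fun u => ∑ κ ∈ Fintype.piFinset fun _ : ι => Finset.Ioo (-((2 ^ k : ℕ) : ℤ)) (2 ^ k : ℕ),
            (((∑ j ∈ Finset.range J, ∏ l, tri (N j l) (s l) (κ l) : ℝ)) : ℂ) *
              ∏ l, ZMod.stdAddChar ((κ l : ZMod (2 ^ (k + 1))) * u l) := by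
        funext u
        exact W1_expand hK (k + 1) (2 ^ k) s N J hN1 hQ u
      rw [h2]
      norm_num at h1 ⊢
      exact h1
    · intro m hm x y hy z hz
      have hcard : (Fintype.card (ι → ZMod (2 ^ (k + 1))) : ℝ)
          = ((2 : ℝ) ^ (k + 1)) ^ Fintype.card ι := by
        rw [Fintype.card_fun, ZMod.card]
        push_cast
        ring
      have hX0 : (0 : ℝ) ≤ ((2 : ℝ) ^ (k + 1)) ^ Fintype.card ι := by positivity
      have h1 : ∀ j ∈ Finset.range J,
          ∑ u ∈ (dil (k + 1) (e m) x)ᶜ, ‖Mp s (N j) (u - y) - Mp s (N j) (u - z)‖ ≤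
            ((2 : ℝ) ^ (k + 1)) ^ Fintype.card ι *
              min (∑ l, 13 * (s l + 1) * ((N j l : ℝ) / 2 ^ e m l))
                (2 * ∑ l, (2 : ℝ) ^ e m l / N j l) := by
        intro j hj
        rw [Finset.mem_range] at hj
        rw [mul_min_of_nonneg _ _ hX0]
        exact le_min
          (hQ1 ι (k + 1) (e m) s (N j) (heK m hm) (hN1 j) (hNK j hj) x y hy z hz)
          (hQ2 ι (k + 1) (e m) s (N j) (heK m hm) (hN1 j) (hNK j hj) x y hy z hz)
      calc ∑ u ∈ (dil (k + 1) (e m) x)ᶜ,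
            ‖∑ j ∈ Finset.range J, Mp s (N j) (u - y) - ∑ j ∈ Finset.range J, Mp s (N j) (u - z)‖
          ≤ ∑ u ∈ (dil (k + 1) (e m) x)ᶜ, ∑ j ∈ Finset.range J,
            ‖Mp s (N j) (u - y) - Mp s (N j) (u - z)‖ := by
            refine Finset.sum_le_sum fun u _ => ?_
            rw [← Finset.sum_sub_distrib]
            exact norm_sum_le _ _
        _ = ∑ j ∈ Finset.range J, ∑ u ∈ (dil (k + 1) (e m) x)ᶜ,
            ‖Mp s (N j) (u - y) - Mp s (N j) (u - z)‖ := Finset.sum_comm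
        _ ≤ ∑ j ∈ Finset.range J, ((2 : ℝ) ^ (k + 1)) ^ Fintype.card ι *
              min (∑ l, 13 * (s l + 1) * ((N j l : ℝ) / 2 ^ e m l))
                (2 * ∑ l, (2 : ℝ) ^ e m l / N j l) := Finset.sum_le_sum h1
        _ = ((2 : ℝ) ^ (k + 1)) ^ Fintype.card ι * ∑ j ∈ Finset.range J,
              min (∑ l, 13 * (s l + 1) * ((N j l : ℝ) / 2 ^ e m l))
                (2 * ∑ l, (2 : ℝ) ^ e m l / N j l) := by rw [Finset.mul_sum]
        _ ≤ ((2 : ℝ) ^ (k + 1)) ^ Fintype.card ι * ∑ l, 56 * ((s l : ℝ) + 1) :=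
            mul_le_mul_of_nonneg_left (hQ3 ι s N hN J (e m) (hec m hm)) hX0
        _ = (∑ l, 56 * ((s l : ℝ) + 1)) * Fintype.card (ι → ZMod (2 ^ (k + 1))) := by
            rw [hcard]; ring

end MP_c03b66_an

end

section

/-! `L^{1/2}` bound on the grid. -/

namespace MP_c03b66_an

theorem item_W2 (h2 : S_C2) (h1 : S_W1) : S_W2 := by
  intro ι _ _ s hs
  obtain ⟨C, hC, h⟩ := h1 ι s hs
  refine ⟨6 * Real.sqrt C, by positivity, ?_⟩
  intro N hN J K hJ g
  have hcard : (Fintype.card (ι → ZMod (2 ^ K)) : ℝ) = ((2 : ℝ) ^ K) ^ Fintype.card ι := by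
    rw [Fintype.card_fun, ZMod.card]
    push_cast
    rfl
  have hpos : 0 < ((2 : ℝ) ^ K) ^ Fintype.card ι := by positivity
  have key := h2 (ι → ZMod (2 ^ K))
    (fun x => ‖cv (fun u => ∑ j ∈ Finset.range J, Mp s (N j) u) g x‖)
    (C * (∑ x, ‖g x‖) / ((2 : ℝ) ^ K) ^ Fintype.card ι) (fun x => norm_nonneg _)
    (by positivity)
    (fun t ht => by
      rw [hcard, div_mul_cancel₀ _ hpos.ne']
      exact h N hN J K hJ g t ht)
  rw [hcard] at key
  rw [div_le_iff₀ hpos]
  refine key.trans (le_of_eq ?_)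
  rw [mul_div_assoc, Real.sqrt_mul hC.le]
  ring

end MP_c03b66_an

end

section

/-! Item W3: the grid operator acts on characters by the symbol. -/

namespace MP_c03b66_an

theorem W3_one (hK : S_K4) (q : ℕ) [NeZero q] (s N Q : ℕ) (hQq : 2 * Q ≤ q) (hN : 1 ≤ N)
    (hQ : (s + 1) * N ≤ Q) (k : ℤ) (hk : |k| < Q) (x : ZMod q) :
    ∑ t : ZMod q, Mk s N (x - t) * ZMod.stdAddChar ((k : ZMod q) * t) =
      (q : ℂ) * ((tri N s k : ℂ) * ZMod.stdAddChar ((k : ZMod q) * x)) := by
  have h1 : ∀ t : ZMod q, Mk s N (x - t) * ZMod.stdAddChar ((k : ZMod q) * t) =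
      ∑ a ∈ Finset.Ioo (-(Q : ℤ)) Q, (tri N s a : ℂ) * ZMod.stdAddChar ((a : ZMod q) * x) *
        ZMod.stdAddChar (t * ((k - a : ℤ) : ZMod q)) := by
    intro t
    rw [hK q s N Q hN hQ (x - t), Finset.sum_mul]
    refine Finset.sum_congr rfl fun a _ => ?_
    rw [mul_assoc, mul_assoc, ← AddChar.map_add_eq_mul, ← AddChar.map_add_eq_mul]
    congr 2
    push_cast
    ring
  simp_rw [h1]
  rw [Finset.sum_comm]
  have h2 : ∀ a ∈ Finset.Ioo (-(Q : ℤ)) Q, ∑ t : ZMod q, (tri N s a : ℂ) *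
      ZMod.stdAddChar ((a : ZMod q) * x) * ZMod.stdAddChar (t * ((k - a : ℤ) : ZMod q)) =
      if a = k then (q : ℂ) * ((tri N s k : ℂ) * ZMod.stdAddChar ((k : ZMod q) * x)) else 0 := by
    intro a ha
    rw [Finset.mem_Ioo] at ha
    rw [abs_lt] at hk
    rw [← Finset.mul_sum, AddChar.sum_mulShift _ (ZMod.isPrimitive_stdAddChar q), ZMod.card]
    by_cases hak : a = k
    · subst hak
      simp
      ring
    · have h3 : ((k - a : ℤ) : ZMod q) ≠ 0 := by
        intro h
        rw [ZMod.intCast_zmod_eq_zero_iff_dvd] at h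
        have h4 : k - a ≠ 0 := by omega
        have h5 := Int.le_of_dvd (abs_pos.2 h4) ((dvd_abs _ _).2 h)
        have h6 : |k - a| < 2 * Q := by
          rw [abs_lt]; constructor <;> linarith
        have h7 : (2 * Q : ℤ) ≤ q := by exact_mod_cast hQq
        linarith
      rw [if_neg h3, if_neg hak]
      simp
  rw [Finset.sum_congr rfl h2, Finset.sum_ite_eq' , if_pos]
  rw [Finset.mem_Ioo]
  rw [abs_lt] at hk
  exact hk

theorem item_W3 (hK : S_K4) : S_W3 := by
  intro ι _ _ q _ Q s N hQq hN hQ k hk x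
  unfold cv Mp
  have h1 : ∀ y : ι → ZMod q, (∏ l, Mk (s l) (N l) ((x - y) l)) *
      ∏ l, (ZMod.stdAddChar ((k l : ZMod q) * y l) : ℂ) =
      ∏ l, (Mk (s l) (N l) (x l - y l) * ZMod.stdAddChar ((k l : ZMod q) * y l)) := by
    intro y
    rw [Finset.prod_mul_distrib]
    rfl
  simp_rw [h1]
  have h2 : ∑ y : ι → ZMod q,
      ∏ l, (Mk (s l) (N l) (x l - y l) * (ZMod.stdAddChar ((k l : ZMod q) * y l) : ℂ)) =
      ∏ l, ∑ t : ZMod q, (Mk (s l) (N l) (x l - t) * ZMod.stdAddChar ((k l : ZMod q) * t)) := by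
    rw [Finset.prod_univ_sum, Fintype.piFinset_univ]
  rw [h2]
  have h3 : ∀ l, ∑ t : ZMod q, (Mk (s l) (N l) (x l - t) *
      (ZMod.stdAddChar ((k l : ZMod q) * t) : ℂ)) =
      (q : ℂ) * ((tri (N l) (s l) (k l) : ℂ) * ZMod.stdAddChar ((k l : ZMod q) * x l)) :=
    fun l => W3_one hK q (s l) (N l) Q hQq (hN l) (hQ l) (k l) (hk l) (x l)
  simp_rw [h3]
  rw [Finset.prod_mul_distrib, Finset.prod_mul_distrib, Finset.prod_const, Finset.card_univ,
    Fintype.card_fun, ZMod.card, Complex.ofReal_prod]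
  have hq : (q : ℂ) ≠ 0 := Nat.cast_ne_zero.2 (NeZero.ne q)
  have hq2 : (q : ℂ) ^ Fintype.card ι ≠ 0 := pow_ne_zero _ hq
  push_cast
  field_simp

end MP_c03b66_an

end
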