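import Pool.Agent.Work.MP_c03b66_an.Bd.B01

/-! Bundle of small proof modules (one section per former module). -/

section

/-! Item A1: Fejér smoothing of a bounded functional on `C(T^n)`. -/

open MeasureTheory UnitAddTorus

namespace MP_c03b66_an

noncomputable section

/-- `D_m ζ^{-m}` as a sum of negative powers. -/
lemma A1_D (z : ℂ) (hz : z ≠ 0) (m : ℕ) :
    (∑ a ∈ Finset.range m, z ^ (a : ℤ)) * z ^ (-(m : ℤ)) =
      ∑ j ∈ Finset.range m, z ^ (-((j : ℤ) + 1)) := by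
  induction m with
  | zero => simp
  | succ m ih =>
    rw [Finset.sum_range_succ, Finset.sum_range_succ']
    have h1 : z ^ (-((m + 1 : ℕ) : ℤ)) = z ^ (-(m : ℤ)) * z ^ (-1 : ℤ) := by
      rw [← zpow_add₀ hz]; congr 1; push_cast; ring
    rw [h1, ← mul_assoc, add_mul, ih, add_mul]
    congr 1
    · rw [Finset.sum_mul]
      refine Finset.sum_congr rfl fun j _ => ?_
      rw [← zpow_add₀ hz]; congr 1
    · rw [← zpow_add₀ hz, ← zpow_add₀ hz]; congr 1; push_cast; ring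

lemma A1_Dinv (z : ℂ) (hz : z ≠ 0) (m : ℕ) :
    (∑ a ∈ Finset.range m, z ^ (-(a : ℤ))) * z ^ (m : ℤ) =
      ∑ j ∈ Finset.range m, z ^ ((j : ℤ) + 1) := by
  have h := A1_D z⁻¹ (inv_ne_zero hz) m
  simpa [inv_zpow', neg_neg] using h

lemma A1_G (z : ℂ) (m : ℕ) :
    ∑ d ∈ Finset.Icc (-(m : ℤ)) m, z ^ d =
      1 + (∑ j ∈ Finset.range m, z ^ (-((j : ℤ) + 1))) + ∑ j ∈ Finset.range m, z ^ ((j : ℤ) + 1) := by
  induction m with
  | zero => simp
  | succ m ih =>
    have h1 : Finset.Icc (-((m + 1 : ℕ) : ℤ)) ((m + 1 : ℕ) : ℤ) =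
        insert (-((m : ℤ) + 1)) (insert ((m : ℤ) + 1) (Finset.Icc (-(m : ℤ)) m)) := by
      ext d
      simp only [Finset.mem_Icc, Finset.mem_insert]
      push_cast
      omega
    rw [h1, Finset.sum_insert, Finset.sum_insert, ih, Finset.sum_range_succ, Finset.sum_range_succ]
    · ring
    · simp
    · simp only [Finset.mem_insert, Finset.mem_Icc]; omega

/-- The Fejér kernel. -/
lemma A1_fejer (z : ℂ) (hz : z ≠ 0) (m : ℕ) :
    ∑ d ∈ Finset.Ioo (-(m : ℤ)) m, ((m : ℂ) - (|d| : ℤ)) * z ^ d =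
      (∑ a ∈ Finset.range m, z ^ (a : ℤ)) * ∑ a ∈ Finset.range m, z ^ (-(a : ℤ)) := by
  induction m with
  | zero => simp
  | succ m ih =>
    have h1 : Finset.Ioo (-((m + 1 : ℕ) : ℤ)) ((m + 1 : ℕ) : ℤ) = Finset.Icc (-(m : ℤ)) m := by
      ext d
      simp only [Finset.mem_Icc, Finset.mem_Ioo]
      push_cast
      omega
    have h2 : ∑ d ∈ Finset.Ioo (-(m : ℤ)) m, ((m : ℂ) - (|d| : ℤ)) * z ^ d =
        ∑ d ∈ Finset.Icc (-(m : ℤ)) m, ((m : ℂ) - (|d| : ℤ)) * z ^ d := by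
      refine Finset.sum_subset (fun d hd => ?_) fun d hd hd' => ?_
      · simp only [Finset.mem_Icc, Finset.mem_Ioo] at hd ⊢; omega
      · simp only [Finset.mem_Icc, Finset.mem_Ioo] at hd hd'
        have : |d| = (m : ℤ) := by
          rcases abs_cases d with h | h <;> omega
        rw [this]; push_cast; ring
    rw [h1]
    have h3 : ∑ d ∈ Finset.Icc (-(m : ℤ)) m, (((m + 1 : ℕ) : ℂ) - (|d| : ℤ)) * z ^ d =
        ∑ d ∈ Finset.Icc (-(m : ℤ)) m, ((m : ℂ) - (|d| : ℤ)) * z ^ d +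
          ∑ d ∈ Finset.Icc (-(m : ℤ)) m, z ^ d := by
      rw [← Finset.sum_add_distrib]
      refine Finset.sum_congr rfl fun d _ => ?_
      push_cast; ring
    rw [h3, ← h2, ih, A1_G, ← A1_D z hz, ← A1_Dinv z hz, Finset.sum_range_succ,
      Finset.sum_range_succ]
    have h4 : z ^ (m : ℤ) * z ^ (-(m : ℤ)) = 1 := by
      rw [← zpow_add₀ hz]; simp
    linear_combination (-1 : ℂ) * h4

/-- the weights -/
def A1_w {n : ℕ} (m : ℕ) (k : Fin n → ℤ) : ℝ := ∏ i, (1 - |(k i : ℝ)| / m)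

/-- the box -/
def A1_B (n m : ℕ) : Finset (Fin n → ℤ) :=
  Fintype.piFinset fun _ : Fin n => Finset.Ioo (-(m : ℤ)) m

lemma A1_one (m : ℕ) (hm : 1 ≤ m) (x : UnitAddCircle) :
    ∑ d ∈ Finset.Ioo (-(m : ℤ)) m, ((1 - |(d : ℝ)| / m : ℝ) : ℂ) * fourier d x =
      ((1 / m * ‖∑ a ∈ Finset.range m, fourier (a : ℤ) x‖ ^ 2 : ℝ) : ℂ) := by
  have hm0 : (m : ℂ) ≠ 0 := by exact_mod_cast (by omega : m ≠ 0)
  set z : ℂ := (AddCircle.toCircle x : ℂ) with hz
  have hz0 : z ≠ 0 := by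
    rw [hz]; exact Circle.coe_ne_zero _
  have hf : ∀ d : ℤ, (fourier d x : ℂ) = z ^ d := by
    intro d
    rw [fourier_apply, hz, AddCircle.toCircle_zsmul, Circle.coe_zpow]
  have hconj : ∀ a : ℤ, star (z ^ a) = z ^ (-a) := by
    intro a
    have h1 : star z = z⁻¹ := by
      rw [hz]
      have := (Circle.coe_inv_eq_conj (AddCircle.toCircle x)).symm
      simpa using this
    rw [star_zpow₀, h1, inv_zpow, zpow_neg]
  have h1 := A1_fejer z hz0 m
  have h2 : ∑ d ∈ Finset.Ioo (-(m : ℤ)) m, ((1 - |(d : ℝ)| / m : ℝ) : ℂ) * fourier d x =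
      (1 / m : ℂ) * ∑ d ∈ Finset.Ioo (-(m : ℤ)) m, ((m : ℂ) - (|d| : ℤ)) * z ^ d := by
    rw [Finset.mul_sum]
    refine Finset.sum_congr rfl fun d _ => ?_
    rw [hf]
    have : ((|(d : ℝ)| : ℝ) : ℂ) = ((|d| : ℤ) : ℂ) := by
      rw [← Int.cast_abs, Complex.ofReal_intCast]
    push_cast at this ⊢
    rw [this]
    field_simp
  rw [h2, h1]
  have h3 : (∑ a ∈ Finset.range m, z ^ (-(a : ℤ))) = star (∑ a ∈ Finset.range m, z ^ (a : ℤ)) := by
    rw [star_sum]
    exact Finset.sum_congr rfl fun a _ => (hconj a).symm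
  rw [h3]
  have h4 := Complex.mul_conj (∑ a ∈ Finset.range m, z ^ (a : ℤ))
  rw [Complex.normSq_eq_norm_sq] at h4
  have h5 : (∑ a ∈ Finset.range m, (fourier (a : ℤ) x : ℂ)) = ∑ a ∈ Finset.range m, z ^ (a : ℤ) :=
    Finset.sum_congr rfl fun a _ => hf a
  rw [h5]
  have h6 : (∑ a ∈ Finset.range m, z ^ (a : ℤ)) * star (∑ a ∈ Finset.range m, z ^ (a : ℤ)) =
      ((‖∑ a ∈ Finset.range m, z ^ (a : ℤ)‖ ^ 2 : ℝ) : ℂ) := by simpa using h4
  rw [h6]
  push_cast
  ring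

/-- the kernel is nonnegative -/
lemma A1_K {n : ℕ} (m : ℕ) (hm : 1 ≤ m) (z : Tor n) :
    ∃ r : ℝ, 0 ≤ r ∧ tp (A1_B n m) (fun k => (A1_w m k : ℂ)) z = (r : ℂ) := by
  refine ⟨∏ i, (1 / m * ‖∑ a ∈ Finset.range m, (fourier (a : ℤ) (z i) : ℂ)‖ ^ 2 : ℝ),
    Finset.prod_nonneg fun i _ => by positivity, ?_⟩
  rw [tp_apply, Complex.ofReal_prod]
  simp_rw [← A1_one m hm]
  rw [Finset.prod_univ_sum]
  refine Finset.sum_congr rfl fun k _ => ?_
  rw [A1_w, Complex.ofReal_prod, Finset.prod_mul_distrib]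
  rfl

lemma A1_K' {n : ℕ} (m : ℕ) (hm : 1 ≤ m) (z : Tor n) :
    ((‖tp (A1_B n m) (fun k => (A1_w m k : ℂ)) z‖ : ℝ) : ℂ) =
      tp (A1_B n m) (fun k => (A1_w m k : ℂ)) z := by
  obtain ⟨r, hr, h⟩ := A1_K m hm z
  rw [h, Complex.norm_real, Real.norm_of_nonneg hr]

lemma A1_intK {n : ℕ} (m : ℕ) (hm : 1 ≤ m) (y : Tor n) :
    ∫ x, ‖tp (A1_B n m) (fun k => (A1_w m k : ℂ)) (y - x)‖ ∂haar n = 1 := by
  have h1 : ((∫ x, ‖tp (A1_B n m) (fun k => (A1_w m k : ℂ)) (y - x)‖ ∂haar n : ℝ) : ℂ) = 1 := by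
    have h0 : ∫ x, ((‖tp (A1_B n m) (fun k => (A1_w m k : ℂ)) (y - x)‖ : ℝ) : ℂ) ∂haar n =
      ((∫ x, ‖tp (A1_B n m) (fun k => (A1_w m k : ℂ)) (y - x)‖ ∂haar n : ℝ) : ℂ) :=
        integral_ofReal
    rw [← h0]
    simp_rw [A1_K' m hm]
    have h2 : ∀ x, tp (A1_B n m) (fun k => (A1_w m k : ℂ)) (y - x) =
        ∑ k ∈ A1_B n m, ((A1_w m k : ℂ) * mFourier k y) * mFourier (-k) x := by
      intro x
      rw [tp_apply]
      refine Finset.sum_congr rfl fun k _ => ?_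
      rw [sub_eq_add_neg, mF_pt_add, mul_assoc]
      congr 2
      simp only [mFourier, ContinuousMap.coe_mk]
      refine Finset.prod_congr rfl fun i _ => ?_
      simp [fourier_apply]
    simp_rw [h2]
    rw [integral_finsetSum _ (fun k _ => cont_int (by fun_prop))]
    have h3 : ∀ k ∈ A1_B n m, ∫ x, ((A1_w m k : ℂ) * mFourier k y) * mFourier (-k) x ∂haar n =
        if k = 0 then 1 else 0 := by
      intro k _
      rw [integral_const_mul, int_mF]
      by_cases hk : k = 0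
      · subst hk; simp [A1_w, mFourier_zero]
      · rw [if_neg hk, if_neg (by simpa using hk), mul_zero]
    rw [Finset.sum_congr rfl h3, Finset.sum_ite_eq', if_pos]
    simp only [A1_B, Fintype.mem_piFinset, Finset.mem_Ioo, Pi.zero_apply]
    intro i; constructor
    · have : (1 : ℤ) ≤ m := by exact_mod_cast hm
      linarith
    · exact_mod_cast (by omega : 0 < m)
  exact_mod_cast h1

lemma A1_mF_negx {n : ℕ} (k : Fin n → ℤ) (x : Tor n) : mFourier k (-x) = mFourier (-k) x := by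
  simp only [mFourier, ContinuousMap.coe_mk]
  refine Finset.prod_congr rfl fun i _ => ?_
  simp [fourier_apply]

/-- Fejér means are contractions -/
lemma A1_contr {n : ℕ} (m : ℕ) (hm : 1 ≤ m) (h : C(Tor n, ℂ)) (hh : ∀ x, ‖h x‖ ≤ 1) :
    ‖tp (A1_B n m) (fun k => (A1_w m k : ℂ) * fc h k)‖ ≤ 1 := by
  rw [ContinuousMap.norm_le _ zero_le_one]
  intro y
  have h1 : tp (A1_B n m) (fun k => (A1_w m k : ℂ) * fc h k) y =
      ∫ x, h x * tp (A1_B n m) (fun k => (A1_w m k : ℂ)) (y - x) ∂haar n := by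
    have h2 : ∀ x, h x * tp (A1_B n m) (fun k => (A1_w m k : ℂ)) (y - x) =
        ∑ k ∈ A1_B n m, ((A1_w m k : ℂ) * mFourier k y) * (mFourier (-k) x * h x) := by
      intro x
      rw [tp_apply, Finset.mul_sum]
      refine Finset.sum_congr rfl fun k _ => ?_
      rw [sub_eq_add_neg, mF_pt_add, A1_mF_negx]
      ring
    simp_rw [h2]
    rw [integral_finsetSum _ (fun k _ => cont_int (by fun_prop)), tp_apply]
    refine Finset.sum_congr rfl fun k _ => ?_
    rw [integral_const_mul, ← fc_eq]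
    ring
  rw [h1]
  refine (norm_integral_le_integral_norm _).trans (le_trans ?_ (A1_intK m hm y).le)
  refine integral_mono (cont_int (by fun_prop)) (cont_int (by fun_prop)) fun x => ?_
  simp only [norm_mul]
  exact (mul_le_mul_of_nonneg_right (hh x) (norm_nonneg _)).trans (by rw [one_mul])

lemma A1_pair {n : ℕ} (L : C(Tor n, ℂ) →L[ℂ] ℂ) (m : ℕ) (hm : 1 ≤ m) (h : C(Tor n, ℂ))
    (hh : ∀ x, ‖h x‖ ≤ 1) :
    ‖∫ x, h x * star (tp (A1_B n m) (fun k => (A1_w m k : ℂ) * star (L (mFourier k))) x)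
      ∂haar n‖ ≤ ‖L‖ := by
  have h1 : ∫ x, h x * star (tp (A1_B n m) (fun k => (A1_w m k : ℂ) * star (L (mFourier k))) x)
      ∂haar n = L (tp (A1_B n m) (fun k => (A1_w m k : ℂ) * fc h k)) := by
    have h2 : ∀ x, h x * star (tp (A1_B n m)
        (fun k => (A1_w m k : ℂ) * star (L (mFourier k))) x) =
        ∑ k ∈ A1_B n m, ((A1_w m k : ℂ) * L (mFourier k)) * (mFourier (-k) x * h x) := by
      intro x
      rw [tp_apply, star_sum, Finset.mul_sum]
      refine Finset.sum_congr rfl fun k _ => ?_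
      rw [star_mul, star_mul, star_star, mF_neg]
      have : star ((A1_w m k : ℝ) : ℂ) = ((A1_w m k : ℝ) : ℂ) := Complex.conj_ofReal _
      rw [this]
      ring
    simp_rw [h2]
    rw [integral_finsetSum _ (fun k _ => cont_int (by fun_prop)), tp, map_sum]
    refine Finset.sum_congr rfl fun k _ => ?_
    rw [integral_const_mul, ← fc_eq, map_smul, smul_eq_mul]
    ring
  rw [h1]
  calc ‖L (tp (A1_B n m) (fun k => (A1_w m k : ℂ) * fc h k))‖
      ≤ ‖L‖ * ‖tp (A1_B n m) (fun k => (A1_w m k : ℂ) * fc h k)‖ := L.le_opNorm _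
    _ ≤ ‖L‖ * 1 := mul_le_mul_of_nonneg_left (A1_contr m hm h hh) (norm_nonneg L)
    _ = ‖L‖ := mul_one _

theorem item_A1 : S_A1 := by
  intro n L m hm
  set g : C(Tor n, ℂ) := tp (A1_B n m) (fun k => (A1_w m k : ℂ) * star (L (mFourier k))) with hg
  change ∫ x, ‖g x‖ ∂haar n ≤ ‖L‖
  refine le_of_forall_pos_le_add fun ε hε => ?_
  have hpos : ∀ x, 0 < ‖g x‖ + ε := fun x => by positivity
  have hcont : Continuous fun x => g x / ((‖g x‖ + ε : ℝ) : ℂ) := by
    refine Continuous.div (by fun_prop) (by fun_prop) fun x => ?_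
    exact_mod_cast (hpos x).ne'
  have h1 := A1_pair L m hm ⟨fun x => g x / ((‖g x‖ + ε : ℝ) : ℂ), hcont⟩ (by
    intro x
    simp only [ContinuousMap.coe_mk, norm_div, Complex.norm_real, Real.norm_eq_abs,
      abs_of_pos (hpos x)]
    rw [div_le_one (hpos x)]
    linarith)
  rw [← hg] at h1
  simp only [ContinuousMap.coe_mk] at h1
  have h2 : ∀ x, g x / ((‖g x‖ + ε : ℝ) : ℂ) * star (g x) =
      ((‖g x‖ ^ 2 / (‖g x‖ + ε) : ℝ) : ℂ) := by
    intro x
    have h3 := Complex.mul_conj (g x)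
    rw [Complex.normSq_eq_norm_sq] at h3
    have h4 : g x * star (g x) = ((‖g x‖ ^ 2 : ℝ) : ℂ) := by simpa using h3
    rw [div_mul_eq_mul_div, h4, Complex.ofReal_div]
  simp_rw [h2] at h1
  have h0 : ∫ x, ((‖g x‖ ^ 2 / (‖g x‖ + ε) : ℝ) : ℂ) ∂haar n =
    ((∫ x, ‖g x‖ ^ 2 / (‖g x‖ + ε) ∂haar n : ℝ) : ℂ) := integral_ofReal
  rw [h0, Complex.norm_real] at h1
  have h5 : ∫ x, (‖g x‖ - ε) ∂haar n ≤ ∫ x, ‖g x‖ ^ 2 / (‖g x‖ + ε) ∂haar n := by
    refine integral_mono (cont_int (by fun_prop)) (cont_int ?_) fun x => ?_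
    · exact Continuous.div (by fun_prop) (by fun_prop) fun x => (hpos x).ne'
    · change ‖g x‖ - ε ≤ ‖g x‖ ^ 2 / (‖g x‖ + ε)
      rw [le_div_iff₀ (hpos x)]
      nlinarith [sq_nonneg ε]
  have h6 : ∫ x, (‖g x‖ - ε) ∂haar n = ∫ x, ‖g x‖ ∂haar n - ε := by
    rw [integral_sub (cont_int (by fun_prop)) (integrable_const _)]
    simp
  have h7 := (le_abs_self (∫ x, ‖g x‖ ^ 2 / (‖g x‖ + ε) ∂haar n)).trans h1
  linarith

end

end MP_c03b66_an

end

section

/-! Item A2: lower bound for the adjoint (Hahn-Banach). -/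

open MeasureTheory UnitAddTorus

namespace MP_c03b66_an

noncomputable section

/-- the weights of the Fejér means -/
def A2_w {n : ℕ} (m : ℕ) (k : Fin n → ℤ) : ℝ := ∏ i, (1 - |(k i : ℝ)| / m)

lemma A2_w_tendsto {n : ℕ} (k : Fin n → ℤ) :
    Filter.Tendsto (fun m : ℕ => A2_w m k) Filter.atTop (nhds 1) := by
  unfold A2_w
  have h1 : (1 : ℝ) = ∏ _i : Fin n, (1 : ℝ) := by simp
  conv => rhs; rw [h1]
  refine tendsto_finsetProd _ fun i _ => ?_
  have h2 : Filter.Tendsto (fun m : ℕ => |(k i : ℝ)| / (m : ℝ)) Filter.atTop (nhds 0) :=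
    tendsto_const_div_atTop_nhds_zero_nat _
  simpa using tendsto_const_nhds.sub h2

/-- the functional on `H Sg` -/
def A2_l {n : ℕ} (Sg : Set (Fin n → ℤ)) (B : Finset (Fin n → ℤ)) (b : (Fin n → ℤ) → ℂ) :
    H Sg →ₗ[ℂ] ℂ :=
  (∑ k ∈ B, star (b k) • fcL k) ∘ₗ (H Sg).subtype

lemma A2_l_apply {n : ℕ} (Sg : Set (Fin n → ℤ)) (B : Finset (Fin n → ℤ))
    (b : (Fin n → ℤ) → ℂ) (f : H Sg) :
    A2_l Sg B b f = ∑ k ∈ B, fc (f : C(Tor n, ℂ)) k * star (b k) := by
  unfold A2_l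
  rw [LinearMap.comp_apply, LinearMap.sum_apply]
  refine Finset.sum_congr rfl fun k _ => ?_
  rw [LinearMap.smul_apply, smul_eq_mul, mul_comm]
  rfl

theorem item_A2 (hA1 : S_A1) : S_A2 := by
  classical
  intro n Sg E C hES hC hDE B b M hB hM hf
  obtain ⟨L, hL1, hL2⟩ : ∃ L : C(Tor n, ℂ) →L[ℂ] ℂ,
      (∀ f ∈ H Sg, L f = ∑ k ∈ B, fc f k * star (b k)) ∧ ‖L‖ ≤ M := by
    have hb : ∀ f : H Sg, ‖A2_l Sg B b f‖ ≤ M * ‖f‖ := by
      intro f
      rw [A2_l_apply]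
      exact hf f f.2
    obtain ⟨L, h1, h2⟩ := exists_extension_norm_eq (H Sg) ((A2_l Sg B b).mkContinuous M hb)
    refine ⟨L, fun f hf' => ?_, ?_⟩
    · have := h1 ⟨f, hf'⟩
      rw [LinearMap.mkContinuous_apply, A2_l_apply] at this
      exact this
    · rw [h2]
      exact LinearMap.mkContinuous_norm_le _ hM _
  have hLe : ∀ k ∈ Sg, L (mFourier k) = if k ∈ B then star (b k) else 0 := by
    intro k hk
    rw [hL1 _ (mF_mem hk)]
    simp_rw [fc_mF, ite_mul, one_mul, zero_mul]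
    rw [Finset.sum_ite_eq]
  have key : ∀ᶠ m : ℕ in Filter.atTop,
      ∑ k ∈ B, ‖(A2_w m k : ℂ) * b k‖ ^ 2 ≤ C * M ^ 2 := by
    obtain ⟨R, hR⟩ : ∃ R : ℕ, ∀ k ∈ B, ∀ i, |k i| < (R : ℤ) := by
      refine ⟨∑ k ∈ B, ∑ i, (k i).natAbs + 1, fun k hk i => ?_⟩
      have h1 : (k i).natAbs ≤ ∑ i, (k i).natAbs :=
        Finset.single_le_sum (f := fun i => (k i).natAbs) (fun _ _ => Nat.zero_le _)
          (Finset.mem_univ i)
      have h2 : ∑ i, (k i).natAbs ≤ ∑ k ∈ B, ∑ i, (k i).natAbs :=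
        Finset.single_le_sum (f := fun k : Fin n → ℤ => ∑ i, (k i).natAbs)
          (fun _ _ => Nat.zero_le _) hk
      rw [Int.abs_eq_natAbs]
      exact_mod_cast Nat.lt_succ_of_le (h1.trans h2)
    filter_upwards [Filter.eventually_ge_atTop (max R 1)] with m hm
    have hm1 : 1 ≤ m := (le_max_right _ _).trans hm
    have hmR : R ≤ m := (le_max_left _ _).trans hm
    have h1 := hA1 n L m hm1
    set c : (Fin n → ℤ) → ℂ := fun k => ((∏ i, (1 - |(k i : ℝ)| / m) : ℝ) : ℂ) *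
      star (L (mFourier k)) with hc
    have hck : ∀ k ∈ B, c k = (A2_w m k : ℂ) * b k := by
      intro k hk
      rw [hc]
      simp only
      rw [hLe k (hES (hB k hk)), if_pos hk, star_star]
      rfl
    have h2 := hDE (Fintype.piFinset fun _ : Fin n => Finset.Ioo (-(m : ℤ)) m) c (by
      intro k _ hk hkE
      rw [hc]
      simp only
      rw [hLe k hk, if_neg (fun h => hkE (hB k h)), star_zero, mul_zero]) B (by
      intro k hk
      rw [Fintype.mem_piFinset]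
      intro i
      rw [Finset.mem_Ioo]
      have := hR k hk i
      rw [abs_lt] at this
      have h3 : (R : ℤ) ≤ m := by exact_mod_cast hmR
      constructor <;> linarith [this.1, this.2]) hB
    rw [← Finset.sum_congr rfl (fun k hk => by rw [hck k hk] : ∀ k ∈ B,
      ‖c k‖ ^ 2 = ‖(A2_w m k : ℂ) * b k‖ ^ 2)]
    refine h2.trans ?_
    have h4 : 0 ≤ ∫ x, ‖tp (Fintype.piFinset fun _ : Fin n => Finset.Ioo (-(m : ℤ)) m) c x‖
        ∂haar n := integral_nonneg fun _ => norm_nonneg _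
    exact mul_le_mul_of_nonneg_left (pow_le_pow_left₀ h4 (h1.trans hL2) 2) hC
  have hlim : Filter.Tendsto (fun m : ℕ => ∑ k ∈ B, ‖(A2_w m k : ℂ) * b k‖ ^ 2) Filter.atTop
      (nhds (∑ k ∈ B, ‖b k‖ ^ 2)) := by
    refine tendsto_finsetSum _ fun k _ => ?_
    have h1 : Filter.Tendsto (fun m : ℕ => ‖(A2_w m k : ℂ) * b k‖ ^ 2) Filter.atTop
        (nhds (‖((1 : ℝ) : ℂ) * b k‖ ^ 2)) := by
      refine Filter.Tendsto.pow (Filter.Tendsto.norm (Filter.Tendsto.mul_const _ ?_)) 2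
      exact (Complex.continuous_ofReal.tendsto 1).comp (A2_w_tendsto k)
    simpa using h1
  exact le_of_tendsto hlim key

end

end MP_c03b66_an

end

section

/-! Item A3: approximate solutions by separation in `ℓ²(E)`. -/

open MeasureTheory UnitAddTorus Filter
open scoped InnerProductSpace

namespace MP_c03b66_an

noncomputable section

/-- the Hilbert space `ℓ²(E)` -/
abbrev A3L {n : ℕ} (E : Set (Fin n → ℤ)) : Type := lp (fun _ : E => ℂ) 2

lemma A3_memlp {n : ℕ} {E : Set (Fin n → ℤ)} {a : E → ℂ} (ha : Summable fun k => ‖a k‖ ^ 2) :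
    Memℓp a 2 := by
  refine memℓp_gen ?_
  simpa using ha

lemma A3_summable {n : ℕ} {E : Set (Fin n → ℤ)} (v : A3L E) : Summable fun k => ‖v k‖ ^ 2 := by
  have := (lp.memℓp v).summable (p := 2) (by norm_num)
  simpa using this

lemma A3_norm_sq {n : ℕ} {E : Set (Fin n → ℤ)} (v : A3L E) : ‖v‖ ^ 2 = ∑' k, ‖v k‖ ^ 2 := by
  have := lp.norm_rpow_eq_tsum (p := 2) (by norm_num) v
  simpa using this

lemma A3_bessel {n : ℕ} (E : Set (Fin n → ℤ)) (f : C(Tor n, ℂ)) :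
    Summable (fun k : E => ‖fc f k‖ ^ 2) ∧ ∑' k : E, ‖fc f k‖ ^ 2 ≤ ‖f‖ ^ 2 := by
  classical
  have hb : ∀ s : Finset E, ∑ k ∈ s, ‖fc f (k : Fin n → ℤ)‖ ^ 2 ≤ ‖f‖ ^ 2 := by
    intro s
    have := bessel_norm f (s.map (Function.Embedding.subtype _))
    rw [Finset.sum_map] at this
    exact this
  have hs : Summable (fun k : E => ‖fc f k‖ ^ 2) :=
    summable_of_sum_le (fun k => by positivity) hb
  exact ⟨hs, hs.tsum_le_of_sum_le hb⟩

/-- the coefficient map -/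
def A3S {n : ℕ} (E : Set (Fin n → ℤ)) : C(Tor n, ℂ) →ₗ[ℂ] A3L E where
  toFun f := ⟨fun k => fc f k, A3_memlp (A3_bessel E f).1⟩
  map_add' f g := by
    ext k
    exact fc_add f.continuous g.continuous k
  map_smul' c f := by
    ext k
    exact fc_smul c f k

lemma A3S_apply {n : ℕ} (E : Set (Fin n → ℤ)) (f : C(Tor n, ℂ)) (k : E) :
    A3S E f k = fc f k := rfl

lemma A3S_norm {n : ℕ} (E : Set (Fin n → ℤ)) (f : C(Tor n, ℂ)) : ‖A3S E f‖ ≤ ‖f‖ := by
  have h := (A3_bessel E f).2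
  have h2 := A3_norm_sq (A3S E f)
  simp only [A3S_apply] at h2
  rw [← h2] at h
  exact (pow_le_pow_iff_left₀ (norm_nonneg _) (norm_nonneg _) two_ne_zero).1 h

/-- the quantitative injectivity of the adjoint for all of `ℓ²(E)`. -/
lemma A3_adj (h2 : S_A2) {n : ℕ} {Sg E : Set (Fin n → ℤ)} {C : ℝ} (hE : E ⊆ Sg) (hC : 0 ≤ C)
    (hDE : DE Sg E C) (b : A3L E) (M : ℝ) (hM : 0 ≤ M)
    (hb : ∀ f ∈ H Sg, ‖⟪b, A3S E f⟫_ℂ‖ ≤ M * ‖f‖) : ‖b‖ ^ 2 ≤ C * M ^ 2 := by
  classical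
  -- truncations
  let tr : Finset E → A3L E := fun s => ∑ k ∈ s, lp.single 2 k (b k)
  have htr : Tendsto tr atTop (nhds b) :=
    lp.hasSum_single (by norm_num) b
  have htr_apply : ∀ s k, tr s k = if k ∈ s then b k else 0 := by
    intro s k
    simp only [tr]
    rw [lp.coeFn_sum, Finset.sum_apply]
    by_cases hk : k ∈ s
    · rw [if_pos hk, Finset.sum_eq_single k]
      · exact lp.single_apply_self _ _ _
      · intro j _ hj
        exact lp.single_apply_ne _ _ _ hj.symm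
      · intro h; exact absurd hk h
    · rw [if_neg hk]
      refine Finset.sum_eq_zero fun j hj => ?_
      exact lp.single_apply_ne _ _ _ fun h => hk (h ▸ hj)
  have key : ∀ s : Finset E, ∑ k ∈ s, ‖b k‖ ^ 2 ≤ C * (M + ‖b - tr s‖) ^ 2 := by
    intro s
    let b' : (Fin n → ℤ) → ℂ := fun k => if h : k ∈ E then b ⟨k, h⟩ else 0
    have hb' : ∀ k : E, b' k = b k := fun k => by
      simp only [b']
      rw [dif_pos k.2]
    have h3 := h2 n Sg E C hE hC hDE (s.map (Function.Embedding.subtype _)) b' (M + ‖b - tr s‖)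
      (by
        intro k hk
        rw [Finset.mem_map] at hk
        obtain ⟨j, _, rfl⟩ := hk
        exact j.2)
      (by positivity) ?_
    · rw [Finset.sum_map] at h3
      refine le_trans (le_of_eq ?_) h3
      refine Finset.sum_congr rfl fun k _ => ?_
      rw [Function.Embedding.coe_subtype, hb']
    · intro f hf
      rw [Finset.sum_map]
      have h4 : ∑ k ∈ s, fc f (k : Fin n → ℤ) * star (b' k) = ⟪tr s, A3S E f⟫_ℂ := by
        rw [lp.inner_eq_tsum, tsum_eq_sum (s := s)]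
        · refine Finset.sum_congr rfl fun k hk => ?_
          rw [htr_apply, if_pos hk, A3S_apply, hb']
          simp [RCLike.inner_apply]
        · intro k hk
          rw [htr_apply, if_neg hk]
          simp
      have h5 : ⟪tr s, A3S E f⟫_ℂ = ⟪b, A3S E f⟫_ℂ - ⟪b - tr s, A3S E f⟫_ℂ := by
        rw [inner_sub_left]; ring
      calc ‖∑ k ∈ s, fc f (Function.Embedding.subtype _ k : Fin n → ℤ) *
            star (b' (Function.Embedding.subtype _ k))‖
          = ‖⟪b, A3S E f⟫_ℂ - ⟪b - tr s, A3S E f⟫_ℂ‖ := by rw [← h5, ← h4]; rfl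
        _ ≤ ‖⟪b, A3S E f⟫_ℂ‖ + ‖⟪b - tr s, A3S E f⟫_ℂ‖ := norm_sub_le _ _
        _ ≤ M * ‖f‖ + ‖b - tr s‖ * ‖f‖ := by
            gcongr
            · exact hb f hf
            · exact (norm_inner_le_norm _ _).trans
                (mul_le_mul_of_nonneg_left (A3S_norm E f) (norm_nonneg _))
        _ = (M + ‖b - tr s‖) * ‖f‖ := by ring
  have h6 : Tendsto (fun s : Finset E => C * (M + ‖b - tr s‖) ^ 2) atTop
      (nhds (C * (M + ‖b - b‖) ^ 2)) :=
    ((((tendsto_const_nhds.sub htr).norm).const_add M).pow 2).const_mul C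
  have h7 : Tendsto (fun s : Finset E => ∑ k ∈ s, ‖b k‖ ^ 2) atTop (nhds (‖b‖ ^ 2)) := by
    rw [A3_norm_sq]
    exact (A3_summable b).hasSum
  have h8 := le_of_tendsto_of_tendsto' h7 h6 key
  simpa using h8

theorem item_A3 (h2 : S_A2) : S_A3 := by
  classical
  intro n Sg E C hE hC hDE a ha
  let α : A3L E := ⟨a, A3_memlp ha⟩
  have hα : ∀ k, α k = a k := fun k => rfl
  have hαn : ‖α‖ ^ 2 = ∑' k, ‖a k‖ ^ 2 := A3_norm_sq α
  have hαs : Real.sqrt (∑' k, ‖a k‖ ^ 2) = ‖α‖ := by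
    rw [← hαn]; exact Real.sqrt_sq (norm_nonneg _)
  rw [hαs, ← hαn]
  -- it suffices to find `f` in the ball with `‖α - S f‖ ≤ ‖α‖ / 2`
  suffices hex : ∃ f ∈ H Sg, ‖f‖ ≤ Real.sqrt (C + 1) * ‖α‖ ∧ ‖α - A3S E f‖ ≤ ‖α‖ / 2 by
    obtain ⟨f, hf, hfn, hfd⟩ := hex
    refine ⟨f, hf, hfn, A3_summable (α - A3S E f), ?_⟩
    have h3 : ∑' k : E, ‖a k - fc f k‖ ^ 2 = ‖α - A3S E f‖ ^ 2 := (A3_norm_sq (α - A3S E f)).symm
    rw [h3]
    calc ‖α - A3S E f‖ ^ 2 ≤ (‖α‖ / 2) ^ 2 := pow_le_pow_left₀ (norm_nonneg _) hfd 2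
      _ = 1 / 4 * ‖α‖ ^ 2 := by ring
  by_cases hα0 : α = 0
  · refine ⟨0, Submodule.zero_mem _, ?_, ?_⟩
    · rw [hα0]; simp
    · rw [hα0]; simp
  have hαpos : 0 < ‖α‖ := norm_pos_iff.2 hα0
  set R : ℝ := Real.sqrt (C + 1) * ‖α‖ with hR
  have hRpos : 0 < R := by positivity
  let K : Set (A3L E) := (A3S E) '' {f | f ∈ H Sg ∧ ‖f‖ ≤ R}
  have hKconv : Convex ℝ K := by
    rintro _ ⟨f, ⟨hf, hfn⟩, rfl⟩ _ ⟨g, ⟨hg, hgn⟩, rfl⟩ s t hs ht hst
    refine ⟨(s : ℂ) • f + (t : ℂ) • g, ⟨?_, ?_⟩, ?_⟩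
    · exact Submodule.add_mem _ (Submodule.smul_mem _ _ hf) (Submodule.smul_mem _ _ hg)
    · calc ‖(s : ℂ) • f + (t : ℂ) • g‖ ≤ ‖(s : ℂ) • f‖ + ‖(t : ℂ) • g‖ := norm_add_le _ _
        _ = s * ‖f‖ + t * ‖g‖ := by
            rw [norm_smul, norm_smul, Complex.norm_real, Complex.norm_real,
              Real.norm_of_nonneg hs, Real.norm_of_nonneg ht]
        _ ≤ s * R + t * R := by gcongr
        _ = R := by rw [← add_mul, hst, one_mul]
    · rw [map_add, map_smul, map_smul]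
      rfl
  have hmem : α ∈ closure K := by
    by_contra hnot
    obtain ⟨φ, u, hu1, hu2⟩ := RCLike.geometric_hahn_banach_closed_point (𝕜 := ℂ)
      hKconv.closure isClosed_closure hnot
    -- Riesz representation
    obtain ⟨b, hbφ⟩ : ∃ b : A3L E, ∀ v, φ v = ⟪b, v⟫_ℂ :=
      ⟨(InnerProductSpace.toDual ℂ (A3L E)).symm φ, fun v => by
        rw [InnerProductSpace.toDual_symm_apply]⟩
    have hu0 : 0 < u := by
      have := hu1 0 (subset_closure ⟨0, ⟨Submodule.zero_mem _, by simpa using hRpos.le⟩,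
        map_zero _⟩)
      simpa using this
    have hrot : ∀ f ∈ H Sg, ‖⟪b, A3S E f⟫_ℂ‖ ≤ (u / R) * ‖f‖ := by
      intro f hf
      by_cases hf0 : f = 0
      · rw [hf0]; simp
      have hfpos : 0 < ‖f‖ := norm_pos_iff.2 hf0
      by_cases hz : ⟪b, A3S E f⟫_ℂ = 0
      · rw [hz]; simp; positivity
      set z := ⟪b, A3S E f⟫_ℂ with hzdef
      have hzpos : 0 < ‖z‖ := norm_pos_iff.2 hz
      let c : ℂ := (starRingEnd ℂ z / ‖z‖) * ((R / ‖f‖ : ℝ) : ℂ)
      have hcn : ‖c‖ = R / ‖f‖ := by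
        simp only [c]
        rw [norm_mul, norm_div, RCLike.norm_conj, Complex.norm_real, Complex.norm_real,
          Real.norm_of_nonneg hzpos.le, div_self hzpos.ne', one_mul,
          Real.norm_of_nonneg (by positivity)]
      have h3 := hu1 (A3S E (c • f)) (subset_closure ⟨c • f, ⟨Submodule.smul_mem _ _ hf, by
        rw [norm_smul, hcn]; exact (div_mul_cancel₀ _ hfpos.ne').le⟩, rfl⟩)
      rw [hbφ, map_smul, inner_smul_right, ← hzdef] at h3
      have h4 : c * z = ((R / ‖f‖ * ‖z‖ : ℝ) : ℂ) := by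
        simp only [c]
        have h5 : starRingEnd ℂ z * z = ((‖z‖ ^ 2 : ℝ) : ℂ) := by
          rw [mul_comm, Complex.mul_conj, Complex.normSq_eq_norm_sq]
        have hz' : ((‖z‖ : ℝ) : ℂ) ≠ 0 := by exact_mod_cast hzpos.ne'
        calc (starRingEnd ℂ z / ‖z‖) * ((R / ‖f‖ : ℝ) : ℂ) * z
            = (starRingEnd ℂ z * z) / ‖z‖ * ((R / ‖f‖ : ℝ) : ℂ) := by ring
          _ = ((R / ‖f‖ * ‖z‖ : ℝ) : ℂ) := by
            rw [h5]; push_cast; field_simp
      rw [h4] at h3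
      have h6 : R / ‖f‖ * ‖z‖ < u := by simpa using h3
      rw [div_mul_eq_mul_div, div_lt_iff₀ hfpos] at h6
      rw [div_mul_eq_mul_div, le_div_iff₀ hRpos]
      linarith
    have hbn := A3_adj h2 hE hC hDE b (u / R) (by positivity) hrot
    have h7 : u < ‖b‖ * ‖α‖ := by
      refine hu2.trans_le ?_
      rw [hbφ]
      exact (RCLike.re_le_norm _).trans (norm_inner_le_norm _ _)
    -- contradiction
    have h8 : (‖b‖ * ‖α‖) ^ 2 ≤ C / (C + 1) * u ^ 2 := by
      have hR2 : R ^ 2 = (C + 1) * ‖α‖ ^ 2 := by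
        rw [hR, mul_pow, Real.sq_sqrt (by positivity)]
      calc (‖b‖ * ‖α‖) ^ 2 = ‖b‖ ^ 2 * ‖α‖ ^ 2 := by ring
        _ ≤ (C * (u / R) ^ 2) * ‖α‖ ^ 2 := by gcongr
        _ = C / (C + 1) * u ^ 2 := by
          rw [div_pow, hR2]; field_simp
    have h9 : C / (C + 1) * u ^ 2 ≤ u ^ 2 := by
      have : C / (C + 1) ≤ 1 := by
        rw [div_le_one (by positivity)]; linarith
      nlinarith [sq_nonneg u]
    nlinarith
  obtain ⟨w, ⟨f, ⟨hf, hfn⟩, rfl⟩, hd⟩ := Metric.mem_closure_iff.1 hmem (‖α‖ / 2) (by positivity)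
  refine ⟨f, hf, hfn, ?_⟩
  rw [dist_eq_norm] at hd
  exact hd.le

end

end MP_c03b66_an

end

section

/-! Item A4: exact solutions by iteration. -/

open MeasureTheory UnitAddTorus Filter

namespace MP_c03b66_an

noncomputable section

theorem item_A4 (h3 : S_A3) : S_A4 := by
  classical
  intro n Sg E C hE hC hDE a ha
  let T : Type := {a : E → ℂ // Summable (fun k => ‖a k‖ ^ 2)}
  have hstep : ∀ t : T, ∃ f ∈ H Sg,
      ‖f‖ ≤ Real.sqrt (C + 1) * Real.sqrt (∑' k, ‖t.1 k‖ ^ 2) ∧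
      Summable (fun k : E => ‖t.1 k - fc f k‖ ^ 2) ∧
      ∑' k : E, ‖t.1 k - fc f k‖ ^ 2 ≤ (1 / 4) * ∑' k, ‖t.1 k‖ ^ 2 :=
    fun t => h3 n Sg E C hE hC hDE t.1 t.2
  choose F hFH hFn hFs hFd using hstep
  let nx : T → T := fun t => ⟨fun k => t.1 k - fc (F t) k, hFs t⟩
  let sq : ℕ → T := fun i => nx^[i] ⟨a, ha⟩
  have sq0 : sq 0 = ⟨a, ha⟩ := rfl
  have sqs : ∀ i, sq (i + 1) = nx (sq i) := fun i => Function.iterate_succ_apply' _ _ _
  set A : ℝ := ∑' k, ‖a k‖ ^ 2 with hA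
  have hA0 : 0 ≤ A := tsum_nonneg fun k => by positivity
  have hS : ∀ i, ∑' k, ‖(sq i).1 k‖ ^ 2 ≤ (1 / 4) ^ i * A := by
    intro i
    induction i with
    | zero => rw [sq0]; simp [hA]
    | succ i ih =>
      rw [sqs]
      calc ∑' k, ‖(nx (sq i)).1 k‖ ^ 2 ≤ (1 / 4) * ∑' k, ‖(sq i).1 k‖ ^ 2 := hFd (sq i)
        _ ≤ (1 / 4) * ((1 / 4) ^ i * A) := by gcongr
        _ = (1 / 4) ^ (i + 1) * A := by ring
  have hsqrt : ∀ i : ℕ, Real.sqrt ((1 / 4 : ℝ) ^ i * A) = (1 / 2) ^ i * Real.sqrt A := by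
    intro i
    rw [Real.sqrt_mul (by positivity)]
    congr 1
    rw [show (1 / 4 : ℝ) ^ i = ((1 / 2) ^ i) ^ 2 by
      rw [← pow_mul, mul_comm, pow_mul]; norm_num]
    exact Real.sqrt_sq (by positivity)
  have hn : ∀ i, ‖F (sq i)‖ ≤ Real.sqrt (C + 1) * Real.sqrt A * (1 / 2) ^ i := by
    intro i
    refine (hFn (sq i)).trans ?_
    calc Real.sqrt (C + 1) * Real.sqrt (∑' k, ‖(sq i).1 k‖ ^ 2)
        ≤ Real.sqrt (C + 1) * Real.sqrt ((1 / 4) ^ i * A) := by
          gcongr; exact hS i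
      _ = Real.sqrt (C + 1) * Real.sqrt A * (1 / 2) ^ i := by rw [hsqrt]; ring
  have hsumm : Summable fun i => F (sq i) := by
    refine Summable.of_norm_bounded (g := fun i => Real.sqrt (C + 1) * Real.sqrt A * (1 / 2) ^ i)
      ?_ hn
    exact (summable_geometric_of_lt_one (by norm_num) (by norm_num)).mul_left _
  refine ⟨∑' i, F (sq i), ?_, fun k => ?_⟩
  · have h1 : Tendsto (fun s : Finset ℕ => ∑ i ∈ s, F (sq i)) atTop (nhds (∑' i, F (sq i))) :=
      hsumm.hasSum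
    have h2 : ∑' i, F (sq i) ∈ closure ((H Sg : Submodule ℂ C(Tor n, ℂ)) : Set C(Tor n, ℂ)) := by
      refine mem_closure_of_tendsto h1 (Eventually.of_forall fun s => ?_)
      exact Submodule.sum_mem _ fun i _ => hFH (sq i)
    exact h2
  · have h1 : HasSum (fun i => fcL (k : Fin n → ℤ) (F (sq i))) (fcL (k : Fin n → ℤ) (∑' i, F (sq i))) :=
      (LinearMap.mkContinuous (fcL (k : Fin n → ℤ)) 1 (fun f => by
        rw [fcL_apply, one_mul]; exact norm_fc_le f k)).hasSum hsumm.hasSum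
    have h2 := h1.tendsto_sum_nat
    have h3 : ∀ m : ℕ, ∑ i ∈ Finset.range m, fcL (k : Fin n → ℤ) (F (sq i)) =
        a k - (sq m).1 k := by
      intro m
      induction m with
      | zero => rw [sq0]; simp
      | succ m ih =>
        rw [Finset.sum_range_succ, ih, sqs]
        simp only [fcL_apply, nx]
        ring
    have h4 : Tendsto (fun m : ℕ => (sq m).1 k) atTop (nhds 0) := by
      rw [tendsto_zero_iff_norm_tendsto_zero]
      have h5 : ∀ m, ‖(sq m).1 k‖ ≤ Real.sqrt A * (1 / 2) ^ m := by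
        intro m
        have h6 : ‖(sq m).1 k‖ ^ 2 ≤ (1 / 4) ^ m * A :=
          ((sq m).2.le_tsum k fun j _ => by positivity).trans (hS m)
        have h7 := Real.abs_le_sqrt h6
        rw [hsqrt, abs_of_nonneg (norm_nonneg _)] at h7
        linarith
      refine squeeze_zero (fun _ => norm_nonneg _) h5 ?_
      have := (tendsto_pow_atTop_nhds_zero_of_lt_one (r := (1 / 2 : ℝ)) (by norm_num)
        (by norm_num)).const_mul (Real.sqrt A)
      simpa using this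
    have h5 : Tendsto (fun m : ℕ => ∑ i ∈ Finset.range m, fcL (k : Fin n → ℤ) (F (sq i)))
        atTop (nhds (a k - 0)) := by
      simp_rw [h3]
      exact tendsto_const_nhds.sub h4
    have h6 := tendsto_nhds_unique h2 h5
    simpa using h6

end

end MP_c03b66_an

end

section

/-! Item A5a: maximum principle for polynomials on the polydisc. -/

open MeasureTheory UnitAddTorus

namespace MP_c03b66_an

noncomputable section

/-- every unit complex number is `toCircle` of a point of the circle group -/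
theorem A5a_surj (w : ℂ) (hw : ‖w‖ = 1) : ∃ θ : UnitAddCircle, (AddCircle.toCircle θ : ℂ) = w := by
  have hm : w ∈ Submonoid.unitSphere ℂ := by
    rw [mem_sphere_zero_iff_norm.symm] at hw
    exact hw
  obtain ⟨u, hu⟩ : ∃ u : Circle, (u : ℂ) = w := ⟨⟨w, hm⟩, rfl⟩
  refine ⟨(AddCircle.homeomorphCircle (one_ne_zero : (1 : ℝ) ≠ 0)).symm u, ?_⟩
  rw [← AddCircle.homeomorphCircle_apply (one_ne_zero : (1 : ℝ) ≠ 0),
    Homeomorph.apply_symm_apply, hu]

theorem A5a_mF {n : ℕ} (k : Fin n → ℤ) (hk : ∀ i, 0 ≤ k i) (θ : Tor n) :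
    mFourier k θ = ∏ i, (AddCircle.toCircle (θ i) : ℂ) ^ (k i).toNat := by
  simp only [mFourier, ContinuousMap.coe_mk]
  refine Finset.prod_congr rfl fun i _ => ?_
  rw [fourier_apply]
  have h : (k i) = ((k i).toNat : ℤ) := (Int.toNat_of_nonneg (hk i)).symm
  conv_lhs => rw [h]
  rw [natCast_zsmul, AddCircle.toCircle_nsmul]
  simp

/-- the polynomial -/
def A5aP {n : ℕ} (S : Finset (Fin n → ℤ)) (c : (Fin n → ℤ) → ℂ) (z : Fin n → ℂ) : ℂ :=
  ∑ k ∈ S, c k * ∏ i, z i ^ (k i).toNat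

theorem A5a_ind {n : ℕ} (S : Finset (Fin n → ℤ)) (c : (Fin n → ℤ) → ℂ)
    (hS : ∀ k ∈ S, ∀ i, 0 ≤ k i) (T : Finset (Fin n)) :
    ∀ z : Fin n → ℂ, (∀ i, i ∉ T → ‖z i‖ = 1) → (∀ i, ‖z i‖ ≤ 1) →
      ‖A5aP S c z‖ ≤ ‖tp S c‖ := by
  classical
  induction T using Finset.induction_on with
  | empty =>
    intro z hz _
    choose θ hθ using fun i => A5a_surj (z i) (hz i (Finset.notMem_empty i))
    have h1 : A5aP S c z = tp S c θ := by
      rw [tp_apply]
      unfold A5aP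
      refine Finset.sum_congr rfl fun k hk => ?_
      rw [A5a_mF k (hS k hk)]
      congr 1
      refine Finset.prod_congr rfl fun i _ => ?_
      rw [hθ i]
    rw [h1]
    exact (tp S c).norm_coe_le_norm θ
  | insert j T hj ih =>
    intro z hz hz1
    have hdiff : Differentiable ℂ (fun w : ℂ => A5aP S c (Function.update z j w)) := by
      unfold A5aP
      refine Differentiable.fun_sum fun k _ => ?_
      refine Differentiable.const_mul ?_ _
      refine Differentiable.fun_finsetProd fun i _ => ?_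
      by_cases hi : i = j
      · subst hi
        simp only [Function.update_self]
        exact differentiable_id.pow _
      · simp only [Function.update_of_ne hi]
        exact differentiable_const _
    have hmax := Complex.norm_le_of_forall_mem_frontier_norm_le (U := Metric.ball (0 : ℂ) 1)
      (f := fun w : ℂ => A5aP S c (Function.update z j w)) (C := ‖tp S c‖)
      Metric.isBounded_ball hdiff.diffContOnCl (by
        intro w hw
        rw [frontier_ball (0 : ℂ) one_ne_zero, mem_sphere_zero_iff_norm] at hw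
        refine ih _ ?_ ?_
        · intro i hi
          by_cases hij : i = j
          · subst hij; rw [Function.update_self]; exact hw
          · rw [Function.update_of_ne hij]
            exact hz i (by rw [Finset.mem_insert]; push Not; exact ⟨hij, hi⟩)
        · intro i
          by_cases hij : i = j
          · subst hij; rw [Function.update_self]; exact hw.le
          · rw [Function.update_of_ne hij]
            exact hz1 i) (z := z j) (by
        rw [closure_ball (0 : ℂ) one_ne_zero, mem_closedBall_zero_iff]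
        exact hz1 j)
    simpa using hmax

theorem item_A5a : S_A5a := by
  intro n S c z hS hz
  exact A5a_ind S c hS Finset.univ z (fun i hi => absurd (Finset.mem_univ i) hi) hz

end

end MP_c03b66_an

end

section

/-! Item B1: `E₀` is a contraction of `L⁴` (helper10). -/

open MeasureTheory UnitAddTorus

namespace MP_c03b66_an

noncomputable section

/-- translation vector -/
def B1a {n : ℕ} (i₀ : Fin n) (q : ℕ) : Tor n :=
  Pi.single i₀ (((1 / q : ℝ)) : UnitAddCircle)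

lemma B1_mF {n : ℕ} (i₀ : Fin n) (q : ℕ) (k : Fin n → ℤ) :
    mFourier k (B1a i₀ q) = Complex.exp (2 * Real.pi * Complex.I * (k i₀ / q)) := by
  simp only [mFourier, ContinuousMap.coe_mk, B1a]
  rw [Finset.prod_eq_single i₀]
  · rw [Pi.single_eq_same, fourier_coe_apply]
    congr 1
    push_cast
    ring
  · intro j _ hj
    rw [Pi.single_eq_of_ne hj]
    simp [fourier_apply]
  · simp

lemma B1_pow {n : ℕ} (k : Fin n → ℤ) (a : Tor n) (t : ℕ) :
    mFourier k (t • a) = mFourier k a ^ t := by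
  induction t with
  | zero =>
    rw [zero_smul, pow_zero]
    simp [mFourier, fourier_apply]
  | succ t ih => rw [succ_nsmul, mF_pt_add, ih, pow_succ]

lemma B1_geom {n : ℕ} (i₀ : Fin n) (q : ℕ) (hq : 0 < q) (k : Fin n → ℤ) (h0 : k i₀ ≠ 0)
    (hk : |k i₀| < q) : ∑ t ∈ Finset.range q, mFourier k (t • B1a i₀ q) = 0 := by
  simp_rw [B1_pow]
  have hq' : (q : ℂ) ≠ 0 := by exact_mod_cast hq.ne'
  have h1 : mFourier k (B1a i₀ q) ≠ 1 := by
    rw [B1_mF]
    intro h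
    rw [Complex.exp_eq_one_iff] at h
    obtain ⟨m, hm⟩ := h
    have h2 : (k i₀ : ℂ) / q = m := by
      have hpi : (2 * Real.pi * Complex.I : ℂ) ≠ 0 := Complex.two_pi_I_ne_zero
      apply mul_left_cancel₀ hpi
      rw [hm]; ring
    rw [div_eq_iff hq'] at h2
    have h3 : k i₀ = m * q := by exact_mod_cast h2
    rw [h3, abs_mul] at hk
    have h4 : |(q : ℤ)| = q := abs_of_nonneg (by positivity)
    rw [h4] at hk
    have h5 : |m| < 1 := by
      by_contra hc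
      push Not at hc
      nlinarith
    have h6 : m = 0 := by
      rw [Int.abs_lt_one_iff] at h5; exact h5
    rw [h6, zero_mul] at h3
    exact h0 h3
  have h7 : mFourier k (B1a i₀ q) ^ q = 1 := by
    rw [B1_mF, ← Complex.exp_nat_mul, Complex.exp_eq_one_iff]
    refine ⟨k i₀, ?_⟩
    field_simp
  have h8 := mul_neg_geom_sum (mFourier k (B1a i₀ q)) q
  rw [h7, sub_self] at h8
  rcases mul_eq_zero.1 h8 with h9 | h9
  · exact absurd (sub_eq_zero.1 h9).symm h1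
  · exact h9

lemma B1_f0 {n : ℕ} (i₀ : Fin n) (q t : ℕ) {f : C(Tor n, ℂ)}
    (hf : f ∈ H {k : Fin n → ℤ | k i₀ = 0}) (x : Tor n) : f (x + t • B1a i₀ q) = f x := by
  obtain ⟨S, c, hS, rfl⟩ := mem_H_iff.1 hf
  rw [tp_apply, tp_apply]
  refine Finset.sum_congr rfl fun k hk => ?_
  have h1 : k i₀ = 0 := hS k hk
  rw [mF_pt_add, B1_pow, B1_mF, h1]
  simp

lemma B1_avg {n : ℕ} (i₀ : Fin n) {f g : C(Tor n, ℂ)}
    (hf : f ∈ H {k : Fin n → ℤ | k i₀ = 0}) (hg : g ∈ H {k : Fin n → ℤ | k i₀ ≠ 0}) :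
    ∃ q : ℕ, 0 < q ∧ ∀ x, ∑ t ∈ Finset.range q, (1 / q : ℂ) *
      (f (x + t • B1a i₀ q) + g (x + t • B1a i₀ q)) = f x := by
  obtain ⟨S, c, hS, rfl⟩ := mem_H_iff.1 hg
  refine ⟨(∑ k ∈ S, (k i₀).natAbs) + 1, by omega, fun x => ?_⟩
  set q : ℕ := (∑ k ∈ S, (k i₀).natAbs) + 1 with hq
  have hq0 : (q : ℂ) ≠ 0 := by
    have : q ≠ 0 := by omega
    exact_mod_cast this
  have hlt : ∀ k ∈ S, |k i₀| < q := by
    intro k hk
    have h1 := Finset.single_le_sum (f := fun k : Fin n → ℤ => (k i₀).natAbs)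
      (fun _ _ => Nat.zero_le _) hk
    have h2 : (k i₀).natAbs < q := lt_of_le_of_lt h1 (by rw [hq]; exact Nat.lt_succ_self _)
    rw [Int.abs_eq_natAbs]
    exact_mod_cast h2
  have h1 : ∑ t ∈ Finset.range q, tp S c (x + t • B1a i₀ q) = 0 := by
    simp_rw [tp_apply]
    rw [Finset.sum_comm]
    refine Finset.sum_eq_zero fun k hk => ?_
    simp_rw [mF_pt_add]
    rw [← Finset.mul_sum, ← Finset.mul_sum, B1_geom i₀ q (by omega) k (hS k hk) (hlt k hk)]
    simp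
  rw [← Finset.mul_sum, Finset.sum_add_distrib, h1, add_zero]
  simp_rw [B1_f0 i₀ q _ hf]
  rw [Finset.sum_const, Finset.card_range, nsmul_eq_mul]
  field_simp

theorem item_B1 : S_B1 := by
  intro n i₀ f₀ g hf hg
  obtain ⟨q, hq, havg⟩ := B1_avg i₀ hf hg
  have hq0 : (q : ℝ) ≠ 0 := by exact_mod_cast hq.ne'
  have hpt : ∀ x, ‖f₀ x‖ ^ 4 ≤ ∑ t ∈ Finset.range q, (1 / q : ℝ) *
      ‖f₀ (x + t • B1a i₀ q) + g (x + t • B1a i₀ q)‖ ^ 4 := by
    intro x
    have h1 : ‖f₀ x‖ ≤ ∑ t ∈ Finset.range q, (1 / q : ℝ) *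
        ‖f₀ (x + t • B1a i₀ q) + g (x + t • B1a i₀ q)‖ := by
      rw [← havg x]
      refine (norm_sum_le _ _).trans (le_of_eq ?_)
      refine Finset.sum_congr rfl fun t _ => ?_
      rw [norm_mul]
      congr 1
      simp
    refine (pow_le_pow_left₀ (norm_nonneg _) h1 4).trans ?_
    refine Real.pow_arith_mean_le_arith_mean_pow _ _ _ (fun _ _ => by positivity) ?_
      (fun _ _ => norm_nonneg _) 4
    rw [Finset.sum_const, Finset.card_range, nsmul_eq_mul]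
    field_simp
  calc ∫ x, ‖f₀ x‖ ^ 4 ∂haar n
      ≤ ∫ x, ∑ t ∈ Finset.range q, (1 / q : ℝ) *
        ‖f₀ (x + t • B1a i₀ q) + g (x + t • B1a i₀ q)‖ ^ 4 ∂haar n :=
        integral_mono (cont_int (by fun_prop)) (cont_int (by fun_prop)) hpt
    _ = ∑ t ∈ Finset.range q, (1 / q : ℝ) * ∫ x, ‖f₀ x + g x‖ ^ 4 ∂haar n := by
        rw [integral_finsetSum _ (fun t _ => cont_int (by fun_prop))]
        refine Finset.sum_congr rfl fun t _ => ?_
        rw [integral_const_mul]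
        congr 1
        exact int_add (fun x => ‖f₀ x + g x‖ ^ 4) (t • B1a i₀ q)
    _ = ∫ x, ‖f₀ x + g x‖ ^ 4 ∂haar n := by
        rw [Finset.sum_const, Finset.card_range, nsmul_eq_mul]
        field_simp

end

end MP_c03b66_an

end

section

/-! Item B2: the `L⁴` bound for the conjugate function (helper10). -/

open MeasureTheory UnitAddTorus

namespace MP_c03b66_an

noncomputable section

theorem item_B2 : S_B2 := by
  intro n i₀ h hh
  have h2 : h * h ∈ H {k : Fin n → ℤ | 0 < k i₀} :=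
    H_mul (fun a ha b hb => by
      simp only [Set.mem_ofPred_eq, Pi.add_apply] at *; omega) hh hh
  have h4 : h * h * (h * h) ∈ H {k : Fin n → ℤ | 0 < k i₀} :=
    H_mul (fun a ha b hb => by
      simp only [Set.mem_ofPred_eq, Pi.add_apply] at *; omega) h2 h2
  have hI := int_of_mem_H h4 (by simp)
  have hc : Continuous fun x => h x * h x * (h x * h x) := by fun_prop
  have hre : ∫ x, (h x * h x * (h x * h x)).re ∂haar n = 0 := by
    have h5 := integral_re (𝕜 := ℂ) (cont_int (n := n) hc)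
    have h6 : ∫ x, h x * h x * (h x * h x) ∂haar n = 0 := hI
    rw [h6] at h5
    simpa using h5
  have hpt : ∀ x, ‖h x‖ ^ 4 ≤ 74 * (h x).re ^ 4 + 2 * (h x * h x * (h x * h x)).re := by
    intro x
    have h7 : ‖h x‖ ^ 4 = ((h x).re ^ 2 + (h x).im ^ 2) ^ 2 := by
      have h8 := Complex.sq_norm (h x)
      rw [Complex.normSq_apply] at h8
      calc ‖h x‖ ^ 4 = (‖h x‖ ^ 2) ^ 2 := by ring
        _ = _ := by rw [h8]; ring
    rw [h7]
    simp only [Complex.mul_re, Complex.mul_im]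
    nlinarith [sq_nonneg ((h x).im ^ 2 - 7 * (h x).re ^ 2), sq_nonneg ((h x).re ^ 2)]
  calc ∫ x, ‖h x‖ ^ 4 ∂haar n
      ≤ ∫ x, (74 * (h x).re ^ 4 + 2 * (h x * h x * (h x * h x)).re) ∂haar n :=
        integral_mono (cont_int (by fun_prop)) (cont_int (by fun_prop)) hpt
    _ = 74 * ∫ x, (h x).re ^ 4 ∂haar n := by
        rw [integral_add (cont_int (by fun_prop)) (cont_int (by fun_prop)),
          integral_const_mul, integral_const_mul, hre, mul_zero, add_zero]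

end

end MP_c03b66_an

end

section

open MeasureTheory UnitAddTorus

namespace MP_c03b66_an

theorem item_B3a : S_B3a := by
  intro n i₀ f hf hre
  obtain ⟨f₀, hf₀, g, hg, hfg⟩ := H_split (A := {k : Fin n → ℤ | k i₀ = 0})
    (B := {k : Fin n → ℤ | k i₀ ≠ 0}) (fun k _ => eq_or_ne (k i₀) 0) hf
  obtain ⟨h, hh, m, hm, hhm⟩ := H_split (A := {k : Fin n → ℤ | 0 < k i₀})
    (B := {k : Fin n → ℤ | k i₀ < 0}) (fun k hk => by
      have : k i₀ ≠ 0 := hk
      rcases lt_or_gt_of_ne this with h | h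
      · exact Or.inr h
      · exact Or.inl h) hg
  have hstar : star f = f := by
    ext x
    rw [ContinuousMap.star_apply]
    have := hre x
    apply Complex.ext
    · simp
    · simp [this]
  have hf0s : star f₀ ∈ H {k : Fin n → ℤ | k i₀ = 0} :=
    H_star (fun a ha => by
      have : a i₀ = 0 := ha
      show (-a) i₀ = 0
      simp [this]) hf₀
  have hhs : star h ∈ H {k : Fin n → ℤ | k i₀ < 0} :=
    H_star (fun a ha => by
      have : 0 < a i₀ := ha
      show (-a) i₀ < 0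
      simpa using this) hh
  have hms : star m ∈ H {k : Fin n → ℤ | 0 < k i₀} :=
    H_star (fun a ha => by
      have : a i₀ < 0 := ha
      show 0 < (-a) i₀
      simpa using this) hm
  have hpos : ∀ k ∈ {k : Fin n → ℤ | 0 < k i₀}, k ∈ {k : Fin n → ℤ | k i₀ ≠ 0} := by
    intro k hk
    have : 0 < k i₀ := hk
    exact this.ne'
  have hneg : ∀ k ∈ {k : Fin n → ℤ | k i₀ < 0}, k ∈ {k : Fin n → ℤ | k i₀ ≠ 0} := by
    intro k hk
    have : k i₀ < 0 := hk
    exact this.ne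
  have e0 : (f₀ - star f₀) + ((h - star m) + (m - star h)) = 0 := by
    have h1 : f - star f = 0 := by rw [hstar, sub_self]
    rw [hfg, hhm] at h1
    rw [← h1, star_add, star_add]
    abel
  have hrest : (h - star m) + (m - star h) ∈ H {k : Fin n → ℤ | k i₀ ≠ 0} :=
    Submodule.add_mem _
      (Submodule.sub_mem _ (H_mono hpos hh) (H_mono hpos hms))
      (Submodule.sub_mem _ (H_mono hneg hm) (H_mono hneg hhs))
  have hz : f₀ - star f₀ = 0 := by
    apply H_disjoint (A := {k : Fin n → ℤ | k i₀ = 0}) (B := {k : Fin n → ℤ | k i₀ ≠ 0})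
    · intro k hk hk2
      exact hk2 hk
    · exact Submodule.sub_mem _ hf₀ hf0s
    · have : f₀ - star f₀ = -((h - star m) + (m - star h)) := eq_neg_of_add_eq_zero_left e0
      rw [this]
      exact Submodule.neg_mem _ hrest
  rw [hz, zero_add] at e0
  have hz2 : m - star h = 0 := by
    apply H_disjoint (A := {k : Fin n → ℤ | k i₀ < 0}) (B := {k : Fin n → ℤ | 0 < k i₀})
    · intro k hk hk2
      have h1 : k i₀ < 0 := hk
      have h2 : 0 < k i₀ := hk2
      omega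
    · exact Submodule.sub_mem _ hm hhs
    · have : m - star h = -(h - star m) := eq_neg_of_add_eq_zero_right e0
      rw [this]
      exact Submodule.neg_mem _ (Submodule.sub_mem _ hh hms)
  refine ⟨f₀, hf₀, h, hh, ?_, ?_⟩
  · intro x
    have h1 : f₀ = star f₀ := sub_eq_zero.mp hz
    have h2 : f₀ x = star (f₀ x) := by
      conv_lhs => rw [h1]
      rw [ContinuousMap.star_apply]
    have h3 := congrArg Complex.im h2
    rw [Complex.star_def, Complex.conj_im] at h3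
    linarith
  · rw [hfg, hhm, sub_eq_zero.mp hz2]
    abel

theorem B3_four {a b : ℝ} (ha : 0 ≤ a) (hb : 0 ≤ b) : (a + b) ^ 4 ≤ 8 * (a ^ 4 + b ^ 4) := by
  have h1 : (a + b) ^ 2 ≤ 2 * (a ^ 2 + b ^ 2) := by nlinarith [sq_nonneg (a - b)]
  have h2 : ((a + b) ^ 2) ^ 2 ≤ (2 * (a ^ 2 + b ^ 2)) ^ 2 :=
    pow_le_pow_left₀ (by positivity) h1 2
  nlinarith [sq_nonneg (a ^ 2 - b ^ 2)]

theorem item_B3b (h1 : S_B1) (h2 : S_B2) : S_B3b := by
  intro n i₀ f₀ h hf₀ hh _
  have hhs : star h ∈ H {k : Fin n → ℤ | k i₀ ≠ 0} :=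
    H_star (fun a ha => by
      have : 0 < a i₀ := ha
      show (-a) i₀ ≠ 0
      simp only [Pi.neg_apply, ne_eq, neg_eq_zero]
      omega) hh
  have hh' : h ∈ H {k : Fin n → ℤ | k i₀ ≠ 0} :=
    H_mono (fun k hk => by
      have : 0 < k i₀ := hk
      exact this.ne') hh
  have b1 := h1 n i₀ f₀ (h + star h) hf₀ (Submodule.add_mem _ hh' hhs)
  have b2 := h2 n i₀ h hh
  have e1 : ∀ x, f₀ x + (h + star h) x = f₀ x + h x + star (h x) := by
    intro x
    rw [ContinuousMap.add_apply, ContinuousMap.star_apply, add_assoc]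
  simp only [e1] at b1
  -- pointwise
  have p1 : ∀ x, ‖f₀ x + 2 * h x‖ ^ 4 ≤ 8 * ‖f₀ x‖ ^ 4 + 128 * ‖h x‖ ^ 4 := by
    intro x
    have h3 : ‖f₀ x + 2 * h x‖ ≤ ‖f₀ x‖ + 2 * ‖h x‖ := by
      refine (norm_add_le _ _).trans ?_
      rw [norm_mul, Complex.norm_ofNat]
    have h4 := B3_four (norm_nonneg (f₀ x)) (by positivity : 0 ≤ 2 * ‖h x‖)
    have h5 := pow_le_pow_left₀ (norm_nonneg _) h3 4
    have h6 : (2 * ‖h x‖) ^ 4 = 16 * ‖h x‖ ^ 4 := by ring
    linarith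
  have p2 : ∀ x, (h x).re ^ 4 ≤ 1 / 2 * ‖f₀ x + h x + star (h x)‖ ^ 4 + 1 / 2 * ‖f₀ x‖ ^ 4 := by
    intro x
    have h3 : 2 * |(h x).re| ≤ ‖f₀ x + h x + star (h x)‖ + ‖f₀ x‖ := by
      have e : (f₀ x + h x + star (h x)) - f₀ x = ((2 * (h x).re : ℝ) : ℂ) := by
        rw [Complex.star_def]
        have := Complex.add_conj (h x)
        rw [← this]; ring
      have h5 := norm_sub_le (f₀ x + h x + star (h x)) (f₀ x)
      rw [e, Complex.norm_real, Real.norm_eq_abs, abs_mul, abs_two] at h5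
      exact h5
    have h4 := B3_four (norm_nonneg (f₀ x + h x + star (h x))) (norm_nonneg (f₀ x))
    have h5 := pow_le_pow_left₀ (by positivity) h3 4
    have h6 : (2 * |(h x).re|) ^ 4 = 16 * (h x).re ^ 4 := by
      rw [mul_pow, Even.pow_abs (by decide)]; norm_num
    linarith
  have c1 : Continuous fun x => ‖f₀ x + 2 * h x‖ ^ 4 := by fun_prop
  have c2 : Continuous fun x => ‖f₀ x‖ ^ 4 := by fun_prop
  have c3 : Continuous fun x => ‖h x‖ ^ 4 := by fun_prop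
  have c4 : Continuous fun x => ‖f₀ x + h x + star (h x)‖ ^ 4 := by fun_prop
  have c5 : Continuous fun x => (h x).re ^ 4 := by
    have := Complex.continuous_re.comp h.continuous
    exact this.pow 4
  have i1 : ∫ x, ‖f₀ x + 2 * h x‖ ^ 4 ∂haar n ≤
      8 * (∫ x, ‖f₀ x‖ ^ 4 ∂haar n) + 128 * ∫ x, ‖h x‖ ^ 4 ∂haar n := by
    rw [← integral_const_mul, ← integral_const_mul,
      ← integral_add (cont_int (c2.const_mul 8)) (cont_int (c3.const_mul 128))]
    exact integral_mono (cont_int c1) (cont_int ((c2.const_mul 8).add (c3.const_mul 128))) p1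
  have i2 : ∫ x, (h x).re ^ 4 ∂haar n ≤
      1 / 2 * (∫ x, ‖f₀ x + h x + star (h x)‖ ^ 4 ∂haar n) +
        1 / 2 * ∫ x, ‖f₀ x‖ ^ 4 ∂haar n := by
    rw [← integral_const_mul, ← integral_const_mul,
      ← integral_add (cont_int (c4.const_mul _)) (cont_int (c2.const_mul _))]
    exact integral_mono (cont_int c5) (cont_int ((c4.const_mul _).add (c2.const_mul _))) p2
  linarith

end MP_c03b66_an

end

section

/-! Item B4: Riesz projection on `L⁴` (helper10). -/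

open MeasureTheory UnitAddTorus

namespace MP_c03b66_an

noncomputable section

lemma B4_pow (a b c d e : ℝ) (he : 0 ≤ e) (h : 2 * e ≤ a + b + c + d) : e ^ 4 ≤ 4 * (a ^ 4 + b ^ 4 + c ^ 4 + d ^ 4) := by
  have h1 : (2 * e) ^ 4 ≤ (a + b + c + d) ^ 4 := pow_le_pow_left₀ (by positivity) h 4
  have h2 : (a + b + c + d) ^ 2 ≤ 4 * (a ^ 2 + b ^ 2 + c ^ 2 + d ^ 2) := by
    nlinarith [sq_nonneg (a - b), sq_nonneg (a - c), sq_nonneg (a - d), sq_nonneg (b - c),
      sq_nonneg (b - d), sq_nonneg (c - d)]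
  have h3 : (a ^ 2 + b ^ 2 + c ^ 2 + d ^ 2) ^ 2 ≤ 4 * (a ^ 4 + b ^ 4 + c ^ 4 + d ^ 4) := by
    nlinarith [sq_nonneg (a ^ 2 - b ^ 2), sq_nonneg (a ^ 2 - c ^ 2), sq_nonneg (a ^ 2 - d ^ 2),
      sq_nonneg (b ^ 2 - c ^ 2), sq_nonneg (b ^ 2 - d ^ 2), sq_nonneg (c ^ 2 - d ^ 2)]
  have h4 : (a + b + c + d) ^ 4 ≤ 16 * (a ^ 2 + b ^ 2 + c ^ 2 + d ^ 2) ^ 2 := by
    have := pow_le_pow_left₀ (by positivity) h2 2
    nlinarith
  nlinarith

theorem item_B4 (h1 : S_B1) (h3a : S_B3a) (h3b : S_B3b) : S_B4 := by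
  intro n i₀
  refine ⟨4 * 18962, by norm_num, fun f r hf hr => ?_⟩
  have hg : f + r ∈ H (Set.univ : Set (Fin n → ℤ)) :=
    Submodule.add_mem _ (H_mono (Set.subset_univ _) hf) (H_mono (Set.subset_univ _) hr)
  obtain ⟨a, haH, b, hbH, ha, hb, hab⟩ := H_re_im hg
  obtain ⟨a0, ha0, p, hp, ha0r, hap⟩ := h3a n i₀ a haH (fun x => by rw [ha x]; simp)
  obtain ⟨b0, hb0, s, hs, hb0r, hbs⟩ := h3a n i₀ b hbH (fun x => by rw [hb x]; simp)
  -- spectra
  have hps : star p ∈ H {k : Fin n → ℤ | k i₀ < 0} :=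
    H_star (fun k hk => by
      simp only [Set.mem_ofPred_eq, Pi.neg_apply] at *; omega) hp
  have hss : star s ∈ H {k : Fin n → ℤ | k i₀ < 0} :=
    H_star (fun k hk => by
      simp only [Set.mem_ofPred_eq, Pi.neg_apply] at *; omega) hs
  have hsub0 : {k : Fin n → ℤ | k i₀ = 0} ⊆ {k : Fin n → ℤ | 0 ≤ k i₀} := fun k hk => by
    simp only [Set.mem_ofPred_eq] at *; omega
  have hsubp : {k : Fin n → ℤ | 0 < k i₀} ⊆ {k : Fin n → ℤ | 0 ≤ k i₀} := fun k hk => by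
    simp only [Set.mem_ofPred_eq] at *; omega
  have hfd : f - (a0 + p + Complex.I • (b0 + s)) = 0 := by
    refine H_disjoint (A := {k : Fin n → ℤ | 0 ≤ k i₀}) (B := {k : Fin n → ℤ | k i₀ < 0})
      (fun k hk hk' => ?_) ?_ ?_
    · simp only [Set.mem_ofPred_eq] at hk hk'; omega
    · exact Submodule.sub_mem _ hf (Submodule.add_mem _ (Submodule.add_mem _ (H_mono hsub0 ha0)
        (H_mono hsubp hp)) (Submodule.smul_mem _ _ (Submodule.add_mem _ (H_mono hsub0 hb0)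
        (H_mono hsubp hs))))
    · have h4 : f - (a0 + p + Complex.I • (b0 + s)) = star p + Complex.I • star s - r := by
        have h5 : f = a + Complex.I • b - r := by rw [← hab]; abel
        rw [h5, hap, hbs]
        ext x
        simp only [ContinuousMap.sub_apply, ContinuousMap.add_apply, ContinuousMap.smul_apply,
          smul_eq_mul]
        ring
      rw [h4]
      exact Submodule.sub_mem _ (Submodule.add_mem _ hps (Submodule.smul_mem _ _ hss)) hr
  have hfx : ∀ x, f x = a0 x + p x + Complex.I * (b0 x + s x) := by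
    intro x
    have h5 : (f - (a0 + p + Complex.I • (b0 + s))) x = 0 := by rw [hfd]; rfl
    simp only [ContinuousMap.sub_apply, ContinuousMap.add_apply, ContinuousMap.smul_apply,
      smul_eq_mul] at h5
    exact sub_eq_zero.1 h5
  have hsubn : ∀ (q : C(Tor n, ℂ)), q ∈ H {k : Fin n → ℤ | 0 < k i₀} →
      q + star q ∈ H {k : Fin n → ℤ | k i₀ ≠ 0} := by
    intro q hq
    refine Submodule.add_mem _ (H_mono (fun k hk => ?_) hq) (H_star (fun k hk => ?_) hq)
    · simp only [Set.mem_ofPred_eq] at *; omega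
    · simp only [Set.mem_ofPred_eq, Pi.neg_apply] at *; omega
  have hax : ∀ x, a x = a0 x + p x + star (p x) := fun x => by rw [hap]; rfl
  have hbx : ∀ x, b x = b0 x + s x + star (s x) := fun x => by rw [hbs]; rfl
  -- bounds
  have ia : ∫ x, ‖a x‖ ^ 4 ∂haar n ≤ ∫ x, ‖f x + r x‖ ^ 4 ∂haar n := by
    refine integral_mono (cont_int (by fun_prop)) (cont_int (by fun_prop)) fun x => ?_
    refine pow_le_pow_left₀ (norm_nonneg _) ?_ 4
    rw [ha x, Complex.norm_real]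
    exact Complex.abs_re_le_norm _
  have ib : ∫ x, ‖b x‖ ^ 4 ∂haar n ≤ ∫ x, ‖f x + r x‖ ^ 4 ∂haar n := by
    refine integral_mono (cont_int (by fun_prop)) (cont_int (by fun_prop)) fun x => ?_
    refine pow_le_pow_left₀ (norm_nonneg _) ?_ 4
    rw [hb x, Complex.norm_real]
    exact Complex.abs_im_le_norm _
  have ia0 : ∫ x, ‖a0 x‖ ^ 4 ∂haar n ≤ ∫ x, ‖a x‖ ^ 4 ∂haar n := by
    have h5 := h1 n i₀ a0 (p + star p) ha0 (hsubn p hp)
    refine h5.trans (le_of_eq ?_)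
    congr 1
    ext x
    rw [hax x, add_assoc]
    rfl
  have ib0 : ∫ x, ‖b0 x‖ ^ 4 ∂haar n ≤ ∫ x, ‖b x‖ ^ 4 ∂haar n := by
    have h5 := h1 n i₀ b0 (s + star s) hb0 (hsubn s hs)
    refine h5.trans (le_of_eq ?_)
    congr 1
    ext x
    rw [hbx x, add_assoc]
    rfl
  have ia1 : ∫ x, ‖a0 x + 2 * p x‖ ^ 4 ∂haar n ≤ 9480 * ∫ x, ‖a x‖ ^ 4 ∂haar n := by
    have h5 := h3b n i₀ a0 p ha0 hp ha0r
    refine h5.trans (le_of_eq ?_)
    congr 2
    ext x
    rw [hax x]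
  have ib1 : ∫ x, ‖b0 x + 2 * s x‖ ^ 4 ∂haar n ≤ 9480 * ∫ x, ‖b x‖ ^ 4 ∂haar n := by
    have h5 := h3b n i₀ b0 s hb0 hs hb0r
    refine h5.trans (le_of_eq ?_)
    congr 2
    ext x
    rw [hbx x]
  have hpt : ∀ x, ‖f x‖ ^ 4 ≤ 4 * (‖a0 x‖ ^ 4 + ‖b0 x‖ ^ 4 + ‖a0 x + 2 * p x‖ ^ 4 +
      ‖b0 x + 2 * s x‖ ^ 4) := by
    intro x
    refine B4_pow _ _ _ _ _ (norm_nonneg _) ?_
    have h6 : 2 * f x = a0 x + Complex.I * b0 x + (a0 x + 2 * p x) +
        Complex.I * (b0 x + 2 * s x) := by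
      rw [hfx x]; ring
    have h7 : 2 * ‖f x‖ = ‖2 * f x‖ := by rw [norm_mul]; simp
    rw [h7, h6]
    refine (norm_add_le _ _).trans ?_
    refine (add_le_add (norm_add_le _ _) le_rfl).trans ?_
    refine (add_le_add (add_le_add (norm_add_le _ _) le_rfl) le_rfl).trans ?_
    rw [norm_mul, norm_mul, Complex.norm_I, one_mul, one_mul]
  have hint : ∫ x, ‖f x‖ ^ 4 ∂haar n ≤ ∫ x, 4 * (‖a0 x‖ ^ 4 + ‖b0 x‖ ^ 4 +
      ‖a0 x + 2 * p x‖ ^ 4 + ‖b0 x + 2 * s x‖ ^ 4) ∂haar n :=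
    integral_mono (cont_int (by fun_prop)) (cont_int (by fun_prop)) hpt
  rw [integral_const_mul, integral_add (cont_int (by fun_prop)) (cont_int (by fun_prop)),
    integral_add (cont_int (by fun_prop)) (cont_int (by fun_prop)),
    integral_add (cont_int (by fun_prop)) (cont_int (by fun_prop))] at hint
  nlinarith

end

end MP_c03b66_an

end

section

/-! Item B5: Riesz projection on `L^{4/3}` by duality (helper10). -/

open MeasureTheory UnitAddTorus

namespace MP_c03b66_an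

noncomputable section

/-- the duality map -/
def B5psi (z : ℂ) : ℂ := star z * ((‖z‖ ^ (-(2 / 3) : ℝ) : ℝ) : ℂ)

lemma B5_norm (z : ℂ) : ‖B5psi z‖ = ‖z‖ ^ ((1 : ℝ) / 3) := by
  unfold B5psi
  rw [norm_mul, norm_star, Complex.norm_real, Real.norm_of_nonneg (by positivity)]
  rcases (norm_nonneg z).eq_or_lt with h | h
  · rw [← h, zero_mul, Real.zero_rpow (by norm_num)]
  · calc ‖z‖ * ‖z‖ ^ (-(2 / 3) : ℝ) = ‖z‖ ^ (1 : ℝ) * ‖z‖ ^ (-(2 / 3) : ℝ) := by
          rw [Real.rpow_one]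
      _ = ‖z‖ ^ ((1 : ℝ) / 3) := by
          rw [← Real.rpow_add h]; norm_num

lemma B5_norm4 (z : ℂ) : ‖B5psi z‖ ^ 4 = ‖z‖ ^ ((4 : ℝ) / 3) := by
  rw [B5_norm, ← Real.rpow_natCast, ← Real.rpow_mul (norm_nonneg _)]
  norm_num

lemma B5_mul (z : ℂ) : z * B5psi z = ((‖z‖ ^ ((4 : ℝ) / 3) : ℝ) : ℂ) := by
  unfold B5psi
  have h0 : z * star z = ((‖z‖ ^ 2 : ℝ) : ℂ) := by
    have h3 := Complex.mul_conj z
    rw [Complex.normSq_eq_norm_sq] at h3
    simpa using h3
  rw [← mul_assoc, h0, ← Complex.ofReal_mul]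
  congr 1
  rcases (norm_nonneg z).eq_or_lt with h | h
  · rw [← h, Real.zero_rpow (by norm_num)]
    norm_num
  · rw [← Real.rpow_natCast, ← Real.rpow_add h]
    norm_num

lemma B5_cont : Continuous B5psi := by
  rw [continuous_iff_continuousAt]
  intro z
  by_cases hz : z = 0
  · subst hz
    have h0 : B5psi 0 = 0 := by simp [B5psi]
    rw [ContinuousAt, h0]
    refine squeeze_zero_norm (a := fun z : ℂ => ‖z‖ ^ ((1 : ℝ) / 3)) (fun w => (B5_norm w).le) ?_
    have h1 : Continuous fun z : ℂ => ‖z‖ ^ ((1 : ℝ) / 3) :=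
      continuous_norm.rpow_const fun _ => Or.inr (by norm_num)
    have h2 := h1.tendsto 0
    rw [norm_zero, Real.zero_rpow (by norm_num)] at h2
    exact h2
  · have hn : ‖z‖ ≠ 0 := norm_ne_zero_iff.2 hz
    unfold B5psi
    have h1 : ContinuousAt (fun z : ℂ => ‖z‖ ^ (-(2 / 3) : ℝ)) z :=
      continuous_norm.continuousAt.rpow_const (Or.inl hn)
    exact (continuous_star.continuousAt).mul (Complex.continuous_ofReal.continuousAt.comp h1)

lemma B5_holder {n : ℕ} (g a : C(Tor n, ℂ)) :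
    ∫ x, ‖g x‖ * ‖a x‖ ∂haar n ≤ (∫ x, ‖g x‖ ^ ((4 : ℝ) / 3) ∂haar n) ^ ((3 : ℝ) / 4) *
      (∫ x, ‖a x‖ ^ 4 ∂haar n) ^ ((1 : ℝ) / 4) := by
  have hpq : ((4 : ℝ) / 3).HolderConjugate 4 := by
    rw [Real.holderConjugate_iff]
    norm_num
  have h := integral_mul_le_Lp_mul_Lq_of_nonneg (μ := haar n) hpq
    (f := fun x => ‖g x‖) (g := fun x => ‖a x‖)
    (Filter.Eventually.of_forall fun _ => norm_nonneg _)
    (Filter.Eventually.of_forall fun _ => norm_nonneg _)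
    (Continuous.memLp_of_hasCompactSupport (by fun_prop) (HasCompactSupport.of_compactSpace _))
    (Continuous.memLp_of_hasCompactSupport (by fun_prop) (HasCompactSupport.of_compactSpace _))
  refine h.trans (le_of_eq ?_)
  congr 1
  · norm_num
  · congr 2
    ext x
    rw [← Real.rpow_natCast]
    norm_num

lemma B5_pow (u K ε : ℝ) (hu : 0 ≤ u) (huK : u ≤ K) (h0 : 0 ≤ ε) (h1 : ε ≤ 1) :
    (u + ε) ^ 4 ≤ u ^ 4 + ε * (15 * (K + 1) ^ 3) := by
  have hK : 0 ≤ K := hu.trans huK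
  have h2 : u ^ 3 ≤ (K + 1) ^ 3 := pow_le_pow_left₀ hu (by linarith) 3
  have h3 : u ^ 2 * ε ≤ (K + 1) ^ 3 := by
    have h4 : u ^ 2 ≤ (K + 1) ^ 2 := pow_le_pow_left₀ hu (by linarith) 2
    nlinarith [sq_nonneg u, pow_nonneg (by linarith : (0:ℝ) ≤ K + 1) 2]
  have h5 : u * ε ^ 2 ≤ (K + 1) ^ 3 := by
    have h6 : u * ε ^ 2 ≤ u := mul_le_of_le_one_right hu (by nlinarith)
    nlinarith [pow_nonneg (by linarith : (0:ℝ) ≤ K + 1) 2]
  have h7 : ε ^ 3 ≤ (K + 1) ^ 3 := pow_le_pow_left₀ h0 (by linarith) 3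
  have h8 : (u + ε) ^ 4 = u ^ 4 + ε * (4 * u ^ 3 + 6 * (u ^ 2 * ε) + 4 * (u * ε ^ 2) + ε ^ 3) := by
    ring
  rw [h8]
  have h9 : 4 * u ^ 3 + 6 * (u ^ 2 * ε) + 4 * (u * ε ^ 2) + ε ^ 3 ≤ 15 * (K + 1) ^ 3 := by
    linarith
  have := mul_le_mul_of_nonneg_left h9 h0
  linarith

theorem item_B5 (h4 : S_B4) : S_B5 := by
  intro n i₀
  obtain ⟨C4, hC4, hR⟩ := h4 n i₀
  refine ⟨C4 + 1, by linarith, fun f r hf hr => ?_⟩
  set g : C(Tor n, ℂ) := f + r with hg
  have hgx : ∀ x, g x = f x + r x := fun x => rfl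
  set φ : C(Tor n, ℂ) := ⟨fun x => B5psi (f x), B5_cont.comp f.continuous⟩ with hφ
  have hφx : ∀ x, φ x = B5psi (f x) := fun x => rfl
  set I : ℝ := ∫ x, ‖f x‖ ^ ((4 : ℝ) / 3) ∂haar n with hI
  set G : ℝ := ∫ x, ‖g x‖ ^ ((4 : ℝ) / 3) ∂haar n with hG
  set F1 : ℝ := ∫ x, ‖f x‖ ∂haar n with hF1
  have hc43 : ∀ u : C(Tor n, ℂ), Continuous fun x => ‖u x‖ ^ ((4 : ℝ) / 3) := fun u =>
    (u.continuous.norm).rpow_const fun _ => Or.inr (by norm_num)
  have hI0 : 0 ≤ I := integral_nonneg fun x => by positivity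
  have hG0 : 0 ≤ G := integral_nonneg fun x => by positivity
  have hφ4 : ∫ x, ‖φ x‖ ^ 4 ∂haar n = I := by
    rw [hI]
    congr 1
    ext x
    rw [hφx, B5_norm4]
  have hfφ : ∫ x, f x * φ x ∂haar n = (I : ℂ) := by
    have h5 : ∫ x, ((‖f x‖ ^ ((4 : ℝ) / 3) : ℝ) : ℂ) ∂haar n = (I : ℂ) := integral_ofReal
    rw [← h5]
    congr 1
    ext x
    rw [hφx, B5_mul]
  set K : ℝ := ‖φ‖ with hK
  have key : ∀ ε : ℝ, 0 < ε → ε ≤ 1 → I ≤ ε * F1 + G ^ ((3 : ℝ) / 4) *
      (C4 * (I + ε * (15 * (K + 1) ^ 3))) ^ ((1 : ℝ) / 4) := by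
    intro ε hε hε1
    obtain ⟨ψ, hψ, hψe⟩ := H_dense φ hε
    obtain ⟨a, ha, b, hb, hab⟩ := H_split (A := {k : Fin n → ℤ | k i₀ ≤ 0})
      (B := {k : Fin n → ℤ | 0 < k i₀}) (fun k _ => le_or_gt (k i₀) 0) hψ
    have e1 : ∫ x, f x * b x ∂haar n = 0 := by
      have h5 : f * b ∈ H {k : Fin n → ℤ | 0 < k i₀} :=
        H_mul (fun u hu v hv => by
          simp only [Set.mem_ofPred_eq, Pi.add_apply] at *; omega) hf hb
      exact int_of_mem_H h5 (by simp)
    have e2 : ∫ x, r x * a x ∂haar n = 0 := by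
      have h5 : r * a ∈ H {k : Fin n → ℤ | k i₀ < 0} :=
        H_mul (fun u hu v hv => by
          simp only [Set.mem_ofPred_eq, Pi.add_apply] at *; omega) hr ha
      exact int_of_mem_H h5 (by simp)
    have e3 : ∫ x, f x * ψ x ∂haar n = ∫ x, g x * a x ∂haar n := by
      have h5 : ∀ x, f x * ψ x = g x * a x + f x * b x - r x * a x := by
        intro x
        rw [hgx, hab, ContinuousMap.add_apply]; ring
      simp_rw [h5]
      rw [integral_sub (cont_int (by fun_prop)) (cont_int (by fun_prop)),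
        integral_add (cont_int (by fun_prop)) (cont_int (by fun_prop)), e1, e2]
      ring
    have e4 : ∫ x, ‖a x‖ ^ 4 ∂haar n ≤ C4 * ∫ x, ‖ψ x‖ ^ 4 ∂haar n := by
      have h5 := hR (star a) (star b)
        (H_star (fun k hk => by simp only [Set.mem_ofPred_eq, Pi.neg_apply] at *; omega) ha)
        (H_star (fun k hk => by simp only [Set.mem_ofPred_eq, Pi.neg_apply] at *; omega) hb)
      simp only [ContinuousMap.star_apply, norm_star, ← star_add] at h5
      refine h5.trans (le_of_eq ?_)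
      rw [hab]
      rfl
    have e5 : ∫ x, ‖ψ x‖ ^ 4 ∂haar n ≤ I + ε * (15 * (K + 1) ^ 3) := by
      have h5 : ∀ x, ‖ψ x‖ ^ 4 ≤ ‖φ x‖ ^ 4 + ε * (15 * (K + 1) ^ 3) := by
        intro x
        have h6 : ‖ψ x‖ ≤ ‖φ x‖ + ε := by
          have h7 : ψ x = φ x - (φ x - ψ x) := by ring
          rw [h7]
          exact (norm_sub_le _ _).trans (add_le_add le_rfl (hψe x))
        refine (pow_le_pow_left₀ (norm_nonneg _) h6 4).trans ?_
        exact B5_pow _ K ε (norm_nonneg _) (φ.norm_coe_le_norm x) hε.le hε1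
      calc ∫ x, ‖ψ x‖ ^ 4 ∂haar n ≤ ∫ x, (‖φ x‖ ^ 4 + ε * (15 * (K + 1) ^ 3)) ∂haar n :=
            integral_mono (cont_int (by fun_prop)) (cont_int (by fun_prop)) h5
        _ = I + ε * (15 * (K + 1) ^ 3) := by
            rw [integral_add (cont_int (by fun_prop)) (integrable_const _), hφ4]
            simp
    have e6 : ‖∫ x, g x * a x ∂haar n‖ ≤ G ^ ((3 : ℝ) / 4) *
        (C4 * (I + ε * (15 * (K + 1) ^ 3))) ^ ((1 : ℝ) / 4) := by
      calc ‖∫ x, g x * a x ∂haar n‖ ≤ ∫ x, ‖g x * a x‖ ∂haar n :=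
            norm_integral_le_integral_norm _
        _ = ∫ x, ‖g x‖ * ‖a x‖ ∂haar n := by simp_rw [norm_mul]
        _ ≤ _ := B5_holder g a
        _ ≤ _ := by
            refine mul_le_mul_of_nonneg_left ?_ (by positivity)
            refine Real.rpow_le_rpow (integral_nonneg fun x => by positivity) ?_ (by norm_num)
            exact e4.trans (mul_le_mul_of_nonneg_left e5 hC4.le)
    have e7 : ‖∫ x, f x * φ x ∂haar n - ∫ x, f x * ψ x ∂haar n‖ ≤ ε * F1 := by
      rw [← integral_sub (cont_int (by fun_prop)) (cont_int (by fun_prop))]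
      refine (norm_integral_le_integral_norm _).trans ?_
      rw [hF1, ← integral_const_mul]
      refine integral_mono (cont_int (by fun_prop)) (cont_int (by fun_prop)) fun x => ?_
      show ‖f x * φ x - f x * ψ x‖ ≤ ε * ‖f x‖
      rw [← mul_sub, norm_mul, mul_comm ε]
      exact mul_le_mul_of_nonneg_left (hψe x) (norm_nonneg _)
    have e8 : I = ‖∫ x, f x * φ x ∂haar n‖ := by
      rw [hfφ, Complex.norm_real, Real.norm_of_nonneg hI0]
    have e9 : ∫ x, f x * φ x ∂haar n =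
        (∫ x, f x * φ x ∂haar n - ∫ x, f x * ψ x ∂haar n) + ∫ x, g x * a x ∂haar n := by
      rw [e3]; ring
    calc I = ‖∫ x, f x * φ x ∂haar n‖ := e8
      _ ≤ ‖∫ x, f x * φ x ∂haar n - ∫ x, f x * ψ x ∂haar n‖ + ‖∫ x, g x * a x ∂haar n‖ := by
          conv_lhs => rw [e9]
          exact norm_add_le _ _
      _ ≤ _ := add_le_add e7 e6
  have key2 : I ≤ G ^ ((3 : ℝ) / 4) * (C4 * I) ^ ((1 : ℝ) / 4) := by
    have hcont : Continuous fun ε : ℝ => ε * F1 + G ^ ((3 : ℝ) / 4) *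
        (C4 * (I + ε * (15 * (K + 1) ^ 3))) ^ ((1 : ℝ) / 4) := by
      refine (continuous_id.mul continuous_const).add (continuous_const.mul ?_)
      refine Continuous.rpow_const ?_ fun _ => Or.inr (by norm_num)
      fun_prop
    have hlim := (hcont.tendsto 0).mono_left (nhdsWithin_le_nhds (s := Set.Ioi 0))
    have h5 := ge_of_tendsto hlim (b := I) (by
      filter_upwards [Ioc_mem_nhdsGT (zero_lt_one' ℝ)] with ε hε
      exact key ε hε.1 hε.2)
    simpa using h5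
  -- final algebra
  by_contra hcon
  push Not at hcon
  have hgg : ∫ x, ‖f x + r x‖ ^ ((4 : ℝ) / 3) ∂haar n = G := rfl
  rw [hgg] at hcon
  have hIpos : 0 < I := lt_of_le_of_lt (by positivity) hcon
  have h6 : I ^ 4 ≤ G ^ 3 * (C4 * I) := by
    have h7 := pow_le_pow_left₀ hI0 key2 4
    have h12 : (G ^ ((3 : ℝ) / 4)) ^ 4 = G ^ 3 := by
      rw [← Real.rpow_natCast, ← Real.rpow_mul hG0, ← Real.rpow_natCast]
      norm_num
    have h13 : ((C4 * I) ^ ((1 : ℝ) / 4)) ^ 4 = C4 * I := by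
      rw [← Real.rpow_natCast, ← Real.rpow_mul (by positivity)]
      norm_num
    rw [mul_pow, h12, h13] at h7
    exact h7
  have h8 : I ^ 3 ≤ C4 * G ^ 3 := by
    have h9 : I * I ^ 3 ≤ I * (C4 * G ^ 3) := by nlinarith
    exact le_of_mul_le_mul_left h9 hIpos
  have h10 : ((C4 + 1) * G) ^ 3 < I ^ 3 := pow_lt_pow_left₀ hcon (by positivity) (by norm_num)
  have h11 : C4 * G ^ 3 ≤ ((C4 + 1) * G) ^ 3 := by
    rw [mul_pow]
    refine mul_le_mul_of_nonneg_right ?_ (by positivity)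
    nlinarith [pow_pos hC4 2, pow_pos hC4 3]
  linarith

end

end MP_c03b66_an

end

section

/-! Item D1: approximation from above by real trigonometric polynomials. -/

open MeasureTheory UnitAddTorus

namespace MP_c03b66_an

noncomputable section

theorem item_D1 : S_D1 := by
  intro n v δ hδ
  have hcont : Continuous (fun x : Tor n => ((v x + δ / 2 : ℝ) : ℂ)) := by fun_prop
  obtain ⟨g, hg, hgv⟩ := H_dense (⟨_, hcont⟩ : C(Tor n, ℂ)) (half_pos hδ)
  obtain ⟨a, ha, b, _, har, _, _⟩ := H_re_im hg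
  refine ⟨a, ha, fun x => by rw [har x]; exact Complex.ofReal_im _, fun x => ?_⟩
  have h1 := hgv x
  have h2 : |v x + δ / 2 - (g x).re| ≤ δ / 2 := by
    refine le_trans ?_ h1
    have h3 := Complex.abs_re_le_norm (((v x + δ / 2 : ℝ) : ℂ) - g x)
    rw [Complex.sub_re, Complex.ofReal_re] at h3
    exact h3
  rw [har x, Complex.ofReal_re]
  rw [abs_le] at h2
  constructor <;> linarith [h2.1, h2.2]

end

end MP_c03b66_an

end

section

/-! Item D2: the exponential multiplier step. -/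

open MeasureTheory UnitAddTorus Filter Topology

namespace MP_c03b66_an

noncomputable section

/-- Partial sums of the exponential series of `-W`. -/
def D2_F {n : ℕ} (W : C(Tor n, ℂ)) (M : ℕ) : C(Tor n, ℂ) :=
  ∑ m ∈ Finset.range M, ((Nat.factorial m : ℂ)⁻¹) • (-W) ^ m

lemma D2_F_apply {n : ℕ} (W : C(Tor n, ℂ)) (M : ℕ) (x : Tor n) :
    D2_F W M x = ∑ m ∈ Finset.range M, (-(W x)) ^ m / (Nat.factorial m : ℂ) := by
  simp only [D2_F, ContinuousMap.coe_sum, Finset.sum_apply, ContinuousMap.smul_apply,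
    ContinuousMap.pow_apply, ContinuousMap.neg_apply, smul_eq_mul]
  refine Finset.sum_congr rfl fun m _ => ?_
  rw [div_eq_inv_mul]

lemma D2_F_mem {n : ℕ} (i₀ : Fin n) {W : C(Tor n, ℂ)} (hW : W ∈ H {k : Fin n → ℤ | 0 ≤ k i₀})
    (M : ℕ) : D2_F W M ∈ H {k : Fin n → ℤ | 0 ≤ k i₀} := by
  have hp : ∀ m : ℕ, (-W) ^ m ∈ H {k : Fin n → ℤ | 0 ≤ k i₀} := by
    intro m
    induction m with
    | zero =>
      rw [pow_zero]
      exact one_mem_H (by simp)
    | succ m ih =>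
      rw [pow_succ]
      refine H_mul (A := {k : Fin n → ℤ | 0 ≤ k i₀}) (B := {k : Fin n → ℤ | 0 ≤ k i₀}) ?_ ih
        (Submodule.neg_mem _ hW)
      intro a ha b hb
      simp only [Set.mem_ofPred_eq, Pi.add_apply] at *
      omega
  exact Submodule.sum_mem _ fun m _ => Submodule.smul_mem _ _ (hp m)

lemma D2_F_tendsto {n : ℕ} (W : C(Tor n, ℂ)) (x : Tor n) :
    Tendsto (fun M => D2_F W M x) atTop (𝓝 (Complex.exp (-(W x)))) := by
  have h : HasSum (fun m : ℕ => (-(W x)) ^ m / (Nat.factorial m : ℂ)) (Complex.exp (-(W x))) := by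
    rw [Complex.exp_eq_exp_ℂ]
    exact NormedSpace.expSeries_div_hasSum_exp (-(W x))
  have h2 := h.tendsto_sum_nat
  refine h2.congr fun M => ?_
  rw [D2_F_apply]

lemma D2_F_le {n : ℕ} (W : C(Tor n, ℂ)) (M : ℕ) (x : Tor n) :
    ‖D2_F W M x‖ ≤ Real.exp ‖W‖ := by
  rw [D2_F_apply]
  refine (norm_sum_le _ _).trans ?_
  refine le_trans (Finset.sum_le_sum fun m _ => ?_) (Real.sum_le_exp_of_nonneg (norm_nonneg W) M)
  rw [norm_div, norm_pow, norm_neg, Complex.norm_natCast]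
  gcongr
  exact W.norm_coe_le_norm x

lemma D2_pow {x y z : ℝ} (hx : 0 ≤ x) (hy : 0 ≤ y) (hz : 0 ≤ z) (h : z ≤ x + y) :
    z ^ ((4 : ℝ) / 3) ≤ 2 * (x ^ ((4 : ℝ) / 3) + y ^ ((4 : ℝ) / 3)) := by
  have h1 : z ^ ((4 : ℝ) / 3) ≤ (x + y) ^ ((4 : ℝ) / 3) :=
    Real.rpow_le_rpow hz h (by norm_num)
  have h2 : (x + y) ^ ((4 : ℝ) / 3) ≤
      (2 : ℝ) ^ ((4 : ℝ) / 3 - 1) * (x ^ ((4 : ℝ) / 3) + y ^ ((4 : ℝ) / 3)) := by
    lift x to NNReal using hx
    lift y to NNReal using hy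
    have h0 := NNReal.rpow_add_le_mul_rpow_add_rpow x y (p := (4 : ℝ) / 3) (by norm_num)
    exact_mod_cast h0
  have h3 : (2 : ℝ) ^ ((4 : ℝ) / 3 - 1) ≤ 2 := by
    calc (2 : ℝ) ^ ((4 : ℝ) / 3 - 1) ≤ (2 : ℝ) ^ (1 : ℝ) :=
          Real.rpow_le_rpow_of_exponent_le (by norm_num) (by norm_num)
      _ = 2 := Real.rpow_one 2
  have h4 : 0 ≤ x ^ ((4 : ℝ) / 3) + y ^ ((4 : ℝ) / 3) := by positivity
  calc z ^ ((4 : ℝ) / 3) ≤ (x + y) ^ ((4 : ℝ) / 3) := h1
    _ ≤ (2 : ℝ) ^ ((4 : ℝ) / 3 - 1) * (x ^ ((4 : ℝ) / 3) + y ^ ((4 : ℝ) / 3)) := h2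
    _ ≤ _ := by gcongr

/-- The inequality for the partial sums. -/
lemma D2_M {n : ℕ} {i₀ : Fin n} {C : ℝ}
    (hC : ∀ (f r : C(Tor n, ℂ)),
      f ∈ H {k : Fin n → ℤ | 0 ≤ k i₀} → r ∈ H {k : Fin n → ℤ | k i₀ < 0} →
      ∫ x, ‖f x‖ ^ ((4 : ℝ) / 3) ∂haar n ≤ C * ∫ x, ‖f x + r x‖ ^ ((4 : ℝ) / 3) ∂haar n)
    {p r W : C(Tor n, ℂ)} (hp : p ∈ H {k : Fin n → ℤ | 0 ≤ k i₀})
    (hr : r ∈ H {k : Fin n → ℤ | k i₀ < 0}) (hW : W ∈ H {k : Fin n → ℤ | 0 ≤ k i₀}) (M : ℕ) :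
    ∫ x, ‖p x‖ ^ ((4 : ℝ) / 3) ∂haar n ≤
      2 * C * (∫ x, ‖star (D2_F W M x) * (p x + r x)‖ ^ ((4 : ℝ) / 3) ∂haar n +
        ∫ x, ‖(1 - star (D2_F W M x)) * p x‖ ^ ((4 : ℝ) / 3) ∂haar n) := by
  have hG : star (D2_F W M) ∈ H {k : Fin n → ℤ | k i₀ ≤ 0} := by
    refine H_star ?_ (D2_F_mem i₀ hW M)
    intro a ha
    simp only [Set.mem_ofPred_eq, Pi.neg_apply] at *
    omega
  set G := star (D2_F W M) with hGdef
  have hGp : G * p ∈ H (Set.univ : Set (Fin n → ℤ)) :=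
    H_mul (fun _ _ _ _ => Set.mem_univ _) hG hp
  obtain ⟨a, ha, b, hb, hab⟩ := H_split (D := Set.univ) (A := {k : Fin n → ℤ | 0 ≤ k i₀})
    (B := {k : Fin n → ℤ | k i₀ < 0}) (fun k _ => by
      simp only [Set.mem_ofPred_eq]; omega) hGp
  have habx : ∀ x, G x * p x = a x + b x := fun x => by
    have := congrArg (fun f : C(Tor n, ℂ) => f x) hab
    simpa using this
  have hGr : G * r ∈ H {k : Fin n → ℤ | k i₀ < 0} := by
    refine H_mul ?_ hG hr
    intro a ha b hb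
    simp only [Set.mem_ofPred_eq, Pi.add_apply] at *
    omega
  have h1 := hC a (b + G * r) ha (Submodule.add_mem _ hb hGr)
  have h2 := hC (p - a) (-b) (Submodule.sub_mem _ hp ha) (Submodule.neg_mem _ hb)
  have e1 : ∀ x, a x + (b + G * r) x = star (D2_F W M x) * (p x + r x) := by
    intro x
    have h3 := habx x
    have h4 : G x = star (D2_F W M x) := rfl
    rw [← h4]
    simp only [ContinuousMap.add_apply, ContinuousMap.mul_apply]
    linear_combination -h3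
  have e2 : ∀ x, (p - a) x + (-b) x = (1 - star (D2_F W M x)) * p x := by
    intro x
    have h3 := habx x
    have h4 : G x = star (D2_F W M x) := rfl
    rw [← h4]
    simp only [ContinuousMap.sub_apply, ContinuousMap.neg_apply]
    linear_combination h3
  simp only [e1] at h1
  simp only [e2] at h2
  have hc : ∀ f : C(Tor n, ℂ), Continuous fun x => ‖f x‖ ^ ((4 : ℝ) / 3) := fun f =>
    f.continuous.norm.rpow_const fun _ => Or.inr (by norm_num)
  have h5 : ∫ x, ‖p x‖ ^ ((4 : ℝ) / 3) ∂haar n ≤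
      ∫ x, 2 * (‖a x‖ ^ ((4 : ℝ) / 3) + ‖(p - a) x‖ ^ ((4 : ℝ) / 3)) ∂haar n := by
    refine integral_mono (cont_int (hc p)) (cont_int (((hc a).add (hc (p - a))).const_mul _)) ?_
    intro x
    refine D2_pow (norm_nonneg _) (norm_nonneg _) (norm_nonneg _) ?_
    have : p x = a x + (p - a) x := by simp
    rw [this]
    exact norm_add_le _ _
  rw [integral_const_mul, integral_add (cont_int (hc a)) (cont_int (hc (p - a)))] at h5
  refine h5.trans ?_
  nlinarith [h1, h2]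

theorem item_D2 (h5 : S_B5) : S_D2 := by
  intro n i₀
  obtain ⟨C, hC0, hC⟩ := h5 n i₀
  refine ⟨2 * C, by positivity, fun p r W hp hr hW => ?_⟩
  have key := fun M => D2_M (i₀ := i₀) hC hp hr hW M
  have hcq : Continuous fun z : ℂ => ‖z‖ ^ ((4 : ℝ) / 3) :=
    continuous_norm.rpow_const fun _ => Or.inr (by norm_num)
  have t1 : Tendsto (fun M => ∫ x, ‖star (D2_F W M x) * (p x + r x)‖ ^ ((4 : ℝ) / 3) ∂haar n)
      atTop (𝓝 (∫ x, ‖Complex.exp (-(star (W x))) * (p x + r x)‖ ^ ((4 : ℝ) / 3) ∂haar n)) := by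
    refine tendsto_integral_of_dominated_convergence
      (fun _ => (Real.exp ‖W‖ * ‖p + r‖) ^ ((4 : ℝ) / 3)) ?_ (integrable_const _) ?_ ?_
    · intro M
      refine Continuous.aestronglyMeasurable ?_
      exact hcq.comp ((continuous_star.comp (D2_F W M).continuous).mul
        (p.continuous.add r.continuous))
    · intro M
      refine Eventually.of_forall fun x => ?_
      rw [Real.norm_of_nonneg (by positivity)]
      refine Real.rpow_le_rpow (norm_nonneg _) ?_ (by norm_num)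
      rw [norm_mul, norm_star]
      exact mul_le_mul (D2_F_le W M x) ((p + r).norm_coe_le_norm x) (norm_nonneg _)
        (Real.exp_pos _).le
    · refine Eventually.of_forall fun x => ?_
      refine (hcq.tendsto _).comp ?_
      refine Tendsto.mul_const _ ?_
      have h1 := (continuous_star.tendsto _).comp (D2_F_tendsto W x)
      have h2 : star (Complex.exp (-(W x))) = Complex.exp (-(star (W x))) := by
        have h3 := Complex.exp_conj (-(W x))
        rw [map_neg] at h3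
        exact h3.symm
      rw [h2] at h1
      exact h1
  have t2 : Tendsto (fun M => ∫ x, ‖(1 - star (D2_F W M x)) * p x‖ ^ ((4 : ℝ) / 3) ∂haar n)
      atTop (𝓝 (∫ x, ‖(1 - Complex.exp (-(star (W x)))) * p x‖ ^ ((4 : ℝ) / 3) ∂haar n)) := by
    refine tendsto_integral_of_dominated_convergence
      (fun _ => ((1 + Real.exp ‖W‖) * ‖p‖) ^ ((4 : ℝ) / 3)) ?_ (integrable_const _) ?_ ?_
    · intro M
      refine Continuous.aestronglyMeasurable ?_
      exact hcq.comp ((continuous_const.sub (continuous_star.comp (D2_F W M).continuous)).mul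
        p.continuous)
    · intro M
      refine Eventually.of_forall fun x => ?_
      rw [Real.norm_of_nonneg (by positivity)]
      refine Real.rpow_le_rpow (norm_nonneg _) ?_ (by norm_num)
      rw [norm_mul]
      refine mul_le_mul ?_ (p.norm_coe_le_norm x) (norm_nonneg _) (by positivity)
      refine (norm_sub_le _ _).trans ?_
      rw [norm_one, norm_star]
      linarith [D2_F_le W M x]
    · refine Eventually.of_forall fun x => ?_
      refine (hcq.tendsto _).comp ?_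
      refine Tendsto.mul_const _ ?_
      have h1 := (continuous_star.tendsto _).comp (D2_F_tendsto W x)
      have h2 : star (Complex.exp (-(W x))) = Complex.exp (-(star (W x))) := by
        have h3 := Complex.exp_conj (-(W x))
        rw [map_neg] at h3
        exact h3.symm
      rw [h2] at h1
      exact h1.const_sub 1
  exact ge_of_tendsto' ((t1.add t2).const_mul (2 * C)) key

end

end MP_c03b66_an

end

section

/-! Item D3: the main inequality. -/

open MeasureTheory UnitAddTorus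

namespace MP_c03b66_an

noncomputable section

lemma D3_exp {z : ℂ} (hz : 0 ≤ z.re) : ‖1 - Complex.exp (-z)‖ ≤ ‖z‖ := by
  have hconv : Convex ℝ {w : ℂ | 0 ≤ w.re} := convex_halfSpace_re_ge 0
  have h := Convex.norm_image_sub_le_of_norm_hasDerivWithin_le (𝕜 := ℂ)
    (f := fun w => Complex.exp (-w)) (f' := fun w => -Complex.exp (-w)) (C := 1)
    (s := {w : ℂ | 0 ≤ w.re}) (x := z) (y := 0) ?_ ?_ hconv hz (by simp)
  · simpa using h
  · intro w _
    have h1 := ((hasDerivAt_id w).neg.cexp).hasDerivWithinAt (s := {w : ℂ | 0 ≤ w.re})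
    simpa using h1
  · intro w hw
    have hw' : 0 ≤ w.re := hw
    rw [norm_neg, Complex.norm_exp, Complex.neg_re]
    exact Real.exp_le_one_iff.2 (by linarith)

lemma D3_log {y : ℝ} (hy : 1 ≤ y) : Real.log y ^ 4 ≤ 4096 * Real.sqrt y := by
  have h0 : 0 ≤ Real.log y := Real.log_nonneg hy
  have hy0 : 0 < y := by linarith
  have hs : 0 < Real.sqrt (Real.sqrt (Real.sqrt y)) := by positivity
  have h1 : Real.log y ≤ 8 * Real.sqrt (Real.sqrt (Real.sqrt y)) := by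
    have h2 := Real.log_le_sub_one_of_pos hs
    rw [Real.log_sqrt (Real.sqrt_nonneg _), Real.log_sqrt (Real.sqrt_nonneg _),
      Real.log_sqrt hy0.le] at h2
    linarith
  have h3 : Real.sqrt (Real.sqrt (Real.sqrt y)) ^ 2 = Real.sqrt (Real.sqrt y) :=
    Real.sq_sqrt (Real.sqrt_nonneg _)
  have h4 : Real.sqrt (Real.sqrt y) ^ 2 = Real.sqrt y := Real.sq_sqrt (Real.sqrt_nonneg _)
  calc Real.log y ^ 4 ≤ (8 * Real.sqrt (Real.sqrt (Real.sqrt y))) ^ 4 :=
        pow_le_pow_left₀ h0 h1 4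
    _ = 4096 * ((Real.sqrt (Real.sqrt (Real.sqrt y)) ^ 2) ^ 2) := by ring
    _ = 4096 * Real.sqrt y := by rw [h3, h4]

lemma D3_memLp {n : ℕ} {f : Tor n → ℝ} (hf : Continuous f) (p : ENNReal) :
    MemLp f p (haar n) :=
  hf.memLp_of_hasCompactSupport (HasCompactSupport.of_compactSpace f)

lemma D3_holder {n : ℕ} {a b : Tor n → ℝ} (ha : Continuous a) (hb : Continuous b)
    (ha0 : ∀ x, 0 ≤ a x) (hb0 : ∀ x, 0 ≤ b x) :
    ∫ x, (a x * b x) ^ ((4 : ℝ) / 3) ∂haar n ≤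
      (∫ x, a x ^ 4 ∂haar n) ^ ((1 : ℝ) / 3) * (∫ x, b x ^ 2 ∂haar n) ^ ((2 : ℝ) / 3) := by
  have hpq : (3 : ℝ).HolderConjugate (3 / 2) := by
    rw [Real.holderConjugate_iff]; constructor <;> norm_num
  have hca : Continuous fun x => a x ^ ((4 : ℝ) / 3) :=
    ha.rpow_const fun _ => Or.inr (by norm_num)
  have hcb : Continuous fun x => b x ^ ((4 : ℝ) / 3) :=
    hb.rpow_const fun _ => Or.inr (by norm_num)
  have h := integral_mul_le_Lp_mul_Lq_of_nonneg (μ := haar n) hpq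
    (f := fun x => a x ^ ((4 : ℝ) / 3)) (g := fun x => b x ^ ((4 : ℝ) / 3))
    (Filter.Eventually.of_forall fun x => Real.rpow_nonneg (ha0 x) _)
    (Filter.Eventually.of_forall fun x => Real.rpow_nonneg (hb0 x) _)
    (D3_memLp hca _) (D3_memLp hcb _)
  have e1 : ∀ x, (a x * b x) ^ ((4 : ℝ) / 3) = a x ^ ((4 : ℝ) / 3) * b x ^ ((4 : ℝ) / 3) :=
    fun x => Real.mul_rpow (ha0 x) (hb0 x)
  have e2 : ∀ x, (a x ^ ((4 : ℝ) / 3)) ^ (3 : ℝ) = a x ^ 4 := fun x => by
    rw [← Real.rpow_mul (ha0 x)]; norm_num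
  have e3 : ∀ x, (b x ^ ((4 : ℝ) / 3)) ^ ((3 : ℝ) / 2) = b x ^ 2 := fun x => by
    rw [← Real.rpow_mul (hb0 x)]; norm_num
  simp only [e2, e3] at h
  simp only [e1]
  refine h.trans (le_of_eq ?_)
  norm_num

lemma D3_jensen {n : ℕ} {b : Tor n → ℝ} (hb : Continuous b) (hb0 : ∀ x, 0 ≤ b x) :
    ∫ x, b x ∂haar n ≤ (∫ x, b x ^ ((4 : ℝ) / 3) ∂haar n) ^ ((3 : ℝ) / 4) := by
  have hpq : ((4 : ℝ) / 3).HolderConjugate 4 := by
    rw [Real.holderConjugate_iff]; constructor <;> norm_num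
  have h := integral_mul_le_Lp_mul_Lq_of_nonneg (μ := haar n) hpq
    (f := b) (g := fun _ => 1)
    (Filter.Eventually.of_forall fun x => hb0 x)
    (Filter.Eventually.of_forall fun x => zero_le_one)
    (D3_memLp hb _) (D3_memLp continuous_const _)
  simpa using h

/-- combination of the estimates -/
lemma D3_comb {X2 P P43 Lam C2 lam rho : ℝ} (hX : 0 ≤ X2) (hP43 : 0 ≤ P43) (hLam : 1 ≤ Lam)
    (hC2 : 0 < C2) (hl : 0 ≤ lam) (hrho : rho = 1 / (2 * Lam ^ ((4 : ℝ) / 3) * C2))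
    (h1 : Real.sqrt X2 ≤ Lam * P) (h2 : P ≤ P43 ^ ((3 : ℝ) / 4))
    (h3 : P43 ≤ C2 * (lam ^ ((4 : ℝ) / 3) + rho * X2 ^ ((2 : ℝ) / 3))) :
    X2 ≤ (2 * Lam ^ ((4 : ℝ) / 3) * C2) ^ ((3 : ℝ) / 2) * lam ^ 2 := by
  have hL0 : 0 < Lam := by linarith
  have hLc : 0 < Lam ^ ((4 : ℝ) / 3) := Real.rpow_pos_of_pos hL0 _
  have h4 : X2 ^ ((2 : ℝ) / 3) ≤ Lam ^ ((4 : ℝ) / 3) * P43 := by
    have h5 : Real.sqrt X2 ≤ Lam * P43 ^ ((3 : ℝ) / 4) :=
      h1.trans (mul_le_mul_of_nonneg_left h2 hL0.le)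
    have h6 := Real.rpow_le_rpow (Real.sqrt_nonneg _) h5 (show (0 : ℝ) ≤ 4 / 3 by norm_num)
    rw [Real.mul_rpow hL0.le (Real.rpow_nonneg hP43 _), ← Real.rpow_mul hP43,
      Real.sqrt_eq_rpow, ← Real.rpow_mul hX] at h6
    norm_num at h6 ⊢
    exact h6
  have h5 : Lam ^ ((4 : ℝ) / 3) * C2 * rho = 1 / 2 := by
    rw [hrho]; field_simp
  have h6 : X2 ^ ((2 : ℝ) / 3) ≤ 2 * Lam ^ ((4 : ℝ) / 3) * C2 * lam ^ ((4 : ℝ) / 3) := by
    have h7 : Lam ^ ((4 : ℝ) / 3) * P43 ≤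
        Lam ^ ((4 : ℝ) / 3) * (C2 * (lam ^ ((4 : ℝ) / 3) + rho * X2 ^ ((2 : ℝ) / 3))) :=
      mul_le_mul_of_nonneg_left h3 hLc.le
    have h8 : Lam ^ ((4 : ℝ) / 3) * (C2 * (lam ^ ((4 : ℝ) / 3) + rho * X2 ^ ((2 : ℝ) / 3))) =
        Lam ^ ((4 : ℝ) / 3) * C2 * lam ^ ((4 : ℝ) / 3) +
          (Lam ^ ((4 : ℝ) / 3) * C2 * rho) * X2 ^ ((2 : ℝ) / 3) := by ring
    rw [h5] at h8
    linarith
  have h7 := Real.rpow_le_rpow (Real.rpow_nonneg hX _) h6 (show (0 : ℝ) ≤ 3 / 2 by norm_num)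
  rw [Real.mul_rpow (by positivity) (Real.rpow_nonneg hl _), ← Real.rpow_mul hX,
    ← Real.rpow_mul hl] at h7
  norm_num at h7 ⊢
  exact h7

lemma D3_tp_split {n : ℕ} (i₀ : Fin n) (S : Finset (Fin n → ℤ)) (c : (Fin n → ℤ) → ℂ) :
    tp S c = tp (S.filter fun k => 0 ≤ k i₀) c + tp (S.filter fun k => k i₀ < 0) c := by
  unfold tp
  rw [← Finset.sum_filter_add_sum_filter_not S (fun k => 0 ≤ k i₀)]
  simp only [not_le]

theorem item_D3 (h3a : S_B3a) (h3b : S_B3b) (hD1 : S_D1) (hD2 : S_D2) : S_D3 := by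
  intro n i₀ E hE CT0
  obtain ⟨Lam0, hLam0⟩ := hE
  obtain ⟨C2, hC2, hD2'⟩ := hD2 n i₀
  obtain ⟨Lam, hLam1, hLamge⟩ : ∃ Lam : ℝ, 1 ≤ Lam ∧ Lam0 ≤ Lam :=
    ⟨max 1 Lam0, le_max_left _ _, le_max_right _ _⟩
  obtain ⟨CT, hCT1, hCTge⟩ : ∃ CT : ℝ, 1 ≤ CT ∧ CT0 ≤ CT :=
    ⟨max 1 CT0, le_max_left _ _, le_max_right _ _⟩
  have hL0 : 0 < Lam := by linarith
  have hLc : 0 < Lam ^ ((4 : ℝ) / 3) := Real.rpow_pos_of_pos hL0 _
  obtain ⟨rho, hrho⟩ : ∃ rho : ℝ, rho = 1 / (2 * Lam ^ ((4 : ℝ) / 3) * C2) := ⟨_, rfl⟩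
  have hrho0 : 0 < rho := by rw [hrho]; positivity
  obtain ⟨R, hR1, hR2⟩ : ∃ R : ℝ, 1 ≤ R ∧ 9480 * 8 * (4096 * CT + 1) / rho ^ 3 ≤ R :=
    ⟨max 1 _, le_max_left _ _, le_max_right _ _⟩
  have hR0 : 0 < R := by linarith
  refine ⟨(2 * Lam ^ ((4 : ℝ) / 3) * C2) ^ ((3 : ℝ) / 2) * R ^ 4, by positivity, ?_⟩
  intro m hm S c hc
  set A : ℝ := ∫ x, ‖tp S c x‖ ∂haar n with hA
  have hA0 : 0 ≤ A := integral_nonneg fun x => norm_nonneg _
  have key : ∀ ε : ℝ, 0 < ε → ∑ k ∈ S with 0 ≤ k i₀, ‖(m k : ℂ) * c k‖ ^ 2 ≤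
      (2 * Lam ^ ((4 : ℝ) / 3) * C2) ^ ((3 : ℝ) / 2) * R ^ 4 * (A + ε) ^ 2 := by
    intro ε hε
    obtain ⟨lam, hlam⟩ : ∃ lam : ℝ, lam = R ^ 2 * (A + ε) := ⟨_, rfl⟩
    have hAe : 0 < A + ε := by linarith
    have hlam0 : 0 < lam := by rw [hlam]; positivity
    have hsl : Real.sqrt lam = R * Real.sqrt (A + ε) := by
      rw [hlam, Real.sqrt_mul (by positivity), Real.sqrt_sq hR0.le]
    obtain ⟨d, hd⟩ : ∃ d : (Fin n → ℤ) → ℂ, d = fun k => (m k : ℂ) * c k := ⟨_, rfl⟩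
    obtain ⟨u, hu⟩ : ∃ u : C(Tor n, ℂ), u = tp S d := ⟨_, rfl⟩
    obtain ⟨p, hp⟩ : ∃ p : C(Tor n, ℂ), p = tp (S.filter fun k => 0 ≤ k i₀) d := ⟨_, rfl⟩
    obtain ⟨r, hr⟩ : ∃ r : C(Tor n, ℂ), r = tp (S.filter fun k => k i₀ < 0) d := ⟨_, rfl⟩
    have hupr : u = p + r := by rw [hu, hp, hr]; exact D3_tp_split i₀ S d
    have hpH : p ∈ H {k : Fin n → ℤ | 0 ≤ k i₀} := by
      rw [hp]; refine tp_mem _ _ _ fun k hk => Or.inl ?_
      exact (Finset.mem_filter.1 hk).2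
    have hrH : r ∈ H {k : Fin n → ℤ | k i₀ < 0} := by
      rw [hr]; refine tp_mem _ _ _ fun k hk => Or.inl ?_
      exact (Finset.mem_filter.1 hk).2
    -- the integral of sqrt |u|
    have hsu : ∫ x, Real.sqrt ‖u x‖ ∂haar n ≤ CT * Real.sqrt (A + ε) := by
      have h := hm S c
      rw [hu, hd]
      refine h.trans ?_
      have h1 : Real.sqrt A ≤ Real.sqrt (A + ε) := Real.sqrt_le_sqrt (by linarith)
      have h0 : 0 ≤ Real.sqrt A := Real.sqrt_nonneg _
      nlinarith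
    -- the weight
    obtain ⟨v, hv⟩ : ∃ v : C(Tor n, ℝ), ∀ x, v x = Real.log (max 1 (‖u x‖ / lam)) := by
      refine ⟨⟨fun x => Real.log (max 1 (‖u x‖ / lam)), ?_⟩, fun x => rfl⟩
      refine Continuous.log (by fun_prop) fun x => ?_
      have : (1 : ℝ) ≤ max 1 (‖u x‖ / lam) := le_max_left _ _
      linarith
    have hv0 : ∀ x, 0 ≤ v x := fun x => by
      rw [hv]; exact Real.log_nonneg (le_max_left _ _)
    have hv4 : ∀ x, v x ^ 4 ≤ 4096 * 1 * (Real.sqrt ‖u x‖ / Real.sqrt lam) := fun x => by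
      rw [hv]
      rcases le_total (‖u x‖ / lam) 1 with h | h
      · rw [max_eq_left h, Real.log_one]
        rw [zero_pow (by norm_num)]
        positivity
      · rw [max_eq_right h]
        refine (D3_log h).trans (le_of_eq ?_)
        rw [Real.sqrt_div (norm_nonneg _), mul_one]
    obtain ⟨δ, hδ0, hδ4⟩ : ∃ δ : ℝ, 0 < δ ∧ δ ^ 4 = 1 / R := by
      refine ⟨Real.sqrt (Real.sqrt (1 / R)), by positivity, ?_⟩
      have h3 : Real.sqrt (Real.sqrt (1 / R)) ^ 2 = Real.sqrt (1 / R) :=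
        Real.sq_sqrt (Real.sqrt_nonneg _)
      have h4 : Real.sqrt (1 / R) ^ 2 = 1 / R := Real.sq_sqrt (by positivity)
      calc Real.sqrt (Real.sqrt (1 / R)) ^ 4 = (Real.sqrt (Real.sqrt (1 / R)) ^ 2) ^ 2 := by ring
        _ = 1 / R := by rw [h3, h4]
    obtain ⟨f, hfH, hfim, hfv⟩ := hD1 n v δ hδ0
    obtain ⟨f₀, hf₀, h, hh, hf₀im, hfeq⟩ := h3a n i₀ f hfH hfim
    have hfx : ∀ x, f x = f₀ x + h x + star (h x) := fun x => by rw [hfeq]; rfl
    have hfre : ∀ x, (f x).re = (f₀ x).re + 2 * (h x).re := fun x => by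
      rw [hfx]; simp; ring
    obtain ⟨W, hW⟩ : ∃ W : C(Tor n, ℂ), W = f₀ + (2 : ℂ) • h := ⟨_, rfl⟩
    have hWx : ∀ x, W x = f₀ x + 2 * h x := fun x => by rw [hW]; simp
    have hWre : ∀ x, (W x).re = (f x).re := fun x => by rw [hWx, hfre]; simp
    have hWH : W ∈ H {k : Fin n → ℤ | 0 ≤ k i₀} := by
      rw [hW]
      refine Submodule.add_mem _ (H_mono ?_ hf₀) (Submodule.smul_mem _ _ (H_mono ?_ hh))
      · intro k hk; have hk' : k i₀ = 0 := hk; show 0 ≤ k i₀; omega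
      · intro k hk; have hk' : 0 < k i₀ := hk; show 0 ≤ k i₀; omega
    have hfnorm : ∀ x, ‖f₀ x + h x + star (h x)‖ ^ 4 = (f x).re ^ 4 := fun x => by
      rw [← hfx]
      have h1 : f x = (((f x).re : ℝ) : ℂ) := Complex.ext (by simp) (by simp [hfim x])
      rw [h1, Complex.norm_real, Complex.ofReal_re, Real.norm_eq_abs]
      exact Even.pow_abs (by decide) _
    have hf4 : ∀ x, (f x).re ^ 4 ≤ 8 * (v x ^ 4 + δ ^ 4) := fun x => by
      have h1 := (hfv x).1
      have h2 := (hfv x).2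
      have h0 := hv0 x
      have h3 : (f x).re ^ 4 ≤ (v x + δ) ^ 4 := pow_le_pow_left₀ (h0.trans h1) h2 4
      have h4 : (v x + δ) ^ 4 ≤ 8 * (v x ^ 4 + δ ^ 4) := by
        have h5 : (v x + δ) ^ 2 ≤ 2 * (v x ^ 2 + δ ^ 2) := by nlinarith [sq_nonneg (v x - δ)]
        have h6 : ((v x + δ) ^ 2) ^ 2 ≤ (2 * (v x ^ 2 + δ ^ 2)) ^ 2 :=
          pow_le_pow_left₀ (sq_nonneg _) h5 2
        nlinarith [sq_nonneg (v x ^ 2 - δ ^ 2)]
      exact h3.trans h4
    -- the fourth power of W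
    have hW4 : ∫ x, ‖W x‖ ^ 4 ∂haar n ≤ rho ^ 3 := by
      have h1 := h3b n i₀ f₀ h hf₀ hh hf₀im
      simp only [hfnorm] at h1
      simp only [hWx]
      have h2 : ∫ x, (f x).re ^ 4 ∂haar n ≤ 8 * (4096 * CT + 1) / R := by
        calc ∫ x, (f x).re ^ 4 ∂haar n
            ≤ ∫ x, 8 * (4096 * 1 * (Real.sqrt ‖u x‖ / Real.sqrt lam) + 1 / R) ∂haar n := by
              refine integral_mono (cont_int ?_) (cont_int ?_) fun x => ?_
              · exact (Complex.continuous_re.comp f.continuous).pow 4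
              · fun_prop
              · refine (hf4 x).trans ?_
                rw [hδ4]
                have := hv4 x
                linarith
          _ = 8 * (4096 * ((∫ x, Real.sqrt ‖u x‖ ∂haar n) / Real.sqrt lam) + 1 / R) := by
              rw [integral_const_mul, integral_add (cont_int (by fun_prop)) (cont_int (by fun_prop)),
                integral_const_mul, integral_div]
              simp
          _ ≤ 8 * (4096 * (CT * Real.sqrt (A + ε) / Real.sqrt lam) + 1 / R) := by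
              have : (∫ x, Real.sqrt ‖u x‖ ∂haar n) / Real.sqrt lam ≤
                  CT * Real.sqrt (A + ε) / Real.sqrt lam :=
                div_le_div_of_nonneg_right hsu (Real.sqrt_nonneg _)
              linarith
          _ = 8 * (4096 * CT + 1) / R := by
              rw [hsl]
              have : 0 < Real.sqrt (A + ε) := by positivity
              field_simp
      have h3 : 9480 * (8 * (4096 * CT + 1) / R) ≤ rho ^ 3 := by
        rw [div_le_iff₀ (by positivity)] at hR2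
        rw [← mul_div_assoc, div_le_iff₀ hR0]
        linarith
      linarith
    -- the integrals in the multiplier step
    have hstep := hD2' p r W hpH hrH hWH
    have hfirst : ∫ x, ‖Complex.exp (-(star (W x))) * (p x + r x)‖ ^ ((4 : ℝ) / 3) ∂haar n ≤
        lam ^ ((4 : ℝ) / 3) := by
      have hpt : ∀ x, ‖Complex.exp (-(star (W x))) * (p x + r x)‖ ≤ lam := fun x => by
        have e1 : p x + r x = u x := by rw [hupr]; rfl
        have e2 : ‖Complex.exp (-(star (W x)))‖ = Real.exp (-(f x).re) := by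
          rw [Complex.norm_exp, Complex.neg_re, ← hWre x]
          simp
        rw [norm_mul, e1, e2]
        have h1 : Real.exp (-(f x).re) ≤ Real.exp (-(v x)) :=
          Real.exp_le_exp.2 (by linarith [(hfv x).1])
        have hmax : (1 : ℝ) ≤ max 1 (‖u x‖ / lam) := le_max_left _ _
        have h2 : Real.exp (-(v x)) = (max 1 (‖u x‖ / lam))⁻¹ := by
          rw [hv, Real.exp_neg, Real.exp_log (by linarith)]
        have h3 : ‖u x‖ ≤ lam * max 1 (‖u x‖ / lam) := by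
          have := le_max_right 1 (‖u x‖ / lam)
          calc ‖u x‖ = lam * (‖u x‖ / lam) := by field_simp
            _ ≤ _ := mul_le_mul_of_nonneg_left this hlam0.le
        calc Real.exp (-(f x).re) * ‖u x‖
            ≤ (max 1 (‖u x‖ / lam))⁻¹ * ‖u x‖ := by
              rw [← h2]; exact mul_le_mul_of_nonneg_right h1 (norm_nonneg _)
          _ ≤ (max 1 (‖u x‖ / lam))⁻¹ * (lam * max 1 (‖u x‖ / lam)) := by
              refine mul_le_mul_of_nonneg_left h3 ?_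
              positivity
          _ = lam := by field_simp
      calc ∫ x, ‖Complex.exp (-(star (W x))) * (p x + r x)‖ ^ ((4 : ℝ) / 3) ∂haar n
          ≤ ∫ _x, lam ^ ((4 : ℝ) / 3) ∂haar n := by
            refine integral_mono (cont_int ?_) (integrable_const _) fun x => ?_
            · refine Continuous.rpow_const ?_ fun _ => Or.inr (by norm_num)
              fun_prop
            · exact Real.rpow_le_rpow (norm_nonneg _) (hpt x) (by norm_num)
        _ = lam ^ ((4 : ℝ) / 3) := by simp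
    have hsecond : ∫ x, ‖(1 - Complex.exp (-(star (W x)))) * p x‖ ^ ((4 : ℝ) / 3) ∂haar n ≤
        rho * (∫ x, ‖p x‖ ^ 2 ∂haar n) ^ ((2 : ℝ) / 3) := by
      calc ∫ x, ‖(1 - Complex.exp (-(star (W x)))) * p x‖ ^ ((4 : ℝ) / 3) ∂haar n
          ≤ ∫ x, (‖W x‖ * ‖p x‖) ^ ((4 : ℝ) / 3) ∂haar n := by
            refine integral_mono (cont_int ?_) (cont_int ?_) fun x => ?_
            · refine Continuous.rpow_const ?_ fun _ => Or.inr (by norm_num)
              fun_prop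
            · refine Continuous.rpow_const ?_ fun _ => Or.inr (by norm_num)
              fun_prop
            · refine Real.rpow_le_rpow (norm_nonneg _) ?_ (by norm_num)
              rw [norm_mul]
              refine mul_le_mul_of_nonneg_right ?_ (norm_nonneg _)
              have h1 : 0 ≤ (star (W x)).re := by
                have h2 : (star (W x)).re = (W x).re := by simp
                rw [h2, hWre]; exact (hv0 x).trans (hfv x).1
              refine (D3_exp h1).trans (le_of_eq (norm_star _))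
        _ ≤ (∫ x, ‖W x‖ ^ 4 ∂haar n) ^ ((1 : ℝ) / 3) * (∫ x, ‖p x‖ ^ 2 ∂haar n) ^ ((2 : ℝ) / 3) :=
            D3_holder (by fun_prop) (by fun_prop) (fun _ => norm_nonneg _) (fun _ => norm_nonneg _)
        _ ≤ rho * (∫ x, ‖p x‖ ^ 2 ∂haar n) ^ ((2 : ℝ) / 3) := by
            refine mul_le_mul_of_nonneg_right ?_ (Real.rpow_nonneg (integral_nonneg fun x => by positivity) _)
            have h1 := Real.rpow_le_rpow (integral_nonneg fun x => by positivity) hW4
              (show (0 : ℝ) ≤ 1 / 3 by norm_num)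
            refine h1.trans (le_of_eq ?_)
            rw [← Real.rpow_natCast, ← Real.rpow_mul hrho0.le]
            norm_num
    -- Lambda_2
    have hlam2 : Real.sqrt (∫ x, ‖p x‖ ^ 2 ∂haar n) ≤ Lam * ∫ x, ‖p x‖ ∂haar n := by
      classical
      have e1 : p = tp ((S.filter fun k => 0 ≤ k i₀).filter fun k => k ∈ E) d := by
        rw [hp]; unfold tp
        symm
        refine Finset.sum_subset (Finset.filter_subset _ _) fun k hk hk' => ?_
        have hkS := Finset.mem_filter.1 hk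
        have hkE : k ∉ E := fun h => hk' (Finset.mem_filter.2 ⟨hk, h⟩)
        have h0 : d k = 0 := by rw [hd]; exact hc k hkS.1 hkS.2 hkE
        rw [h0, smul0]
      have h1 := hLam0 ((S.filter fun k => 0 ≤ k i₀).filter fun k => k ∈ E) d
        fun k hk => (Finset.mem_filter.1 hk).2
      rw [← e1] at h1
      refine h1.trans (mul_le_mul_of_nonneg_right hLamge (integral_nonneg fun x => norm_nonneg _))
    have hjen := D3_jensen (n := n) (b := fun x => ‖p x‖) (by fun_prop) fun x => norm_nonneg _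
    have hfin := D3_comb (X2 := ∫ x, ‖p x‖ ^ 2 ∂haar n) (P := ∫ x, ‖p x‖ ∂haar n)
      (P43 := ∫ x, ‖p x‖ ^ ((4 : ℝ) / 3) ∂haar n) (Lam := Lam) (C2 := C2) (lam := lam) (rho := rho)
      (integral_nonneg fun x => by positivity) (integral_nonneg fun x => by positivity) hLam1 hC2
      hlam0.le hrho hlam2 hjen
      (hstep.trans (mul_le_mul_of_nonneg_left (add_le_add hfirst hsecond) hC2.le))
    rw [hp, parseval_tp, hd] at hfin
    refine hfin.trans (le_of_eq ?_)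
    rw [hlam]; ring
  have hlim : Filter.Tendsto (fun ε : ℝ => (2 * Lam ^ ((4 : ℝ) / 3) * C2) ^ ((3 : ℝ) / 2) * R ^ 4 *
      (A + ε) ^ 2) (nhdsWithin 0 (Set.Ioi 0))
      (nhds ((2 * Lam ^ ((4 : ℝ) / 3) * C2) ^ ((3 : ℝ) / 2) * R ^ 4 * (A + 0) ^ 2)) := by
    refine Filter.Tendsto.mono_left (Continuous.tendsto ?_ 0) nhdsWithin_le_nhds
    fun_prop
  rw [add_zero] at hlim
  exact ge_of_tendsto hlim (Filter.eventually_of_mem self_mem_nhdsWithin fun ε hε => key ε hε)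

end

end MP_c03b66_an

end

section

/-! Item E3: bounds and support of the symbols for cones. -/

namespace MP_c03b66_an

theorem E3_tri_nonneg (N s : ℕ) (k : ℤ) : 0 ≤ tri N s k := le_max_left _ _

theorem E3_tri_ne {N s : ℕ} {k : ℤ} (hN : 0 < N) (h : tri N s k ≠ 0) :
    ((s : ℝ) - 1) * N < k := by
  unfold tri at h
  have hN' : (0 : ℝ) < N := by exact_mod_cast hN
  have hlt : 0 < 1 - |(k : ℝ) - s * N| / N := by
    by_contra hc
    push Not at hc
    exact h (max_eq_left hc)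
  have h1 : |(k : ℝ) - s * N| / N < 1 := by linarith
  rw [div_lt_one hN'] at h1
  have h2 := (abs_lt.1 h1).1
  linarith

theorem E3_tri_half {N s : ℕ} {k : ℤ} (hN : 0 < N) (h1 : -(N : ℤ) ≤ 2 * (k - s * N))
    (h2 : 2 * (k - s * N) ≤ N) : 1 / 2 ≤ tri N s k := by
  unfold tri
  have hN' : (0 : ℝ) < N := by exact_mod_cast hN
  refine le_max_of_le_right ?_
  have h1' : -(N : ℝ) ≤ 2 * ((k : ℝ) - s * N) := by exact_mod_cast h1
  have h2' : 2 * ((k : ℝ) - s * N) ≤ N := by exact_mod_cast h2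
  have h3 : |(k : ℝ) - s * N| / N ≤ 1 / 2 := by
    rw [div_le_iff₀ hN', abs_le]
    constructor <;> linarith
  linarith

theorem E3_first (n : ℕ) (i₀ : Fin n) (m J : ℕ) (hm : 1 ≤ m) (s : Fin n → ℕ) (k : Fin n → ℤ)
    (hs : ∃ l, l ≠ i₀ ∧ 2 ^ m ≤ s l) (h : sym i₀ s (fun j _ => 2 ^ j) J k ≠ 0) :
    ∃ l', l' ≠ i₀ ∧ 0 < k l' ∧ ∀ l, l ≠ i₀ → -(k l' : ℝ) ≤ (2 ^ m - 1) * k l := by
  unfold sym at h
  obtain ⟨j, -, hj⟩ := Finset.exists_ne_zero_of_sum_ne_zero h
  have hj' := Finset.prod_ne_zero_iff.1 hj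
  have key : ∀ l, l ≠ i₀ → ((s l : ℝ) - 1) * 2 ^ j < k l := by
    intro l hl
    have h1 := E3_tri_ne (Nat.pos_of_ne_zero (pow_ne_zero j (by norm_num)))
      (hj' l (Finset.mem_erase.2 ⟨hl, Finset.mem_univ l⟩))
    push_cast at h1
    exact h1
  obtain ⟨l', hl', hsl⟩ := hs
  have h2 : (2 : ℝ) ≤ 2 ^ m := by
    calc (2 : ℝ) = 2 ^ 1 := by norm_num
      _ ≤ 2 ^ m := pow_le_pow_right₀ (by norm_num) hm
  have hsl' : (2 : ℝ) ^ m ≤ s l' := by exact_mod_cast hsl
  have hD : (0 : ℝ) < 2 ^ j := by positivity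
  have h3 : ((2 : ℝ) ^ m - 1) * 2 ^ j ≤ ((s l' : ℝ) - 1) * 2 ^ j :=
    mul_le_mul_of_nonneg_right (by linarith) hD.le
  have h4 := key l' hl'
  have h5 : (0 : ℝ) < ((2 : ℝ) ^ m - 1) * 2 ^ j := mul_pos (by linarith) hD
  refine ⟨l', hl', ?_, fun l hl => ?_⟩
  · have : (0 : ℝ) < k l' := by linarith
    exact_mod_cast this
  · have h6 := key l hl
    have h7 : (0 : ℝ) ≤ s l := Nat.cast_nonneg _
    have h8 : -(2 : ℝ) ^ j ≤ k l := by nlinarith
    have h9 := mul_le_mul_of_nonneg_left h8 (by linarith : (0 : ℝ) ≤ 2 ^ m - 1)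
    linarith

theorem E3_round (k : ℤ) (j : ℕ) (hk : 0 ≤ k) :
    ∃ a : ℕ, -((2 ^ j : ℕ) : ℤ) ≤ 2 * (k - a * ((2 ^ j : ℕ) : ℤ)) ∧
      2 * (k - a * ((2 ^ j : ℕ) : ℤ)) ≤ ((2 ^ j : ℕ) : ℤ) ∧
      (∀ b : ℕ, b * ((2 ^ j : ℕ) : ℤ) ≤ k → b ≤ a) ∧
      ∀ b : ℕ, k < b * ((2 ^ j : ℕ) : ℤ) → a ≤ b := by
  set D : ℤ := ((2 ^ j : ℕ) : ℤ) with hD
  have hD0 : 0 < D := by rw [hD]; positivity
  have h1 := Int.mul_ediv_add_emod (2 * k + D) (2 * D)
  have h2 := Int.emod_nonneg (2 * k + D) (by linarith : 2 * D ≠ 0)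
  have h3 := Int.emod_lt_of_pos (2 * k + D) (by linarith : 0 < 2 * D)
  have h4 : 0 ≤ (2 * k + D) / (2 * D) := Int.ediv_nonneg (by linarith) (by linarith)
  obtain ⟨a, ha⟩ := Int.eq_ofNat_of_zero_le h4
  rw [ha] at h1
  refine ⟨a, by nlinarith, by nlinarith, fun b hb => ?_, fun b hb => ?_⟩
  · by_contra hc
    push Not at hc
    have : (a : ℤ) + 1 ≤ b := by exact_mod_cast hc
    nlinarith
  · by_contra hc
    push Not at hc
    have : (b : ℤ) + 1 ≤ a := by exact_mod_cast hc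
    nlinarith

theorem E3_second (n : ℕ) (i₀ : Fin n) (m J : ℕ) (k : Fin n → ℤ)
    (hk : ∀ l, l ≠ i₀ → 0 ≤ k l ∧ k l < 2 ^ (m + J)) (hm : ∃ l, l ≠ i₀ ∧ 2 ^ m ≤ k l) :
    ∃ s ∈ Fintype.piFinset fun _ : Fin n => Finset.range (2 ^ (m + 1) + 1),
      (∃ l, l ≠ i₀ ∧ 2 ^ m ≤ s l) ∧
      (1 / 2 : ℝ) ^ n ≤ sym i₀ s (fun j _ => 2 ^ j) J k := by
  classical
  obtain ⟨l₁, hl₁, hk₁⟩ := hm
  obtain ⟨l₀, hl₀, hmax⟩ := Finset.exists_max_image ((Finset.univ : Finset (Fin n)).erase i₀) k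
    ⟨l₁, Finset.mem_erase.2 ⟨hl₁, Finset.mem_univ _⟩⟩
  have hl₀' : l₀ ≠ i₀ := (Finset.mem_erase.1 hl₀).1
  have hM0 := (hk l₀ hl₀').1
  have hM1 : (2 : ℤ) ^ m ≤ k l₀ := hk₁.trans (hmax l₁ (Finset.mem_erase.2 ⟨hl₁, Finset.mem_univ _⟩))
  obtain ⟨M, hM⟩ := Int.eq_ofNat_of_zero_le hM0
  have hM1' : 2 ^ m ≤ M := by
    have := hM1
    rw [hM] at this
    exact_mod_cast this
  have hM2 : M < 2 ^ (m + J) := by
    have := (hk l₀ hl₀').2
    rw [hM] at this
    exact_mod_cast this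
  have hMpos : M ≠ 0 := by
    have : 0 < 2 ^ m := by positivity
    omega
  have hlog1 : m ≤ Nat.log 2 M := Nat.le_log_of_pow_le (by norm_num) hM1'
  have hlog2 : 2 ^ Nat.log 2 M ≤ M := Nat.pow_log_le_self 2 hMpos
  have hlog3 : M < 2 ^ (Nat.log 2 M + 1) := Nat.lt_pow_succ_log_self (by norm_num) M
  obtain ⟨j, hj⟩ := Nat.exists_eq_add_of_le hlog1
  rw [hj] at hlog2 hlog3
  have hjJ : j < J := by
    have h1 : 2 ^ (m + j) < 2 ^ (m + J) := lt_of_le_of_lt hlog2 hM2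
    have := (Nat.pow_lt_pow_iff_right (by norm_num : 1 < 2)).1 h1
    omega
  have hex : ∀ l, ∃ a : ℕ, l ≠ i₀ → (-((2 ^ j : ℕ) : ℤ) ≤ 2 * (k l - a * ((2 ^ j : ℕ) : ℤ)) ∧
      2 * (k l - a * ((2 ^ j : ℕ) : ℤ)) ≤ ((2 ^ j : ℕ) : ℤ) ∧
      (∀ b : ℕ, b * ((2 ^ j : ℕ) : ℤ) ≤ k l → b ≤ a) ∧
      ∀ b : ℕ, k l < b * ((2 ^ j : ℕ) : ℤ) → a ≤ b) := by
    intro l
    by_cases hl : l = i₀
    · exact ⟨0, fun h => absurd hl h⟩
    · obtain ⟨a, ha⟩ := E3_round (k l) j (hk l hl).1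
      exact ⟨a, fun _ => ha⟩
  choose a ha using hex
  refine ⟨fun l => if l = i₀ then 0 else a l, ?_, ⟨l₀, hl₀', ?_⟩, ?_⟩
  · rw [Fintype.mem_piFinset]
    intro l
    rw [Finset.mem_range]
    split_ifs with hl
    · exact Nat.succ_pos _
    · refine Nat.lt_succ_of_le ((ha l hl).2.2.2 (2 ^ (m + 1)) ?_)
      have h1 : k l ≤ M := by
        rw [← hM]
        exact hmax l (Finset.mem_erase.2 ⟨hl, Finset.mem_univ _⟩)
      have h2 : (M : ℤ) < ((2 ^ (m + j + 1) : ℕ) : ℤ) := by exact_mod_cast hlog3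
      have h3 : ((2 ^ (m + 1) : ℕ) : ℤ) * ((2 ^ j : ℕ) : ℤ) = ((2 ^ (m + j + 1) : ℕ) : ℤ) := by
        push_cast
        rw [← pow_add]
        congr 1
        ring
      rw [h3]
      linarith
  · dsimp only
    rw [if_neg hl₀']
    refine (ha l₀ hl₀').2.2.1 (2 ^ m) ?_
    have h2 : ((2 ^ (m + j) : ℕ) : ℤ) ≤ (M : ℤ) := by exact_mod_cast hlog2
    have h3 : ((2 ^ m : ℕ) : ℤ) * ((2 ^ j : ℕ) : ℤ) = ((2 ^ (m + j) : ℕ) : ℤ) := by
      push_cast
      rw [← pow_add]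
    rw [h3, hM]
    exact h2
  · have hterm : ∀ i : ℕ, 0 ≤ ∏ l ∈ (Finset.univ : Finset (Fin n)).erase i₀,
        tri (2 ^ i) (if l = i₀ then 0 else a l) (k l) :=
      fun i => Finset.prod_nonneg fun l _ => E3_tri_nonneg _ _ _
    have h1 : (∏ l ∈ (Finset.univ : Finset (Fin n)).erase i₀,
        tri (2 ^ j) (if l = i₀ then 0 else a l) (k l)) ≤
        sym i₀ (fun l => if l = i₀ then 0 else a l) (fun j _ => 2 ^ j) J k :=
      Finset.single_le_sum (f := fun i => ∏ l ∈ (Finset.univ : Finset (Fin n)).erase i₀,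
        tri (2 ^ i) (if l = i₀ then 0 else a l) (k l)) (fun i _ => hterm i)
        (Finset.mem_range.2 hjJ)
    refine le_trans ?_ h1
    have h2 : (∏ _l ∈ (Finset.univ : Finset (Fin n)).erase i₀, (1 / 2 : ℝ)) ≤
        ∏ l ∈ (Finset.univ : Finset (Fin n)).erase i₀,
        tri (2 ^ j) (if l = i₀ then 0 else a l) (k l) := by
      refine Finset.prod_le_prod (fun _ _ => by norm_num) fun l hl => ?_
      have hl' := (Finset.mem_erase.1 hl).1
      rw [if_neg hl']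
      exact E3_tri_half (by positivity) (ha l hl').1 (ha l hl').2.1
    refine le_trans ?_ h2
    rw [Finset.prod_const]
    refine pow_le_pow_of_le_one (by norm_num) (by norm_num) ?_
    calc ((Finset.univ : Finset (Fin n)).erase i₀).card ≤ (Finset.univ : Finset (Fin n)).card :=
          Finset.card_le_card (Finset.erase_subset _ _)
      _ = n := by rw [Finset.card_univ, Fintype.card_fin]

theorem item_E3 : S_E3 := fun n i₀ m J hm =>
  ⟨fun s k hs h => E3_first n i₀ m J hm s k hs h, fun k hk h => E3_second n i₀ m J k hk h⟩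

end MP_c03b66_an

end

section

/-! Item R1: averages over dyadic grids converge to the integral. -/

open MeasureTheory UnitAddTorus

namespace MP_c03b66_an

noncomputable section

theorem R1_mF_gp {n q : ℕ} [NeZero q] (k : Fin n → ℤ) (a : Fin n → ZMod q) :
    mFourier k (gp a) = ∏ l, (ZMod.stdAddChar ((k l : ZMod q) * a l) : ℂ) := by
  simp only [mFourier, ContinuousMap.coe_mk]
  refine Finset.prod_congr rfl fun l _ => ?_
  rw [fourier_apply, ZMod.stdAddChar_apply, ← zsmul_eq_mul]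
  have h : (ZMod.toCircle (k l • a l) : Circle) =
      AddCircle.toCircle (ZMod.toAddCircle (k l • a l)) := rfl
  rw [h, map_zsmul]
  rfl

/-- grid averages -/
def R1_avg {n : ℕ} (g : Tor n → ℂ) (K : ℕ) : ℂ :=
  (∑ a : Fin n → ZMod (2 ^ K), g (gp a)) / ((2 : ℂ) ^ K) ^ n

theorem R1_card {n K : ℕ} : (Fintype.card (Fin n → ZMod (2 ^ K)) : ℂ) = ((2 : ℂ) ^ K) ^ n := by
  rw [Fintype.card_fun, Fintype.card_fin, ZMod.card]
  push_cast
  rfl

theorem R1_sum_mF {n K : ℕ} (k : Fin n → ℤ) :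
    ∑ a : Fin n → ZMod (2 ^ K), mFourier k (gp a) =
      ∏ l, (if ((k l : ℤ) : ZMod (2 ^ K)) = 0 then ((2 : ℂ) ^ K) else 0) := by
  simp only [R1_mF_gp]
  rw [← Fintype.prod_sum (fun (l : Fin n) (t : ZMod (2 ^ K)) =>
    (ZMod.stdAddChar ((k l : ZMod (2 ^ K)) * t) : ℂ))]
  refine Finset.prod_congr rfl fun l _ => ?_
  have h := AddChar.sum_mulShift ((k l : ℤ) : ZMod (2 ^ K)) (ZMod.isPrimitive_stdAddChar (2 ^ K))
  simp only [mul_comm ((k l : ℤ) : ZMod (2 ^ K))]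
  rw [h]
  split_ifs
  · rw [ZMod.card]; push_cast; rfl
  · simp

theorem R1_avg_mF {n : ℕ} (k : Fin n → ℤ) :
    ∀ᶠ K in Filter.atTop, R1_avg (mFourier k : C(Tor n, ℂ)) K = ∫ x, mFourier k x ∂haar n := by
  rw [int_mF]
  by_cases hk : k = 0
  · refine Filter.Eventually.of_forall fun K => ?_
    rw [if_pos hk]
    unfold R1_avg
    rw [R1_sum_mF, hk]
    simp only [Pi.zero_apply, Int.cast_zero, if_true, Finset.prod_const, Finset.card_univ,
      Fintype.card_fin]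
    exact div_self (pow_ne_zero _ (pow_ne_zero _ two_ne_zero))
  · rw [if_neg hk]
    obtain ⟨l, hl⟩ : ∃ l, k l ≠ 0 := by
      by_contra h
      push Not at h
      exact hk (funext h)
    filter_upwards [Filter.eventually_ge_atTop (k l).natAbs] with K hK
    unfold R1_avg
    rw [R1_sum_mF, Finset.prod_eq_zero (Finset.mem_univ l), zero_div]
    rw [if_neg]
    intro h0
    rw [ZMod.intCast_zmod_eq_zero_iff_dvd] at h0
    have h1 : 2 ^ K ∣ (k l).natAbs := by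
      have := Int.natAbs_dvd_natAbs.2 h0
      simpa using this
    have h2 := Nat.le_of_dvd (Int.natAbs_pos.2 hl) h1
    have h3 : K < 2 ^ K := Nat.lt_two_pow_self
    omega

theorem R1_tendsto_H {n : ℕ} {g : C(Tor n, ℂ)} (hg : g ∈ H (Set.univ : Set (Fin n → ℤ))) :
    Filter.Tendsto (R1_avg (g : Tor n → ℂ)) Filter.atTop (nhds (∫ x, g x ∂haar n)) := by
  induction hg using Submodule.span_induction with
  | mem x hx =>
    obtain ⟨k, _, rfl⟩ := hx
    exact tendsto_const_nhds.congr' ((R1_avg_mF k).mono fun K hK => hK.symm)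
  | zero =>
    have h1 : R1_avg ((0 : C(Tor n, ℂ)) : Tor n → ℂ) = fun _ => 0 := by
      ext K; simp [R1_avg]
    rw [h1]
    simp
  | add x y _ _ ihx ihy =>
    have h1 : R1_avg ((x + y : C(Tor n, ℂ)) : Tor n → ℂ) =
        fun K => R1_avg (x : Tor n → ℂ) K + R1_avg (y : Tor n → ℂ) K := by
      ext K
      simp only [R1_avg, ContinuousMap.add_apply, Finset.sum_add_distrib, add_div]
    have h2 : ∫ t, (x + y : C(Tor n, ℂ)) t ∂haar n = ∫ t, x t ∂haar n + ∫ t, y t ∂haar n := by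
      rw [← integral_add (cont_int x.continuous) (cont_int y.continuous)]
      rfl
    rw [h1, h2]
    exact ihx.add ihy
  | smul c x _ ih =>
    have h1 : R1_avg ((c • x : C(Tor n, ℂ)) : Tor n → ℂ) =
        fun K => c * R1_avg (x : Tor n → ℂ) K := by
      ext K
      simp only [R1_avg, ContinuousMap.smul_apply, smul_eq_mul, ← Finset.mul_sum, mul_div_assoc]
    have h2 : ∫ t, (c • x : C(Tor n, ℂ)) t ∂haar n = c * ∫ t, x t ∂haar n := by
      rw [← integral_const_mul]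
      rfl
    rw [h1, h2]
    exact ih.const_mul c

theorem R1_avg_sub {n : ℕ} (f g : Tor n → ℂ) (ε : ℝ) (h : ∀ x, ‖f x - g x‖ ≤ ε) (K : ℕ) :
    ‖R1_avg f K - R1_avg g K‖ ≤ ε := by
  unfold R1_avg
  rw [← sub_div, ← Finset.sum_sub_distrib, norm_div]
  have hpos : (0 : ℝ) < ((2 : ℝ) ^ K) ^ n := by positivity
  have h1 : ‖((2 : ℂ) ^ K) ^ n‖ = ((2 : ℝ) ^ K) ^ n := by simp
  rw [h1, div_le_iff₀ hpos]
  refine (norm_sum_le _ _).trans ?_
  refine (Finset.sum_le_sum fun a _ => h (gp a)).trans ?_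
  rw [Finset.sum_const, nsmul_eq_mul, Finset.card_univ, Fintype.card_fun, Fintype.card_fin,
    ZMod.card]
  push_cast
  rw [mul_comm]

theorem R1_tendsto_C {n : ℕ} (f : C(Tor n, ℂ)) :
    Filter.Tendsto (R1_avg (f : Tor n → ℂ)) Filter.atTop (nhds (∫ x, f x ∂haar n)) := by
  rw [Metric.tendsto_atTop]
  intro ε hε
  obtain ⟨g, hg, hfg⟩ := H_dense f (show 0 < ε / 4 by positivity)
  have hg1 := R1_tendsto_H hg
  rw [Metric.tendsto_atTop] at hg1
  obtain ⟨N, hN⟩ := hg1 (ε / 4) (by positivity)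
  refine ⟨N, fun K hK => ?_⟩
  have h1 := hN K hK
  have h2 := R1_avg_sub (f : Tor n → ℂ) g (ε / 4) hfg K
  have h3 : ‖∫ x, f x ∂haar n - ∫ x, g x ∂haar n‖ ≤ ε / 4 := by
    rw [← integral_sub (cont_int f.continuous) (cont_int g.continuous)]
    refine (norm_integral_le_of_norm_le_const (C := ε / 4)
      (Filter.Eventually.of_forall hfg)).trans ?_
    simp
  rw [dist_eq_norm] at h1 ⊢
  have h4 : R1_avg (f : Tor n → ℂ) K - ∫ x, f x ∂haar n =
      (R1_avg (f : Tor n → ℂ) K - R1_avg (g : Tor n → ℂ) K) +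
      (R1_avg (g : Tor n → ℂ) K - ∫ x, g x ∂haar n) -
      (∫ x, f x ∂haar n - ∫ x, g x ∂haar n) := by ring
  rw [h4]
  refine lt_of_le_of_lt (norm_sub_le _ _) ?_
  have h5 := norm_add_le (R1_avg (f : Tor n → ℂ) K - R1_avg (g : Tor n → ℂ) K)
    (R1_avg (g : Tor n → ℂ) K - ∫ x, g x ∂haar n)
  linarith

theorem item_R1 : S_R1 := by
  intro n f
  have hcont : Continuous (fun x : Tor n => (f x : ℂ)) := by fun_prop
  have h := R1_tendsto_C (⟨_, hcont⟩ : C(Tor n, ℂ))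
  have h1 := (Complex.continuous_re.tendsto _).comp h
  have h2 : (∫ x, ((⟨_, hcont⟩ : C(Tor n, ℂ)) : Tor n → ℂ) x ∂haar n).re =
      ∫ x, f x ∂haar n := by
    have h3 : ∫ x, ((⟨_, hcont⟩ : C(Tor n, ℂ)) : Tor n → ℂ) x ∂haar n =
        ((∫ x, f x ∂haar n : ℝ) : ℂ) := integral_ofReal
    rw [h3, Complex.ofReal_re]
  rw [h2] at h1
  refine h1.congr fun K => ?_
  simp only [Function.comp_apply, R1_avg, ContinuousMap.coe_mk]
  rw [← Complex.ofReal_sum]
  have h4 : ((2 : ℂ) ^ K) ^ n = ((((2 : ℝ) ^ K) ^ n : ℝ) : ℂ) := by push_cast; rfl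
  rw [h4, ← Complex.ofReal_div, Complex.ofReal_re]

end

end MP_c03b66_an

end

section

/-! Item R2: the operator on the torus at grid points is the grid operator. -/

open MeasureTheory UnitAddTorus

namespace MP_c03b66_an

noncomputable section

lemma R2_fourier_gp {q : ℕ} [NeZero q] (k : ℤ) (a : ZMod q) :
    (fourier k (ZMod.toAddCircle a : UnitAddCircle) : ℂ) =
      ZMod.stdAddChar ((k : ZMod q) * a) := by
  rw [fourier_apply, ← map_zsmul, zsmul_eq_mul, ZMod.stdAddChar_apply]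
  rfl

lemma R2_mF_gp {n q : ℕ} [NeZero q] (k : Fin n → ℤ) (a : Fin n → ZMod q) :
    mFourier k (gp a) = ∏ l, (ZMod.stdAddChar ((k l : ZMod q) * a l) : ℂ) := by
  simp only [mFourier, ContinuousMap.coe_mk, gp]
  exact Finset.prod_congr rfl fun l _ => R2_fourier_gp (k l) (a l)

lemma R2_prod_glue {n q : ℕ} [NeZero q] (i₀ : Fin n) (t : ZMod q)
    (y : {l : Fin n // l ≠ i₀} → ZMod q) (k : Fin n → ℤ) :
    mFourier k (gp (glue i₀ t y)) = (ZMod.stdAddChar ((k i₀ : ZMod q) * t) : ℂ) *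
      ∏ l : {l : Fin n // l ≠ i₀}, (ZMod.stdAddChar ((k l.1 : ZMod q) * y l) : ℂ) := by
  rw [R2_mF_gp, Fintype.prod_eq_mul_prod_subtype_ne _ i₀]
  congr 1
  · simp [glue]
  · refine Finset.prod_congr rfl fun l _ => ?_
    simp [glue, l.2]

lemma R2_tp {n : ℕ} (S : Finset (Fin n → ℤ)) (c : (Fin n → ℤ) → ℂ) (x : Tor n) :
    tp S c x = ∑ k ∈ S, c k * mFourier k x := by
  simp [tp]

lemma R2_sym {n : ℕ} (i₀ : Fin n) (s : Fin n → ℕ) (N : ℕ → Fin n → ℕ) (J : ℕ)
    (k : Fin n → ℤ) : sym i₀ s N J k =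
      ∑ j ∈ Finset.range J, ∏ l : {l : Fin n // l ≠ i₀}, tri (N j l.1) (s l.1) (k l.1) := by
  unfold sym
  refine Finset.sum_congr rfl fun j _ => ?_
  symm
  exact Finset.prod_subtype (Finset.univ.erase i₀) (by simp) (fun l => tri (N j l) (s l) (k l)) |>.symm

lemma R2_cv_sum {X : Type} [Fintype X] [AddCommGroup X] {A B : Type} (T : Finset A) (U : Finset B)
    (M : A → X → ℂ) (g : B → X → ℂ) (d : B → ℂ) (x : X) :
    cv (fun u => ∑ j ∈ T, M j u) (fun y => ∑ k ∈ U, d k * g k y) x =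
      ∑ k ∈ U, d k * ∑ j ∈ T, cv (M j) (g k) x := by
  unfold cv
  simp only [Finset.mul_sum, Finset.sum_mul]
  rw [Finset.sum_comm]
  refine Finset.sum_congr rfl fun k _ => ?_
  rw [Finset.sum_comm]
  refine Finset.sum_congr rfl fun j _ => ?_
  refine Finset.sum_congr rfl fun y _ => ?_
  ring

theorem item_R2 (hW : S_W3) : S_R2 := by
  intro n i₀ q _ Q s N J hQq hN hQ S c hS t x
  have h1 : (fun y : {l : Fin n // l ≠ i₀} → ZMod q => tp S c (gp (glue i₀ t y))) =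
      fun y => ∑ k ∈ S, (c k * (ZMod.stdAddChar ((k i₀ : ZMod q) * t) : ℂ)) *
        ∏ l : {l : Fin n // l ≠ i₀}, (ZMod.stdAddChar ((k l.1 : ZMod q) * y l) : ℂ) := by
    funext y
    rw [R2_tp]
    refine Finset.sum_congr rfl fun k _ => ?_
    rw [R2_prod_glue]
    ring
  rw [h1, R2_cv_sum (Finset.range J) S
    (fun j => Mp (fun l : {l : Fin n // l ≠ i₀} => s l.1) (fun l => N j l.1))
    (fun k y => ∏ l : {l : Fin n // l ≠ i₀}, (ZMod.stdAddChar ((k l.1 : ZMod q) * y l) : ℂ)), R2_tp]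
  refine Finset.sum_congr rfl fun k hk => ?_
  have h2 : ∑ j ∈ Finset.range J, cv (Mp (fun l : {l : Fin n // l ≠ i₀} => s l.1) (fun l => N j l.1))
      (fun y => ∏ l : {l : Fin n // l ≠ i₀}, (ZMod.stdAddChar ((k l.1 : ZMod q) * y l) : ℂ)) x =
      (sym i₀ s N J k : ℂ) *
        ∏ l : {l : Fin n // l ≠ i₀}, (ZMod.stdAddChar ((k l.1 : ZMod q) * x l) : ℂ) := by
    rw [R2_sym, Complex.ofReal_sum, Finset.sum_mul]
    refine Finset.sum_congr rfl fun j hj => ?_
    have hj' := Finset.mem_range.1 hj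
    exact hW {l : Fin n // l ≠ i₀} q Q (fun l => s l.1) (fun l => N j l.1) hQq
      (fun l => hN j hj' l.1) (fun l => hQ j hj' l.1) (fun l => k l.1) (fun l => hS k hk l.1) x
  rw [h2, R2_prod_glue]
  ring

end

end MP_c03b66_an

end
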