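import Pool.Agent.Work.MP_c03b66_an.Bd.B01
import Pool.Agent.Work.MP_c03b66_an.Bd.B03

/-! Bundle of small proof modules (one section per former module). -/

section

/-! Item R3: the operator lemma on the torus. -/

open MeasureTheory UnitAddTorus

namespace MP_c03b66_an

noncomputable section

/-- sum over the grid as a double sum -/
lemma R3_sum {n q : ℕ} [NeZero q] (i₀ : Fin n) (F : (Fin n → ZMod q) → ℝ) :
    ∑ a, F a = ∑ t : ZMod q, ∑ y : {l : Fin n // l ≠ i₀} → ZMod q, F (glue i₀ t y) := by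
  rw [← Fintype.sum_prod_type' (f := fun t y => F (glue i₀ t y))]
  refine Fintype.sum_equiv (Equiv.funSplitAt i₀ (ZMod q)) _ _ ?_
  intro a
  congr 1
  funext l
  by_cases h : l = i₀
  · subst h
    simp [glue]
  · simp [glue, h]

/-- the cardinality of the grid -/
lemma R3_card {n : ℕ} (q : ℕ) (i₀ : Fin n) :
    (q : ℝ) ^ n = q * (q : ℝ) ^ Fintype.card {l : Fin n // l ≠ i₀} := by
  have h : Fintype.card {l : Fin n // l ≠ i₀} + 1 = n := by
    have h1 : Fintype.card {l : Fin n // l ≠ i₀} = Fintype.card (Fin n) - 1 := by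
      simp
    rw [h1, Fintype.card_fin]
    have := i₀.pos
    omega
  calc (q : ℝ) ^ n = (q : ℝ) ^ (Fintype.card {l : Fin n // l ≠ i₀} + 1) := by rw [h]
    _ = _ := by rw [pow_succ, mul_comm]

/-- Jensen inequality for the square root -/
lemma R3_jensen {q : ℕ} [NeZero q] (a : ZMod q → ℝ) (ha : ∀ t, 0 ≤ a t) :
    (∑ t, Real.sqrt (a t)) / q ≤ Real.sqrt ((∑ t, a t) / q) := by
  have hq : (0 : ℝ) < q := Nat.cast_pos.2 (NeZero.pos q)
  apply Real.le_sqrt_of_sq_le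
  have h := sq_sum_le_card_mul_sum_sq (s := (Finset.univ : Finset (ZMod q)))
    (f := fun t => Real.sqrt (a t))
  have h2 : ∑ t, Real.sqrt (a t) ^ 2 = ∑ t, a t :=
    Finset.sum_congr rfl fun t _ => Real.sq_sqrt (ha t)
  rw [h2, Finset.card_univ, ZMod.card] at h
  rw [div_pow, div_le_div_iff₀ (by positivity) hq]
  calc (∑ t, Real.sqrt (a t)) ^ 2 * q ≤ (q * ∑ t, a t) * q :=
        mul_le_mul_of_nonneg_right h hq.le
    _ = (∑ t, a t) * (q : ℝ) ^ 2 := by ring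

theorem item_R3 (h1 : S_R1) (h2 : S_R2) (hW : S_W2) : S_R3 := by
  intro n i₀ s hs
  obtain ⟨l₀, hl₀, hs₀⟩ := hs
  obtain ⟨C, hC, hCW⟩ := hW {l : Fin n // l ≠ i₀} (fun l => s l.1) ⟨⟨l₀, hl₀⟩, hs₀⟩
  refine ⟨C, hC, ?_⟩
  intro N hN J S c
  have hN1 : ∀ j l, 1 ≤ N j l := by
    intro j l
    induction j with
    | zero => exact hN.1 l
    | succ j ih => have := hN.2 j l; omega
  -- the bound `Q`
  obtain ⟨Q, hQ1, hQ2⟩ : ∃ Q : ℕ, (∀ j < J, ∀ l, (s l + 1) * N j l ≤ Q) ∧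
      (∀ k ∈ S, ∀ l, |k l| < (Q : ℤ)) := by
    refine ⟨(∑ j ∈ Finset.range J, ∑ l, (s l + 1) * N j l) +
      ((∑ k ∈ S, ∑ l, (k l).natAbs) + 1), ?_, ?_⟩
    · intro j hj l
      have e1 : (s l + 1) * N j l ≤ ∑ l, (s l + 1) * N j l :=
        Finset.single_le_sum (f := fun l => (s l + 1) * N j l) (fun _ _ => Nat.zero_le _)
          (Finset.mem_univ l)
      have e2 : ∑ l, (s l + 1) * N j l ≤ ∑ j ∈ Finset.range J, ∑ l, (s l + 1) * N j l :=
        Finset.single_le_sum (f := fun j => ∑ l, (s l + 1) * N j l) (fun _ _ => Nat.zero_le _)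
          (Finset.mem_range.2 hj)
      omega
    · intro k hk l
      have e1 : (k l).natAbs ≤ ∑ l, (k l).natAbs :=
        Finset.single_le_sum (f := fun l => (k l).natAbs) (fun _ _ => Nat.zero_le _)
          (Finset.mem_univ l)
      have e2 : ∑ l, (k l).natAbs ≤ ∑ k ∈ S, ∑ l, (k l).natAbs :=
        Finset.single_le_sum (f := fun k : Fin n → ℤ => ∑ l, (k l).natAbs)
          (fun _ _ => Nat.zero_le _) hk
      have e3 : (k l).natAbs < (∑ j ∈ Finset.range J, ∑ l, (s l + 1) * N j l) +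
          ((∑ k ∈ S, ∑ l, (k l).natAbs) + 1) := by omega
      rw [Int.abs_eq_natAbs]
      exact_mod_cast e3
  -- the inequality on the grids
  have key : ∀ K : ℕ, 2 * Q ≤ 2 ^ K →
      (∑ a : Fin n → ZMod (2 ^ K),
        Real.sqrt ‖tp S (fun k => (sym i₀ s N J k : ℂ) * c k) (gp a)‖) / ((2 : ℝ) ^ K) ^ n ≤
      C * Real.sqrt ((∑ a : Fin n → ZMod (2 ^ K), ‖tp S c (gp a)‖) / ((2 : ℝ) ^ K) ^ n) := by
    intro K hK
    have hq0 : (0 : ℝ) < (2 : ℝ) ^ K := by positivity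
    have hcast : (((2 : ℕ) ^ K : ℕ) : ℝ) = (2 : ℝ) ^ K := by push_cast; rfl
    have hcard := R3_card (2 ^ K) i₀
    rw [hcast] at hcard
    rw [R3_sum i₀, R3_sum i₀, hcard]
    set m := Fintype.card {l : Fin n // l ≠ i₀} with hm
    have hP : (0 : ℝ) < ((2 : ℝ) ^ K) ^ m := by positivity
    have ht : ∀ t : ZMod (2 ^ K),
        (∑ y : {l : Fin n // l ≠ i₀} → ZMod (2 ^ K),
          Real.sqrt ‖tp S (fun k => (sym i₀ s N J k : ℂ) * c k) (gp (glue i₀ t y))‖) /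
            ((2 : ℝ) ^ K) ^ m ≤
        C * Real.sqrt ((∑ y : {l : Fin n // l ≠ i₀} → ZMod (2 ^ K),
          ‖tp S c (gp (glue i₀ t y))‖) / ((2 : ℝ) ^ K) ^ m) := by
      intro t
      have hw := hCW (fun j l => N j l.1) ⟨fun l => hN.1 l.1, fun j l => hN.2 j l.1⟩ J K
        (fun j hj l => (Nat.mul_le_mul_left 2 (hQ1 j hj l.1)).trans hK)
        (fun y => tp S c (gp (glue i₀ t y)))
      have he : ∀ y : {l : Fin n // l ≠ i₀} → ZMod (2 ^ K),
          tp S (fun k => (sym i₀ s N J k : ℂ) * c k) (gp (glue i₀ t y)) = _ := fun y =>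
        h2 n i₀ (2 ^ K) Q s N J hK (fun j _ l => hN1 j l) hQ1 S c hQ2 t y
      simp only [he]
      exact hw
    calc (∑ t : ZMod (2 ^ K), ∑ y : {l : Fin n // l ≠ i₀} → ZMod (2 ^ K),
          Real.sqrt ‖tp S (fun k => (sym i₀ s N J k : ℂ) * c k) (gp (glue i₀ t y))‖) /
            ((2 : ℝ) ^ K * ((2 : ℝ) ^ K) ^ m)
        = (∑ t : ZMod (2 ^ K), (∑ y : {l : Fin n // l ≠ i₀} → ZMod (2 ^ K),
          Real.sqrt ‖tp S (fun k => (sym i₀ s N J k : ℂ) * c k) (gp (glue i₀ t y))‖) /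
            ((2 : ℝ) ^ K) ^ m) / (2 : ℝ) ^ K := by
          rw [← Finset.sum_div, div_div, mul_comm (((2 : ℝ) ^ K) ^ m)]
      _ ≤ (∑ t : ZMod (2 ^ K), C * Real.sqrt ((∑ y : {l : Fin n // l ≠ i₀} → ZMod (2 ^ K),
          ‖tp S c (gp (glue i₀ t y))‖) / ((2 : ℝ) ^ K) ^ m)) / (2 : ℝ) ^ K :=
          div_le_div_of_nonneg_right (Finset.sum_le_sum fun t _ => ht t) hq0.le
      _ = C * ((∑ t : ZMod (2 ^ K), Real.sqrt ((∑ y : {l : Fin n // l ≠ i₀} → ZMod (2 ^ K),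
          ‖tp S c (gp (glue i₀ t y))‖) / ((2 : ℝ) ^ K) ^ m)) / (2 : ℝ) ^ K) := by
          rw [← Finset.mul_sum, mul_div_assoc]
      _ ≤ C * Real.sqrt ((∑ t : ZMod (2 ^ K), (∑ y : {l : Fin n // l ≠ i₀} → ZMod (2 ^ K),
          ‖tp S c (gp (glue i₀ t y))‖) / ((2 : ℝ) ^ K) ^ m) / (2 : ℝ) ^ K) := by
          refine mul_le_mul_of_nonneg_left ?_ hC.le
          have hj := R3_jensen (q := 2 ^ K)
            (fun t : ZMod (2 ^ K) => (∑ y : {l : Fin n // l ≠ i₀} → ZMod (2 ^ K),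
              ‖tp S c (gp (glue i₀ t y))‖) / ((2 : ℝ) ^ K) ^ m)
            (fun t => div_nonneg (Finset.sum_nonneg fun _ _ => norm_nonneg _) hP.le)
          rw [hcast] at hj
          exact hj
      _ = _ := by
          rw [← Finset.sum_div, div_div, mul_comm (((2 : ℝ) ^ K) ^ m)]
  -- the limit
  have hl1 := h1 n ⟨fun x => Real.sqrt ‖tp S (fun k => (sym i₀ s N J k : ℂ) * c k) x‖,
    Real.continuous_sqrt.comp ((tp S (fun k => (sym i₀ s N J k : ℂ) * c k)).continuous.norm)⟩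
  have hl2 := h1 n ⟨fun x => ‖tp S c x‖, (tp S c).continuous.norm⟩
  have hl3 := ((Real.continuous_sqrt.tendsto _).comp hl2).const_mul C
  refine le_of_tendsto_of_tendsto hl1 hl3 ?_
  obtain ⟨K₀, hK₀⟩ : ∃ K₀ : ℕ, 2 * Q ≤ 2 ^ K₀ :=
    ⟨2 * Q, (Nat.lt_two_pow_self).le⟩
  filter_upwards [Filter.eventually_ge_atTop K₀] with K hK
  exact key K (hK₀.trans (Nat.pow_le_pow_right (by norm_num) hK))

end

end MP_c03b66_an

end

section

/-! Item R4: the projection on a line of frequencies contracts `L¹` (helper50). -/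

open MeasureTheory UnitAddTorus

namespace MP_c03b66_an

noncomputable section

/-- grid points with `i₀`-coordinate `0` -/
def R4_P {n q : ℕ} [NeZero q] (i₀ : Fin n) : (Fin n → ZMod q) →+ Tor n where
  toFun a := fun l => if l = i₀ then 0 else ZMod.toAddCircle (a l)
  map_zero' := by
    funext l
    simp
  map_add' a b := by
    funext l
    by_cases h : l = i₀ <;> simp [h]

/-- the character of the grid -/
def R4_psi {n q : ℕ} [NeZero q] (i₀ : Fin n) (m : Fin n → ℤ) : AddChar (Fin n → ZMod q) ℂ where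
  toFun a := mFourier m (R4_P i₀ a)
  map_zero_eq_one' := by
    rw [map_zero]
    simp only [mFourier, ContinuousMap.coe_mk]
    exact Finset.prod_eq_one fun i _ => fourier_eval_zero (m i)
  map_add_eq_mul' a b := by
    rw [map_add, mF_pt_add]

lemma R4_psi_apply {n q : ℕ} [NeZero q] (i₀ : Fin n) (m : Fin n → ℤ) (a : Fin n → ZMod q) :
    R4_psi i₀ m a = mFourier m (R4_P i₀ a) := rfl

lemma R4_factor {n q : ℕ} [NeZero q] (i₀ : Fin n) (m : Fin n → ℤ) (a : Fin n → ZMod q) :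
    mFourier m (R4_P i₀ a) = ∏ l, fourier (m l) (R4_P i₀ a l) := rfl

lemma R4_triv {n q : ℕ} [NeZero q] (i₀ : Fin n) (m : Fin n → ℤ) (h : ∀ l, l ≠ i₀ → m l = 0) :
    (R4_psi i₀ m : AddChar (Fin n → ZMod q) ℂ) = 0 := by
  ext a
  rw [R4_psi_apply, R4_factor, AddChar.zero_apply]
  refine Finset.prod_eq_one fun l _ => ?_
  by_cases hl : l = i₀
  · have : R4_P i₀ a l = 0 := if_pos hl
    rw [this, fourier_eval_zero]
  · rw [h l hl, fourier_zero]

lemma R4_nontriv {n q : ℕ} [NeZero q] (i₀ : Fin n) (m : Fin n → ℤ) {l : Fin n} (hl : l ≠ i₀)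
    (h0 : m l ≠ 0) (hq : |m l| < q) : (R4_psi i₀ m : AddChar (Fin n → ZMod q) ℂ) ≠ 0 := by
  intro h
  have h1 := DFunLike.congr_fun h (Pi.single l (1 : ZMod q))
  rw [R4_psi_apply, R4_factor, AddChar.zero_apply, Finset.prod_eq_single l] at h1
  · have h2 : R4_P i₀ (Pi.single l (1 : ZMod q)) l = ZMod.toAddCircle (1 : ZMod q) := by
      show (if l = i₀ then 0 else ZMod.toAddCircle ((Pi.single l (1 : ZMod q) : Fin n → ZMod q) l)) = _
      rw [if_neg hl, Pi.single_eq_same]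
    rw [h2, fourier_apply, ← map_zsmul] at h1
    have h3 : (m l • (1 : ZMod q)) = 0 := by
      apply ZMod.injective_toCircle
      rw [AddChar.map_zero_eq_one]
      exact Subtype.ext h1
    rw [zsmul_one, ZMod.intCast_zmod_eq_zero_iff_dvd] at h3
    exact h0 (Int.eq_zero_of_abs_lt_dvd h3 hq)
  · intro l' _ hl'
    have : R4_P i₀ (Pi.single l (1 : ZMod q)) l' = 0 := by
      show (if l' = i₀ then 0 else
        ZMod.toAddCircle ((Pi.single l (1 : ZMod q) : Fin n → ZMod q) l')) = 0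
      rw [Pi.single_eq_of_ne hl', map_zero, ite_self]
    rw [this, fourier_eval_zero]
  · intro h
    exact absurd (Finset.mem_univ _) h

/-- the condition of lying on the line -/
def R4_on {n : ℕ} (i₀ : Fin n) (κ k : Fin n → ℤ) : Prop := ∀ l, l ≠ i₀ → k l = κ l

lemma R4_orth {n q : ℕ} [NeZero q] (i₀ : Fin n) (κ k : Fin n → ℤ)
    (hq : ∀ l, |k l - κ l| < q) [Decidable (R4_on i₀ κ k)] :
    ∑ a : Fin n → ZMod q, star (mFourier κ (R4_P i₀ a)) * mFourier k (R4_P i₀ a) =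
      (Fintype.card (Fin n → ZMod q) : ℂ) * (((if R4_on i₀ κ k then 1 else 0) : ℝ) : ℂ) := by
  classical
  have h1 : ∀ a : Fin n → ZMod q, star (mFourier κ (R4_P i₀ a)) * mFourier k (R4_P i₀ a) =
      R4_psi i₀ (k - κ) a := by
    intro a
    rw [← mF_neg, mF_add, R4_psi_apply, neg_add_eq_sub]
  rw [Finset.sum_congr rfl fun a _ => h1 a, AddChar.sum_eq_ite]
  by_cases hc : R4_on i₀ κ k
  · rw [if_pos (R4_triv i₀ (k - κ) fun l hl => by
      rw [Pi.sub_apply, hc l hl, sub_self]), if_pos hc, Complex.ofReal_one, mul_one]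
  · rw [if_neg hc]
    unfold R4_on at hc
    push Not at hc
    obtain ⟨l, hl, hkl⟩ := hc
    rw [if_neg (R4_nontriv i₀ (k - κ) hl (by
      rw [Pi.sub_apply]
      exact sub_ne_zero.2 hkl) (hq l)), Complex.ofReal_zero, mul_zero]

lemma R4_avg {n q : ℕ} [NeZero q] (i₀ : Fin n) (κ : Fin n → ℤ) (S : Finset (Fin n → ℤ))
    (c : (Fin n → ℤ) → ℂ) (hq : ∀ k ∈ S, ∀ l, |k l - κ l| < q)
    [DecidablePred (R4_on i₀ κ)] (x : Tor n) :
    tp S (fun k => (((if R4_on i₀ κ k then 1 else 0) : ℝ) : ℂ) * c k) x =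
      (Fintype.card (Fin n → ZMod q) : ℂ)⁻¹ *
        ∑ a : Fin n → ZMod q, star (mFourier κ (R4_P i₀ a)) * tp S c (x + R4_P i₀ a) := by
  have hN0 : (Fintype.card (Fin n → ZMod q) : ℂ) ≠ 0 := Nat.cast_ne_zero.2 Fintype.card_ne_zero
  have h1 : ∀ a : Fin n → ZMod q, star (mFourier κ (R4_P i₀ a)) * tp S c (x + R4_P i₀ a) =
      ∑ k ∈ S, (c k * mFourier k x) *
        (star (mFourier κ (R4_P i₀ a)) * mFourier k (R4_P i₀ a)) := by
    intro a
    rw [tp_apply, Finset.mul_sum]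
    refine Finset.sum_congr rfl fun k _ => ?_
    rw [mF_pt_add]
    ring
  rw [Finset.sum_congr rfl fun a _ => h1 a, Finset.sum_comm, Finset.mul_sum, tp_apply]
  refine Finset.sum_congr rfl fun k hk => ?_
  rw [← Finset.mul_sum, R4_orth i₀ κ k (hq k hk), mul_left_comm, inv_mul_cancel_left₀ hN0]
  ring

lemma R4_le {n q : ℕ} [NeZero q] (i₀ : Fin n) (κ : Fin n → ℤ) (S : Finset (Fin n → ℤ))
    (c : (Fin n → ℤ) → ℂ) (hq : ∀ k ∈ S, ∀ l, |k l - κ l| < q)
    [DecidablePred (R4_on i₀ κ)] :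
    ∫ x, ‖tp S (fun k => (((if R4_on i₀ κ k then 1 else 0) : ℝ) : ℂ) * c k) x‖ ∂haar n ≤
      ∫ x, ‖tp S c x‖ ∂haar n := by
  have hN0 : (Fintype.card (Fin n → ZMod q) : ℝ) ≠ 0 := Nat.cast_ne_zero.2 Fintype.card_ne_zero
  have hle : ∀ x : Tor n,
      ‖tp S (fun k => (((if R4_on i₀ κ k then 1 else 0) : ℝ) : ℂ) * c k) x‖ ≤
      (Fintype.card (Fin n → ZMod q) : ℝ)⁻¹ *
        ∑ a : Fin n → ZMod q, ‖tp S c (x + R4_P i₀ a)‖ := by
    intro x
    rw [R4_avg i₀ κ S c hq x, norm_mul, norm_inv, Complex.norm_natCast]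
    refine mul_le_mul_of_nonneg_left ?_ (by positivity)
    refine (norm_sum_le _ _).trans (Finset.sum_le_sum fun a _ => ?_)
    rw [norm_mul, norm_star, norm_mF, one_mul]
  have hc : ∀ a : Fin n → ZMod q, Continuous fun x : Tor n => ‖tp S c (x + R4_P i₀ a)‖ :=
    fun a => ((tp S c).continuous.comp (continuous_id.add continuous_const)).norm
  have hi : ∀ a : Fin n → ZMod q,
      ∫ x, ‖tp S c (x + R4_P i₀ a)‖ ∂haar n = ∫ x, ‖tp S c x‖ ∂haar n :=
    fun a => int_add (fun x => ‖tp S c x‖) (R4_P i₀ a)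
  have hc2 : Continuous fun x : Tor n => (Fintype.card (Fin n → ZMod q) : ℝ)⁻¹ *
      ∑ a : Fin n → ZMod q, ‖tp S c (x + R4_P i₀ a)‖ :=
    continuous_const.mul (continuous_finsetSum _ fun a _ => hc a)
  refine (integral_mono (cont_int (ContinuousMap.continuous _).norm) (cont_int hc2) hle).trans ?_
  rw [integral_const_mul, integral_finsetSum _ (fun a _ => cont_int (hc a)),
    Finset.sum_congr rfl fun a _ => hi a, Finset.sum_const, Finset.card_univ, nsmul_eq_mul,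
    inv_mul_cancel_left₀ hN0]

lemma R4_q {n : ℕ} (κ : Fin n → ℤ) (S : Finset (Fin n → ℤ)) :
    ∃ q : ℕ, 0 < q ∧ ∀ k ∈ S, ∀ l, |k l - κ l| < q := by
  obtain ⟨q, hq⟩ : ∃ q : ℕ, ∀ k ∈ S, ∀ l, (k l - κ l).natAbs ≤ q := by
    obtain ⟨q, hq⟩ := (S.finite_toSet.image fun k => ∑ l, (k l - κ l).natAbs).bddAbove
    refine ⟨q, fun k hk l => le_trans ?_ (hq ⟨k, hk, rfl⟩)⟩
    exact Finset.single_le_sum (f := fun l => (k l - κ l).natAbs) (fun l _ => Nat.zero_le _)
      (Finset.mem_univ l)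
  refine ⟨q + 1, Nat.succ_pos q, fun k hk l => ?_⟩
  have h := hq k hk l
  rw [Int.abs_eq_natAbs]
  exact_mod_cast Nat.lt_succ_of_le h

theorem item_R4 : S_R4 := by
  intro n i₀ κ S c
  obtain ⟨q, hq0, hq⟩ := R4_q κ S
  have : NeZero q := ⟨hq0.ne'⟩
  let _ : DecidablePred (R4_on i₀ κ) := fun k =>
    (inferInstance : Decidable (∀ l, l ≠ i₀ → k l = κ l))
  exact R4_le i₀ κ S c hq

end

end MP_c03b66_an

end

section

/-! Item T2: every `Λ₂`-set in the orthant, spectrum in a slightly larger cone. -/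

open MeasureTheory UnitAddTorus

namespace MP_c03b66_an

noncomputable section

/-- Jensen for the square root. -/
lemma T2_sqrt_le {n : ℕ} (g : Tor n → ℝ) (hg : Continuous g) (h0 : ∀ x, 0 ≤ g x) :
    ∫ x, Real.sqrt (g x) ∂haar n ≤ Real.sqrt (∫ x, g x ∂haar n) := by
  have hI0 : 0 ≤ ∫ x, g x ∂haar n := integral_nonneg h0
  have hS0 : 0 ≤ ∫ x, Real.sqrt (g x) ∂haar n := integral_nonneg fun x => Real.sqrt_nonneg _
  apply Real.le_sqrt_of_sq_le
  set A := ∫ x, Real.sqrt (g x) ∂haar n with hA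
  have hc : Continuous fun x => Real.sqrt (g x) := hg.sqrt
  have h1 : 0 ≤ ∫ x, (Real.sqrt (g x) - A) ^ 2 ∂haar n :=
    integral_nonneg fun x => sq_nonneg _
  have h2 : ∫ x, (Real.sqrt (g x) - A) ^ 2 ∂haar n =
      (∫ x, g x ∂haar n) - A ^ 2 := by
    have h3 : ∀ x, (Real.sqrt (g x) - A) ^ 2 = (g x - (2 * A) * Real.sqrt (g x)) + A ^ 2 := by
      intro x
      have := Real.sq_sqrt (h0 x)
      nlinarith [this]
    simp_rw [h3]
    rw [integral_add (cont_int (by fun_prop)) (integrable_const _),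
      integral_sub (cont_int (by fun_prop)) (cont_int (by fun_prop)), integral_const_mul]
    simp only [integral_const, probReal_univ, smul_eq_mul, one_mul]
    rw [← hA]; ring
  rw [h2] at h1
  linarith

lemma T2_fc_closure {n : ℕ} {A : Set (Fin n → ℤ)} {f : C(Tor n, ℂ)}
    (hf : f ∈ (H A).topologicalClosure) {k : Fin n → ℤ} (hk : k ∉ A) : fc f k = 0 := by
  by_contra hne
  have hpos : 0 < ‖fc f k‖ := norm_pos_iff.2 hne
  have hf' : f ∈ closure ((H A : Submodule ℂ C(Tor n, ℂ)) : Set C(Tor n, ℂ)) := hf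
  obtain ⟨g, hg, hfg⟩ := Metric.mem_closure_iff.1 hf' _ hpos
  have h1 : fc g k = 0 := fc_of_mem_H hg hk
  have h2 : fcL k (f - g) = fcL k f - fcL k g := map_sum_sub_aux f g k
  rw [dist_eq_norm] at hfg
  have h3 := norm_fc_le (f - g) k
  rw [← fcL_apply, h2, fcL_apply, fcL_apply, h1, sub_zero] at h3
  linarith
where
  map_sum_sub_aux (f g : C(Tor n, ℂ)) (k : Fin n → ℤ) :
      fcL k (f - g) = fcL k f - fcL k g := map_sub (fcL k) f g

theorem item_T2 (hD : S_D3) (hR : S_R3) (hR4 : S_R4) (hE3 : S_E3) (hA : S_A4) : S_T2 := by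
  intro n E hE0 hL i₀ ε hε a ha
  classical
  set Sg : Set (Fin n → ℤ) := {k | 0 ≤ k i₀ ∧ ∀ l, l ≠ i₀ → 0 ≤ k l ∨
    ∃ m, m ≠ i₀ ∧ -(k l : ℝ) ≤ ε * k m} with hSg
  have hES : E ⊆ Sg := fun k hk => ⟨hE0 k hk i₀, fun l _ => Or.inl (hE0 k hk l)⟩
  -- choice of m
  obtain ⟨m, hm1, hm⟩ : ∃ m : ℕ, 1 ≤ m ∧ 1 ≤ ε * ((2 : ℝ) ^ m - 1) := by
    obtain ⟨m, hm⟩ := pow_unbounded_of_one_lt (1 / ε + 1) (one_lt_two : (1 : ℝ) < 2)
    refine ⟨m + 1, Nat.le_add_left 1 m, ?_⟩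
    have h1 : 1 / ε + 1 ≤ (2 : ℝ) ^ (m + 1) := by
      have : (2 : ℝ) ^ m ≤ (2 : ℝ) ^ (m + 1) := by
        rw [pow_succ]; have : (0 : ℝ) < 2 ^ m := by positivity
        linarith
      linarith
    have h2 : 1 / ε ≤ (2 : ℝ) ^ (m + 1) - 1 := by linarith
    rw [div_le_iff₀ hε] at h2
    linarith
  have hadm : Adm (fun (j : ℕ) (_ : Fin n) => 2 ^ j) :=
    ⟨fun _ => by simp, fun j _ => by simp only [pow_succ]; omega⟩
  -- constants for the symbols
  have h1 : ∀ s : Fin n → ℕ, ∃ C : ℝ, 0 < C ∧ ((∃ l, l ≠ i₀ ∧ 2 ^ m ≤ s l) →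
      ∀ (J : ℕ) (S : Finset (Fin n → ℤ)) (c : (Fin n → ℤ) → ℂ),
        (∀ k ∈ S, k ∈ Sg → k ∉ E → c k = 0) →
        ∑ k ∈ S with 0 ≤ k i₀, ‖((sym i₀ s (fun j _ => 2 ^ j) J k : ℝ) : ℂ) * c k‖ ^ 2 ≤
          C * (∫ x, ‖tp S c x‖ ∂haar n) ^ 2) := by
    intro s
    by_cases hs : ∃ l, l ≠ i₀ ∧ 2 ^ m ≤ s l
    · have hs1 : ∃ l, l ≠ i₀ ∧ 1 ≤ s l := by
        obtain ⟨l, hl, hl2⟩ := hs
        exact ⟨l, hl, le_trans Nat.one_le_two_pow hl2⟩
      obtain ⟨CT, _, hCT⟩ := hR n i₀ s hs1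
      obtain ⟨C, hC, hCC⟩ := hD n i₀ E hL CT
      refine ⟨C, hC, fun _ J S c hc => ?_⟩
      refine hCC (sym i₀ s (fun j _ => 2 ^ j) J)
        (fun S c => hCT (fun j _ => 2 ^ j) hadm J S c) S c ?_
      intro k hk hk0 hkE
      by_cases hsym : sym i₀ s (fun j _ => 2 ^ j) J k = 0
      · rw [hsym]; simp
      · obtain ⟨l', hl', hl'0, hl'1⟩ := (hE3 n i₀ m J hm1).1 s k hs hsym
        have hkS : k ∈ Sg := by
          refine ⟨hk0, fun l hl => Or.inr ⟨l', hl', ?_⟩⟩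
          have h3 := hl'1 l hl
          have h4 : (0 : ℝ) < k l' := by exact_mod_cast hl'0
          have h5 : (0 : ℝ) < (2 : ℝ) ^ m - 1 := by
            by_contra hcon
            push Not at hcon
            have : ε * ((2 : ℝ) ^ m - 1) ≤ 0 := mul_nonpos_of_nonneg_of_nonpos hε.le hcon
            linarith
          have h6 : (k l' : ℝ) ≤ ((2 : ℝ) ^ m - 1) * (ε * k l') := by
            calc (k l' : ℝ) = 1 * k l' := by ring
              _ ≤ (ε * ((2 : ℝ) ^ m - 1)) * k l' := mul_le_mul_of_nonneg_right hm h4.le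
              _ = _ := by ring
          have h7 : ((2 : ℝ) ^ m - 1) * (-(k l : ℝ)) ≤ ((2 : ℝ) ^ m - 1) * (ε * k l') := by
            linarith
          exact le_of_mul_le_mul_left h7 h5
        rw [hc k hk hkS hkE, mul_zero]
    · exact ⟨1, one_pos, fun h => absurd h hs⟩
  choose C1 hC1 hC1' using h1
  -- constant for the projections
  have h2 : ∃ C : ℝ, 0 < C ∧ ∀ (κ : Fin n → ℤ), (∀ l, l ≠ i₀ → 0 ≤ κ l) →
      ∀ (S : Finset (Fin n → ℤ)) (c : (Fin n → ℤ) → ℂ),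
        (∀ k ∈ S, k ∈ Sg → k ∉ E → c k = 0) →
        ∑ k ∈ S with 0 ≤ k i₀,
          ‖(((if ∀ l, l ≠ i₀ → k l = κ l then 1 else 0 : ℝ)) : ℂ) * c k‖ ^ 2 ≤
          C * (∫ x, ‖tp S c x‖ ∂haar n) ^ 2 := by
    obtain ⟨C, hC, hCC⟩ := hD n i₀ E hL 1
    refine ⟨C, hC, fun κ hκ S c hc => ?_⟩
    refine hCC (fun k => (if ∀ l, l ≠ i₀ → k l = κ l then 1 else 0 : ℝ)) ?_ S c ?_
    · intro S c
      rw [one_mul]
      refine (T2_sqrt_le _ (by fun_prop) (fun x => norm_nonneg _)).trans ?_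
      exact Real.sqrt_le_sqrt (hR4 n i₀ κ S c)
    · intro k hk hk0 hkE
      by_cases hkk : ∀ l, l ≠ i₀ → k l = κ l
      · have hkS : k ∈ Sg := by
          refine ⟨hk0, fun l hl => Or.inl ?_⟩
          rw [hkk l hl]; exact hκ l hl
        rw [hc k hk hkS hkE, mul_zero]
      · simp only [if_neg hkk]; simp
  obtain ⟨C2, hC2, hC2'⟩ := h2
  set P : Finset (Fin n → ℕ) :=
    (Fintype.piFinset fun _ : Fin n => Finset.range (2 ^ (m + 1) + 1)).filter
      (fun s => ∃ l, l ≠ i₀ ∧ 2 ^ m ≤ s l) with hP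
  set Kp : Finset (Fin n → ℤ) :=
    Fintype.piFinset fun i : Fin n => if i = i₀ then {0} else Finset.Ico (0 : ℤ) (2 ^ m) with hKp
  set C : ℝ := 4 ^ n * ∑ s ∈ P, C1 s + ∑ _κ ∈ Kp, C2 with hCdef
  have hCnn : 0 ≤ C := by
    have : 0 ≤ ∑ s ∈ P, C1 s := Finset.sum_nonneg fun s _ => (hC1 s).le
    have : 0 ≤ ∑ _κ ∈ Kp, C2 := Finset.sum_nonneg fun s _ => hC2.le
    positivity
  have hDE : DE Sg E C := by
    intro S c hc S' hS' hS'E
    obtain ⟨J, hJ⟩ : ∃ J : ℕ, ∀ k ∈ S', ∀ l, k l < 2 ^ (m + J) := by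
      refine ⟨∑ k ∈ S', ∑ l, (k l).toNat, fun k hk l => ?_⟩
      have h3 : (k l).toNat ≤ ∑ k ∈ S', ∑ l, (k l).toNat :=
        (Finset.single_le_sum (f := fun l => (k l).toNat) (fun _ _ => Nat.zero_le _)
          (Finset.mem_univ l)).trans
          (Finset.single_le_sum (f := fun k : Fin n → ℤ => ∑ l, (k l).toNat)
            (fun _ _ => Nat.zero_le _) hk)
      have h4 : (k l).toNat < 2 ^ (m + ∑ k ∈ S', ∑ l, (k l).toNat) := by
        calc (k l).toNat ≤ ∑ k ∈ S', ∑ l, (k l).toNat := h3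
          _ ≤ m + ∑ k ∈ S', ∑ l, (k l).toNat := Nat.le_add_left _ _
          _ < _ := Nat.lt_two_pow_self
      have h5 : (k l) ≤ ((k l).toNat : ℤ) := Int.self_le_toNat _
      have h6 : ((k l).toNat : ℤ) < ((2 ^ (m + ∑ k ∈ S', ∑ l, (k l).toNat) : ℕ) : ℤ) := by
        exact_mod_cast h4
      push_cast at h6
      push_cast
      linarith
    set I := (∫ x, ‖tp S c x‖ ∂haar n) ^ 2 with hI
    have hpt : ∀ k ∈ S', ‖c k‖ ^ 2 ≤
        4 ^ n * ∑ s ∈ P, ‖((sym i₀ s (fun j _ => 2 ^ j) J k : ℝ) : ℂ) * c k‖ ^ 2 +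
        ∑ κ ∈ Kp, ‖(((if ∀ l, l ≠ i₀ → k l = κ l then 1 else 0 : ℝ)) : ℂ) * c k‖ ^ 2 := by
      intro k hk
      have hkE := hS'E k hk
      have hnn1 : 0 ≤ 4 ^ n * ∑ s ∈ P, ‖((sym i₀ s (fun j _ => 2 ^ j) J k : ℝ) : ℂ) * c k‖ ^ 2 := by
        positivity
      have hnn2 : 0 ≤ ∑ κ ∈ Kp,
          ‖(((if ∀ l, l ≠ i₀ → k l = κ l then 1 else 0 : ℝ)) : ℂ) * c k‖ ^ 2 := by
        positivity
      by_cases hsmall : ∀ l, l ≠ i₀ → k l < 2 ^ m
      · have hκ : (fun i => if i = i₀ then 0 else k i) ∈ Kp := by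
          rw [hKp, Fintype.mem_piFinset]
          intro i
          by_cases hi : i = i₀
          · simp [hi]
          · simp only [if_neg hi, Finset.mem_Ico]
            exact ⟨hE0 k hkE i, hsmall i hi⟩
        have h3 := Finset.single_le_sum
          (f := fun κ => ‖(((if ∀ l, l ≠ i₀ → k l = κ l then 1 else 0 : ℝ)) : ℂ) * c k‖ ^ 2)
          (fun κ _ => by positivity) hκ
        have h4 : (∀ l, l ≠ i₀ → k l = (fun i => if i = i₀ then 0 else k i) l) := by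
          intro l hl; simp [hl]
        simp only [if_pos h4] at h3
        have h5 : ‖(((1 : ℝ)) : ℂ) * c k‖ ^ 2 = ‖c k‖ ^ 2 := by simp
        rw [h5] at h3
        linarith
      · push Not at hsmall
        obtain ⟨s, hs, hs2, hs3⟩ := (hE3 n i₀ m J hm1).2 k
          (fun l _ => ⟨hE0 k hkE l, hJ k hk l⟩) hsmall
        have hsP : s ∈ P := by rw [hP, Finset.mem_filter]; exact ⟨hs, hs2⟩
        have h3 := Finset.single_le_sum
          (f := fun s => ‖((sym i₀ s (fun j _ => 2 ^ j) J k : ℝ) : ℂ) * c k‖ ^ 2)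
          (fun κ _ => by positivity) hsP
        have h4 : ‖c k‖ ^ 2 ≤ 4 ^ n * ‖((sym i₀ s (fun j _ => 2 ^ j) J k : ℝ) : ℂ) * c k‖ ^ 2 := by
          rw [norm_mul, mul_pow, Complex.norm_real, Real.norm_eq_abs, sq_abs]
          have h5 : 1 ≤ 4 ^ n * sym i₀ s (fun j _ => 2 ^ j) J k ^ 2 := by
            calc (1 : ℝ) = 4 ^ n * ((1 / 2 : ℝ) ^ n) ^ 2 := by
                  rw [← pow_mul, mul_comm n 2, pow_mul, ← mul_pow]; norm_num
              _ ≤ _ := by
                  apply mul_le_mul_of_nonneg_left _ (by positivity)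
                  exact pow_le_pow_left₀ (by positivity) hs3 2
          calc ‖c k‖ ^ 2 = 1 * ‖c k‖ ^ 2 := by ring
            _ ≤ (4 ^ n * sym i₀ s (fun j _ => 2 ^ j) J k ^ 2) * ‖c k‖ ^ 2 :=
                mul_le_mul_of_nonneg_right h5 (by positivity)
            _ = _ := by ring
        have h6 : 4 ^ n * ‖((sym i₀ s (fun j _ => 2 ^ j) J k : ℝ) : ℂ) * c k‖ ^ 2 ≤
            4 ^ n * ∑ s ∈ P, ‖((sym i₀ s (fun j _ => 2 ^ j) J k : ℝ) : ℂ) * c k‖ ^ 2 :=
          mul_le_mul_of_nonneg_left h3 (by positivity)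
        linarith
    have hsub : S' ⊆ S.filter (fun k => 0 ≤ k i₀) := by
      intro k hk
      rw [Finset.mem_filter]
      exact ⟨hS' hk, hE0 k (hS'E k hk) i₀⟩
    have hb1 : ∀ s ∈ P, ∑ k ∈ S', ‖((sym i₀ s (fun j _ => 2 ^ j) J k : ℝ) : ℂ) * c k‖ ^ 2 ≤
        C1 s * I := by
      intro s hs
      rw [hP, Finset.mem_filter] at hs
      exact (Finset.sum_le_sum_of_subset_of_nonneg hsub (fun _ _ _ => by positivity)).trans
        (hC1' s hs.2 J S c hc)
    have hb2 : ∀ κ ∈ Kp, ∑ k ∈ S',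
        ‖(((if ∀ l, l ≠ i₀ → k l = κ l then 1 else 0 : ℝ)) : ℂ) * c k‖ ^ 2 ≤ C2 * I := by
      intro κ hκ
      rw [hKp, Fintype.mem_piFinset] at hκ
      refine (Finset.sum_le_sum_of_subset_of_nonneg hsub (fun _ _ _ => by positivity)).trans
        (hC2' κ ?_ S c hc)
      intro l hl
      have := hκ l
      rw [if_neg hl, Finset.mem_Ico] at this
      exact this.1
    calc ∑ k ∈ S', ‖c k‖ ^ 2 ≤ ∑ k ∈ S',
        (4 ^ n * ∑ s ∈ P, ‖((sym i₀ s (fun j _ => 2 ^ j) J k : ℝ) : ℂ) * c k‖ ^ 2 +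
        ∑ κ ∈ Kp, ‖(((if ∀ l, l ≠ i₀ → k l = κ l then 1 else 0 : ℝ)) : ℂ) * c k‖ ^ 2) :=
          Finset.sum_le_sum hpt
      _ = 4 ^ n * ∑ s ∈ P, ∑ k ∈ S', ‖((sym i₀ s (fun j _ => 2 ^ j) J k : ℝ) : ℂ) * c k‖ ^ 2 +
        ∑ κ ∈ Kp, ∑ k ∈ S',
          ‖(((if ∀ l, l ≠ i₀ → k l = κ l then 1 else 0 : ℝ)) : ℂ) * c k‖ ^ 2 := by
          rw [Finset.sum_add_distrib, ← Finset.mul_sum, Finset.sum_comm]
          congr 1
          rw [Finset.sum_comm]
      _ ≤ 4 ^ n * ∑ s ∈ P, C1 s * I + ∑ _κ ∈ Kp, C2 * I := by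
          refine add_le_add (mul_le_mul_of_nonneg_left (Finset.sum_le_sum hb1) (by positivity))
            (Finset.sum_le_sum hb2)
      _ = C * I := by
          rw [hCdef, ← Finset.sum_mul, ← Finset.sum_mul]; ring
  obtain ⟨f, hf, hfa⟩ := hA n Sg E C hES hCnn hDE a ha
  refine ⟨f, hfa, fun k hk => ?_⟩
  by_contra hcon
  exact hk (T2_fc_closure hf (k := k) (fun h => hcon h))

end

end MP_c03b66_an

end

section

/-! Item A5b: uniform limits of analytic polynomials are in the polydisc algebra. -/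

open MeasureTheory UnitAddTorus Filter Topology Metric

namespace MP_c03b66_an

noncomputable section

/-- Cauchy estimate for the derivative of a function on a complex normed space -/
theorem A5b_cauchy {E : Type} [NormedAddCommGroup E] [NormedSpace ℂ E] {P : E → ℂ}
    (hP : Differentiable ℂ P) {ε r : ℝ} (hr : 0 < r) {w : E}
    (h : ∀ u ∈ closedBall w r, ‖P u‖ ≤ ε) : ‖fderiv ℂ P w‖ ≤ ε / r := by
  have hε : 0 ≤ ε := (norm_nonneg _).trans (h w (mem_closedBall_self hr.le))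
  refine ContinuousLinearMap.opNorm_le_bound _ (by positivity) fun v => ?_
  rcases eq_or_ne v 0 with rfl | hv
  · simp
  · have hv' : 0 < ‖v‖ := norm_pos_iff.2 hv
    have hline : ∀ t : ℂ, HasDerivAt (fun s : ℂ => w + s • v) v t := fun t => by
      have := ((hasDerivAt_id t).smul_const v).const_add w
      simpa using this
    have h1 : HasDerivAt (fun s : ℂ => P (w + s • v)) (fderiv ℂ P w v) 0 := by
      have h2 : HasFDerivAt P (fderiv ℂ P w) (w + (0 : ℂ) • v) := by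
        rw [zero_smul, add_zero]
        exact (hP w).hasFDerivAt
      exact h2.comp_hasDerivAt (0 : ℂ) (hline 0)
    have h3 : Differentiable ℂ (fun s : ℂ => P (w + s • v)) := fun t =>
      ((hP (w + t • v)).hasFDerivAt.comp_hasDerivAt t (hline t)).differentiableAt
    have h4 : ‖deriv (fun s : ℂ => P (w + s • v)) 0‖ ≤ ε / (r / ‖v‖) := by
      refine Complex.norm_deriv_le_of_forall_mem_sphere_norm_le (by positivity)
        h3.diffContOnCl ?_
      intro s hs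
      apply h
      rw [mem_sphere_zero_iff_norm] at hs
      rw [mem_closedBall_iff_norm, add_sub_cancel_left, norm_smul, hs, div_mul_cancel₀ _ hv'.ne']
    rw [h1.deriv] at h4
    calc ‖fderiv ℂ P w v‖ ≤ ε / (r / ‖v‖) := h4
      _ = ε / r * ‖v‖ := by field_simp

theorem A5b_diff {n : ℕ} (S : Finset (Fin n → ℤ)) (c : (Fin n → ℤ) → ℂ) :
    Differentiable ℂ (A5aP S c) := by
  unfold A5aP
  refine Differentiable.fun_sum fun k _ => ?_
  have h2 : ∀ T : Finset (Fin n), Differentiable ℂ (fun z : Fin n → ℂ => ∏ i ∈ T, z i ^ (k i).toNat) := by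
    classical
    intro T
    induction T using Finset.induction_on with
    | empty => simp
    | insert j T hj ih =>
      simp only [Finset.prod_insert hj]
      have h1 : Differentiable ℂ (fun z : Fin n → ℂ => z j) := differentiable_apply j
      exact (h1.pow _).mul ih
  exact (h2 Finset.univ).const_mul (c k)

theorem A5b_sum {n : ℕ} (S T : Finset (Fin n → ℤ)) (c d φ : (Fin n → ℤ) → ℂ) :
    ∑ k ∈ S, c k * φ k - ∑ k ∈ T, d k * φ k =
      ∑ k ∈ S ∪ T, ((if k ∈ S then c k else 0) - (if k ∈ T then d k else 0)) * φ k := by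
  simp only [sub_mul, Finset.sum_sub_distrib, ite_mul, zero_mul]
  rw [Finset.sum_ite_mem, Finset.sum_ite_mem, Finset.inter_eq_right.2 Finset.subset_union_left,
    Finset.inter_eq_right.2 Finset.subset_union_right]

theorem A5b_sub {n : ℕ} (S T : Finset (Fin n → ℤ)) (c d : (Fin n → ℤ) → ℂ) :
    ∃ e : (Fin n → ℤ) → ℂ, tp S c - tp T d = tp (S ∪ T) e ∧
      ∀ z, A5aP S c z - A5aP T d z = A5aP (S ∪ T) e z := by
  refine ⟨fun k => (if k ∈ S then c k else 0) - (if k ∈ T then d k else 0), ?_, fun z => ?_⟩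
  · ext x
    rw [ContinuousMap.sub_apply, tp_apply, tp_apply, tp_apply]
    exact A5b_sum S T c d fun k => mFourier k x
  · exact A5b_sum S T c d fun k => ∏ i, z i ^ (k i).toNat

theorem item_A5b (h : S_A5a) : S_A5b := by
  classical
  intro n f hf
  obtain ⟨g, hg, hlim⟩ := mem_closure_iff_seq_limit.1 hf
  choose S c hS hgc using fun j => mem_H_iff.1 (hg j)
  have hS' : ∀ j, ∀ k ∈ S j, ∀ i, 0 ≤ k i := hS
  set P : ℕ → (Fin n → ℂ) → ℂ := fun j => A5aP (S j) (c j) with hP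
  have hPd : ∀ j, Differentiable ℂ (P j) := fun j => A5b_diff _ _
  have hdiff : ∀ i j, ∀ z : Fin n → ℂ, (∀ l, ‖z l‖ ≤ 1) → ‖P i z - P j z‖ ≤ ‖g i - g j‖ := by
    intro i j z hz
    obtain ⟨e, e1, e2⟩ := A5b_sub (S i) (S j) (c i) (c j)
    rw [hgc i, hgc j, e1]
    show ‖A5aP (S i) (c i) z - A5aP (S j) (c j) z‖ ≤ _
    rw [e2]
    refine h n (S i ∪ S j) e z (fun k hk => ?_) hz
    rcases Finset.mem_union.1 hk with hk | hk
    · exact hS' i k hk
    · exact hS' j k hk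
  have hcau : ∀ ε > 0, ∃ N, ∀ i ≥ N, ∀ j ≥ N, ‖g i - g j‖ < ε := by
    intro ε hε
    obtain ⟨N, hN⟩ := Metric.cauchySeq_iff.1 hlim.cauchySeq ε hε
    exact ⟨N, fun i hi j hj => by rw [← dist_eq_norm]; exact hN i hi j hj⟩
  -- the limit function
  set K : Set (Fin n → ℂ) := {z | ∀ i, ‖z i‖ ≤ 1} with hK
  have hucs : UniformCauchySeqOn P atTop K := by
    rw [Metric.uniformCauchySeqOn_iff]
    intro ε hε
    obtain ⟨N, hN⟩ := hcau ε hε
    refine ⟨N, fun i hi j hj z hz => ?_⟩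
    rw [dist_eq_norm]
    exact (hdiff i j z hz).trans_lt (hN i hi j hj)
  have hptw : ∀ z ∈ K, ∃ y, Tendsto (fun j => P j z) atTop (𝓝 y) := fun z hz =>
    cauchySeq_tendsto_of_complete (hucs.cauchySeq hz)
  choose! F hF using hptw
  have hFu : TendstoUniformlyOn P F atTop K := hucs.tendstoUniformlyOn_of_tendsto hF
  refine ⟨F, ?_, ?_, ?_⟩
  · exact hFu.continuousOn (Frequently.of_forall fun j => (hPd j).continuous.continuousOn)
  · intro z hz
    have hz' : ∀ i, ‖z i‖ < 1 := hz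
    have hzn : ‖z‖ < 1 := (pi_norm_lt_iff one_pos).2 hz'
    set ρ := (1 - ‖z‖) / 2 with hρ
    have hρ0 : 0 < ρ := by rw [hρ]; linarith
    have hball : ∀ w ∈ ball z ρ, ∀ u ∈ closedBall w ρ, u ∈ K := by
      intro w hw u hu
      have h1 : ‖u‖ ≤ 1 := by
        have h2 : ‖w - z‖ < ρ := by rwa [mem_ball_iff_norm] at hw
        have h3 : ‖u - w‖ ≤ ρ := by rwa [mem_closedBall_iff_norm] at hu
        have h4 : ‖u‖ ≤ ‖u - w‖ + ‖w - z‖ + ‖z‖ := by
          calc ‖u‖ = ‖(u - w) + (w - z) + z‖ := by congr 1; abel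
            _ ≤ _ := norm_add₃_le
        rw [hρ] at h2 h3
        linarith
      exact fun i => (norm_le_pi_norm u i).trans h1
    have hsub : ball z ρ ⊆ K := fun w hw => hball w hw w (mem_closedBall_self hρ0.le)
    have hd : UniformCauchySeqOn (fun j w => fderiv ℂ (P j) w) atTop (ball z ρ) := by
      rw [Metric.uniformCauchySeqOn_iff]
      intro ε hε
      obtain ⟨N, hN⟩ := hcau (ε * ρ / 2) (by positivity)
      refine ⟨N, fun i hi j hj w hw => ?_⟩
      rw [dist_eq_norm]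
      have h1 : fderiv ℂ (P i) w - fderiv ℂ (P j) w = fderiv ℂ (fun u => P i u - P j u) w :=
        (fderiv_fun_sub (hPd i w) (hPd j w)).symm
      rw [h1]
      have h2 : ‖fderiv ℂ (fun u => P i u - P j u) w‖ ≤ (ε * ρ / 2) / ρ := by
        refine A5b_cauchy ((hPd i).sub (hPd j)) hρ0 fun u hu => ?_
        exact (hdiff i j u (hball w hw u hu)).trans (hN i hi j hj).le
      refine h2.trans_lt ?_
      rw [show (ε * ρ / 2) / ρ = ε / 2 by field_simp]
      linarith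
    have hptw' : ∀ w ∈ ball z ρ, ∃ y, Tendsto (fun j => fderiv ℂ (P j) w) atTop (𝓝 y) :=
      fun w hw => cauchySeq_tendsto_of_complete (hd.cauchySeq hw)
    choose! G hG using hptw'
    have hGu : TendstoUniformlyOn (fun j w => fderiv ℂ (P j) w) G atTop (ball z ρ) :=
      hd.tendstoUniformlyOn_of_tendsto hG
    have hder : HasFDerivAt F (G z) z :=
      hasFDerivAt_of_tendstoUniformlyOn isOpen_ball hGu
        (fun j w _ => (hPd j w).hasFDerivAt) (fun w hw => hF w (hsub hw)) (mem_ball_self hρ0)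
    exact hder.differentiableAt.differentiableWithinAt
  · intro θ
    set z : Fin n → ℂ := fun i => (AddCircle.toCircle (θ i) : ℂ) with hzdef
    have hz : z ∈ K := fun i => by
      rw [hzdef]
      simp
    have h1 := hF z hz
    have h2 : ∀ j, P j z = g j θ := by
      intro j
      rw [hgc j, tp_apply]
      show A5aP (S j) (c j) z = _
      unfold A5aP
      refine Finset.sum_congr rfl fun k hk => ?_
      rw [A5a_mF k (hS' j k hk)]
    have h3 : Tendsto (fun j => g j θ) atTop (𝓝 (f θ)) := by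
      have := (continuous_eval_const (F := C(Tor n, ℂ)) θ).tendsto f
      exact this.comp hlim
    have h4 : (fun j => P j z) = fun j => g j θ := funext h2
    rw [h4] at h1
    exact tendsto_nhds_unique h1 h3

end

end MP_c03b66_an

end
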