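import Pool.Agent.Work.MP_c03b66_an.Bd.B01
import Pool.Agent.Work.MP_c03b66_an.Stmts2
import Pool.Agent.Work.MP_c03b66_an.Bd.B03

/-! Bundle of small proof modules (one section per former module). -/

section

open MeasureTheory UnitAddTorus

namespace MP_c03b66_an

noncomputable section

theorem item_E1_one_le {n : ℕ} {N : ℕ → Fin n → ℕ} (hN : Adm N) (j : ℕ) (l : Fin n) :
    1 ≤ N j l := by
  induction j with
  | zero => exact hN.1 l
  | succ j ih => have := hN.2 j l; omega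

theorem item_E1_tri_nonneg (N s : ℕ) (k : ℤ) : 0 ≤ tri N s k := le_max_left _ _

theorem item_E1_tri_pos {N s : ℕ} (hN : 1 ≤ N) (hs : 1 ≤ s) {k : ℤ} (h : tri N s k ≠ 0) :
    0 < k := by
  by_contra hk
  push Not at hk
  apply h
  unfold tri
  apply max_eq_left
  have hN' : (0 : ℝ) < N := by exact_mod_cast hN
  have hs' : (1 : ℝ) ≤ s := by exact_mod_cast hs
  have hk' : (k : ℝ) ≤ 0 := by exact_mod_cast hk
  have h1 : (N : ℝ) ≤ |(k : ℝ) - s * N| := by
    rw [abs_sub_comm]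
    calc (N : ℝ) = 1 * N := by ring
      _ ≤ s * N - k := by nlinarith
      _ ≤ _ := le_abs_self _
  have h2 : (1 : ℝ) ≤ |(k : ℝ) - s * N| / N := by
    rw [le_div_iff₀ hN']; linarith
  linarith

theorem item_E1_sym_nonneg {n : ℕ} (i₀ : Fin n) (s : Fin n → ℕ) (N : ℕ → Fin n → ℕ) (J : ℕ)
    (k : Fin n → ℤ) : 0 ≤ sym i₀ s N J k :=
  Finset.sum_nonneg fun _ _ => Finset.prod_nonneg fun _ _ => item_E1_tri_nonneg _ _ _

/-- the nearest multiple. -/
theorem item_E1_near {N b : ℕ} (hN : 1 ≤ N) {k : ℤ} (h1 : (N : ℤ) ≤ k) (h2 : k ≤ b * N) :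
    ∃ s ∈ Finset.Icc 1 (b + 1), (1 / 2 : ℝ) ≤ tri N s k := by
  obtain ⟨K, rfl⟩ : ∃ K : ℕ, k = K := ⟨k.toNat, by omega⟩
  have h1' : N ≤ K := by exact_mod_cast h1
  have h2' : K ≤ b * N := by exact_mod_cast h2
  set s := (2 * K + N) / (2 * N) with hs
  have hpos : 0 < 2 * N := by omega
  have e1 : 2 * N * s ≤ 2 * K + N := Nat.mul_div_le _ _
  have e2 : 2 * K + N < 2 * N * s + 2 * N := by
    have := Nat.lt_mul_div_succ (2 * K + N) hpos
    rw [← hs, Nat.mul_add, Nat.mul_one] at this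
    exact this
  refine ⟨s, ?_, ?_⟩
  · rw [Finset.mem_Icc]
    constructor
    · rw [hs, Nat.le_div_iff_mul_le hpos]; omega
    · by_contra hcon
      push Not at hcon
      have h3 : b + 2 ≤ s := by omega
      have h4 : 2 * N * (b + 2) ≤ 2 * N * s := Nat.mul_le_mul_left _ h3
      have h5 : 2 * N * (b + 2) = 2 * (b * N) + 4 * N := by ring
      omega
  · unfold tri
    apply le_max_of_le_right
    have hN' : (0 : ℝ) < N := by exact_mod_cast hN
    have e1' : 2 * (N : ℝ) * s ≤ 2 * K + N := by exact_mod_cast e1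
    have e2' : 2 * (K : ℝ) + N < 2 * N * s + 2 * N := by exact_mod_cast e2
    have h6 : |((K : ℤ) : ℝ) - s * N| ≤ N / 2 := by
      rw [abs_le]
      push_cast
      constructor <;> nlinarith
    have h7 : |((K : ℤ) : ℝ) - s * N| / N ≤ 1 / 2 := by
      rw [div_le_iff₀ hN']; linarith
    linarith

theorem item_E1 : S_E1 := by
  classical
  intro n i₀ b N hN J
  refine ⟨?_, ?_, ?_⟩
  · intro s k hs hne l hl
    obtain ⟨j, _, hj⟩ := Finset.exists_ne_zero_of_sum_ne_zero hne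
    have h1 : tri (N j l) (s l) (k l) ≠ 0 := by
      intro h0
      exact hj (Finset.prod_eq_zero (Finset.mem_erase.2 ⟨hl, Finset.mem_univ _⟩) h0)
    exact item_E1_tri_pos (item_E1_one_le hN j l) (hs l hl) h1
  · exact fun s k => item_E1_sym_nonneg i₀ s N J k
  · intro k j hj hk
    have hch : ∀ l, ∃ s ∈ Finset.Icc 1 (b + 1), l ≠ i₀ → (1 / 2 : ℝ) ≤ tri (N j l) s (k l) := by
      intro l
      by_cases hl : l = i₀
      · exact ⟨1, Finset.mem_Icc.2 ⟨le_rfl, by omega⟩, fun h => absurd hl h⟩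
      · obtain ⟨s, hs, h⟩ := item_E1_near (item_E1_one_le hN j l) (hk l hl).1 (hk l hl).2
        exact ⟨s, hs, fun _ => h⟩
    choose s hs hs2 using hch
    refine ⟨s, Fintype.mem_piFinset.2 hs, ?_⟩
    calc (1 / 2 : ℝ) ^ n ≤ (1 / 2 : ℝ) ^ (Finset.univ.erase i₀).card := by
          apply pow_le_pow_of_le_one (by norm_num) (by norm_num)
          calc (Finset.univ.erase i₀).card ≤ (Finset.univ : Finset (Fin n)).card :=
                Finset.card_le_card (Finset.erase_subset _ _)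
            _ = n := by simp
      _ = ∏ _l ∈ Finset.univ.erase i₀, (1 / 2 : ℝ) := by rw [Finset.prod_const]
      _ ≤ ∏ l ∈ Finset.univ.erase i₀, tri (N j l) (s l) (k l) := by
          apply Finset.prod_le_prod
          · intro _ _; norm_num
          · intro l hl; exact hs2 l (Finset.ne_of_mem_erase hl)
      _ ≤ sym i₀ s N J k := by
          unfold sym
          exact Finset.single_le_sum (f := fun j => ∏ l ∈ Finset.univ.erase i₀, tri (N j l) (s l) (k l))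
            (fun _ _ => Finset.prod_nonneg fun _ _ => item_E1_tri_nonneg _ _ _)
            (Finset.mem_range.2 hj)

end

end MP_c03b66_an

end

section

/-!
`S_E2I`: dual estimate for a `Tame2` piece (`MP_c03b66_an`).
-/

open MeasureTheory UnitAddTorus

namespace MP_c03b66_an

noncomputable section

lemma E2I_jensen {n : ℕ} (f : C(Tor n, ℂ)) :
    ∫ x, Real.sqrt ‖f x‖ ∂haar n ≤ Real.sqrt (∫ x, ‖f x‖ ∂haar n) := by
  have h := ConcaveOn.le_map_integral (μ := haar n) (g := fun x : ℝ => Real.sqrt x)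
    (f := fun x : Tor n => ‖f x‖) Real.strictConcaveOn_sqrt.concaveOn
    Real.continuous_sqrt.continuousOn isClosed_Ici
    (Filter.Eventually.of_forall fun x => norm_nonneg _)
    (cont_int (by fun_prop)) (cont_int (by
      show Continuous fun x => Real.sqrt ‖f x‖
      fun_prop))
  exact h

/-- the case without active coordinates -/
lemma E2I_line (hD : S_D3) (hR4 : S_R4P) {n : ℕ} {E A : Set (Fin n → ℤ)}
    (hE0 : ∀ k ∈ E, ∀ i, 0 ≤ k i) (hΛ : IsLambda2 E) (i₀ : Fin n) (κ : Fin n → ℤ)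
    (hκ : ∀ k ∈ A, ∀ l, l ≠ i₀ → k l = κ l) (hneg : ∀ l, l ≠ i₀ → 0 ≤ κ l) :
    ∃ C : ℝ, 0 < C ∧ ∀ (S : Finset (Fin n → ℤ)) (c : (Fin n → ℤ) → ℂ),
    (∀ k ∈ S, (∀ i, 0 ≤ k i) → k ∉ E → c k = 0) →
    ∀ S' ⊆ S, (∀ k ∈ S', k ∈ E ∧ k ∈ A) →
      ∑ k ∈ S', ‖c k‖ ^ 2 ≤ C * (∫ x, ‖tp S c x‖ ∂haar n) ^ 2 := by
  obtain ⟨C, hC, h⟩ := hD n i₀ E hΛ 1
  refine ⟨C, hC, fun S c hc S' hS' hk => ?_⟩
  have h1 := h (fun k => if ∀ l ∈ Finset.univ.erase i₀, k l = κ l then 1 else 0) (fun S c => by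
    rw [one_mul]
    exact (E2I_jensen _).trans (Real.sqrt_le_sqrt (hR4 n (Finset.univ.erase i₀) κ S c))) S c (by
    intro k hkS hk0 hkE
    by_cases hkκ : ∀ l ∈ Finset.univ.erase i₀, k l = κ l
    · have h2 : c k = 0 := by
        refine hc k hkS (fun i => ?_) hkE
        by_cases hi : i = i₀
        · rw [hi]
          exact hk0
        · rw [hkκ i (Finset.mem_erase.2 ⟨hi, Finset.mem_univ i⟩)]
          exact hneg i hi
      rw [h2, mul_zero]
    · rw [if_neg hkκ]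
      simp)
  refine le_trans ?_ h1
  have h2 : ∀ k ∈ S', ‖c k‖ ^ 2 =
      ‖(((if ∀ l ∈ Finset.univ.erase i₀, k l = κ l then 1 else 0 : ℝ)) : ℂ) * c k‖ ^ 2 := by
    intro k hkS
    rw [if_pos fun l hl => hκ k (hk k hkS).2 l (Finset.mem_erase.1 hl).1]
    simp
  rw [Finset.sum_congr rfl h2]
  refine Finset.sum_le_sum_of_subset_of_nonneg (fun k hkS => ?_) (fun _ _ _ => by positivity)
  rw [Finset.mem_filter]
  exact ⟨hS' hkS, hE0 k (hk k hkS).1 i₀⟩

theorem item_E2I (hD : S_D3) (hR : S_R3I) (hR4 : S_R4P) (hE : S_E1I) : S_E2I := by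
  classical
  intro n E A hE0 hΛ hA
  obtain ⟨i₀, I, b, N, κ, hi₀, hN1, hN2, hN3⟩ := hA
  by_cases hneg : ∃ l, l ≠ i₀ ∧ l ∉ I ∧ κ l < 0
  · obtain ⟨l, hl, hlI, hl2⟩ := hneg
    refine ⟨1, one_pos, fun S c hc S' hS' hk => ?_⟩
    have hemp : S' = ∅ := by
      rw [Finset.eq_empty_iff_forall_notMem]
      intro k hkS
      obtain ⟨h1, h2⟩ := hk k hkS
      have h3 := hE0 k h1 l
      rw [(hN3 k h2).2 l hl hlI] at h3
      omega
    rw [hemp, Finset.sum_empty]
    positivity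
  push Not at hneg
  obtain hI | ⟨l₁, hl₁⟩ := I.eq_empty_or_nonempty
  · subst hI
    exact E2I_line hD hR4 hE0 hΛ i₀ κ (fun k hk l hl => (hN3 k hk).2 l hl (Finset.notMem_empty l))
      (fun l hl => hneg l hl (Finset.notMem_empty l))
  have hAdm : Adm N := ⟨hN1, hN2⟩
  set P : Finset (Fin n) := (Finset.univ.erase i₀) \ I with hP
  have hPm : ∀ l, l ∈ P ↔ l ≠ i₀ ∧ l ∉ I := fun l => by
    rw [hP, Finset.mem_sdiff, Finset.mem_erase]
    simp
  set χ : (Fin n → ℤ) → ℝ := fun k => if ∀ l ∈ P, k l = κ l then 1 else 0 with hχ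
  have h1 : ∀ s ∈ Fintype.piFinset (fun _ : Fin n => Finset.Icc 1 (b + 1)), ∃ C : ℝ, 0 < C ∧
      ∀ (J : ℕ) (S : Finset (Fin n → ℤ)) (c : (Fin n → ℤ) → ℂ),
      (∀ k ∈ S, (∀ i, 0 ≤ k i) → k ∉ E → c k = 0) →
      ∑ k ∈ S with 0 ≤ k i₀, ‖((symI I s N J k * χ k : ℝ) : ℂ) * c k‖ ^ 2 ≤
        C * (∫ x, ‖tp S c x‖ ∂haar n) ^ 2 := by
    intro s hs
    rw [Fintype.mem_piFinset] at hs
    have hs1 : ∀ l, 1 ≤ s l := fun l => (Finset.mem_Icc.1 (hs l)).1
    obtain ⟨CT, hCT0, hCT⟩ := hR n I s ⟨l₁, hl₁, hs1 l₁⟩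
    obtain ⟨C, hC, h⟩ := hD n i₀ E hΛ CT
    refine ⟨C, hC, fun J S c hc => h (fun k => symI I s N J k * χ k) (fun S c => ?_) S c ?_⟩
    · have h2 := hCT N hAdm J S (fun k => (χ k : ℂ) * c k)
      have h3 : (fun k => ((symI I s N J k * χ k : ℝ) : ℂ) * c k) =
          fun k => (symI I s N J k : ℂ) * ((χ k : ℂ) * c k) := by
        funext k
        push_cast
        ring
      rw [h3]
      refine h2.trans (mul_le_mul_of_nonneg_left (Real.sqrt_le_sqrt ?_) hCT0.le)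
      exact hR4 n P κ S c
    intro k hkS hk0 hkE
    by_cases hsy : symI I s N J k = 0
    · rw [hsy]
      simp
    · by_cases hkP : ∀ l ∈ P, k l = κ l
      · have h2 := (hE n I b N hAdm J).1 s k (fun l _ => hs1 l) hsy
        have h3 : c k = 0 := by
          refine hc k hkS (fun i => ?_) hkE
          by_cases hi : i = i₀
          · rw [hi]
            exact hk0
          · by_cases hiI : i ∈ I
            · exact (h2 i hiI).le
            · rw [hkP i ((hPm i).2 ⟨hi, hiI⟩)]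
              exact hneg i hi hiI
        rw [h3, mul_zero]
      · have h3 : χ k = 0 := by
          rw [hχ]
          exact if_neg hkP
        rw [h3]
        simp
  choose! C hC h2 using h1
  have hCpos : 0 ≤ ∑ s ∈ Fintype.piFinset (fun _ : Fin n => Finset.Icc 1 (b + 1)), C s :=
    Finset.sum_nonneg fun s hs => (hC s hs).le
  refine ⟨4 ^ n * ∑ s ∈ Fintype.piFinset (fun _ : Fin n => Finset.Icc 1 (b + 1)), C s + 1,
    by positivity, fun S c hc S' hS' hk => ?_⟩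
  have hN4 : ∀ k ∈ A, ∃ j, ∀ l ∈ I, (N j l : ℤ) ≤ k l ∧ k l ≤ b * N j l := fun k hk => (hN3 k hk).1
  choose! j hj using hN4
  have hχ1 : ∀ k ∈ S', χ k = 1 := fun k hkS => by
    rw [hχ]
    exact if_pos fun l hl => (hN3 k (hk k hkS).2).2 l ((hPm l).1 hl).1 ((hPm l).1 hl).2
  have hJ : ∀ k ∈ S', j k < S'.sup j + 1 := fun k hkS =>
    Nat.lt_succ_of_le (Finset.le_sup (f := j) hkS)
  have h3 : ∀ k ∈ S', ‖c k‖ ^ 2 ≤ 4 ^ n *
      ∑ s ∈ Fintype.piFinset (fun _ : Fin n => Finset.Icc 1 (b + 1)),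
        ‖((symI I s N (S'.sup j + 1) k * χ k : ℝ) : ℂ) * c k‖ ^ 2 := by
    intro k hkS
    obtain ⟨s, hs, hs2⟩ := (hE n I b N hAdm (S'.sup j + 1)).2.2 k (j k) (hJ k hkS)
      (fun l hl => hj k (hk k hkS).2 l hl)
    rw [hχ1 k hkS]
    simp only [mul_one]
    have h4 : ‖(symI I s N (S'.sup j + 1) k : ℂ) * c k‖ ^ 2 ≤
        ∑ s ∈ Fintype.piFinset (fun _ : Fin n => Finset.Icc 1 (b + 1)),
        ‖(symI I s N (S'.sup j + 1) k : ℂ) * c k‖ ^ 2 :=
      Finset.single_le_sum (f := fun s => ‖(symI I s N (S'.sup j + 1) k : ℂ) * c k‖ ^ 2)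
        (fun _ _ => by positivity) hs
    refine le_trans ?_ (mul_le_mul_of_nonneg_left h4 (by positivity))
    have h5 : ‖(symI I s N (S'.sup j + 1) k : ℂ) * c k‖ =
        symI I s N (S'.sup j + 1) k * ‖c k‖ := by
      rw [norm_mul, Complex.norm_real, Real.norm_eq_abs, abs_of_nonneg
        (le_trans (by positivity) hs2)]
    rw [h5]
    have h6 : (1 / 2 : ℝ) ^ n * ‖c k‖ ≤ symI I s N (S'.sup j + 1) k * ‖c k‖ :=
      mul_le_mul_of_nonneg_right hs2 (norm_nonneg _)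
    have h7 : ((1 / 2 : ℝ) ^ n * ‖c k‖) ^ 2 ≤ (symI I s N (S'.sup j + 1) k * ‖c k‖) ^ 2 :=
      pow_le_pow_left₀ (by positivity) h6 2
    refine le_trans (le_of_eq ?_) (mul_le_mul_of_nonneg_left h7 (by positivity))
    have h8 : (4 : ℝ) ^ n * ((1 / 2) ^ n) ^ 2 = 1 := by
      rw [← pow_mul, mul_comm n 2, pow_mul, ← mul_pow]
      norm_num
    calc ‖c k‖ ^ 2 = 1 * ‖c k‖ ^ 2 := (one_mul _).symm
      _ = 4 ^ n * ((1 / 2) ^ n) ^ 2 * ‖c k‖ ^ 2 := by rw [h8]
      _ = 4 ^ n * ((1 / 2) ^ n * ‖c k‖) ^ 2 := by ring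
  have h4 : ∀ s ∈ Fintype.piFinset (fun _ : Fin n => Finset.Icc 1 (b + 1)),
      ∑ k ∈ S', ‖((symI I s N (S'.sup j + 1) k * χ k : ℝ) : ℂ) * c k‖ ^ 2 ≤
        C s * (∫ x, ‖tp S c x‖ ∂haar n) ^ 2 := by
    intro s hs
    refine le_trans ?_ (h2 s hs (S'.sup j + 1) S c hc)
    refine Finset.sum_le_sum_of_subset_of_nonneg (fun k hkS => ?_)
      (fun _ _ _ => by positivity)
    rw [Finset.mem_filter]
    exact ⟨hS' hkS, hE0 k (hk k hkS).1 i₀⟩
  calc ∑ k ∈ S', ‖c k‖ ^ 2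
      ≤ ∑ k ∈ S', 4 ^ n * ∑ s ∈ Fintype.piFinset (fun _ : Fin n => Finset.Icc 1 (b + 1)),
        ‖((symI I s N (S'.sup j + 1) k * χ k : ℝ) : ℂ) * c k‖ ^ 2 := Finset.sum_le_sum h3
    _ = 4 ^ n * ∑ s ∈ Fintype.piFinset (fun _ : Fin n => Finset.Icc 1 (b + 1)),
        ∑ k ∈ S', ‖((symI I s N (S'.sup j + 1) k * χ k : ℝ) : ℂ) * c k‖ ^ 2 := by
      rw [← Finset.mul_sum, Finset.sum_comm]
    _ ≤ 4 ^ n * ∑ s ∈ Fintype.piFinset (fun _ : Fin n => Finset.Icc 1 (b + 1)),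
        C s * (∫ x, ‖tp S c x‖ ∂haar n) ^ 2 :=
      mul_le_mul_of_nonneg_left (Finset.sum_le_sum h4) (by positivity)
    _ = (4 ^ n * ∑ s ∈ Fintype.piFinset (fun _ : Fin n => Finset.Icc 1 (b + 1)), C s) *
        (∫ x, ‖tp S c x‖ ∂haar n) ^ 2 := by
      rw [← Finset.sum_mul, mul_assoc]
    _ ≤ _ := mul_le_mul_of_nonneg_right (by linarith) (by positivity)

end

end MP_c03b66_an

end

section

namespace MP_c03b66_an

theorem item_E5I : S_E5I := by
  classical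
  intro n δ R hδ
  obtain ⟨b, hb⟩ := exists_nat_ge (2 / δ)
  have hb' : (2 : ℝ) ≤ b * δ := by
    rwa [div_le_iff₀ hδ] at hb
  refine ⟨Fin n × Finset (Fin n) × (Fin n → Fin (R + 1)), inferInstance,
    fun s => {k | s.1 ∉ s.2.1 ∧
      (∃ j : ℕ, ∀ l ∈ s.2.1, (2 : ℤ) ^ j ≤ k l ∧ k l ≤ b * 2 ^ j) ∧
      ∀ l, l ≠ s.1 → l ∉ s.2.1 → k l = ((s.2.2 l : ℕ) : ℤ)}, ?_, ?_⟩
  · rintro ⟨i₀, I, κ⟩
    refine ⟨i₀, I.erase i₀, b, fun j _ => 2 ^ j, fun l => ((κ l : ℕ) : ℤ), by simp,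
      fun _ => by simp, fun j _ => ?_, ?_⟩
    · show 2 * 2 ^ j ≤ 2 ^ (j + 1)
      rw [pow_succ]
      omega
    · rintro k ⟨hi, ⟨j, hj⟩, hk⟩
      refine ⟨⟨j, fun l hl => ?_⟩, fun l hl hlI => ?_⟩
      · have h := hj l (Finset.mem_of_mem_erase hl)
        push_cast
        exact h
      · exact hk l hl (fun h => hlI (Finset.mem_erase.2 ⟨hl, h⟩))
  · rintro k hk ⟨i₀, h⟩
    let I : Finset (Fin n) := Finset.univ.filter (fun l => l ≠ i₀ ∧ (R : ℤ) < k l)
    have hI : ∀ l, l ∈ I ↔ (l ≠ i₀ ∧ (R : ℤ) < k l) := fun l => by simp [I]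
    have hi0 : i₀ ∉ I := fun h0 => ((hI i₀).1 h0).1 rfl
    let κ : Fin n → Fin (R + 1) := fun l =>
      if hl : k l ≤ (R : ℤ) then ⟨(k l).toNat, by omega⟩ else 0
    have hκ : ∀ l, l ≠ i₀ → l ∉ I → k l = ((κ l : ℕ) : ℤ) := by
      intro l hl hlI
      have h1 : k l ≤ (R : ℤ) := by
        by_contra h2
        exact hlI ((hI l).2 ⟨hl, not_le.1 h2⟩)
      have h2 := hk l
      simp only [κ, h1, dif_pos]
      omega
    refine ⟨(i₀, I, κ), hi0, ?_, hκ⟩
    by_cases hne : I.Nonempty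
    · obtain ⟨m, hm, hmin⟩ := Finset.exists_min_image I k hne
      have hm' := (hI m).1 hm
      obtain ⟨μ, hμ⟩ : ∃ μ : ℕ, (μ : ℤ) = k m := ⟨(k m).toNat, Int.toNat_of_nonneg (hk m)⟩
      have hμ1 : μ ≠ 0 := by
        intro h0
        rw [h0] at hμ
        have h2 := hm'.2
        push_cast at hμ
        omega
      have h1 : 2 ^ Nat.log 2 μ ≤ μ := Nat.pow_log_le_self 2 hμ1
      have h2 : μ < 2 ^ (Nat.log 2 μ + 1) := Nat.lt_pow_succ_log_self (by norm_num) μ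
      refine ⟨Nat.log 2 μ, fun l hl => ⟨?_, ?_⟩⟩
      · have h3 : ((2 : ℤ) ^ Nat.log 2 μ) ≤ (μ : ℤ) := by exact_mod_cast h1
        have h4 := hmin l hl
        omega
      · have hl' := (hI l).1 hl
        have h3 := h m l hm'.1 hl'.1 hm'.2 hl'.2
        have h4 : ((k m : ℤ) : ℝ) ≤ 2 * 2 ^ Nat.log 2 μ := by
          have h5 : (μ : ℝ) < 2 ^ (Nat.log 2 μ + 1) := by exact_mod_cast h2
          rw [← hμ]
          push_cast
          rw [pow_succ] at h5
          linarith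
        have h6 : ((k l : ℤ) : ℝ) ≤ b * 2 ^ Nat.log 2 μ := by
          have h7 : δ * (k l : ℝ) ≤ δ * (b * 2 ^ Nat.log 2 μ) := by
            have h8 : (0 : ℝ) < 2 ^ Nat.log 2 μ := by positivity
            nlinarith
          exact le_of_mul_le_mul_left h7 hδ
        exact_mod_cast h6
    · rw [Finset.not_nonempty_iff_eq_empty] at hne
      refine ⟨0, fun l hl => ?_⟩
      have hl2 : l ∈ I := hl
      rw [hne] at hl2
      simp at hl2

end MP_c03b66_an

end

section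

/-! Item R3I: the operator lemma on the torus, general `I`. -/

open MeasureTheory UnitAddTorus

namespace MP_c03b66_an

noncomputable section

lemma R3I_glue_glue {n q : ℕ} (I : Finset (Fin n)) (t : Fin n → ZMod q)
    (y : {l : Fin n // l ∈ I} → ZMod q) : glueI I (glueI I t y) (fun l => t l.1) = t := by
  funext l
  by_cases h : l ∈ I <;> simp [glueI, h]

lemma R3I_glue_res {n q : ℕ} (I : Finset (Fin n)) (t : Fin n → ZMod q)
    (y : {l : Fin n // l ∈ I} → ZMod q) : (fun l : {l : Fin n // l ∈ I} => glueI I t y l.1) = y := by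
  funext l
  simp [glueI, l.2]

/-- exchange of the `I`-coordinates. -/
def R3I_equiv {n : ℕ} (q : ℕ) (I : Finset (Fin n)) :
    ((Fin n → ZMod q) × ({l : Fin n // l ∈ I} → ZMod q)) ≃
      ((Fin n → ZMod q) × ({l : Fin n // l ∈ I} → ZMod q)) where
  toFun z := (glueI I z.1 z.2, fun l => z.1 l.1)
  invFun z := (glueI I z.1 z.2, fun l => z.1 l.1)
  left_inv z := by
    ext1
    · exact R3I_glue_glue I z.1 z.2
    · exact R3I_glue_res I z.1 z.2
  right_inv z := by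
    ext1
    · exact R3I_glue_glue I z.1 z.2
    · exact R3I_glue_res I z.1 z.2

/-- every grid point is hit `q ^ |I|` times. -/
lemma R3I_sum {n q : ℕ} [NeZero q] (I : Finset (Fin n)) (F : (Fin n → ZMod q) → ℝ) :
    ∑ t : Fin n → ZMod q, ∑ y : {l : Fin n // l ∈ I} → ZMod q, F (glueI I t y) =
      (q : ℝ) ^ Fintype.card {l : Fin n // l ∈ I} * ∑ a, F a := by
  rw [← Fintype.sum_prod_type' (f := fun t y => F (glueI I t y))]
  have h1 : ∑ z : (Fin n → ZMod q) × ({l : Fin n // l ∈ I} → ZMod q), F (glueI I z.1 z.2) =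
      ∑ z : (Fin n → ZMod q) × ({l : Fin n // l ∈ I} → ZMod q), F z.1 :=
    Fintype.sum_equiv (R3I_equiv q I) _ _ fun z => rfl
  rw [h1, Fintype.sum_prod_type]
  simp only [Finset.sum_const, Finset.card_univ, Fintype.card_fun, ZMod.card, nsmul_eq_mul,
    Nat.cast_pow]
  rw [← Finset.mul_sum]

/-- Jensen inequality for the square root -/
lemma R3I_jensen {α : Type} [Fintype α] [Nonempty α] (a : α → ℝ) (ha : ∀ t, 0 ≤ a t) :
    (∑ t, Real.sqrt (a t)) / Fintype.card α ≤ Real.sqrt ((∑ t, a t) / Fintype.card α) := by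
  have hq : (0 : ℝ) < Fintype.card α := Nat.cast_pos.2 Fintype.card_pos
  apply Real.le_sqrt_of_sq_le
  have h := sq_sum_le_card_mul_sum_sq (s := (Finset.univ : Finset α))
    (f := fun t => Real.sqrt (a t))
  have h2 : ∑ t, Real.sqrt (a t) ^ 2 = ∑ t, a t :=
    Finset.sum_congr rfl fun t _ => Real.sq_sqrt (ha t)
  rw [h2, Finset.card_univ] at h
  rw [div_pow, div_le_div_iff₀ (by positivity) hq]
  calc (∑ t, Real.sqrt (a t)) ^ 2 * Fintype.card α ≤
        (Fintype.card α * ∑ t, a t) * Fintype.card α := mul_le_mul_of_nonneg_right h hq.le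
    _ = (∑ t, a t) * (Fintype.card α : ℝ) ^ 2 := by ring

theorem item_R3I (h1 : S_R1) (h2 : S_R2I) (hW : S_W2) : S_R3I := by
  intro n I s hs
  obtain ⟨l₀, hl₀, hs₀⟩ := hs
  obtain ⟨C, hC, hCW⟩ := hW {l : Fin n // l ∈ I} (fun l => s l.1) ⟨⟨l₀, hl₀⟩, hs₀⟩
  refine ⟨C, hC, ?_⟩
  intro N hN J S c
  have hN1 : ∀ j l, 1 ≤ N j l := by
    intro j l
    induction j with
    | zero => exact hN.1 l
    | succ j ih => have := hN.2 j l; omega
  -- the bound `Q`
  obtain ⟨Q, hQ1, hQ2⟩ : ∃ Q : ℕ, (∀ j < J, ∀ l, (s l + 1) * N j l ≤ Q) ∧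
      (∀ k ∈ S, ∀ l, |k l| < (Q : ℤ)) := by
    refine ⟨(∑ j ∈ Finset.range J, ∑ l, (s l + 1) * N j l) +
      ((∑ k ∈ S, ∑ l, (k l).natAbs) + 1), ?_, ?_⟩
    · intro j hj l
      have e1 : (s l + 1) * N j l ≤ ∑ l, (s l + 1) * N j l :=
        Finset.single_le_sum (f := fun l => (s l + 1) * N j l) (fun _ _ => Nat.zero_le _)
          (Finset.mem_univ l)
      have e2 : ∑ l, (s l + 1) * N j l ≤ ∑ j ∈ Finset.range J, ∑ l, (s l + 1) * N j l :=
        Finset.single_le_sum (f := fun j => ∑ l, (s l + 1) * N j l) (fun _ _ => Nat.zero_le _)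
          (Finset.mem_range.2 hj)
      omega
    · intro k hk l
      have e1 : (k l).natAbs ≤ ∑ l, (k l).natAbs :=
        Finset.single_le_sum (f := fun l => (k l).natAbs) (fun _ _ => Nat.zero_le _)
          (Finset.mem_univ l)
      have e2 : ∑ l, (k l).natAbs ≤ ∑ k ∈ S, ∑ l, (k l).natAbs :=
        Finset.single_le_sum (f := fun k : Fin n → ℤ => ∑ l, (k l).natAbs)
          (fun _ _ => Nat.zero_le _) hk
      have e3 : (k l).natAbs < (∑ j ∈ Finset.range J, ∑ l, (s l + 1) * N j l) +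
          ((∑ k ∈ S, ∑ l, (k l).natAbs) + 1) := by omega
      rw [Int.abs_eq_natAbs]
      exact_mod_cast e3
  -- the inequality on the grids
  have key : ∀ K : ℕ, 2 * Q ≤ 2 ^ K →
      (∑ a : Fin n → ZMod (2 ^ K),
        Real.sqrt ‖tp S (fun k => (symI I s N J k : ℂ) * c k) (gp a)‖) / ((2 : ℝ) ^ K) ^ n ≤
      C * Real.sqrt ((∑ a : Fin n → ZMod (2 ^ K), ‖tp S c (gp a)‖) / ((2 : ℝ) ^ K) ^ n) := by
    intro K hK
    have hcast : (((2 : ℕ) ^ K : ℕ) : ℝ) = (2 : ℝ) ^ K := by push_cast; rfl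
    set m := Fintype.card {l : Fin n // l ∈ I} with hm
    have hP : (0 : ℝ) < ((2 : ℝ) ^ K) ^ m := by positivity
    have hq : (0 : ℝ) < ((2 : ℝ) ^ K) ^ n := by positivity
    have hcard : (Fintype.card (Fin n → ZMod (2 ^ K)) : ℝ) = ((2 : ℝ) ^ K) ^ n := by
      rw [Fintype.card_fun, ZMod.card, Fintype.card_fin]
      push_cast
      rfl
    have hsum : ∀ F : (Fin n → ZMod (2 ^ K)) → ℝ, ∑ a, F a =
        ∑ t : Fin n → ZMod (2 ^ K), (∑ y : {l : Fin n // l ∈ I} → ZMod (2 ^ K),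
          F (glueI I t y)) / ((2 : ℝ) ^ K) ^ m := by
      intro F
      rw [← Finset.sum_div, R3I_sum I F, hcast, mul_comm, mul_div_assoc, div_self hP.ne', mul_one]
    rw [hsum (fun a => Real.sqrt ‖tp S (fun k => (symI I s N J k : ℂ) * c k) (gp a)‖),
      hsum (fun a => ‖tp S c (gp a)‖)]
    have ht : ∀ t : Fin n → ZMod (2 ^ K),
        (∑ y : {l : Fin n // l ∈ I} → ZMod (2 ^ K),
          Real.sqrt ‖tp S (fun k => (symI I s N J k : ℂ) * c k) (gp (glueI I t y))‖) /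
            ((2 : ℝ) ^ K) ^ m ≤
        C * Real.sqrt ((∑ y : {l : Fin n // l ∈ I} → ZMod (2 ^ K),
          ‖tp S c (gp (glueI I t y))‖) / ((2 : ℝ) ^ K) ^ m) := by
      intro t
      have hw := hCW (fun j l => N j l.1) ⟨fun l => hN.1 l.1, fun j l => hN.2 j l.1⟩ J K
        (fun j hj l => (Nat.mul_le_mul_left 2 (hQ1 j hj l.1)).trans hK)
        (fun y => tp S c (gp (glueI I t y)))
      have he : ∀ y : {l : Fin n // l ∈ I} → ZMod (2 ^ K),
          tp S (fun k => (symI I s N J k : ℂ) * c k) (gp (glueI I t y)) = _ := fun y =>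
        h2 n I (2 ^ K) Q s N J hK (fun j _ l => hN1 j l) hQ1 S c hQ2 t y
      simp only [he]
      exact hw
    calc (∑ t : Fin n → ZMod (2 ^ K), (∑ y : {l : Fin n // l ∈ I} → ZMod (2 ^ K),
          Real.sqrt ‖tp S (fun k => (symI I s N J k : ℂ) * c k) (gp (glueI I t y))‖) /
            ((2 : ℝ) ^ K) ^ m) / ((2 : ℝ) ^ K) ^ n
        ≤ (∑ t : Fin n → ZMod (2 ^ K), C * Real.sqrt ((∑ y : {l : Fin n // l ∈ I} → ZMod (2 ^ K),
          ‖tp S c (gp (glueI I t y))‖) / ((2 : ℝ) ^ K) ^ m)) / ((2 : ℝ) ^ K) ^ n :=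
          div_le_div_of_nonneg_right (Finset.sum_le_sum fun t _ => ht t) hq.le
      _ = C * ((∑ t : Fin n → ZMod (2 ^ K), Real.sqrt ((∑ y : {l : Fin n // l ∈ I} → ZMod (2 ^ K),
          ‖tp S c (gp (glueI I t y))‖) / ((2 : ℝ) ^ K) ^ m)) / ((2 : ℝ) ^ K) ^ n) := by
          rw [← Finset.mul_sum, mul_div_assoc]
      _ ≤ C * Real.sqrt ((∑ t : Fin n → ZMod (2 ^ K), (∑ y : {l : Fin n // l ∈ I} → ZMod (2 ^ K),
          ‖tp S c (gp (glueI I t y))‖) / ((2 : ℝ) ^ K) ^ m) / ((2 : ℝ) ^ K) ^ n) := by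
          refine mul_le_mul_of_nonneg_left ?_ hC.le
          have hj := R3I_jensen
            (fun t : Fin n → ZMod (2 ^ K) => (∑ y : {l : Fin n // l ∈ I} → ZMod (2 ^ K),
              ‖tp S c (gp (glueI I t y))‖) / ((2 : ℝ) ^ K) ^ m)
            (fun t => div_nonneg (Finset.sum_nonneg fun _ _ => norm_nonneg _) hP.le)
          rw [hcard] at hj
          exact hj
  -- the limit
  have hl1 := h1 n ⟨fun x => Real.sqrt ‖tp S (fun k => (symI I s N J k : ℂ) * c k) x‖,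
    Real.continuous_sqrt.comp ((tp S (fun k => (symI I s N J k : ℂ) * c k)).continuous.norm)⟩
  have hl2 := h1 n ⟨fun x => ‖tp S c x‖, (tp S c).continuous.norm⟩
  have hl3 := ((Real.continuous_sqrt.tendsto _).comp hl2).const_mul C
  refine le_of_tendsto_of_tendsto hl1 hl3 ?_
  obtain ⟨K₀, hK₀⟩ : ∃ K₀ : ℕ, 2 * Q ≤ 2 ^ K₀ :=
    ⟨2 * Q, (Nat.lt_two_pow_self).le⟩
  filter_upwards [Filter.eventually_ge_atTop K₀] with K hK
  exact key K (hK₀.trans (Nat.pow_le_pow_right (by norm_num) hK))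

end

end MP_c03b66_an

end

section

/-! Item R4P: the projection on the frequencies with `k l = κ l` for `l ∈ P` contracts `L¹`
(adapted from helper50's `Item_R4`). -/

open MeasureTheory UnitAddTorus

namespace MP_c03b66_an

noncomputable section

/-- grid points with coordinates `0` outside `P` -/
def R4P_P {n q : ℕ} [NeZero q] (P : Finset (Fin n)) : (Fin n → ZMod q) →+ Tor n where
  toFun a := fun l => if l ∈ P then ZMod.toAddCircle (a l) else 0
  map_zero' := by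
    funext l
    simp
  map_add' a b := by
    funext l
    by_cases h : l ∈ P <;> simp [h]

lemma R4P_P_in {n q : ℕ} [NeZero q] (P : Finset (Fin n)) (a : Fin n → ZMod q) {l : Fin n}
    (h : l ∈ P) : R4P_P P a l = ZMod.toAddCircle (a l) := if_pos h

lemma R4P_P_out {n q : ℕ} [NeZero q] (P : Finset (Fin n)) (a : Fin n → ZMod q) {l : Fin n}
    (h : l ∉ P) : R4P_P P a l = 0 := if_neg h

/-- the character of the grid -/
def R4P_psi {n q : ℕ} [NeZero q] (P : Finset (Fin n)) (m : Fin n → ℤ) :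
    AddChar (Fin n → ZMod q) ℂ where
  toFun a := mFourier m (R4P_P P a)
  map_zero_eq_one' := by
    rw [map_zero]
    simp only [mFourier, ContinuousMap.coe_mk]
    exact Finset.prod_eq_one fun i _ => fourier_eval_zero (m i)
  map_add_eq_mul' a b := by
    rw [map_add, mF_pt_add]

lemma R4P_psi_apply {n q : ℕ} [NeZero q] (P : Finset (Fin n)) (m : Fin n → ℤ)
    (a : Fin n → ZMod q) : R4P_psi P m a = mFourier m (R4P_P P a) := rfl

lemma R4P_factor {n q : ℕ} [NeZero q] (P : Finset (Fin n)) (m : Fin n → ℤ)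
    (a : Fin n → ZMod q) : mFourier m (R4P_P P a) = ∏ l, fourier (m l) (R4P_P P a l) := rfl

lemma R4P_triv {n q : ℕ} [NeZero q] (P : Finset (Fin n)) (m : Fin n → ℤ)
    (h : ∀ l ∈ P, m l = 0) : (R4P_psi P m : AddChar (Fin n → ZMod q) ℂ) = 0 := by
  ext a
  rw [R4P_psi_apply, R4P_factor, AddChar.zero_apply]
  refine Finset.prod_eq_one fun l _ => ?_
  by_cases hl : l ∈ P
  · rw [h l hl, fourier_zero]
  · rw [R4P_P_out P a hl, fourier_eval_zero]

lemma R4P_nontriv {n q : ℕ} [NeZero q] (P : Finset (Fin n)) (m : Fin n → ℤ) {l : Fin n}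
    (hl : l ∈ P) (h0 : m l ≠ 0) (hq : |m l| < q) :
    (R4P_psi P m : AddChar (Fin n → ZMod q) ℂ) ≠ 0 := by
  intro h
  have h1 := DFunLike.congr_fun h (Pi.single l (1 : ZMod q))
  rw [R4P_psi_apply, R4P_factor, AddChar.zero_apply, Finset.prod_eq_single l] at h1
  · have h2 : R4P_P P (Pi.single l (1 : ZMod q)) l = ZMod.toAddCircle (1 : ZMod q) := by
      rw [R4P_P_in P _ hl, Pi.single_eq_same]
    rw [h2, fourier_apply, ← map_zsmul] at h1
    have h3 : (m l • (1 : ZMod q)) = 0 := by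
      apply ZMod.injective_toCircle
      rw [AddChar.map_zero_eq_one]
      exact Subtype.ext h1
    rw [zsmul_one, ZMod.intCast_zmod_eq_zero_iff_dvd] at h3
    exact h0 (Int.eq_zero_of_abs_lt_dvd h3 hq)
  · intro l' _ hl'
    have : R4P_P P (Pi.single l (1 : ZMod q)) l' = 0 := by
      by_cases hp : l' ∈ P
      · rw [R4P_P_in P _ hp, Pi.single_eq_of_ne hl', map_zero]
      · exact R4P_P_out P _ hp
    rw [this, fourier_eval_zero]
  · intro h
    exact absurd (Finset.mem_univ _) h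

/-- the condition `k l = κ l` on `P` -/
def R4P_on {n : ℕ} (P : Finset (Fin n)) (κ k : Fin n → ℤ) : Prop := ∀ l ∈ P, k l = κ l

lemma R4P_orth {n q : ℕ} [NeZero q] (P : Finset (Fin n)) (κ k : Fin n → ℤ)
    (hq : ∀ l, |k l - κ l| < q) [Decidable (R4P_on P κ k)] :
    ∑ a : Fin n → ZMod q, star (mFourier κ (R4P_P P a)) * mFourier k (R4P_P P a) =
      (Fintype.card (Fin n → ZMod q) : ℂ) * (((if R4P_on P κ k then 1 else 0) : ℝ) : ℂ) := by
  classical
  have h1 : ∀ a : Fin n → ZMod q, star (mFourier κ (R4P_P P a)) * mFourier k (R4P_P P a) =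
      R4P_psi P (k - κ) a := by
    intro a
    rw [← mF_neg, mF_add, R4P_psi_apply, neg_add_eq_sub]
  rw [Finset.sum_congr rfl fun a _ => h1 a, AddChar.sum_eq_ite]
  by_cases hc : R4P_on P κ k
  · rw [if_pos (R4P_triv P (k - κ) fun l hl => by
      rw [Pi.sub_apply, hc l hl, sub_self]), if_pos hc, Complex.ofReal_one, mul_one]
  · rw [if_neg hc]
    unfold R4P_on at hc
    push Not at hc
    obtain ⟨l, hl, hkl⟩ := hc
    rw [if_neg (R4P_nontriv P (k - κ) hl (by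
      rw [Pi.sub_apply]
      exact sub_ne_zero.2 hkl) (hq l)), Complex.ofReal_zero, mul_zero]

lemma R4P_avg {n q : ℕ} [NeZero q] (P : Finset (Fin n)) (κ : Fin n → ℤ)
    (S : Finset (Fin n → ℤ)) (c : (Fin n → ℤ) → ℂ) (hq : ∀ k ∈ S, ∀ l, |k l - κ l| < q)
    [DecidablePred (R4P_on P κ)] (x : Tor n) :
    tp S (fun k => (((if R4P_on P κ k then 1 else 0) : ℝ) : ℂ) * c k) x =
      (Fintype.card (Fin n → ZMod q) : ℂ)⁻¹ *
        ∑ a : Fin n → ZMod q, star (mFourier κ (R4P_P P a)) * tp S c (x + R4P_P P a) := by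
  have hN0 : (Fintype.card (Fin n → ZMod q) : ℂ) ≠ 0 := Nat.cast_ne_zero.2 Fintype.card_ne_zero
  have h1 : ∀ a : Fin n → ZMod q, star (mFourier κ (R4P_P P a)) * tp S c (x + R4P_P P a) =
      ∑ k ∈ S, (c k * mFourier k x) *
        (star (mFourier κ (R4P_P P a)) * mFourier k (R4P_P P a)) := by
    intro a
    rw [tp_apply, Finset.mul_sum]
    refine Finset.sum_congr rfl fun k _ => ?_
    rw [mF_pt_add]
    ring
  rw [Finset.sum_congr rfl fun a _ => h1 a, Finset.sum_comm, Finset.mul_sum, tp_apply]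
  refine Finset.sum_congr rfl fun k hk => ?_
  rw [← Finset.mul_sum, R4P_orth P κ k (hq k hk), mul_left_comm, inv_mul_cancel_left₀ hN0]
  ring

lemma R4P_le {n q : ℕ} [NeZero q] (P : Finset (Fin n)) (κ : Fin n → ℤ)
    (S : Finset (Fin n → ℤ)) (c : (Fin n → ℤ) → ℂ) (hq : ∀ k ∈ S, ∀ l, |k l - κ l| < q)
    [DecidablePred (R4P_on P κ)] :
    ∫ x, ‖tp S (fun k => (((if R4P_on P κ k then 1 else 0) : ℝ) : ℂ) * c k) x‖ ∂haar n ≤
      ∫ x, ‖tp S c x‖ ∂haar n := by
  have hN0 : (Fintype.card (Fin n → ZMod q) : ℝ) ≠ 0 := Nat.cast_ne_zero.2 Fintype.card_ne_zero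
  have hle : ∀ x : Tor n,
      ‖tp S (fun k => (((if R4P_on P κ k then 1 else 0) : ℝ) : ℂ) * c k) x‖ ≤
      (Fintype.card (Fin n → ZMod q) : ℝ)⁻¹ *
        ∑ a : Fin n → ZMod q, ‖tp S c (x + R4P_P P a)‖ := by
    intro x
    rw [R4P_avg P κ S c hq x, norm_mul, norm_inv, Complex.norm_natCast]
    refine mul_le_mul_of_nonneg_left ?_ (by positivity)
    refine (norm_sum_le _ _).trans (Finset.sum_le_sum fun a _ => ?_)
    rw [norm_mul, norm_star, norm_mF, one_mul]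
  have hc : ∀ a : Fin n → ZMod q, Continuous fun x : Tor n => ‖tp S c (x + R4P_P P a)‖ :=
    fun a => ((tp S c).continuous.comp (continuous_id.add continuous_const)).norm
  have hi : ∀ a : Fin n → ZMod q,
      ∫ x, ‖tp S c (x + R4P_P P a)‖ ∂haar n = ∫ x, ‖tp S c x‖ ∂haar n :=
    fun a => int_add (fun x => ‖tp S c x‖) (R4P_P P a)
  have hc2 : Continuous fun x : Tor n => (Fintype.card (Fin n → ZMod q) : ℝ)⁻¹ *
      ∑ a : Fin n → ZMod q, ‖tp S c (x + R4P_P P a)‖ :=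
    continuous_const.mul (continuous_finsetSum _ fun a _ => hc a)
  refine (integral_mono (cont_int (ContinuousMap.continuous _).norm) (cont_int hc2) hle).trans ?_
  rw [integral_const_mul, integral_finsetSum _ (fun a _ => cont_int (hc a)),
    Finset.sum_congr rfl fun a _ => hi a, Finset.sum_const, Finset.card_univ, nsmul_eq_mul,
    inv_mul_cancel_left₀ hN0]

lemma R4P_q {n : ℕ} (κ : Fin n → ℤ) (S : Finset (Fin n → ℤ)) :
    ∃ q : ℕ, 0 < q ∧ ∀ k ∈ S, ∀ l, |k l - κ l| < q := by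
  obtain ⟨q, hq⟩ : ∃ q : ℕ, ∀ k ∈ S, ∀ l, (k l - κ l).natAbs ≤ q := by
    obtain ⟨q, hq⟩ := (S.finite_toSet.image fun k => ∑ l, (k l - κ l).natAbs).bddAbove
    refine ⟨q, fun k hk l => le_trans ?_ (hq ⟨k, hk, rfl⟩)⟩
    exact Finset.single_le_sum (f := fun l => (k l - κ l).natAbs) (fun l _ => Nat.zero_le _)
      (Finset.mem_univ l)
  refine ⟨q + 1, Nat.succ_pos q, fun k hk l => ?_⟩
  have h := hq k hk l
  rw [Int.abs_eq_natAbs]
  exact_mod_cast Nat.lt_succ_of_le h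

theorem item_R4P : S_R4P := by
  intro n P κ S c
  obtain ⟨q, hq0, hq⟩ := R4P_q κ S
  have : NeZero q := ⟨hq0.ne'⟩
  let _ : DecidablePred (R4P_on P κ) := fun k =>
    (inferInstance : Decidable (∀ l ∈ P, k l = κ l))
  exact R4P_le P κ S c hq

end

end MP_c03b66_an

end

section

/-! Items T1I and T3: assembly of the second batch (helper50, adapted from helper72). -/

open MeasureTheory UnitAddTorus

namespace MP_c03b66_an

noncomputable section

theorem T1I_DE (hE : S_E2I) (n : ℕ) (E : Set (Fin n → ℤ)) (hEp : ∀ k ∈ E, ∀ i, 0 ≤ k i)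
    (hL : IsLambda2 E) (T : Type) [Fintype T] (A : T → Set (Fin n → ℤ))
    (hA : ∀ s, Tame2 (A s)) (hcov : ∀ k ∈ E, ∃ s, k ∈ A s) :
    ∃ C : ℝ, 0 ≤ C ∧ DE {k : Fin n → ℤ | ∀ i, 0 ≤ k i} E C := by
  classical
  choose C hC0 hC using fun s => hE n E (A s) hEp hL (hA s)
  refine ⟨∑ s, C s, Finset.sum_nonneg fun s _ => (hC0 s).le, ?_⟩
  intro S c hc S' hS' hS'E
  have h1 : ∀ s, ∑ k ∈ S' with k ∈ A s, ‖c k‖ ^ 2 ≤
      C s * (∫ x, ‖tp S c x‖ ∂haar n) ^ 2 := fun s =>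
    hC s S c (fun k hk hk0 hkE => hc k hk hk0 hkE) (S'.filter fun k => k ∈ A s)
      ((Finset.filter_subset _ _).trans hS')
      (fun k hk => ⟨hS'E k (Finset.mem_filter.1 hk).1, (Finset.mem_filter.1 hk).2⟩)
  calc ∑ k ∈ S', ‖c k‖ ^ 2 ≤ ∑ k ∈ S', ∑ s, (if k ∈ A s then ‖c k‖ ^ 2 else 0) := by
        refine Finset.sum_le_sum fun k hk => ?_
        obtain ⟨s, hs⟩ := hcov k (hS'E k hk)
        have h2 : ‖c k‖ ^ 2 = (if k ∈ A s then ‖c k‖ ^ 2 else 0) := by rw [if_pos hs]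
        calc ‖c k‖ ^ 2 = (if k ∈ A s then ‖c k‖ ^ 2 else 0) := h2
          _ ≤ ∑ s, (if k ∈ A s then ‖c k‖ ^ 2 else 0) :=
              Finset.single_le_sum (f := fun s => (if k ∈ A s then ‖c k‖ ^ 2 else (0 : ℝ)))
                (fun s _ => by positivity) (Finset.mem_univ s)
    _ = ∑ s, ∑ k ∈ S' with k ∈ A s, ‖c k‖ ^ 2 := by
        rw [Finset.sum_comm]
        refine Finset.sum_congr rfl fun s _ => ?_
        rw [Finset.sum_filter]
    _ ≤ ∑ s, C s * (∫ x, ‖tp S c x‖ ∂haar n) ^ 2 := Finset.sum_le_sum fun s _ => h1 s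
    _ = (∑ s, C s) * (∫ x, ‖tp S c x‖ ∂haar n) ^ 2 := by rw [Finset.sum_mul]

theorem item_T1I (hE : S_E2I) (hA : S_A4) (hB : S_A5b) : S_T1I := by
  intro n E hEp hL T _ A hT hcov a ha
  obtain ⟨C, hC0, hC⟩ := T1I_DE hE n E hEp hL T A hT hcov
  obtain ⟨f, hf, hfa⟩ := hA n {k : Fin n → ℤ | ∀ i, 0 ≤ k i} E C (fun k hk => hEp k hk) hC0 hC a ha
  exact ⟨f, hB n f hf, hfa⟩

theorem item_T3 (h1 : S_T1I) (h5 : S_E5I) : S_T3 := by
  intro n E hEp hL δ R hδ hc a ha
  obtain ⟨T, _, A, hT, hA⟩ := h5 n δ R hδ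
  exact h1 n E hEp hL T A hT (fun k hk => hA k (hEp k hk) (hc k hk)) a ha

end

end MP_c03b66_an

end

section

open MeasureTheory UnitAddTorus

namespace MP_c03b66_an

noncomputable section

theorem item_E1I_sym_nonneg {n : ℕ} (I : Finset (Fin n)) (s : Fin n → ℕ) (N : ℕ → Fin n → ℕ)
    (J : ℕ) (k : Fin n → ℤ) : 0 ≤ symI I s N J k :=
  Finset.sum_nonneg fun _ _ => Finset.prod_nonneg fun _ _ => item_E1_tri_nonneg _ _ _

theorem item_E1I : S_E1I := by
  classical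
  intro n I b N hN J
  refine ⟨?_, ?_, ?_⟩
  · intro s k hs hne l hl
    obtain ⟨j, _, hj⟩ := Finset.exists_ne_zero_of_sum_ne_zero hne
    have h1 : tri (N j l) (s l) (k l) ≠ 0 := by
      intro h0
      exact hj (Finset.prod_eq_zero hl h0)
    exact item_E1_tri_pos (item_E1_one_le hN j l) (hs l hl) h1
  · exact fun s k => item_E1I_sym_nonneg I s N J k
  · intro k j hj hk
    have hch : ∀ l, ∃ s ∈ Finset.Icc 1 (b + 1), l ∈ I → (1 / 2 : ℝ) ≤ tri (N j l) s (k l) := by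
      intro l
      by_cases hl : l ∈ I
      · obtain ⟨s, hs, h⟩ := item_E1_near (item_E1_one_le hN j l) (hk l hl).1 (hk l hl).2
        exact ⟨s, hs, fun _ => h⟩
      · exact ⟨1, Finset.mem_Icc.2 ⟨le_rfl, by omega⟩, fun h => absurd h hl⟩
    choose s hs hs2 using hch
    refine ⟨s, Fintype.mem_piFinset.2 hs, ?_⟩
    calc (1 / 2 : ℝ) ^ n ≤ (1 / 2 : ℝ) ^ I.card := by
          apply pow_le_pow_of_le_one (by norm_num) (by norm_num)
          calc I.card ≤ (Finset.univ : Finset (Fin n)).card :=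
                Finset.card_le_card (Finset.subset_univ _)
            _ = n := by simp
      _ = ∏ _l ∈ I, (1 / 2 : ℝ) := by rw [Finset.prod_const]
      _ ≤ ∏ l ∈ I, tri (N j l) (s l) (k l) := by
          apply Finset.prod_le_prod
          · intro _ _; norm_num
          · intro l hl; exact hs2 l hl
      _ ≤ symI I s N J k := by
          unfold symI
          exact Finset.single_le_sum (f := fun j => ∏ l ∈ I, tri (N j l) (s l) (k l))
            (fun _ _ => Finset.prod_nonneg fun _ _ => item_E1_tri_nonneg _ _ _)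
            (Finset.mem_range.2 hj)

end

end MP_c03b66_an

end

section

/-! Item R2I: the operator on the torus at grid points is the grid operator, general `I`. -/

open MeasureTheory UnitAddTorus

namespace MP_c03b66_an

noncomputable section

lemma R2I_prod_glue {n q : ℕ} [NeZero q] (I : Finset (Fin n)) (t : Fin n → ZMod q)
    (y : {l : Fin n // l ∈ I} → ZMod q) (k : Fin n → ℤ) :
    mFourier k (gp (glueI I t y)) =
      (∏ l ∈ Iᶜ, (ZMod.stdAddChar ((k l : ZMod q) * t l) : ℂ)) *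
      ∏ l : {l : Fin n // l ∈ I}, (ZMod.stdAddChar ((k l.1 : ZMod q) * y l) : ℂ) := by
  rw [R2_mF_gp, ← Finset.prod_mul_prod_compl I, mul_comm]
  congr 1
  · refine Finset.prod_congr rfl fun l hl => ?_
    have hl' : l ∉ I := Finset.mem_compl.1 hl
    simp [glueI, hl']
  · rw [Finset.prod_subtype I (p := fun l => l ∈ I) (fun x => Iff.rfl)]
    refine Finset.prod_congr rfl fun l _ => ?_
    simp [glueI, l.2]

lemma R2I_sym {n : ℕ} (I : Finset (Fin n)) (s : Fin n → ℕ) (N : ℕ → Fin n → ℕ) (J : ℕ)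
    (k : Fin n → ℤ) : symI I s N J k =
      ∑ j ∈ Finset.range J, ∏ l : {l : Fin n // l ∈ I}, tri (N j l.1) (s l.1) (k l.1) := by
  unfold symI
  refine Finset.sum_congr rfl fun j _ => ?_
  exact Finset.prod_subtype I (fun x => Iff.rfl) (fun l => tri (N j l) (s l) (k l))

theorem item_R2I (hW : S_W3) : S_R2I := by
  intro n I q _ Q s N J hQq hN hQ S c hS t x
  have h1 : (fun y : {l : Fin n // l ∈ I} → ZMod q => tp S c (gp (glueI I t y))) =
      fun y => ∑ k ∈ S, (c k * ∏ l ∈ Iᶜ, (ZMod.stdAddChar ((k l : ZMod q) * t l) : ℂ)) *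
        ∏ l : {l : Fin n // l ∈ I}, (ZMod.stdAddChar ((k l.1 : ZMod q) * y l) : ℂ) := by
    funext y
    rw [R2_tp]
    refine Finset.sum_congr rfl fun k _ => ?_
    rw [R2I_prod_glue]
    ring
  rw [h1, R2_cv_sum (Finset.range J) S
    (fun j => Mp (fun l : {l : Fin n // l ∈ I} => s l.1) (fun l => N j l.1))
    (fun k y => ∏ l : {l : Fin n // l ∈ I}, (ZMod.stdAddChar ((k l.1 : ZMod q) * y l) : ℂ)), R2_tp]
  refine Finset.sum_congr rfl fun k hk => ?_
  have h2 : ∑ j ∈ Finset.range J, cv (Mp (fun l : {l : Fin n // l ∈ I} => s l.1) (fun l => N j l.1))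
      (fun y => ∏ l : {l : Fin n // l ∈ I}, (ZMod.stdAddChar ((k l.1 : ZMod q) * y l) : ℂ)) x =
      (symI I s N J k : ℂ) *
        ∏ l : {l : Fin n // l ∈ I}, (ZMod.stdAddChar ((k l.1 : ZMod q) * x l) : ℂ) := by
    rw [R2I_sym, Complex.ofReal_sum, Finset.sum_mul]
    refine Finset.sum_congr rfl fun j hj => ?_
    have hj' := Finset.mem_range.1 hj
    exact hW {l : Fin n // l ∈ I} q Q (fun l => s l.1) (fun l => N j l.1) hQq
      (fun l => hN j hj' l.1) (fun l => hQ j hj' l.1) (fun l => k l.1) (fun l => hS k hk l.1) x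
  rw [h2, R2I_prod_glue]
  ring

end

end MP_c03b66_an

end
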