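import Pool.Agent.Work.MP_c03b66_an.Defs

/-! Bundle of small proof modules (one section per former module). -/

section

/-! Statements of the items (as `Prop`s). -/

open MeasureTheory UnitAddTorus

namespace MP_c03b66_an

noncomputable section

/-! ### B: the conjugate function in one coordinate on trigonometric polynomials -/

/-- `E₀` is a contraction of `L⁴`. -/
def S_B1 : Prop := ∀ (n : ℕ) (i₀ : Fin n) (f₀ g : C(Tor n, ℂ)),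
  f₀ ∈ H {k : Fin n → ℤ | k i₀ = 0} → g ∈ H {k : Fin n → ℤ | k i₀ ≠ 0} →
  ∫ x, ‖f₀ x‖ ^ 4 ∂haar n ≤ ∫ x, ‖f₀ x + g x‖ ^ 4 ∂haar n

/-- `∫ |h|⁴ ≤ 74 ∫ (Re h)⁴` for `h` with spectrum in `k i₀ > 0`. -/
def S_B2 : Prop := ∀ (n : ℕ) (i₀ : Fin n) (h : C(Tor n, ℂ)),
  h ∈ H {k : Fin n → ℤ | 0 < k i₀} →
  ∫ x, ‖h x‖ ^ 4 ∂haar n ≤ 74 * ∫ x, (h x).re ^ 4 ∂haar n

/-- decomposition of a real trigonometric polynomial. -/
def S_B3a : Prop := ∀ (n : ℕ) (i₀ : Fin n) (f : C(Tor n, ℂ)),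
  f ∈ H (Set.univ : Set (Fin n → ℤ)) → (∀ x, (f x).im = 0) →
  ∃ f₀ ∈ H {k : Fin n → ℤ | k i₀ = 0}, ∃ h ∈ H {k : Fin n → ℤ | 0 < k i₀},
    (∀ x, (f₀ x).im = 0) ∧ f = f₀ + h + star h

/-- `L⁴` bound for `f₀ + 2h` by `f₀ + h + conj h`. -/
def S_B3b : Prop := ∀ (n : ℕ) (i₀ : Fin n) (f₀ h : C(Tor n, ℂ)),
  f₀ ∈ H {k : Fin n → ℤ | k i₀ = 0} → h ∈ H {k : Fin n → ℤ | 0 < k i₀} →
  (∀ x, (f₀ x).im = 0) →
  ∫ x, ‖f₀ x + 2 * h x‖ ^ 4 ∂haar n ≤ 9480 * ∫ x, ‖f₀ x + h x + star (h x)‖ ^ 4 ∂haar n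

/-- Riesz projection on `L⁴`. -/
def S_B4 : Prop := ∀ (n : ℕ) (i₀ : Fin n), ∃ C : ℝ, 0 < C ∧ ∀ (f r : C(Tor n, ℂ)),
  f ∈ H {k : Fin n → ℤ | 0 ≤ k i₀} → r ∈ H {k : Fin n → ℤ | k i₀ < 0} →
  ∫ x, ‖f x‖ ^ 4 ∂haar n ≤ C * ∫ x, ‖f x + r x‖ ^ 4 ∂haar n

/-- Riesz projection on `L^{4/3}`. -/
def S_B5 : Prop := ∀ (n : ℕ) (i₀ : Fin n), ∃ C : ℝ, 0 < C ∧ ∀ (f r : C(Tor n, ℂ)),
  f ∈ H {k : Fin n → ℤ | 0 ≤ k i₀} → r ∈ H {k : Fin n → ℤ | k i₀ < 0} →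
  ∫ x, ‖f x‖ ^ ((4 : ℝ) / 3) ∂haar n ≤ C * ∫ x, ‖f x + r x‖ ^ ((4 : ℝ) / 3) ∂haar n

/-! ### D: main inequality -/

/-- approximation from above by real trigonometric polynomials. -/
def S_D1 : Prop := ∀ (n : ℕ) (v : C(Tor n, ℝ)) (δ : ℝ), 0 < δ →
  ∃ f ∈ H (Set.univ : Set (Fin n → ℤ)), (∀ x, (f x).im = 0) ∧
    ∀ x, v x ≤ (f x).re ∧ (f x).re ≤ v x + δ

/-- the exponential multiplier step. -/
def S_D2 : Prop := ∀ (n : ℕ) (i₀ : Fin n), ∃ C : ℝ, 0 < C ∧ ∀ (p r W : C(Tor n, ℂ)),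
  p ∈ H {k : Fin n → ℤ | 0 ≤ k i₀} → r ∈ H {k : Fin n → ℤ | k i₀ < 0} →
  W ∈ H {k : Fin n → ℤ | 0 ≤ k i₀} →
  ∫ x, ‖p x‖ ^ ((4 : ℝ) / 3) ∂haar n ≤
    C * (∫ x, ‖Complex.exp (-(star (W x))) * (p x + r x)‖ ^ ((4 : ℝ) / 3) ∂haar n +
      ∫ x, ‖(1 - Complex.exp (-(star (W x)))) * p x‖ ^ ((4 : ℝ) / 3) ∂haar n)

/-- main inequality. -/
def S_D3 : Prop := ∀ (n : ℕ) (i₀ : Fin n) (E : Set (Fin n → ℤ)), IsLambda2 E →
  ∀ CT : ℝ, ∃ C : ℝ, 0 < C ∧ ∀ m : (Fin n → ℤ) → ℝ,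
    (∀ (S : Finset (Fin n → ℤ)) (c : (Fin n → ℤ) → ℂ),
      ∫ x, Real.sqrt ‖tp S (fun k => (m k : ℂ) * c k) x‖ ∂haar n ≤
        CT * Real.sqrt (∫ x, ‖tp S c x‖ ∂haar n)) →
    ∀ (S : Finset (Fin n → ℤ)) (c : (Fin n → ℤ) → ℂ),
      (∀ k ∈ S, 0 ≤ k i₀ → k ∉ E → (m k : ℂ) * c k = 0) →
      ∑ k ∈ S with 0 ≤ k i₀, ‖(m k : ℂ) * c k‖ ^ 2 ≤ C * (∫ x, ‖tp S c x‖ ∂haar n) ^ 2

/-! ### C: the operator lemma -/

/-- abstract Calderón–Zygmund theorem on a finite group. -/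
def S_C1 : Prop := ∀ (X : Type) [Fintype X] [DecidableEq X] [AddCommGroup X] (L : ℕ)
  (cl dl : ℕ → X → Finset X) (M : X → ℂ) (A B D : ℝ),
  0 ≤ A → 0 ≤ B → 0 ≤ D →
  (∀ m ≤ L, ∀ x, x ∈ cl m x) →
  (∀ m ≤ L, ∀ x, ∀ y ∈ cl m x, cl m y = cl m x ∧ dl m y = dl m x) →
  (∀ x, cl 0 x = Finset.univ) → (∀ x, cl L x = {x}) →
  (∀ m < L, ∀ x, cl (m + 1) x ⊆ cl m x) →
  (∀ m < L, ∀ x, (cl m x).card ≤ 2 * (cl (m + 1) x).card) →
  (∀ m ≤ L, ∀ x, ((dl m x).card : ℝ) ≤ D * (cl m x).card) →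
  (∀ g : X → ℂ, ∑ x, ‖cv M g x‖ ^ 2 ≤ A * ∑ x, ‖g x‖ ^ 2) →
  (∀ m ≤ L, ∀ x, ∀ y ∈ cl m x, ∀ z ∈ cl m x,
    ∑ u ∈ (dl m x)ᶜ, ‖M (u - y) - M (u - z)‖ ≤ B * Fintype.card X) →
  ∀ (h : X → ℂ) (t : ℝ), 0 < t →
    t * ((Finset.univ.filter fun x => t < ‖cv M h x‖).card : ℝ) ≤
      (1 + 8 * A + 2 * B + D) * ∑ x, ‖h x‖

/-- from weak type `(1,1)` to an `L^{1/2}` bound. -/
def S_C2 : Prop := ∀ (X : Type) [Fintype X] (F : X → ℝ) (c : ℝ), (∀ x, 0 ≤ F x) → 0 ≤ c →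
  (∀ t : ℝ, 0 < t →
    t * ((Finset.univ.filter fun x => t < F x).card : ℝ) ≤ c * Fintype.card X) →
  ∑ x, Real.sqrt (F x) ≤ 6 * Real.sqrt c * Fintype.card X

/-- `Σ_x |M_k| = q`. -/
def S_K1 : Prop := ∀ (q : ℕ) [NeZero q] (s N : ℕ), 1 ≤ N → N ≤ q →
  ∑ x : ZMod q, ‖Mk s N x‖ = q

/-- tail of the Fejér kernel. -/
def S_K2 : Prop := ∀ (q : ℕ) [NeZero q] (s N w : ℕ), 1 ≤ N → 1 ≤ w →
  ∑ x : ZMod q with w ≤ gd x, ‖Mk s N x‖ ≤ (q : ℝ) ^ 2 / (N * w)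

/-- smoothness of the kernel. -/
def S_K3 : Prop := ∀ (q : ℕ) [NeZero q] (s N : ℕ) (y z : ZMod q), 1 ≤ N → N ≤ q →
  ∑ x : ZMod q, ‖Mk s N (x - y) - Mk s N (x - z)‖ ≤ 13 * (s + 1) * N * gd (y - z)

/-- Fourier expansion of the kernel. -/
def S_K4 : Prop := ∀ (q : ℕ) [NeZero q] (s N Q : ℕ), 1 ≤ N → (s + 1) * N ≤ Q →
  ∀ x : ZMod q, Mk s N x = ∑ k ∈ Finset.Ioo (-(Q : ℤ)) Q,
    (tri N s k : ℂ) * ZMod.stdAddChar ((k : ZMod q) * x)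

/-- product kernels: norm. -/
def S_P1 : Prop := ∀ (ι : Type) [Fintype ι] [DecidableEq ι] (q : ℕ) [NeZero q] (s N : ι → ℕ),
  (∀ l, 1 ≤ N l) → (∀ l, N l ≤ q) →
  ∑ x : ι → ZMod q, ‖Mp s N x‖ = (q : ℝ) ^ Fintype.card ι

/-- product kernels: tails. -/
def S_P2 : Prop := ∀ (ι : Type) [Fintype ι] [DecidableEq ι] (q : ℕ) [NeZero q]
  (s N w : ι → ℕ), (∀ l, 1 ≤ N l) → (∀ l, N l ≤ q) → (∀ l, 1 ≤ w l) →
  ∑ x : ι → ZMod q with (∃ l, w l ≤ gd (x l)), ‖Mp s N x‖ ≤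
    (q : ℝ) ^ Fintype.card ι * ∑ l, (q : ℝ) / (N l * w l)

/-- product kernels: smoothness. -/
def S_P3 : Prop := ∀ (ι : Type) [Fintype ι] [DecidableEq ι] (q : ℕ) [NeZero q]
  (s N : ι → ℕ) (y z : ι → ZMod q), (∀ l, 1 ≤ N l) → (∀ l, N l ≤ q) →
  ∑ x : ι → ZMod q, ‖Mp s N (x - y) - Mp s N (x - z)‖ ≤
    (q : ℝ) ^ Fintype.card ι * ∑ l, 13 * (s l + 1) * N l * (gd (y l - z l) / q : ℝ)

/-- the symbols sum up to at most 3. -/
def S_L1 : Prop := ∀ (ι : Type) [Fintype ι] (s : ι → ℕ) (N : ℕ → ι → ℕ), Adm N →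
  (∃ l, 1 ≤ s l) → ∀ (J : ℕ) (k : ι → ℤ),
  ∑ j ∈ Finset.range J, ∏ l, tri (N j l) (s l) (k l) ≤ 3

/-- `L²` bound for kernels given by a bounded symbol. -/
def S_L2 : Prop := ∀ (ι : Type) [Fintype ι] [DecidableEq ι] (q : ℕ) [NeZero q] (Q : ℕ)
  (m : (ι → ℤ) → ℝ) (A : ℝ), 2 * Q ≤ q → (∀ k, |m k| ≤ A) → ∀ g : (ι → ZMod q) → ℂ,
  ∑ x, ‖cv (fun u : ι → ZMod q => ∑ k ∈ Fintype.piFinset fun _ : ι => Finset.Ioo (-(Q : ℤ)) Q,
    (m k : ℂ) * ∏ l, ZMod.stdAddChar ((k l : ZMod q) * u l)) g x‖ ^ 2 ≤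
    A ^ 2 * ∑ x, ‖g x‖ ^ 2

/-- chain of shapes. -/
def S_G1 : Prop := ∀ (ι : Type) [Fintype ι] [DecidableEq ι] (J K : ℕ) (E : ℕ → ι → ℕ),
  (∀ j l, E j l ≤ E (j + 1) l) → (∀ j < J, ∀ l, E j l ≤ K) →
  ∃ (L : ℕ) (e : ℕ → ι → ℕ), (∀ l, e 0 l = 0) ∧ (∀ l, e L l = K) ∧
    (∀ m < L, ∃ l, e (m + 1) = Function.update (e m) l (e m l + 1)) ∧
    (∀ m ≤ L, ∀ l, e m l ≤ K) ∧
    (∀ m ≤ L, ∀ j < J, (∀ l, e m l ≤ E j l) ∨ (∀ l, E j l ≤ e m l))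

/-- properties of the cells. -/
def S_G2 : Prop := ∀ (ι : Type) [Fintype ι] [DecidableEq ι] (K : ℕ) (e : ι → ℕ),
  (∀ l, e l ≤ K) →
  (∀ x, x ∈ cell K e x) ∧
  (∀ x, ∀ y ∈ cell K e x, cell K e y = cell K e x ∧ dil K e y = dil K e x) ∧
  (∀ x, (cell K e x).card = ∏ l, 2 ^ (K - e l)) ∧
  (∀ x, (dil K e x).card ≤ 3 ^ Fintype.card ι * (cell K e x).card) ∧
  (∀ x, ∀ y ∈ cell K e x, ∀ z ∈ cell K e x, ∀ l, gd (y l - z l) < 2 ^ (K - e l)) ∧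
  (∀ x, ∀ u ∉ dil K e x, ∃ l, ∀ y ∈ cell K e x, 2 ^ (K - e l) ≤ gd (u l - y l)) ∧
  (∀ x, (∀ l, e l = 0) → cell K e x = Finset.univ) ∧
  (∀ x, (∀ l, e l = K) → cell K e x = {x}) ∧
  (∀ x, ∀ l, e l < K → cell K (Function.update e l (e l + 1)) x ⊆ cell K e x)

/-- Hörmander condition: one term, coarse scale. -/
def S_Q1 : Prop := ∀ (ι : Type) [Fintype ι] [DecidableEq ι] (K : ℕ) (e : ι → ℕ)
  (s N : ι → ℕ), (∀ l, e l ≤ K) → (∀ l, 1 ≤ N l) → (∀ l, N l ≤ 2 ^ K) →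
  ∀ x, ∀ y ∈ cell K e x, ∀ z ∈ cell K e x,
  ∑ u ∈ (dil K e x)ᶜ, ‖Mp s N (u - y) - Mp s N (u - z)‖ ≤
    (2 ^ K : ℝ) ^ Fintype.card ι * ∑ l, 13 * (s l + 1) * ((N l : ℝ) / 2 ^ e l)

/-- Hörmander condition: one term, fine scale. -/
def S_Q2 : Prop := ∀ (ι : Type) [Fintype ι] [DecidableEq ι] (K : ℕ) (e : ι → ℕ)
  (s N : ι → ℕ), (∀ l, e l ≤ K) → (∀ l, 1 ≤ N l) → (∀ l, N l ≤ 2 ^ K) →
  ∀ x, ∀ y ∈ cell K e x, ∀ z ∈ cell K e x,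
  ∑ u ∈ (dil K e x)ᶜ, ‖Mp s N (u - y) - Mp s N (u - z)‖ ≤
    (2 ^ K : ℝ) ^ Fintype.card ι * (2 * ∑ l, (2 : ℝ) ^ e l / N l)

/-- Hörmander condition: geometric sums. -/
def S_Q3 : Prop := ∀ (ι : Type) [Fintype ι] [DecidableEq ι] (s : ι → ℕ) (N : ℕ → ι → ℕ),
  Adm N → ∀ (J : ℕ) (e : ι → ℕ),
  (∀ j < J, (∀ l, e l ≤ Nat.log 2 (N j l)) ∨ (∀ l, Nat.log 2 (N j l) ≤ e l)) →
  ∑ j ∈ Finset.range J, min (∑ l, 13 * (s l + 1) * ((N j l : ℝ) / 2 ^ e l))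
    (2 * ∑ l, (2 : ℝ) ^ e l / N j l) ≤ ∑ l, 56 * ((s l : ℝ) + 1)

/-- weak type on the grid. -/
def S_W1 : Prop := ∀ (ι : Type) [Fintype ι] [DecidableEq ι] (s : ι → ℕ), (∃ l, 1 ≤ s l) →
  ∃ C : ℝ, 0 < C ∧ ∀ (N : ℕ → ι → ℕ), Adm N → ∀ (J K : ℕ),
    (∀ j < J, ∀ l, 2 * ((s l + 1) * N j l) ≤ 2 ^ K) →
    ∀ (h : (ι → ZMod (2 ^ K)) → ℂ) (t : ℝ), 0 < t →
    t * ((Finset.univ.filter fun x =>
      t < ‖cv (fun u => ∑ j ∈ Finset.range J, Mp s (N j) u) h x‖).card : ℝ) ≤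
      C * ∑ x, ‖h x‖

/-- `L^{1/2}` bound on the grid. -/
def S_W2 : Prop := ∀ (ι : Type) [Fintype ι] [DecidableEq ι] (s : ι → ℕ), (∃ l, 1 ≤ s l) →
  ∃ C : ℝ, 0 < C ∧ ∀ (N : ℕ → ι → ℕ), Adm N → ∀ (J K : ℕ),
    (∀ j < J, ∀ l, 2 * ((s l + 1) * N j l) ≤ 2 ^ K) →
    ∀ (h : (ι → ZMod (2 ^ K)) → ℂ),
    (∑ x, Real.sqrt ‖cv (fun u => ∑ j ∈ Finset.range J, Mp s (N j) u) h x‖) /
        ((2 : ℝ) ^ K) ^ Fintype.card ι ≤
      C * Real.sqrt ((∑ x, ‖h x‖) / ((2 : ℝ) ^ K) ^ Fintype.card ι)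

/-- the grid operator acts on characters by the symbol. -/
def S_W3 : Prop := ∀ (ι : Type) [Fintype ι] [DecidableEq ι] (q : ℕ) [NeZero q] (Q : ℕ)
  (s N : ι → ℕ), 2 * Q ≤ q → (∀ l, 1 ≤ N l) → (∀ l, (s l + 1) * N l ≤ Q) →
  ∀ (k : ι → ℤ), (∀ l, |k l| < Q) → ∀ x : ι → ZMod q,
  cv (Mp s N) (fun y => ∏ l, (ZMod.stdAddChar ((k l : ZMod q) * y l) : ℂ)) x =
    ((∏ l, tri (N l) (s l) (k l) : ℝ) : ℂ) * ∏ l, (ZMod.stdAddChar ((k l : ZMod q) * x l) : ℂ)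

/-- averages over grids converge to the integral. -/
def S_R1 : Prop := ∀ (n : ℕ) (f : C(Tor n, ℝ)), Filter.Tendsto
  (fun K : ℕ => (∑ a : Fin n → ZMod (2 ^ K), f (gp a)) / ((2 : ℝ) ^ K) ^ n)
  Filter.atTop (nhds (∫ x, f x ∂haar n))

/-- the operator on the torus at grid points is the grid operator in the variables `≠ i₀`. -/
def S_R2 : Prop := ∀ (n : ℕ) (i₀ : Fin n) (q : ℕ) [NeZero q] (Q : ℕ) (s : Fin n → ℕ)
  (N : ℕ → Fin n → ℕ) (J : ℕ), 2 * Q ≤ q → (∀ j < J, ∀ l, 1 ≤ N j l) →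
  (∀ j < J, ∀ l, (s l + 1) * N j l ≤ Q) →
  ∀ (S : Finset (Fin n → ℤ)) (c : (Fin n → ℤ) → ℂ), (∀ k ∈ S, ∀ l, |k l| < Q) →
  ∀ (t : ZMod q) (x : {l : Fin n // l ≠ i₀} → ZMod q),
  tp S (fun k => (sym i₀ s N J k : ℂ) * c k) (gp (glue i₀ t x)) =
    cv (fun u : {l : Fin n // l ≠ i₀} → ZMod q => ∑ j ∈ Finset.range J,
      Mp (fun l : {l : Fin n // l ≠ i₀} => s l.1) (fun l => N j l.1) u)
      (fun y => tp S c (gp (glue i₀ t y))) x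

/-- the operator lemma on the torus. -/
def S_R3 : Prop := ∀ (n : ℕ) (i₀ : Fin n) (s : Fin n → ℕ), (∃ l, l ≠ i₀ ∧ 1 ≤ s l) →
  ∃ C : ℝ, 0 < C ∧ ∀ (N : ℕ → Fin n → ℕ), Adm N → ∀ (J : ℕ) (S : Finset (Fin n → ℤ))
    (c : (Fin n → ℤ) → ℂ),
    ∫ x, Real.sqrt ‖tp S (fun k => (sym i₀ s N J k : ℂ) * c k) x‖ ∂haar n ≤
      C * Real.sqrt (∫ x, ‖tp S c x‖ ∂haar n)

/-- the projection on a line of frequencies parallel to the `i₀`-axis contracts `L¹`. -/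
def S_R4 : Prop := ∀ (n : ℕ) (i₀ : Fin n) (κ : Fin n → ℤ) (S : Finset (Fin n → ℤ))
  (c : (Fin n → ℤ) → ℂ),
  ∫ x, ‖tp S (fun k => (((if ∀ l, l ≠ i₀ → k l = κ l then 1 else 0) : ℝ) : ℂ) * c k) x‖
    ∂haar n ≤ ∫ x, ‖tp S c x‖ ∂haar n

/-! ### A: functional analysis -/

/-- Fejér smoothing of a bounded functional on `C(T^n)`. -/
def S_A1 : Prop := ∀ (n : ℕ) (L : C(Tor n, ℂ) →L[ℂ] ℂ) (m : ℕ), 1 ≤ m →
  ∫ x, ‖tp (Fintype.piFinset fun _ : Fin n => Finset.Ioo (-(m : ℤ)) m)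
    (fun k => ((∏ i, (1 - |(k i : ℝ)| / m) : ℝ) : ℂ) *
      star (L (mFourier k))) x‖ ∂haar n ≤ ‖L‖

/-- The dual estimate. -/
def DE {n : ℕ} (Sg E : Set (Fin n → ℤ)) (C : ℝ) : Prop :=
  ∀ (S : Finset (Fin n → ℤ)) (c : (Fin n → ℤ) → ℂ), (∀ k ∈ S, k ∈ Sg → k ∉ E → c k = 0) →
    ∀ S' ⊆ S, (∀ k ∈ S', k ∈ E) → ∑ k ∈ S', ‖c k‖ ^ 2 ≤ C * (∫ x, ‖tp S c x‖ ∂haar n) ^ 2

/-- lower bound for the adjoint on finitely supported families. -/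
def S_A2 : Prop := ∀ (n : ℕ) (Sg E : Set (Fin n → ℤ)) (C : ℝ), E ⊆ Sg → 0 ≤ C → DE Sg E C →
  ∀ (B : Finset (Fin n → ℤ)) (b : (Fin n → ℤ) → ℂ) (M : ℝ), (∀ k ∈ B, k ∈ E) → 0 ≤ M →
  (∀ f ∈ H Sg, ‖∑ k ∈ B, fc f k * star (b k)‖ ≤ M * ‖f‖) →
  ∑ k ∈ B, ‖b k‖ ^ 2 ≤ C * M ^ 2

/-- approximate solutions. -/
def S_A3 : Prop := ∀ (n : ℕ) (Sg E : Set (Fin n → ℤ)) (C : ℝ), E ⊆ Sg → 0 ≤ C → DE Sg E C →
  ∀ (a : E → ℂ), Summable (fun k => ‖a k‖ ^ 2) →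
  ∃ f ∈ H Sg, ‖f‖ ≤ Real.sqrt (C + 1) * Real.sqrt (∑' k, ‖a k‖ ^ 2) ∧
    Summable (fun k : E => ‖a k - fc f k‖ ^ 2) ∧
    ∑' k : E, ‖a k - fc f k‖ ^ 2 ≤ (1 / 4) * ∑' k, ‖a k‖ ^ 2

/-- exact solutions. -/
def S_A4 : Prop := ∀ (n : ℕ) (Sg E : Set (Fin n → ℤ)) (C : ℝ), E ⊆ Sg → 0 ≤ C → DE Sg E C →
  ∀ (a : E → ℂ), Summable (fun k => ‖a k‖ ^ 2) →
  ∃ f : C(Tor n, ℂ), f ∈ (H Sg).topologicalClosure ∧ ∀ k : E, fc f k = a k

/-- maximum principle for polynomials on the polydisc. -/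
def S_A5a : Prop := ∀ (n : ℕ) (S : Finset (Fin n → ℤ)) (c : (Fin n → ℤ) → ℂ)
  (z : Fin n → ℂ), (∀ k ∈ S, ∀ i, 0 ≤ k i) → (∀ i, ‖z i‖ ≤ 1) →
  ‖∑ k ∈ S, c k * ∏ i, z i ^ (k i).toNat‖ ≤ ‖tp S c‖

/-- uniform limits of analytic polynomials are in the polydisc algebra. -/
def S_A5b : Prop := ∀ (n : ℕ) (f : C(Tor n, ℂ)),
  f ∈ (H {k : Fin n → ℤ | ∀ i, 0 ≤ k i}).topologicalClosure → InPolydiscAlgebra f

/-! ### E: assembly -/

/-- lower bound and support of the symbols, comparable frequencies. -/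
def S_E1 : Prop := ∀ (n : ℕ) (i₀ : Fin n) (b : ℕ) (N : ℕ → Fin n → ℕ), Adm N → ∀ J : ℕ,
  (∀ (s : Fin n → ℕ) (k : Fin n → ℤ), (∀ l, l ≠ i₀ → 1 ≤ s l) → sym i₀ s N J k ≠ 0 →
    ∀ l, l ≠ i₀ → 0 < k l) ∧
  (∀ (s : Fin n → ℕ) (k : Fin n → ℤ), 0 ≤ sym i₀ s N J k) ∧
  (∀ (k : Fin n → ℤ) (j : ℕ), j < J →
    (∀ l, l ≠ i₀ → (N j l : ℤ) ≤ k l ∧ k l ≤ b * N j l) →
    ∃ s ∈ Fintype.piFinset fun _ : Fin n => Finset.Icc 1 (b + 1),
      (1 / 2 : ℝ) ^ n ≤ sym i₀ s N J k)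

/-- dual estimate for a tame piece. -/
def S_E2 : Prop := ∀ (n : ℕ) (E A : Set (Fin n → ℤ)), (∀ k ∈ E, ∀ i, 0 ≤ k i) →
  IsLambda2 E → Tame A → ∃ C : ℝ, 0 < C ∧ ∀ (S : Finset (Fin n → ℤ)) (c : (Fin n → ℤ) → ℂ),
    (∀ k ∈ S, (∀ i, 0 ≤ k i) → k ∉ E → c k = 0) →
    ∀ S' ⊆ S, (∀ k ∈ S', k ∈ E ∧ k ∈ A) →
      ∑ k ∈ S', ‖c k‖ ^ 2 ≤ C * (∫ x, ‖tp S c x‖ ∂haar n) ^ 2

/-- Theorem 1: `Λ₂`-sets covered by finitely many tame sets. -/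
def S_T1 : Prop := ∀ (n : ℕ) (E : Set (Fin n → ℤ)), (∀ k ∈ E, ∀ i, 0 ≤ k i) →
  IsLambda2 E → ∀ (t : ℕ) (A : Fin t → Set (Fin n → ℤ)), (∀ s, Tame (A s)) →
  (∀ k ∈ E, ∃ s, k ∈ A s) → ∀ a : E → ℂ, Summable (fun k => ‖a k‖ ^ 2) →
  ∃ f : C(Tor n, ℂ), InPolydiscAlgebra f ∧ ∀ k : E, fc f k = a k

/-- lower bound and support of the symbols, cones. -/
def S_E3 : Prop := ∀ (n : ℕ) (i₀ : Fin n) (m J : ℕ), 1 ≤ m →
  (∀ (s : Fin n → ℕ) (k : Fin n → ℤ), (∃ l, l ≠ i₀ ∧ 2 ^ m ≤ s l) →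
    sym i₀ s (fun j _ => 2 ^ j) J k ≠ 0 →
    ∃ l', l' ≠ i₀ ∧ 0 < k l' ∧ ∀ l, l ≠ i₀ → -(k l' : ℝ) ≤ (2 ^ m - 1) * k l) ∧
  (∀ (k : Fin n → ℤ), (∀ l, l ≠ i₀ → 0 ≤ k l ∧ k l < 2 ^ (m + J)) →
    (∃ l, l ≠ i₀ ∧ 2 ^ m ≤ k l) →
    ∃ s ∈ Fintype.piFinset fun _ : Fin n => Finset.range (2 ^ (m + 1) + 1),
      (∃ l, l ≠ i₀ ∧ 2 ^ m ≤ s l) ∧
      (1 / 2 : ℝ) ^ n ≤ sym i₀ s (fun j _ => 2 ^ j) J k)

/-- Theorem 2: every `Λ₂`-set in the orthant, spectrum in a slightly larger cone. -/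
def S_T2 : Prop := ∀ (n : ℕ) (E : Set (Fin n → ℤ)), (∀ k ∈ E, ∀ i, 0 ≤ k i) →
  IsLambda2 E → ∀ (i₀ : Fin n) (ε : ℝ), 0 < ε → ∀ a : E → ℂ, Summable (fun k => ‖a k‖ ^ 2) →
  ∃ f : C(Tor n, ℂ), (∀ k : E, fc f k = a k) ∧ ∀ k : Fin n → ℤ, fc f k ≠ 0 →
    0 ≤ k i₀ ∧ ∀ l, l ≠ i₀ → 0 ≤ k l ∨ ∃ m, m ≠ i₀ ∧ -(k l : ℝ) ≤ ε * k m

/-- cones in the open orthant (in the coordinates `≠ i₀`) are finite unions of tame sets. -/
def S_E5 : Prop := ∀ (n : ℕ) (i₀ : Fin n) (δ : ℝ), 0 < δ →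
  ∃ A : Fin 2 → Set (Fin n → ℤ), (∀ s, Tame (A s)) ∧
    ∀ k : Fin n → ℤ, (∀ i, 0 ≤ k i) →
      (∀ l m, l ≠ i₀ → m ≠ i₀ → δ * k m ≤ k l) → ∃ s, k ∈ A s

end

end MP_c03b66_an

end

section

/-! Basic facts about integrals and trigonometric polynomials on the torus. -/

open MeasureTheory UnitAddTorus

namespace MP_c03b66_an

noncomputable section

local instance instMS : MeasureSpace UnitAddCircle := ⟨AddCircle.haarAddCircle⟩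

local instance : Measure.IsAddHaarMeasure (volume : Measure UnitAddCircle) :=
  inferInstanceAs (Measure.IsAddHaarMeasure AddCircle.haarAddCircle)

local instance : IsProbabilityMeasure (volume : Measure UnitAddCircle) :=
  inferInstanceAs (IsProbabilityMeasure AddCircle.haarAddCircle)

lemma haar_eq (n : ℕ) : haar n = (volume : Measure (UnitAddTorus (Fin n))) := rfl

instance (n : ℕ) : (haar n).IsAddHaarMeasure := by
  rw [haar_eq]; infer_instance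

/-- continuous functions are integrable -/
lemma cont_int {n : ℕ} {F : Type*} [NormedAddCommGroup F] {f : Tor n → F}
    (hf : Continuous f) : Integrable f (haar n) :=
  hf.integrable_of_hasCompactSupport (HasCompactSupport.of_compactSpace f)

/-- translation invariance -/
lemma int_add {n : ℕ} {F : Type*} [NormedAddCommGroup F] [NormedSpace ℝ F] (f : Tor n → F)
    (a : Tor n) : ∫ x, f (x + a) ∂haar n = ∫ x, f x ∂haar n :=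
  integral_add_right_eq_self f a

lemma int_mF {n : ℕ} (k : Fin n → ℤ) :
    ∫ x, mFourier k x ∂haar n = if k = 0 then 1 else 0 := by
  have h := orthonormal_iff_ite.mp (orthonormal_mFourier (d := Fin n)) 0 k
  rw [ContinuousMap.inner_toLp] at h
  rw [haar_eq]
  have h2 : (∫ x : UnitAddTorus (Fin n), mFourier k x) =
      ∫ x : UnitAddTorus (Fin n), mFourier k x * (starRingEnd ℂ) (mFourier 0 x) := by
    congr 1; ext x; simp [mFourier_zero]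
  rw [h2]
  rw [h]
  by_cases hk : k = 0
  · simp [hk]
  · simp [hk, Ne.symm hk]

lemma mF_add {n : ℕ} (k l : Fin n → ℤ) (x : Tor n) :
    mFourier k x * mFourier l x = mFourier (k + l) x := mFourier_add.symm

lemma mF_neg {n : ℕ} (k : Fin n → ℤ) (x : Tor n) :
    mFourier (-k) x = star (mFourier k x) := mFourier_neg

lemma norm_mF {n : ℕ} (k : Fin n → ℤ) (x : Tor n) : ‖mFourier k x‖ = 1 := by
  simp only [mFourier, ContinuousMap.coe_mk, fourier_apply, norm_prod, Circle.norm_coe,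
    Finset.prod_const_one]

/-- character property in the point variable -/
lemma mF_pt_add {n : ℕ} (k : Fin n → ℤ) (x y : Tor n) :
    mFourier k (x + y) = mFourier k x * mFourier k y := by
  simp only [mFourier, ContinuousMap.coe_mk, ← Finset.prod_mul_distrib]
  refine Finset.prod_congr rfl fun i _ => ?_
  simp [fourier_apply, AddCircle.toCircle_add]

lemma fc_eq {n : ℕ} (f : Tor n → ℂ) (k : Fin n → ℤ) : fc f k = ∫ x, mFourier (-k) x * f x ∂haar n := rfl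

/-- `fc` is Mathlib's `mFourierCoeff`. -/
lemma fc_eq_mFourierCoeff {n : ℕ} (f : Tor n → ℂ) (k : Fin n → ℤ) : fc f k = mFourierCoeff f k := rfl

lemma fc_mF {n : ℕ} (k l : Fin n → ℤ) : fc (mFourier k : C(Tor n, ℂ)) l = if k = l then 1 else 0 := by
  have : fc (mFourier k : C(Tor n, ℂ)) l = ∫ x, mFourier (-l + k) x ∂haar n := by
    unfold fc
    congr 1; ext x; rw [mF_add]
  rw [this, int_mF]
  by_cases h : k = l
  · simp [h]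
  · have : ¬ (-l + k = 0) := by
      intro h2; apply h; rw [neg_add_eq_zero] at h2; exact h2.symm
    simp [h, this]

lemma fc_add {n : ℕ} {f g : Tor n → ℂ} (hf : Continuous f) (hg : Continuous g) (k : Fin n → ℤ) :
    fc (fun x => f x + g x) k = fc f k + fc g k := by
  unfold fc
  rw [← integral_add (cont_int (by fun_prop)) (cont_int (by fun_prop))]
  congr 1; ext x; ring

lemma fc_smul {n : ℕ} (a : ℂ) (f : Tor n → ℂ) (k : Fin n → ℤ) :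
    fc (fun x => a * f x) k = a * fc f k := by
  unfold fc
  rw [← integral_const_mul]
  congr 1; ext x; ring

/-- the Fourier coefficient as a linear map on `C(T^n)` -/
def fcL {n : ℕ} (k : Fin n → ℤ) : C(Tor n, ℂ) →ₗ[ℂ] ℂ where
  toFun f := fc f k
  map_add' f g := fc_add f.continuous g.continuous k
  map_smul' a f := fc_smul a f k

@[simp] lemma fcL_apply {n : ℕ} (k : Fin n → ℤ) (f : C(Tor n, ℂ)) : fcL k f = fc f k := rfl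

lemma int_le_norm {n : ℕ} (f : C(Tor n, ℂ)) : ∫ x, ‖f x‖ ∂haar n ≤ ‖f‖ := by
  calc ∫ x, ‖f x‖ ∂haar n ≤ ∫ _x, ‖f‖ ∂haar n :=
        integral_mono (cont_int (by fun_prop)) (integrable_const _) fun x => f.norm_coe_le_norm x
    _ = ‖f‖ := by simp

lemma norm_fc_le_int {n : ℕ} (f : Tor n → ℂ) (k : Fin n → ℤ) :
    ‖fc f k‖ ≤ ∫ x, ‖f x‖ ∂haar n := by
  unfold fc
  refine (norm_integral_le_integral_norm _).trans (le_of_eq ?_)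
  congr 1; ext x; rw [norm_mul, norm_mF, one_mul]

lemma norm_fc_le {n : ℕ} (f : C(Tor n, ℂ)) (k : Fin n → ℤ) : ‖fc f k‖ ≤ ‖f‖ :=
  (norm_fc_le_int f k).trans (int_le_norm f)

lemma tp_apply {n : ℕ} (S : Finset (Fin n → ℤ)) (c : (Fin n → ℤ) → ℂ) (x : Tor n) :
    tp S c x = ∑ k ∈ S, c k * mFourier k x := by
  simp [tp]

lemma fc_tp {n : ℕ} (S : Finset (Fin n → ℤ)) (c : (Fin n → ℤ) → ℂ) (k : Fin n → ℤ) :
    fc (tp S c) k = if k ∈ S then c k else 0 := by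
  rw [← fcL_apply, tp, map_sum]
  simp only [map_smul, fcL_apply, fc_mF, smul_eq_mul, mul_ite, mul_one, mul_zero]
  rw [Finset.sum_ite_eq' ]

/-- Parseval for trigonometric polynomials -/
lemma parseval_tp {n : ℕ} (S : Finset (Fin n → ℤ)) (c : (Fin n → ℤ) → ℂ) :
    ∫ x, ‖tp S c x‖ ^ 2 ∂haar n = ∑ k ∈ S, ‖c k‖ ^ 2 := by
  have h : ∫ x, (tp S c x) * star (tp S c x) ∂haar n = ∑ k ∈ S, ((‖c k‖ ^ 2 : ℝ) : ℂ) := by
    have h1 : ∀ x, (tp S c x) * star (tp S c x) =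
        ∑ k ∈ S, star (c k) * (mFourier (-k) x * tp S c x) := by
      intro x
      conv_lhs => rw [mul_comm]
      rw [tp_apply S c x, star_sum, Finset.sum_mul]
      refine Finset.sum_congr rfl fun k _ => ?_
      rw [star_mul, mF_neg]; ring
    simp_rw [h1]
    rw [integral_finsetSum _ (fun k _ => cont_int (by fun_prop))]
    refine Finset.sum_congr rfl fun k hk => ?_
    rw [integral_const_mul]
    have := fc_tp S c k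
    rw [fc_eq, if_pos hk] at this
    rw [this]
    have h3 := Complex.mul_conj (c k)
    rw [Complex.normSq_eq_norm_sq] at h3
    rw [mul_comm]; simpa using h3
  have h2 : ∀ x, (tp S c x) * star (tp S c x) = ((‖tp S c x‖ ^ 2 : ℝ) : ℂ) := by
    intro x
    have h3 := Complex.mul_conj (tp S c x)
    rw [Complex.normSq_eq_norm_sq] at h3
    simpa using h3
  simp_rw [h2] at h
  rw [← Complex.ofReal_sum] at h
  have h5 : ∫ x, ((‖tp S c x‖ ^ 2 : ℝ) : ℂ) ∂haar n =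
      ((∫ x, ‖tp S c x‖ ^ 2 ∂haar n : ℝ) : ℂ) := integral_ofReal
  rw [h5] at h
  exact_mod_cast h

lemma smul0 {n : ℕ} (f : C(Tor n, ℂ)) : (0 : ℂ) • f = 0 := by ext x; simp

lemma tp_mem {n : ℕ} (S : Finset (Fin n → ℤ)) (c : (Fin n → ℤ) → ℂ) (A : Set (Fin n → ℤ))
    (h : ∀ k ∈ S, k ∈ A ∨ c k = 0) : tp S c ∈ H A := by
  unfold tp H
  refine Submodule.sum_mem _ fun k hk => ?_
  rcases h k hk with h1 | h1
  · exact Submodule.smul_mem _ _ (Submodule.subset_span ⟨k, h1, rfl⟩)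
  · rw [h1, smul0]
    exact Submodule.zero_mem _

lemma mF_mem {n : ℕ} {k : Fin n → ℤ} {A : Set (Fin n → ℤ)} (h : k ∈ A) :
    (mFourier k : C(Tor n, ℂ)) ∈ H A := Submodule.subset_span ⟨k, h, rfl⟩

lemma H_mono {n : ℕ} {A B : Set (Fin n → ℤ)} (h : A ⊆ B) : H A ≤ H B :=
  Submodule.span_mono (Set.image_mono h)

lemma mem_H_iff {n : ℕ} {A : Set (Fin n → ℤ)} {f : C(Tor n, ℂ)} :
    f ∈ H A ↔ ∃ (S : Finset (Fin n → ℤ)) (c : (Fin n → ℤ) → ℂ), (∀ k ∈ S, k ∈ A) ∧ f = tp S c := by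
  classical
  constructor
  · intro hf
    induction hf using Submodule.span_induction with
    | mem x hx =>
      obtain ⟨k, hk, rfl⟩ := hx
      exact ⟨{k}, fun _ => 1, by simpa using hk, by simp [tp]⟩
    | zero => exact ⟨∅, fun _ => 0, by simp, by simp [tp]⟩
    | add x y hx hy ihx ihy =>
      obtain ⟨S, c, hS, rfl⟩ := ihx
      obtain ⟨T, d, hT, rfl⟩ := ihy
      refine ⟨S ∪ T, fun k => (if k ∈ S then c k else 0) + (if k ∈ T then d k else 0), ?_, ?_⟩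
      · intro k hk
        rcases Finset.mem_union.1 hk with h | h
        · exact hS k h
        · exact hT k h
      · have h1 : ∀ k, (((if k ∈ S then c k else 0) + (if k ∈ T then d k else 0)) •
            (mFourier k : C(Tor n, ℂ))) = (if k ∈ S then c k else 0) • (mFourier k : C(Tor n, ℂ)) +
            (if k ∈ T then d k else 0) • (mFourier k : C(Tor n, ℂ)) := fun k => by
          ext x
          simp only [ContinuousMap.smul_apply, ContinuousMap.add_apply, smul_eq_mul]; ring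
        unfold tp
        rw [Finset.sum_congr rfl (fun k _ => h1 k), Finset.sum_add_distrib]
        congr 1
        · rw [← Finset.sum_subset (Finset.subset_union_left (s₁ := S) (s₂ := T))]
          · exact Finset.sum_congr rfl fun k hk => by simp [hk]
          · intro k _ hk; rw [if_neg hk, smul0]
        · rw [← Finset.sum_subset (Finset.subset_union_right (s₁ := S) (s₂ := T))]
          · exact Finset.sum_congr rfl fun k hk => by simp [hk]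
          · intro k _ hk; rw [if_neg hk, smul0]
    | smul a x hx ih =>
      obtain ⟨S, c, hS, rfl⟩ := ih
      refine ⟨S, fun k => a * c k, hS, ?_⟩
      unfold tp
      rw [Finset.smul_sum]
      exact Finset.sum_congr rfl fun k _ => by rw [smul_smul]
  · rintro ⟨S, c, hS, rfl⟩
    exact tp_mem S c A fun k hk => Or.inl (hS k hk)

/-- products -/
lemma H_mul {n : ℕ} {A B D : Set (Fin n → ℤ)} (h : ∀ a ∈ A, ∀ b ∈ B, a + b ∈ D)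
    {f g : C(Tor n, ℂ)} (hf : f ∈ H A) (hg : g ∈ H B) : f * g ∈ H D := by
  induction hf using Submodule.span_induction with
  | mem x hx =>
    obtain ⟨k, hk, rfl⟩ := hx
    induction hg using Submodule.span_induction with
    | mem y hy =>
      obtain ⟨l, hl, rfl⟩ := hy
      have : (mFourier k : C(Tor n, ℂ)) * mFourier l = mFourier (k + l) := by
        ext x; exact mF_add k l x
      simp only [this]
      exact mF_mem (h k hk l hl)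
    | zero => simp
    | add y z _ _ hy hz => rw [mul_add]; exact Submodule.add_mem _ hy hz
    | smul a y _ hy => rw [mul_smul_comm]; exact Submodule.smul_mem _ _ hy
  | zero => simp
  | add y z _ _ hy hz => rw [add_mul]; exact Submodule.add_mem _ hy hz
  | smul a y _ hy => rw [smul_mul_assoc]; exact Submodule.smul_mem _ _ hy

/-- conjugation -/
lemma H_star {n : ℕ} {A B : Set (Fin n → ℤ)} (h : ∀ a ∈ A, -a ∈ B)
    {f : C(Tor n, ℂ)} (hf : f ∈ H A) : star f ∈ H B := by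
  induction hf using Submodule.span_induction with
  | mem x hx =>
    obtain ⟨k, hk, rfl⟩ := hx
    have : star (mFourier k : C(Tor n, ℂ)) = mFourier (-k) := by
      ext x; exact (mF_neg k x).symm
    simp only [this]
    exact mF_mem (h k hk)
  | zero => simp
  | add y z _ _ hy hz => rw [star_add]; exact Submodule.add_mem _ hy hz
  | smul a y _ hy => rw [star_smul]; exact Submodule.smul_mem _ _ hy

lemma one_mem_H {n : ℕ} {A : Set (Fin n → ℤ)} (h : 0 ∈ A) : (1 : C(Tor n, ℂ)) ∈ H A := by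
  rw [← mFourier_zero]; exact mF_mem h

lemma fc_of_mem_H {n : ℕ} {A : Set (Fin n → ℤ)} {f : C(Tor n, ℂ)} (hf : f ∈ H A)
    {k : Fin n → ℤ} (hk : k ∉ A) : fc f k = 0 := by
  obtain ⟨S, c, hS, rfl⟩ := mem_H_iff.1 hf
  rw [fc_tp, if_neg]
  intro h; exact hk (hS k h)

lemma int_of_mem_H {n : ℕ} {A : Set (Fin n → ℤ)} {f : C(Tor n, ℂ)} (hf : f ∈ H A)
    (h0 : (0 : Fin n → ℤ) ∉ A) : ∫ x, f x ∂haar n = 0 := by
  have h := fc_of_mem_H hf h0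
  unfold fc at h
  simpa [mFourier_zero] using h

/-- a trigonometric polynomial is determined by its Fourier coefficients -/
lemma eq_zero_of_fc {n : ℕ} {f : C(Tor n, ℂ)} (hf : f ∈ H (Set.univ : Set (Fin n → ℤ)))
    (h : ∀ k, fc f k = 0) : f = 0 := by
  obtain ⟨S, c, hS, rfl⟩ := mem_H_iff.1 hf
  unfold tp
  refine Finset.sum_eq_zero fun k hk => ?_
  have := h k
  rw [fc_tp, if_pos hk] at this
  rw [this, smul0]

lemma H_disjoint {n : ℕ} {A B : Set (Fin n → ℤ)} (h : ∀ k, k ∈ A → k ∉ B)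
    {f : C(Tor n, ℂ)} (hA : f ∈ H A) (hB : f ∈ H B) : f = 0 := by
  refine eq_zero_of_fc (H_mono (Set.subset_univ _) hA) fun k => ?_
  by_cases hk : k ∈ A
  · exact fc_of_mem_H hB (h k hk)
  · exact fc_of_mem_H hA hk

/-- splitting of the spectrum -/
lemma H_split {n : ℕ} {D A B : Set (Fin n → ℤ)} (h : ∀ k ∈ D, k ∈ A ∨ k ∈ B)
    {f : C(Tor n, ℂ)} (hf : f ∈ H D) : ∃ f₁ ∈ H A, ∃ f₂ ∈ H B, f = f₁ + f₂ := by
  induction hf using Submodule.span_induction with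
  | mem x hx =>
    obtain ⟨k, hk, rfl⟩ := hx
    rcases h k hk with h1 | h1
    · exact ⟨_, mF_mem h1, 0, Submodule.zero_mem _, by simp⟩
    · exact ⟨0, Submodule.zero_mem _, _, mF_mem h1, by simp⟩
  | zero => exact ⟨0, Submodule.zero_mem _, 0, Submodule.zero_mem _, by simp⟩
  | add y z _ _ hy hz =>
    obtain ⟨a, ha, b, hb, rfl⟩ := hy
    obtain ⟨a', ha', b', hb', rfl⟩ := hz
    exact ⟨a + a', Submodule.add_mem _ ha ha', b + b', Submodule.add_mem _ hb hb', by abel⟩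
  | smul t y _ hy =>
    obtain ⟨a, ha, b, hb, rfl⟩ := hy
    exact ⟨t • a, Submodule.smul_mem _ _ ha, t • b, Submodule.smul_mem _ _ hb, by rw [smul_add]⟩

/-- density of trigonometric polynomials -/
lemma H_dense {n : ℕ} (f : C(Tor n, ℂ)) {ε : ℝ} (hε : 0 < ε) :
    ∃ g ∈ H (Set.univ : Set (Fin n → ℤ)), ∀ x, ‖f x - g x‖ ≤ ε := by
  have h := span_mFourier_closure_eq_top (d := Fin n)
  have hf : f ∈ (Submodule.span ℂ (Set.range (mFourier (d := Fin n)))).topologicalClosure := by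
    rw [h]; trivial
  have hf' : f ∈ closure ((Submodule.span ℂ (Set.range (mFourier (d := Fin n))) :
      Submodule ℂ C(Tor n, ℂ)) : Set C(Tor n, ℂ)) := hf
  obtain ⟨g, hg, hfg⟩ := Metric.mem_closure_iff.1 hf' ε hε
  refine ⟨g, ?_, fun x => ?_⟩
  · unfold H; rw [Set.image_univ]; exact hg
  · have h1 := (f - g).norm_coe_le_norm x
    rw [dist_eq_norm] at hfg
    exact (by simpa using h1 : ‖f x - g x‖ ≤ ‖f - g‖).trans hfg.le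

/-- Bessel's inequality for continuous functions -/
lemma bessel {n : ℕ} (f : C(Tor n, ℂ)) (S : Finset (Fin n → ℤ)) :
    ∑ k ∈ S, ‖fc f k‖ ^ 2 ≤ ∫ x, ‖f x‖ ^ 2 ∂haar n := by
  have h := hasSum_sq_mFourierCoeff (ContinuousMap.toLp (E := ℂ) 2 (volume : Measure (UnitAddTorus (Fin n))) ℂ f)
  have h2 := sum_le_hasSum S (fun k _ => by positivity) h
  refine le_trans (le_of_eq ?_) (h2.trans (le_of_eq ?_))
  · refine Finset.sum_congr rfl fun k _ => ?_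
    rw [mFourierCoeff_toLp, fc_eq_mFourierCoeff]
  · rw [haar_eq]
    refine integral_congr_ae ?_
    filter_upwards [ContinuousMap.coeFn_toLp (E := ℂ) (p := 2) (𝕜 := ℂ) (volume : Measure (UnitAddTorus (Fin n))) f] with x hx
    rw [hx]

lemma bessel_norm {n : ℕ} (f : C(Tor n, ℂ)) (S : Finset (Fin n → ℤ)) :
    ∑ k ∈ S, ‖fc f k‖ ^ 2 ≤ ‖f‖ ^ 2 := by
  refine (bessel f S).trans ?_
  calc ∫ x, ‖f x‖ ^ 2 ∂haar n ≤ ∫ _x, ‖f‖ ^ 2 ∂haar n :=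
        integral_mono (cont_int (by fun_prop)) (integrable_const _)
          fun x => pow_le_pow_left₀ (norm_nonneg _) (f.norm_coe_le_norm x) 2
    _ = ‖f‖ ^ 2 := by simp

/-- real part / imaginary part of a trigonometric polynomial -/
lemma H_re_im {n : ℕ} {f : C(Tor n, ℂ)} (hf : f ∈ H (Set.univ : Set (Fin n → ℤ))) :
    ∃ a ∈ H (Set.univ : Set (Fin n → ℤ)), ∃ b ∈ H (Set.univ : Set (Fin n → ℤ)),
      (∀ x, a x = ((f x).re : ℂ)) ∧ (∀ x, b x = ((f x).im : ℂ)) ∧ f = a + Complex.I • b := by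
  have hs : star f ∈ H (Set.univ : Set (Fin n → ℤ)) := H_star (fun _ _ => Set.mem_univ _) hf
  refine ⟨(1 / 2 : ℂ) • (f + star f), Submodule.smul_mem _ _ (Submodule.add_mem _ hf hs),
    (-Complex.I / 2 : ℂ) • (f - star f), Submodule.smul_mem _ _ (Submodule.sub_mem _ hf hs), ?_, ?_, ?_⟩
  · intro x
    apply Complex.ext <;> simp
    ring
  · intro x
    apply Complex.ext <;> simp
    ring
  · ext x
    simp only [ContinuousMap.add_apply, ContinuousMap.smul_apply, ContinuousMap.star_apply,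
      ContinuousMap.sub_apply, smul_eq_mul]
    linear_combination (1/2 : ℂ) * (f x - star (f x)) * Complex.I_sq

end

end MP_c03b66_an

end
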