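import Pool.Agent.Work.MP_c03b66_an.FP.Arith

/-! Bundle of small proof modules (one section per former module). -/

section

/-! Words in the letters `u_l`, independence, the Fejér kernels `g_l = κ(u_l)`. -/

open MeasureTheory UnitAddTorus

namespace MP_c03b66_an

noncomputable section

/-- integral as a linear functional -/
def intL (n : ℕ) : C(Tor n, ℂ) →ₗ[ℂ] ℂ where
  toFun f := ∫ x, f x ∂haar n
  map_add' f g := by
    rw [← integral_add (cont_int f.continuous) (cont_int g.continuous)]; rfl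
  map_smul' a f := by
    simp only [ContinuousMap.smul_apply, RingHom.id_apply]
    exact integral_smul a _

lemma intL_apply {n : ℕ} (f : C(Tor n, ℂ)) : intL n f = ∫ x, f x ∂haar n := rfl

lemma intL_mF {n : ℕ} (k : Fin n → ℤ) :
    intL n (mFourier k : C(Tor n, ℂ)) = if k = 0 then 1 else 0 := int_mF k

lemma intL_of_mem {n : ℕ} {A : Set (Fin n → ℤ)} {f : C(Tor n, ℂ)} (hf : f ∈ H A)
    (h0 : (0 : Fin n → ℤ) ∉ A) : intL n f = 0 := int_of_mem_H hf h0

lemma mF_mul {n : ℕ} (k l : Fin n → ℤ) :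
    (mFourier k : C(Tor n, ℂ)) * mFourier l = mFourier (k + l) := by
  ext x; exact mF_add k l x

lemma mF_star {n : ℕ} (k : Fin n → ℤ) : star (mFourier k : C(Tor n, ℂ)) = mFourier (-k) := by
  ext x; exact (mF_neg k x).symm

/-- frequencies of words in the letters `u_l`, `l ∈ A`, with exponents at most `D`. -/
def U (n L B : ℕ) (A : Finset ℕ) (D : ℕ) : Set (Fin n → ℤ) :=
  {ν | ∃ m : ℕ → ℤ, (∀ l, |m l| ≤ D) ∧ (∀ l, l ∉ A → m l = 0) ∧
    ν = ∑ l ∈ Finset.range L, m l • eta n L B l}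

lemma sum_smul_add {n L B : ℕ} (m m' : ℕ → ℤ) :
    ∑ l ∈ Finset.range L, m l • eta n L B l + ∑ l ∈ Finset.range L, m' l • eta n L B l =
      ∑ l ∈ Finset.range L, (m l + m' l) • eta n L B l := by
  rw [← Finset.sum_add_distrib]
  exact Finset.sum_congr rfl fun l _ => by rw [add_smul]

lemma U_mono {n L B : ℕ} {A A' : Finset ℕ} {D D' : ℕ} (hA : A ⊆ A') (hD : D ≤ D') :
    U n L B A D ⊆ U n L B A' D' := by
  rintro ν ⟨m, h1, h2, rfl⟩
  exact ⟨m, fun l => (h1 l).trans (by exact_mod_cast hD), fun l hl => h2 l (fun h => hl (hA h)), rfl⟩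

lemma U_zero {n L B : ℕ} (A : Finset ℕ) (D : ℕ) : (0 : Fin n → ℤ) ∈ U n L B A D :=
  ⟨fun _ => 0, fun l => by simp, fun _ _ => rfl, by simp⟩

lemma U_add {n L B : ℕ} {A A' : Finset ℕ} {D D' : ℕ} {a b : Fin n → ℤ}
    (ha : a ∈ U n L B A D) (hb : b ∈ U n L B A' D') : a + b ∈ U n L B (A ∪ A') (D + D') := by
  obtain ⟨m, h1, h2, rfl⟩ := ha
  obtain ⟨m', h1', h2', rfl⟩ := hb
  refine ⟨fun l => m l + m' l, fun l => ?_, fun l hl => ?_, sum_smul_add m m'⟩
  · refine (abs_add_le _ _).trans ?_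
    push_cast
    exact add_le_add (h1 l) (h1' l)
  · simp only [Finset.mem_union, not_or] at hl
    simp [h2 l hl.1, h2' l hl.2]

lemma U_add_disj {n L B : ℕ} {A A' : Finset ℕ} {D : ℕ} (hd : Disjoint A A') {a b : Fin n → ℤ}
    (ha : a ∈ U n L B A D) (hb : b ∈ U n L B A' D) : a + b ∈ U n L B (A ∪ A') D := by
  obtain ⟨m, h1, h2, rfl⟩ := ha
  obtain ⟨m', h1', h2', rfl⟩ := hb
  refine ⟨fun l => m l + m' l, fun l => ?_, fun l hl => ?_, sum_smul_add m m'⟩
  · by_cases h : l ∈ A
    · have : l ∉ A' := Finset.disjoint_left.1 hd h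
      simp [h2' l this, h1 l]
    · simp [h2 l h, h1' l]
  · simp only [Finset.mem_union, not_or] at hl
    simp [h2 l hl.1, h2' l hl.2]

lemma U_neg {n L B : ℕ} {A : Finset ℕ} {D : ℕ} {a : Fin n → ℤ}
    (ha : a ∈ U n L B A D) : -a ∈ U n L B A D := by
  obtain ⟨m, h1, h2, rfl⟩ := ha
  refine ⟨fun l => - m l, fun l => by rw [abs_neg]; exact h1 l, fun l hl => by simp [h2 l hl], ?_⟩
  rw [← Finset.sum_neg_distrib]
  exact Finset.sum_congr rfl fun l _ => by rw [neg_smul]

lemma U_pow {n L B : ℕ} {A : Finset ℕ} {D : ℕ} {f : C(Tor n, ℂ)} (hf : f ∈ H (U n L B A D))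
    (j : ℕ) : f ^ j ∈ H (U n L B A (j * D)) := by
  induction j with
  | zero => rw [pow_zero]; exact one_mem_H (U_zero _ _)
  | succ j ih =>
    rw [pow_succ]
    refine H_mul (fun a ha b hb => ?_) ih hf
    have := U_add ha hb
    rw [Finset.union_self] at this
    rwa [Nat.succ_mul]

lemma U_star {n L B : ℕ} {A : Finset ℕ} {D : ℕ} {f : C(Tor n, ℂ)} (hf : f ∈ H (U n L B A D)) :
    star f ∈ H (U n L B A D) := H_star (fun _ ha => U_neg ha) hf

/-- words in `u` of small degree are determined by their frequencies. -/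
lemma U_eq_zero {n L B D : ℕ} (hn : 4 ≤ n) (hB : D + 3 ≤ B) (m : ℕ → ℤ) (hm : ∀ l < L, |m l| ≤ D)
    (h : ∑ l ∈ Finset.range L, m l • eta n L B l = 0) : ∀ l < L, m l = 0 := by
  intro l hl
  refine (word_zero hn hB (fun _ => 0) m (fun l _ => by simp) hm ?_ l hl).2
  simpa using h

/-- independence of functions of disjoint sets of letters `u_l`. -/
lemma indep {n L B D : ℕ} (hn : 4 ≤ n) (hB : D + 3 ≤ B) {A A' : Finset ℕ} (hd : Disjoint A A')
    {f h : C(Tor n, ℂ)} (hf : f ∈ H (U n L B A D)) (hh : h ∈ H (U n L B A' D)) :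
    intL n (f * h) = intL n f * intL n h := by
  induction hf using Submodule.span_induction with
  | mem x hx =>
    obtain ⟨k, hk, rfl⟩ := hx
    induction hh using Submodule.span_induction with
    | mem y hy =>
      obtain ⟨l, hl, rfl⟩ := hy
      simp only [mF_mul, intL_mF]
      obtain ⟨m, h1, h2, rfl⟩ := hk
      obtain ⟨m', h1', h2', rfl⟩ := hl
      by_cases h0 : ∑ l ∈ Finset.range L, m l • eta n L B l = 0
      · rw [h0, zero_add, if_pos rfl, one_mul]
      · rw [if_neg h0, zero_mul, if_neg]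
        intro h3
        apply h0
        rw [sum_smul_add] at h3
        have h4 := U_eq_zero hn hB (fun l => m l + m' l) (fun l _ => by
          by_cases h : l ∈ A
          · have : l ∉ A' := Finset.disjoint_left.1 hd h
            simp [h2' l this, h1 l]
          · simp [h2 l h, h1' l]) h3
        refine Finset.sum_eq_zero fun l hl => ?_
        have h5 := h4 l (Finset.mem_range.1 hl)
        by_cases h : l ∈ A
        · have h6 : l ∉ A' := Finset.disjoint_left.1 hd h
          rw [h2' l h6, add_zero] at h5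
          rw [h5, zero_smul]
        · rw [h2 l h, zero_smul]
    | zero => simp
    | add y z _ _ hy hz => rw [mul_add, map_add, map_add, hy, hz, mul_add]
    | smul a y _ hy => rw [mul_smul_comm, map_smul, map_smul, hy]; simp only [smul_eq_mul]; ring
  | zero => simp
  | add y z _ _ hy hz => rw [add_mul, map_add, map_add, hy, hz, add_mul]
  | smul a y _ hy => rw [smul_mul_assoc, map_smul, map_smul, hy]; simp only [smul_eq_mul]; ring

/-! ### Fejér kernels -/

/-- Dirichlet kernel in the direction `ν`. -/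
def dk {n : ℕ} (M : ℕ) (ν : Fin n → ℤ) : C(Tor n, ℂ) :=
  ∑ a ∈ Finset.range M, (mFourier ((a : ℤ) • ν) : C(Tor n, ℂ))

/-- Fejér kernel in the direction `ν`. -/
def fk {n : ℕ} (M : ℕ) (ν : Fin n → ℤ) : C(Tor n, ℂ) :=
  (M : ℂ)⁻¹ • (dk M ν * star (dk M ν))

/-- real valued version -/
def fr {n : ℕ} (M : ℕ) (ν : Fin n → ℤ) (x : Tor n) : ℝ := ‖dk M ν x‖ ^ 2 / M

lemma fk_apply {n : ℕ} (M : ℕ) (ν : Fin n → ℤ) (x : Tor n) : fk M ν x = ((fr M ν x : ℝ) : ℂ) := by
  have h3 := Complex.mul_conj (dk M ν x)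
  rw [Complex.normSq_eq_norm_sq] at h3
  have h4 : dk M ν x * star (dk M ν x) = ((‖dk M ν x‖ ^ 2 : ℝ) : ℂ) := by simpa using h3
  simp only [fk, ContinuousMap.smul_apply, ContinuousMap.mul_apply, ContinuousMap.star_apply,
    smul_eq_mul, h4, fr]
  push_cast
  ring

lemma fr_nonneg {n : ℕ} (M : ℕ) (ν : Fin n → ℤ) (x : Tor n) : 0 ≤ fr M ν x := by
  unfold fr; positivity

lemma norm_dk_le {n : ℕ} (M : ℕ) (ν : Fin n → ℤ) (x : Tor n) : ‖dk M ν x‖ ≤ M := by
  unfold dk
  rw [ContinuousMap.coe_sum, Finset.sum_apply]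
  refine (norm_sum_le _ _).trans ?_
  simp [norm_mF]

lemma fr_le {n : ℕ} (M : ℕ) (ν : Fin n → ℤ) (x : Tor n) : fr M ν x ≤ M := by
  unfold fr
  rcases Nat.eq_zero_or_pos M with h | h
  · subst h; simp
  · have hM : (0 : ℝ) < M := by exact_mod_cast h
    rw [div_le_iff₀ hM]
    have h1 := norm_dk_le M ν x
    have h2 := norm_nonneg (dk M ν x)
    nlinarith

lemma fr_cont {n : ℕ} (M : ℕ) (ν : Fin n → ℤ) : Continuous (fr M ν : Tor n → ℝ) := by
  unfold fr
  fun_prop

lemma dk_mul {n : ℕ} (M : ℕ) (ν : Fin n → ℤ) : dk M ν * star (dk M ν) =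
    ∑ a ∈ Finset.range M, ∑ b ∈ Finset.range M,
      (mFourier (((a : ℤ) - b) • ν) : C(Tor n, ℂ)) := by
  unfold dk
  rw [star_sum, Finset.sum_mul_sum]
  refine Finset.sum_congr rfl fun a _ => Finset.sum_congr rfl fun b _ => ?_
  rw [mF_star, mF_mul, sub_smul, sub_eq_add_neg]

/-- `∫ κ = 1` -/
lemma int_fk {n : ℕ} {M : ℕ} (hM : 0 < M) {ν : Fin n → ℤ} (hν : ∀ t : ℤ, t • ν = 0 → t = 0) :
    intL n (fk M ν) = 1 := by
  unfold fk
  rw [map_smul, dk_mul, map_sum]
  simp only [map_sum, intL_mF]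
  have : ∀ a ∈ Finset.range M, (∑ b ∈ Finset.range M,
      if ((a : ℤ) - b) • ν = 0 then (1 : ℂ) else 0) = 1 := by
    intro a ha
    rw [Finset.sum_eq_single a]
    · simp
    · intro b _ hb
      rw [if_neg]
      intro h
      have := hν _ h
      apply hb; omega
    · intro h; exact absurd ha h
  rw [Finset.sum_congr rfl this]
  have hM0 : (M : ℂ) ≠ 0 := by exact_mod_cast hM.ne'
  simp [hM0]

/-- second moment of the Fejér kernel -/
def aM (M : ℕ) : ℝ := ((M : ℝ) ^ 2)⁻¹ * ∑ a ∈ Finset.range M, ∑ b ∈ Finset.range M,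
  ∑ c ∈ Finset.range M, ∑ d ∈ Finset.range M, if ((a : ℤ) - b + (c - d) = 0) then (1 : ℝ) else 0

lemma int_fk_sq {n : ℕ} (M : ℕ) {ν : Fin n → ℤ} (hν : ∀ t : ℤ, t • ν = 0 → t = 0) :
    intL n (fk M ν ^ 2) = ((aM M : ℝ) : ℂ) := by
  have h1 : fk M ν ^ 2 = ((M : ℂ) ^ 2)⁻¹ • ∑ a ∈ Finset.range M, ∑ b ∈ Finset.range M,
      ∑ c ∈ Finset.range M, ∑ d ∈ Finset.range M,
      (mFourier (((a : ℤ) - b + (c - d)) • ν) : C(Tor n, ℂ)) := by
    unfold fk
    rw [dk_mul, smul_pow, inv_pow, sq (∑ a ∈ Finset.range M, _)]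
    congr 1
    rw [Finset.sum_mul]
    refine Finset.sum_congr rfl fun a _ => ?_
    rw [Finset.sum_mul]
    refine Finset.sum_congr rfl fun b _ => ?_
    rw [Finset.mul_sum]
    refine Finset.sum_congr rfl fun c _ => ?_
    rw [Finset.mul_sum]
    refine Finset.sum_congr rfl fun d _ => ?_
    rw [mF_mul, ← add_smul]
  rw [h1, map_smul]
  simp only [map_sum, intL_mF]
  unfold aM
  push_cast
  rw [smul_eq_mul]
  congr 1
  refine Finset.sum_congr rfl fun a _ => Finset.sum_congr rfl fun b _ =>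
    Finset.sum_congr rfl fun c _ => Finset.sum_congr rfl fun d _ => ?_
  by_cases h : ((a : ℤ) - b + (c - d) = 0)
  · simp [h]
  · rw [if_neg (fun h2 => h (hν _ h2)), if_neg h]; simp

lemma aM_ge (K : ℕ) (hK : 0 < K) : (K : ℝ) / 4 ≤ aM (2 * K) := by
  unfold aM
  have h1 : ∑ a ∈ Finset.range (2 * K), ∑ b ∈ Finset.range (2 * K),
      ∑ c ∈ Finset.range (2 * K), ∑ d ∈ Finset.range (2 * K),
      (if ((a : ℤ) - b + (c - d) = 0) then (1 : ℝ) else 0) =
      (((Finset.range (2 * K) ×ˢ Finset.range (2 * K)) ×ˢ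
        (Finset.range (2 * K) ×ˢ Finset.range (2 * K))).filter
        (fun q : (ℕ × ℕ) × (ℕ × ℕ) => ((q.1.1 : ℤ) - q.1.2 + (q.2.1 - q.2.2) = 0))).card := by
    rw [← Finset.sum_boole, Finset.sum_product, Finset.sum_product]
    refine Finset.sum_congr rfl fun a _ => Finset.sum_congr rfl fun b _ => ?_
    rw [Finset.sum_product]
  rw [h1]
  have h2 : K ^ 3 ≤ (((Finset.range (2 * K) ×ˢ Finset.range (2 * K)) ×ˢ
        (Finset.range (2 * K) ×ˢ Finset.range (2 * K))).filter
        (fun q : (ℕ × ℕ) × (ℕ × ℕ) => ((q.1.1 : ℤ) - q.1.2 + (q.2.1 - q.2.2) = 0))).card := by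
    have h3 : (Finset.range K ×ˢ Finset.range K ×ˢ Finset.range K).card = K ^ 3 := by
      simp [Finset.card_product]; ring
    rw [← h3]
    refine Finset.card_le_card_of_injOn (fun q : ℕ × ℕ × ℕ => ((q.1 + q.2.2, q.1), (q.2.1, q.2.1 + q.2.2)))
      ?_ ?_
    · rintro ⟨i, j, s⟩ h
      simp only [Finset.coe_product, Set.mem_prod, Finset.mem_coe, Finset.mem_range] at h
      simp only [Finset.coe_filter, Finset.mem_product, Finset.mem_range, Set.mem_ofPred_eq]
      refine ⟨⟨⟨by omega, by omega⟩, by omega, by omega⟩, ?_⟩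
      push_cast; ring
    · rintro ⟨i, j, s⟩ _ ⟨i', j', s'⟩ _ h
      simp only [Prod.mk.injEq] at h
      obtain ⟨⟨h1, h2⟩, h3, h4⟩ := h
      simp only [Prod.mk.injEq]
      refine ⟨by omega, by omega, by omega⟩
  have hK' : (0 : ℝ) < K := by exact_mod_cast hK
  have h3 : ((K : ℝ) ^ 3) ≤ ((((Finset.range (2 * K) ×ˢ Finset.range (2 * K)) ×ˢ
        (Finset.range (2 * K) ×ˢ Finset.range (2 * K))).filter
        (fun q : (ℕ × ℕ) × (ℕ × ℕ) => ((q.1.1 : ℤ) - q.1.2 + (q.2.1 - q.2.2) = 0))).card : ℝ) := by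
    exact_mod_cast h2
  push_cast
  rw [inv_mul_eq_div, le_div_iff₀ (by positivity)]
  calc (K : ℝ) / 4 * (2 * K) ^ 2 = (K : ℝ) ^ 3 := by ring
    _ ≤ _ := h3

lemma eta_inj {n L B : ℕ} (hn : 4 ≤ n) (hB : 0 < B) (l : ℕ) (t : ℤ)
    (h : t • eta n L B l = 0) : t = 0 := by
  have h0 := congrFun h (⟨0, by omega⟩ : Fin n)
  simp only [Pi.smul_apply, eta, Pi.zero_apply, smul_eq_mul] at h0
  norm_num at h0
  rcases h0 with h | h
  · exact h
  · omega

lemma sum_single {n L B : ℕ} {l : ℕ} (hl : l < L) (t : ℤ) :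
    ∑ j ∈ Finset.range L, (if j = l then t else 0) • eta n L B j = t • eta n L B l := by
  rw [Finset.sum_eq_single l]
  · simp
  · intro b _ hb; simp [hb]
  · intro h; exact absurd (Finset.mem_range.2 hl) h

lemma fk_mem {n L B M : ℕ} {l : ℕ} (hl : l < L) :
    fk M (eta n L B l) ∈ H (U n L B {l} M) := by
  unfold fk
  refine Submodule.smul_mem _ _ ?_
  rw [dk_mul]
  refine Submodule.sum_mem _ fun a ha => Submodule.sum_mem _ fun b hb => mF_mem ?_
  have ha' := Finset.mem_range.1 ha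
  have hb' := Finset.mem_range.1 hb
  refine ⟨fun j => if j = l then (a : ℤ) - b else 0, fun j => ?_, fun j hj => ?_, ?_⟩
  · by_cases h : j = l
    · simp only [h, if_true]
      rw [abs_le]; constructor <;> omega
    · simp [h]
  · simp only [Finset.mem_singleton] at hj
    simp [hj]
  · exact (sum_single hl _).symm

/-- nontrivial words -/
def V (n L B : ℕ) (A : Finset ℕ) (D : ℕ) : Set (Fin n → ℤ) :=
  {ν | ∃ m : ℕ → ℤ, (∀ l, |m l| ≤ D) ∧ (∀ l, l ∉ A → m l = 0) ∧ (∃ l ∈ A, m l ≠ 0) ∧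
    ν = ∑ l ∈ Finset.range L, m l • eta n L B l}

lemma fk_sub_one_mem {n L B M : ℕ} (hM : 0 < M) {l : ℕ} (hl : l < L) :
    fk M (eta n L B l) - 1 ∈ H (V n L B {l} M) := by
  have h1 : (1 : C(Tor n, ℂ)) = (M : ℂ)⁻¹ • ∑ a ∈ Finset.range M, (1 : C(Tor n, ℂ)) := by
    ext x
    have hM0 : (M : ℂ) ≠ 0 := by exact_mod_cast hM.ne'
    simp [hM0]
  have h3 : fk M (eta n L B l) - 1 = (M : ℂ)⁻¹ • (dk M (eta n L B l) * star (dk M (eta n L B l)) -
      ∑ a ∈ Finset.range M, (1 : C(Tor n, ℂ))) := by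
    conv_lhs => rw [h1]
    unfold fk
    exact (smul_sub _ _ _).symm
  rw [h3, dk_mul, ← Finset.sum_sub_distrib]
  refine Submodule.smul_mem _ _ (Submodule.sum_mem _ fun a ha => ?_)
  have h2 : ∑ b ∈ Finset.range M, (mFourier (((a : ℤ) - b) • eta n L B l) : C(Tor n, ℂ)) - 1 =
      ∑ b ∈ (Finset.range M).erase a, (mFourier (((a : ℤ) - b) • eta n L B l) : C(Tor n, ℂ)) := by
    rw [← Finset.add_sum_erase _ _ ha]
    simp [mFourier_zero]
  rw [h2]
  refine Submodule.sum_mem _ fun b hb => mF_mem ?_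
  rw [Finset.mem_erase] at hb
  have ha' := Finset.mem_range.1 ha
  have hb' := Finset.mem_range.1 hb.2
  refine ⟨fun j => if j = l then (a : ℤ) - b else 0, fun j => ?_, fun j hj => ?_,
    ⟨l, by simp, ?_⟩, ?_⟩
  · by_cases h : j = l
    · simp only [h, if_true]
      rw [abs_le]; constructor <;> omega
    · simp [h]
  · simp only [Finset.mem_singleton] at hj
    simp [hj]
  · simp only [if_true]
    have := hb.1
    omega
  · exact (sum_single hl _).symm

lemma prod_mem {n L B M : ℕ} (A : Finset ℕ) (hA : ∀ l ∈ A, l < L) :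
    ∏ l ∈ A, fk M (eta n L B l) ∈ H (U n L B A M) := by
  induction A using Finset.induction_on with
  | empty => rw [Finset.prod_empty]; exact one_mem_H (U_zero _ _)
  | insert a A ha ih =>
    rw [Finset.prod_insert ha]
    refine H_mul (fun x hx y hy => ?_) (fk_mem (M := M) (hA a (by simp))) (ih fun l hl => hA l (by simp [hl]))
    have := U_add_disj (Finset.disjoint_singleton_left.2 ha) hx hy
    rwa [← Finset.insert_eq] at this

lemma prod_int {n L B M : ℕ} (hn : 4 ≤ n) (hM : 0 < M) (hB : M + 3 ≤ B) (A : Finset ℕ)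
    (hA : ∀ l ∈ A, l < L) : intL n (∏ l ∈ A, fk M (eta n L B l)) = 1 := by
  induction A using Finset.induction_on with
  | empty =>
    rw [Finset.prod_empty, ← mFourier_zero, intL_mF]; simp
  | insert a A ha ih =>
    rw [Finset.prod_insert ha]
    rw [indep hn hB (Finset.disjoint_singleton_left.2 ha) (fk_mem (M := M) (hA a (by simp)))
      (prod_mem A fun l hl => hA l (by simp [hl])), ih fun l hl => hA l (by simp [hl]),
      int_fk hM (fun t ht => eta_inj hn (by omega) a t ht), mul_one]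

lemma prod_sub_one_mem {n L B M : ℕ} (hM : 0 < M) (A : Finset ℕ) (hA : ∀ l ∈ A, l < L) :
    ∏ l ∈ A, fk M (eta n L B l) - 1 ∈ H (V n L B A M) := by
  induction A using Finset.induction_on with
  | empty => rw [Finset.prod_empty, sub_self]; exact Submodule.zero_mem _
  | insert a A ha ih =>
    rw [Finset.prod_insert ha]
    have h0 : fk M (eta n L B a) * ∏ l ∈ A, fk M (eta n L B l) - 1 =
        (fk M (eta n L B a) - 1) * ∏ l ∈ A, fk M (eta n L B l) +
          (∏ l ∈ A, fk M (eta n L B l) - 1) := by ring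
    rw [h0]
    refine Submodule.add_mem _ ?_ ?_
    · refine H_mul (fun x hx y hy => ?_) (fk_sub_one_mem (M := M) hM (hA a (by simp)))
        (prod_mem A fun l hl => hA l (by simp [hl]))
      obtain ⟨m, h1, h2, ⟨l, hl, h3⟩, rfl⟩ := hx
      obtain ⟨m', h1', h2', rfl⟩ := hy
      rw [Finset.mem_singleton] at hl
      subst hl
      refine ⟨fun j => m j + m' j, fun j => ?_, fun j hj => ?_, ⟨l, by simp, ?_⟩, sum_smul_add m m'⟩
      · by_cases h : j = l
        · rw [h]; simp [h2' l ha, h1 l]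
        · simp [h2 j (by simpa using h), h1' j]
      · simp only [Finset.mem_insert, not_or] at hj
        simp [h2 j (by simpa using hj.1), h2' j hj.2]
      · simpa [h2' l ha] using h3
    · refine H_mono ?_ (ih fun l hl => hA l (by simp [hl]))
      rintro ν ⟨m, h1, h2, ⟨l, hl, h3⟩, rfl⟩
      exact ⟨m, h1, fun j hj => h2 j (fun h => hj (by simp [h])), ⟨l, by simp [hl], h3⟩, rfl⟩

end

end MP_c03b66_an

end

section

/-! The polynomials `F = α ∑ x_k ∏ κ(u_l)` and `p = α ∑ x_k κ(u_k)`. -/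

open MeasureTheory UnitAddTorus

namespace MP_c03b66_an

noncomputable section

lemma intL_real {n : ℕ} (f : C(Tor n, ℂ)) (r : Tor n → ℝ) (h : ∀ x, f x = ((r x : ℝ) : ℂ)) :
    intL n f = ((∫ x, r x ∂haar n : ℝ) : ℂ) := by
  rw [intL_apply, integral_congr_ae (Filter.Eventually.of_forall fun x => h x)]
  exact integral_ofReal

lemma orthoSum {n L B D D1 D2 : ℕ} (hn : 4 ≤ n) (hB : D + 3 ≤ B) (hD : D1 + D1 + D2 ≤ D)
    {ι : Type*} (T : Finset ι) (b : ι → ℕ → ℤ)
    (hb : ∀ i ∈ T, ∀ l < L, 2 * |b i l| ≤ D)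
    (hinj : ∀ i ∈ T, ∀ j ∈ T, i ≠ j → ∃ l < L, b i l ≠ b j l)
    (P : ι → C(Tor n, ℂ)) (hP : ∀ i ∈ T, P i ∈ H (U n L B (Finset.range L) D1))
    {R : C(Tor n, ℂ)} (hR : R ∈ H (U n L B (Finset.range L) D2)) :
    intL n ((∑ i ∈ T, (mFourier (∑ l ∈ Finset.range L, b i l • xi n L B l) : C(Tor n, ℂ)) * P i) *
      star (∑ i ∈ T, (mFourier (∑ l ∈ Finset.range L, b i l • xi n L B l) : C(Tor n, ℂ)) * P i) * R)
      = ∑ i ∈ T, intL n (P i * star (P i) * R) := by
  rw [star_sum, Finset.sum_mul_sum, Finset.sum_mul, map_sum]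
  refine Finset.sum_congr rfl fun i hi => ?_
  rw [Finset.sum_mul, map_sum, Finset.sum_eq_single i]
  · congr 1
    rw [star_mul, mF_star]
    have h1 : (mFourier (∑ l ∈ Finset.range L, b i l • xi n L B l) : C(Tor n, ℂ)) *
        mFourier (-∑ l ∈ Finset.range L, b i l • xi n L B l) = 1 := by
      rw [mF_mul, add_neg_cancel, mFourier_zero]
    linear_combination (P i * star (P i) * R) * h1
  · intro j hj hji
    have h1 : (mFourier (∑ l ∈ Finset.range L, b i l • xi n L B l) : C(Tor n, ℂ)) * P i *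
        star ((mFourier (∑ l ∈ Finset.range L, b j l • xi n L B l) : C(Tor n, ℂ)) * P j) * R =
        mFourier (∑ l ∈ Finset.range L, (b i l - b j l) • xi n L B l) * (P i * star (P j) * R) := by
      rw [star_mul, mF_star]
      have h2 : (mFourier (∑ l ∈ Finset.range L, (b i l - b j l) • xi n L B l) : C(Tor n, ℂ)) =
          mFourier (∑ l ∈ Finset.range L, b i l • xi n L B l) *
          mFourier (-∑ l ∈ Finset.range L, b j l • xi n L B l) := by
        rw [mF_mul]
        congr 1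
        rw [← sub_eq_add_neg, ← Finset.sum_sub_distrib]
        exact Finset.sum_congr rfl fun l _ => by rw [sub_smul]
      rw [h2]; ring
    rw [h1]
    have h3 : P i * star (P j) * R ∈ H (U n L B (Finset.range L) D) := by
      have h4 : P i * star (P j) ∈ H (U n L B (Finset.range L) (D1 + D1)) :=
        H_mul (fun a ha b hb => by simpa using U_add ha hb) (hP i hi) (U_star (hP j hj))
      have h5 : P i * star (P j) * R ∈ H (U n L B (Finset.range L) (D1 + D1 + D2)) :=
        H_mul (fun a ha b hb => by simpa using U_add ha hb) h4 hR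
      exact H_mono (U_mono (Finset.Subset.refl _) hD) h5
    refine intL_of_mem (A := {ν | ∃ μ ∈ U n L B (Finset.range L) D,
      ν = ∑ l ∈ Finset.range L, (b i l - b j l) • xi n L B l + μ}) ?_ ?_
    · refine H_mul (A := {∑ l ∈ Finset.range L, (b i l - b j l) • xi n L B l}) ?_ (mF_mem rfl) h3
      intro a ha c hc
      rw [Set.mem_singleton_iff.1 ha]
      exact ⟨c, hc, rfl⟩
    · rintro ⟨μ, ⟨m, h6, h7, rfl⟩, h8⟩
      obtain ⟨l, hl, hne⟩ := hinj i hi j hj (Ne.symm hji)
      have := (word_zero hn hB (fun l => b i l - b j l) m (fun l hl => ?_) (fun l _ => h6 l)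
        h8.symm l hl).1
      · apply hne; linarith
      · have h9 := hb i hi l hl
        have h10 := hb j hj l hl
        have := abs_sub (b i l) (b j l)
        linarith
  · intro h; exact absurd hi h

lemma one_U {n L B : ℕ} (A : Finset ℕ) (D : ℕ) : (1 : C(Tor n, ℂ)) ∈ H (U n L B A D) :=
  one_mem_H (U_zero _ _)

lemma sum_single_xi {n L B : ℕ} {i : ℕ} (hi : i < L) :
    ∑ l ∈ Finset.range L, (if l = i then (1 : ℤ) else 0) • xi n L B l = xi n L B i := by
  rw [Finset.sum_eq_single i]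
  · simp
  · intro b _ hb; simp [hb]
  · intro h; exact absurd (Finset.mem_range.2 hi) h

/-- `∑ x_k` -/
def SX (n L B : ℕ) : C(Tor n, ℂ) := ∑ k ∈ Finset.range L, (mFourier (xi n L B k) : C(Tor n, ℂ))

/-- `∏ κ(u_l)` -/
def RR (n L B M : ℕ) : C(Tor n, ℂ) := ∏ l ∈ Finset.range L, fk M (eta n L B l)

/-- `∑ x_k κ(u_k)` -/
def SG (n L B M : ℕ) : C(Tor n, ℂ) :=
  ∑ k ∈ Finset.range L, (mFourier (xi n L B k) : C(Tor n, ℂ)) * fk M (eta n L B k)

/-- real version of `∏ κ(u_l)` -/
def Rr (n L B M : ℕ) (x : Tor n) : ℝ := ∏ l ∈ Finset.range L, fr M (eta n L B l) x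

/-- `∑ κ(u_k)²` -/
def Gr (n L B M : ℕ) (x : Tor n) : ℝ := ∑ l ∈ Finset.range L, fr M (eta n L B l) x ^ 2

lemma RR_apply {n L B M : ℕ} (x : Tor n) : RR n L B M x = ((Rr n L B M x : ℝ) : ℂ) := by
  unfold RR Rr
  rw [ContinuousMap.coe_prod, Finset.prod_apply]
  push_cast
  exact Finset.prod_congr rfl fun l _ => fk_apply _ _ _

lemma Rr_nonneg {n L B M : ℕ} (x : Tor n) : 0 ≤ Rr n L B M x :=
  Finset.prod_nonneg fun _ _ => fr_nonneg _ _ _

lemma Rr_cont {n L B M : ℕ} : Continuous (Rr n L B M) :=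
  continuous_finsetProd _ fun _ _ => fr_cont _ _

lemma Gr_cont {n L B M : ℕ} : Continuous (Gr n L B M) :=
  continuous_finsetSum _ fun _ _ => (fr_cont _ _).pow 2

lemma Gr_nonneg {n L B M : ℕ} (x : Tor n) : 0 ≤ Gr n L B M x :=
  Finset.sum_nonneg fun _ _ => sq_nonneg _

lemma int_Rr {n L B M : ℕ} (hn : 4 ≤ n) (hM : 0 < M) (hB : M + 3 ≤ B) :
    ∫ x, Rr n L B M x ∂haar n = 1 := by
  have h1 := prod_int (L := L) hn hM hB (Finset.range L) (fun l hl => Finset.mem_range.1 hl)
  have h2 := intL_real (RR n L B M) (Rr n L B M) (fun x => RR_apply x)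
  unfold RR at h2
  rw [h1] at h2
  exact_mod_cast h2.symm

lemma mul_star_apply {n : ℕ} (f : C(Tor n, ℂ)) (x : Tor n) :
    (f * star f) x = ((‖f x‖ ^ 2 : ℝ) : ℂ) := by
  have h3 := Complex.mul_conj (f x)
  rw [Complex.normSq_eq_norm_sq] at h3
  simpa using h3

lemma int_SX {n L B M D : ℕ} (hn : 4 ≤ n) (hM : 0 < M) (hB : D + 3 ≤ B) (hMD : M ≤ D)
    (h2D : 2 ≤ D) : ∫ x, ‖SX n L B x‖ ^ 2 * Rr n L B M x ∂haar n = L := by
  have h1 := orthoSum (D1 := 0) (D2 := M) hn hB (by omega) (Finset.range L)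
    (fun i l => if l = i then (1 : ℤ) else 0) (fun i _ l _ => by
      have : (2 : ℤ) ≤ D := by exact_mod_cast h2D
      by_cases h : l = i
      · simp [h, this]
      · simp [h]) (fun i hi j hj hij => ⟨i, Finset.mem_range.1 hi, by simp [hij]⟩)
    (fun _ => 1) (fun i _ => one_U _ _)
    (prod_mem (n := n) (B := B) (M := M) (Finset.range L) (fun l hl => Finset.mem_range.1 hl))
  have h2 : ∑ i ∈ Finset.range L, (mFourier (∑ l ∈ Finset.range L,
      (if l = i then (1 : ℤ) else 0) • xi n L B l) : C(Tor n, ℂ)) * 1 = SX n L B := by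
    unfold SX
    refine Finset.sum_congr rfl fun i hi => ?_
    rw [sum_single_xi (Finset.mem_range.1 hi), mul_one]
  rw [h2, intL_real _ (fun x => ‖SX n L B x‖ ^ 2 * Rr n L B M x) (fun x => by
    rw [ContinuousMap.mul_apply, mul_star_apply]
    have := RR_apply (n := n) (L := L) (B := B) (M := M) x
    unfold RR at this
    rw [this]; push_cast; ring)] at h1
  have h3 : intL n ((1 : C(Tor n, ℂ)) * star 1 * ∏ l ∈ Finset.range L, fk M (eta n L B l)) = 1 := by
    rw [star_one, one_mul, one_mul]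
    exact prod_int hn hM (by omega) _ (fun l hl => Finset.mem_range.1 hl)
  rw [Finset.sum_congr rfl (fun i _ => h3)] at h1
  simp only [Finset.sum_const, Finset.card_range, nsmul_eq_mul, mul_one] at h1
  exact_mod_cast h1

/-- the `L¹` norm of `F` -/
lemma int_F {n L B M D : ℕ} (hn : 4 ≤ n) (hM : 0 < M) (hB : D + 3 ≤ B) (hMD : M ≤ D)
    (h2D : 2 ≤ D) (hL : 0 < L) :
    ∫ x, ‖(SX n L B * RR n L B M) x‖ ∂haar n ≤ Real.sqrt L := by
  have hL' : (0 : ℝ) < L := by exact_mod_cast hL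
  have hs : 0 < Real.sqrt L := Real.sqrt_pos.2 hL'
  have hss : Real.sqrt L * Real.sqrt L = L := Real.mul_self_sqrt hL'.le
  have h1 : ∀ x, ‖(SX n L B * RR n L B M) x‖ ≤
      (1 / 2) * ((Real.sqrt L)⁻¹ * (‖SX n L B x‖ ^ 2 * Rr n L B M x) + Real.sqrt L * Rr n L B M x) := by
    intro x
    rw [ContinuousMap.mul_apply, norm_mul, RR_apply, Complex.norm_real, Real.norm_eq_abs,
      abs_of_nonneg (Rr_nonneg x)]
    have h2 : ‖SX n L B x‖ ≤ (1 / 2) * ((Real.sqrt L)⁻¹ * ‖SX n L B x‖ ^ 2 + Real.sqrt L) := by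
      have h3 : 0 ≤ (Real.sqrt L)⁻¹ * (‖SX n L B x‖ - Real.sqrt L) ^ 2 := by positivity
      have h4 : (Real.sqrt L)⁻¹ * (‖SX n L B x‖ - Real.sqrt L) ^ 2 =
          (Real.sqrt L)⁻¹ * ‖SX n L B x‖ ^ 2 - 2 * ‖SX n L B x‖ + Real.sqrt L := by
        field_simp
        ring
      linarith
    calc ‖SX n L B x‖ * Rr n L B M x
        ≤ ((1 / 2) * ((Real.sqrt L)⁻¹ * ‖SX n L B x‖ ^ 2 + Real.sqrt L)) * Rr n L B M x :=
          mul_le_mul_of_nonneg_right h2 (Rr_nonneg x)
      _ = _ := by ring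
  have hc1 : Continuous (fun x : Tor n => ‖SX n L B x‖ ^ 2 * Rr n L B M x) :=
    (by fun_prop : Continuous fun x : Tor n => ‖SX n L B x‖ ^ 2).mul Rr_cont
  have hc2 : Continuous (fun x : Tor n => Rr n L B M x) := Rr_cont
  calc ∫ x, ‖(SX n L B * RR n L B M) x‖ ∂haar n ≤ ∫ x, (1 / 2) * ((Real.sqrt L)⁻¹ *
        (‖SX n L B x‖ ^ 2 * Rr n L B M x) + Real.sqrt L * Rr n L B M x) ∂haar n :=
        integral_mono (cont_int (by fun_prop)) (cont_int (by fun_prop)) h1
    _ = (1 / 2) * ((Real.sqrt L)⁻¹ * L + Real.sqrt L * 1) := by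
        rw [integral_const_mul, integral_add (cont_int (by fun_prop)) (cont_int (by fun_prop)),
          integral_const_mul, integral_const_mul, int_SX hn hM hB hMD h2D,
          int_Rr hn hM (by omega)]
    _ = Real.sqrt L := by
        have h5 : (Real.sqrt L)⁻¹ * L = Real.sqrt L := by
          rw [inv_mul_eq_div, div_eq_iff hs.ne']; exact hss.symm
        rw [h5]; ring

/-- `P₊ F = p` -/
lemma diff_mem {n L B M D : ℕ} (hn : 4 ≤ n) (hM : 0 < M) (hB : D + 3 ≤ B) (hMD : M ≤ D) :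
    SX n L B * RR n L B M - SG n L B M ∈ H (Pos n)ᶜ := by
  have h1 : SX n L B * RR n L B M - SG n L B M = ∑ k ∈ Finset.range L,
      (mFourier (xi n L B k) : C(Tor n, ℂ)) * (fk M (eta n L B k) *
        (∏ l ∈ (Finset.range L).erase k, fk M (eta n L B l) - 1)) := by
    unfold SX RR SG
    rw [Finset.sum_mul, ← Finset.sum_sub_distrib]
    refine Finset.sum_congr rfl fun k hk => ?_
    rw [← Finset.mul_prod_erase _ _ hk]
    ring
  rw [h1]
  refine Submodule.sum_mem _ fun k hk => ?_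
  have hk' := Finset.mem_range.1 hk
  have h2 := fk_mem (n := n) (B := B) (M := M) hk'
  have h3 := prod_sub_one_mem (n := n) (L := L) (B := B) hM ((Finset.range L).erase k)
    (fun l hl => Finset.mem_range.1 (Finset.mem_of_mem_erase hl))
  have h4 : fk M (eta n L B k) * (∏ l ∈ (Finset.range L).erase k, fk M (eta n L B l) - 1) ∈
      H {ν | ∃ m : ℕ → ℤ, (∀ l, |m l| ≤ M) ∧ (∃ l < L, l ≠ k ∧ m l ≠ 0) ∧
        ν = ∑ l ∈ Finset.range L, m l • eta n L B l} := by
    refine H_mul ?_ h2 h3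
    rintro a ⟨m, h5, h6, rfl⟩ b ⟨m', h5', h6', ⟨l, hl, hl0⟩, rfl⟩
    have hlk := (Finset.mem_erase.1 hl).1
    have hlL := Finset.mem_range.1 (Finset.mem_of_mem_erase hl)
    refine ⟨fun j => m j + m' j, fun j => ?_, ⟨l, hlL, hlk, ?_⟩, sum_smul_add m m'⟩
    · by_cases h : j = k
      · rw [h]; simp [h6' k (by simp), h5 k]
      · simp [h6 j (by simpa using h), h5' j]
    · simpa [h6 l (by simpa using hlk)] using hl0
  refine H_mul (A := {xi n L B k}) ?_ (mF_mem rfl) h4
  rintro a ha b ⟨m, h5, ⟨l, hlL, hlk, hl0⟩, rfl⟩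
  rw [Set.mem_singleton_iff.1 ha]
  intro h6
  exact hl0 (word_pos hn hB hk' m (fun l _ => (h5 l).trans (by exact_mod_cast hMD)) h6 l hlL hlk)

lemma SG_mem {n L B M D : ℕ} (hB : D + 3 ≤ B) (hMD : M ≤ D) :
    SG n L B M ∈ H (Pos n) := by
  unfold SG
  refine Submodule.sum_mem _ fun k hk => ?_
  have hk' := Finset.mem_range.1 hk
  refine H_mul (A := {xi n L B k}) ?_ (mF_mem rfl) (fk_mem (n := n) (B := B) (M := M) hk')
  rintro a ha b ⟨m, h5, h6, rfl⟩
  rw [Set.mem_singleton_iff.1 ha]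
  have h7 : ∑ l ∈ Finset.range L, m l • eta n L B l = m k • eta n L B k := by
    rw [Finset.sum_eq_single k]
    · intro b _ hb; rw [h6 b (by simpa using hb), zero_smul]
    · intro h; exact absurd hk h
  rw [h7]
  refine word_mem_pos (m k) ((h5 k).trans ?_)
  have : (M : ℤ) ≤ D := by exact_mod_cast hMD
  have : (D : ℤ) + 3 ≤ B := by exact_mod_cast hB
  linarith

end

end MP_c03b66_an

end

section

/-! Moments of `p`. -/

open MeasureTheory UnitAddTorus

namespace MP_c03b66_an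

noncomputable section

lemma pow_le_aux (a s : ℝ) (hs : 0 ≤ s) (hsa : s ≤ a) (j : ℕ) :
    s * a ^ j ≤ s * (a - s) ^ j + j * (s * s * a ^ (j - 1)) := by
  have ha : 0 ≤ a := hs.trans hsa
  have key : ∀ j : ℕ, a ^ j ≤ (a - s) ^ j + j * (s * a ^ (j - 1)) := by
    intro j
    induction j with
    | zero => simp
    | succ j ih =>
      have h1 : a * (j * (s * a ^ (j - 1))) = j * (s * a ^ j) := by
        rcases j with _ | j
        · simp
        · rw [Nat.add_sub_cancel, pow_succ]; ring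
      have h2 : (a - s) ^ j ≤ a ^ j := pow_le_pow_left₀ (by linarith) (by linarith) j
      have h3 : s * (a - s) ^ j ≤ s * a ^ j := mul_le_mul_of_nonneg_left h2 hs
      have h4 : a * a ^ j ≤ a * ((a - s) ^ j + j * (s * a ^ (j - 1))) :=
        mul_le_mul_of_nonneg_left ih ha
      rw [Nat.add_sub_cancel, pow_succ, pow_succ]
      push_cast
      nlinarith
  have h5 := mul_le_mul_of_nonneg_left (key j) hs
  calc s * a ^ j ≤ s * ((a - s) ^ j + j * (s * a ^ (j - 1))) := h5
    _ = _ := by ring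

/-- real integrals of products -/
lemma indep_real {n L B D : ℕ} (hn : 4 ≤ n) (hB : D + 3 ≤ B) {A A' : Finset ℕ} (hd : Disjoint A A')
    {f h : C(Tor n, ℂ)} (hf : f ∈ H (U n L B A D)) (hh : h ∈ H (U n L B A' D))
    (r s : Tor n → ℝ) (hr : ∀ x, f x = ((r x : ℝ) : ℂ)) (hs : ∀ x, h x = ((s x : ℝ) : ℂ)) :
    ∫ x, r x * s x ∂haar n = (∫ x, r x ∂haar n) * ∫ x, s x ∂haar n := by
  have h1 := indep hn hB hd hf hh
  rw [intL_real f r hr, intL_real h s hs, intL_real (f * h) (fun x => r x * s x) (fun x => by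
    rw [ContinuousMap.mul_apply, hr, hs]; push_cast; ring)] at h1
  exact_mod_cast h1

lemma fr_sq_le {n : ℕ} (M : ℕ) (ν : Fin n → ℤ) (x : Tor n) : fr M ν x ^ 2 ≤ (M : ℝ) ^ 2 :=
  pow_le_pow_left₀ (fr_nonneg _ _ _) (fr_le _ _ _) 2

lemma int_fr_sq {n : ℕ} (M : ℕ) {ν : Fin n → ℤ} (hν : ∀ t : ℤ, t • ν = 0 → t = 0) :
    ∫ x, fr M ν x ^ 2 ∂haar n = aM M := by
  have h1 := int_fk_sq M hν
  rw [intL_real _ (fun x => fr M ν x ^ 2) (fun x => by
    rw [ContinuousMap.pow_apply, fk_apply]; push_cast; rfl)] at h1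
  exact_mod_cast h1

lemma G_ind {n L B M D : ℕ} (hn : 4 ≤ n) (hB : D + 3 ≤ B) {k : ℕ} (hk : k < L)
    (j : ℕ) (h2 : 2 * M ≤ D) (hj : j * (2 * M) ≤ D) :
    ∫ x, fr M (eta n L B k) x ^ 2 * (∑ l ∈ (Finset.range L).erase k, fr M (eta n L B l) x ^ 2) ^ j
      ∂haar n = aM M *
    ∫ x, (∑ l ∈ (Finset.range L).erase k, fr M (eta n L B l) x ^ 2) ^ j ∂haar n := by
  rw [← int_fr_sq (n := n) M (ν := eta n L B k) (fun t ht => eta_inj hn (by omega) k t ht)]
  refine indep_real (L := L) hn hB (A := {k}) (A' := (Finset.range L).erase k)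
    (Finset.disjoint_singleton_left.2 (Finset.notMem_erase _ _))
    (f := fk M (eta n L B k) ^ 2)
    (h := (∑ l ∈ (Finset.range L).erase k, fk M (eta n L B l) ^ 2) ^ j) ?_ ?_ _ _ ?_ ?_
  · exact H_mono (U_mono (Finset.Subset.refl _) h2) (U_pow (fk_mem hk) 2)
  · refine H_mono (U_mono (Finset.Subset.refl _) hj) (U_pow ?_ j)
    refine Submodule.sum_mem _ fun l hl => ?_
    refine H_mono (U_mono (Finset.singleton_subset_iff.2 hl) le_rfl) (U_pow (fk_mem ?_) 2)
    exact Finset.mem_range.1 (Finset.mem_of_mem_erase hl)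
  · intro x
    rw [ContinuousMap.pow_apply, fk_apply]; push_cast; rfl
  · intro x
    rw [ContinuousMap.pow_apply, ContinuousMap.coe_sum, Finset.sum_apply]
    push_cast
    congr 1
    refine Finset.sum_congr rfl fun l _ => ?_
    rw [← fk_apply]

lemma G_rec {n L B M D : ℕ} (hn : 4 ≤ n) (hB : D + 3 ≤ B)
    (j : ℕ) (h2 : 2 * M ≤ D) (hj : j * (2 * M) ≤ D) :
    ∫ x, Gr n L B M x ^ (j + 1) ∂haar n ≤ (L * aM M + j * M ^ 2) * ∫ x, Gr n L B M x ^ j ∂haar n := by
  have hGc : Continuous (Gr n L B M) := Gr_cont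
  have hEc : ∀ k, Continuous (fun x : Tor n =>
      ∑ l ∈ (Finset.range L).erase k, fr M (eta n L B l) x ^ 2) := fun k =>
    continuous_finsetSum _ fun _ _ => (fr_cont _ _).pow 2
  have hfc : ∀ k, Continuous (fun x : Tor n => fr M (eta n L B k) x) := fun k => fr_cont _ _
  have hA : 0 ≤ aM M := by
    have := int_fr_sq (n := n) M (ν := eta n L B 0) (fun t ht => eta_inj hn (by omega) 0 t ht)
    rw [← this]
    exact integral_nonneg fun x => sq_nonneg _
  have hpt : ∀ x, Gr n L B M x ^ (j + 1) ≤ ∑ k ∈ Finset.range L, fr M (eta n L B k) x ^ 2 *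
      (∑ l ∈ (Finset.range L).erase k, fr M (eta n L B l) x ^ 2) ^ j +
      j * M ^ 2 * Gr n L B M x ^ j := by
    intro x
    have h1 : Gr n L B M x ^ (j + 1) =
        ∑ k ∈ Finset.range L, fr M (eta n L B k) x ^ 2 * Gr n L B M x ^ j := by
      rw [← Finset.sum_mul, pow_succ, mul_comm]; rfl
    have h3 : ∀ k ∈ Finset.range L, fr M (eta n L B k) x ^ 2 * Gr n L B M x ^ j ≤
        fr M (eta n L B k) x ^ 2 *
          (∑ l ∈ (Finset.range L).erase k, fr M (eta n L B l) x ^ 2) ^ j +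
        j * M ^ 2 * (fr M (eta n L B k) x ^ 2 * Gr n L B M x ^ (j - 1)) := by
      intro k hk
      have h4 : Gr n L B M x - fr M (eta n L B k) x ^ 2 =
          ∑ l ∈ (Finset.range L).erase k, fr M (eta n L B l) x ^ 2 := by
        unfold Gr
        rw [← Finset.add_sum_erase _ _ hk]; ring
      have h5 : fr M (eta n L B k) x ^ 2 ≤ Gr n L B M x := by
        unfold Gr
        exact Finset.single_le_sum (f := fun l => fr M (eta n L B l) x ^ 2)
          (fun l _ => sq_nonneg _) hk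
      have h6 := pow_le_aux (Gr n L B M x) (fr M (eta n L B k) x ^ 2) (sq_nonneg _) h5 j
      rw [h4] at h6
      refine h6.trans (add_le_add le_rfl ?_)
      have h7 := fr_sq_le M (eta n L B k) x
      have h8 : 0 ≤ fr M (eta n L B k) x ^ 2 * Gr n L B M x ^ (j - 1) :=
        mul_nonneg (sq_nonneg _) (pow_nonneg (Gr_nonneg x) _)
      have h9 : (0 : ℝ) ≤ j := by positivity
      calc (j : ℝ) * (fr M (eta n L B k) x ^ 2 * fr M (eta n L B k) x ^ 2 * Gr n L B M x ^ (j - 1))
          = fr M (eta n L B k) x ^ 2 * (j * (fr M (eta n L B k) x ^ 2 * Gr n L B M x ^ (j - 1))) := by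
            ring
        _ ≤ (M : ℝ) ^ 2 * (j * (fr M (eta n L B k) x ^ 2 * Gr n L B M x ^ (j - 1))) :=
            mul_le_mul_of_nonneg_right h7 (mul_nonneg h9 h8)
        _ = _ := by ring
    rw [h1]
    refine (Finset.sum_le_sum h3).trans (le_of_eq ?_)
    rw [Finset.sum_add_distrib]
    congr 1
    rw [← Finset.mul_sum, ← Finset.sum_mul]
    rcases j with _ | j
    · simp
    · rw [Nat.add_sub_cancel, pow_succ]
      unfold Gr
      ring
  calc ∫ x, Gr n L B M x ^ (j + 1) ∂haar n ≤ ∫ x, (∑ k ∈ Finset.range L,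
        fr M (eta n L B k) x ^ 2 *
        (∑ l ∈ (Finset.range L).erase k, fr M (eta n L B l) x ^ 2) ^ j +
        j * M ^ 2 * Gr n L B M x ^ j) ∂haar n := by
        refine integral_mono (cont_int (by fun_prop)) (cont_int ?_) hpt
        exact (continuous_finsetSum _ fun k _ => ((hfc k).pow 2).mul ((hEc k).pow j)).add
          (continuous_const.mul (hGc.pow j))
    _ = ∑ k ∈ Finset.range L, aM M * ∫ x, (∑ l ∈ (Finset.range L).erase k,
          fr M (eta n L B l) x ^ 2) ^ j ∂haar n + j * M ^ 2 * ∫ x, Gr n L B M x ^ j ∂haar n := by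
        have i1 : ∀ k ∈ Finset.range L, Integrable (fun x : Tor n => fr M (eta n L B k) x ^ 2 *
            (∑ l ∈ (Finset.range L).erase k, fr M (eta n L B l) x ^ 2) ^ j) (haar n) :=
          fun k _ => cont_int (((hfc k).pow 2).mul ((hEc k).pow j))
        have i2 : Integrable (fun x : Tor n => ∑ k ∈ Finset.range L, fr M (eta n L B k) x ^ 2 *
            (∑ l ∈ (Finset.range L).erase k, fr M (eta n L B l) x ^ 2) ^ j) (haar n) :=
          integrable_finsetSum _ i1
        have i3 : Integrable (fun x : Tor n => (j : ℝ) * M ^ 2 * Gr n L B M x ^ j) (haar n) :=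
          cont_int (continuous_const.mul (hGc.pow j))
        rw [integral_add i2 i3, integral_const_mul, integral_finsetSum _ i1]
        congr 1
        exact Finset.sum_congr rfl fun k hk => G_ind hn hB (Finset.mem_range.1 hk) j h2 hj
    _ ≤ ∑ k ∈ Finset.range L, aM M * ∫ x, Gr n L B M x ^ j ∂haar n +
          j * M ^ 2 * ∫ x, Gr n L B M x ^ j ∂haar n := by
        refine add_le_add (Finset.sum_le_sum fun k hk => mul_le_mul_of_nonneg_left ?_ hA) le_rfl
        refine integral_mono (cont_int ((hEc k).pow j)) (cont_int (hGc.pow j)) fun x => ?_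
        refine pow_le_pow_left₀ (Finset.sum_nonneg fun _ _ => sq_nonneg _) ?_ j
        unfold Gr
        exact Finset.sum_le_sum_of_subset_of_nonneg (Finset.erase_subset _ _)
          fun _ _ _ => sq_nonneg _
    _ = (L * aM M + j * M ^ 2) * ∫ x, Gr n L B M x ^ j ∂haar n := by
        rw [Finset.sum_const, Finset.card_range, nsmul_eq_mul]; ring

lemma aM_nonneg (M : ℕ) : 0 ≤ aM M := by
  unfold aM
  refine mul_nonneg (by positivity) ?_
  refine Finset.sum_nonneg fun _ _ => Finset.sum_nonneg fun _ _ => Finset.sum_nonneg fun _ _ =>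
    Finset.sum_nonneg fun _ _ => ?_
  split_ifs <;> norm_num

lemma G_mom {n L B M D m : ℕ} (hn : 4 ≤ n) (hB : D + 3 ≤ B)
    (h2 : 2 * M ≤ D) (hm : m * (2 * M) ≤ D) (j : ℕ) (hj : j ≤ m) :
    ∫ x, Gr n L B M x ^ j ∂haar n ≤ (L * aM M + m * M ^ 2) ^ j := by
  induction j with
  | zero => simp
  | succ j ih =>
    have h1 := ih (by omega)
    have h3 : j * (2 * M) ≤ m * (2 * M) := Nat.mul_le_mul_right _ (by omega)
    have h4 := G_rec (L := L) hn hB j h2 (h3.trans hm)
    have hA := aM_nonneg M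
    have h5 : (L * aM M + j * M ^ 2 : ℝ) ≤ L * aM M + m * M ^ 2 := by
      have : (j : ℝ) ≤ m := by exact_mod_cast (by omega : j ≤ m)
      nlinarith [sq_nonneg (M : ℝ)]
    have h6 : (0 : ℝ) ≤ L * aM M + m * M ^ 2 := by positivity
    have h7 : 0 ≤ ∫ x, Gr n L B M x ^ j ∂haar n := integral_nonneg fun x => pow_nonneg (Gr_nonneg x) _
    calc ∫ x, Gr n L B M x ^ (j + 1) ∂haar n ≤ _ := h4
      _ ≤ (L * aM M + m * M ^ 2) * (L * aM M + m * M ^ 2) ^ j :=
          mul_le_mul h5 h1 h7 h6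
      _ = _ := by ring

lemma prod_mF_pow {n L B : ℕ} (β : ℕ → ℕ) (s : Finset ℕ) :
    ∏ k ∈ s, (mFourier (xi n L B k) : C(Tor n, ℂ)) ^ β k =
      mFourier (∑ l ∈ s, ((β l : ℕ) : ℤ) • xi n L B l) := by
  induction s using Finset.induction_on with
  | empty => simp [mFourier_zero]
  | insert a s ha ih =>
    rw [Finset.prod_insert ha, Finset.sum_insert ha, ih, ← mF_mul]
    congr 1
    generalize β a = t
    induction t with
    | zero => simp [mFourier_zero]
    | succ t iht => rw [pow_succ, iht, mF_mul]; congr 1; push_cast; rw [add_smul, one_smul]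

lemma prod_pow_mem {n L B M j : ℕ} (β : ℕ → ℕ) (hβ : ∀ l, β l ≤ j) (s : Finset ℕ)
    (hs : ∀ l ∈ s, l < L) :
    ∏ k ∈ s, fk M (eta n L B k) ^ β k ∈ H (U n L B s (j * M)) := by
  induction s using Finset.induction_on with
  | empty => rw [Finset.prod_empty]; exact one_U _ _
  | insert a A ha ih =>
    rw [Finset.prod_insert ha]
    refine H_mul (fun x hx y hy => ?_) (H_mono (U_mono (Finset.Subset.refl _)
      (Nat.mul_le_mul_right M (hβ a))) (U_pow (fk_mem (M := M) (hs a (by simp))) (β a)))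
      (ih fun l hl => hs l (by simp [hl]))
    have := U_add_disj (Finset.disjoint_singleton_left.2 ha) hx hy
    rwa [← Finset.insert_eq] at this

/-- moments of `∑ x_k κ(u_k)` -/
lemma SG_mom {n L B M D : ℕ} (hn : 4 ≤ n) (hB : D + 3 ≤ B) (j : ℕ)
    (hj : j * M + j * M ≤ D) (hj2 : 2 * j ≤ D) :
    ∫ x, ‖SG n L B M x‖ ^ (2 * j) ∂haar n ≤ j.factorial * ∫ x, Gr n L B M x ^ j ∂haar n := by
  classical
  set T := Finset.piAntidiag (Finset.range L) j with hT
  set P : (ℕ → ℕ) → C(Tor n, ℂ) := fun β => ((Nat.multinomial (Finset.range L) β : ℕ) : ℂ) •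
    ∏ k ∈ Finset.range L, fk M (eta n L B k) ^ β k with hP
  have hβ : ∀ β ∈ T, (∀ l, β l ≤ j) ∧ (∀ l, l ∉ Finset.range L → β l = 0) := by
    intro β h
    rw [hT, Finset.mem_piAntidiag] at h
    have h2 : ∀ l, l ∉ Finset.range L → β l = 0 := fun l hl => by
      by_contra h0; exact hl (h.2 l h0)
    refine ⟨fun l => ?_, h2⟩
    by_cases hl : l ∈ Finset.range L
    · rw [← h.1]; exact Finset.single_le_sum (f := β) (fun _ _ => Nat.zero_le _) hl
    · rw [h2 l hl]; exact Nat.zero_le _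
  have h1 : SG n L B M ^ j = ∑ β ∈ T, (mFourier (∑ l ∈ Finset.range L,
      ((β l : ℕ) : ℤ) • xi n L B l) : C(Tor n, ℂ)) * P β := by
    unfold SG
    rw [Finset.sum_pow_eq_sum_piAntidiag]
    refine Finset.sum_congr rfl fun β _ => ?_
    simp only [mul_pow]
    rw [Finset.prod_mul_distrib, prod_mF_pow, hP]
    ext x
    simp only [ContinuousMap.mul_apply, ContinuousMap.smul_apply, smul_eq_mul,
      ContinuousMap.natCast_apply]
    ring
  have h2 := orthoSum (D1 := j * M) (D2 := 0) hn hB (by omega) T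
    (fun β l => ((β l : ℕ) : ℤ)) (fun β h l _ => by
      have := (hβ β h).1 l
      rw [abs_of_nonneg (by positivity)]
      have : 2 * β l ≤ D := by omega
      exact_mod_cast this)
    (fun β h β' h' hne => by
      by_contra hcon
      push Not at hcon
      apply hne
      funext l
      by_cases hl : l < L
      · exact_mod_cast hcon l hl
      · have hl' : l ∉ Finset.range L := by simpa using hl
        rw [(hβ β h).2 l hl', (hβ β' h').2 l hl'])
    P (fun β h => Submodule.smul_mem _ _ (prod_pow_mem β (hβ β h).1 _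
      (fun l hl => Finset.mem_range.1 hl))) (R := 1) (one_U _ _)
  rw [← h1] at h2
  have h3 : ∀ β, ∀ x, (P β * star (P β) * 1) x = (((Nat.multinomial (Finset.range L) β : ℕ) ^ 2 *
      ∏ k ∈ Finset.range L, (fr M (eta n L B k) x ^ 2) ^ β k : ℝ) : ℂ) := by
    intro β x
    rw [mul_one, mul_star_apply, hP]
    congr 1
    simp only [ContinuousMap.smul_apply, smul_eq_mul, norm_mul, Complex.norm_natCast, mul_pow]
    congr 1
    rw [ContinuousMap.coe_prod, Finset.prod_apply, norm_prod, ← Finset.prod_pow]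
    refine Finset.prod_congr rfl fun k _ => ?_
    rw [ContinuousMap.pow_apply, fk_apply, norm_pow, Complex.norm_real, Real.norm_eq_abs,
      abs_of_nonneg (fr_nonneg _ _ _)]
    ring
  have h4 : ∀ x, (SG n L B M ^ j * star (SG n L B M ^ j) * 1) x =
      ((‖SG n L B M x‖ ^ (2 * j) : ℝ) : ℂ) := by
    intro x
    rw [mul_one, mul_star_apply, ContinuousMap.pow_apply, norm_pow]
    congr 1
    rw [← pow_mul, mul_comm]
  rw [intL_real _ _ h4, Finset.sum_congr rfl (fun β _ => intL_real _ _ (h3 β))] at h2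
  have h5 : ∫ x, ‖SG n L B M x‖ ^ (2 * j) ∂haar n = ∑ β ∈ T, ∫ x,
      ((Nat.multinomial (Finset.range L) β : ℕ) ^ 2 *
      ∏ k ∈ Finset.range L, (fr M (eta n L B k) x ^ 2) ^ β k : ℝ) ∂haar n := by
    exact_mod_cast h2
  have hprodc : ∀ β : ℕ → ℕ, Continuous (fun x : Tor n =>
      ∏ k ∈ Finset.range L, (fr M (eta n L B k) x ^ 2) ^ β k) := fun β =>
    continuous_finsetProd _ fun k _ => ((fr_cont _ _).pow 2).pow _
  rw [h5]
  have h6 : (j.factorial : ℝ) * ∫ x, Gr n L B M x ^ j ∂haar n = ∑ β ∈ T, ∫ x, (j.factorial : ℝ) *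
      ((Nat.multinomial (Finset.range L) β : ℕ) *
      ∏ k ∈ Finset.range L, (fr M (eta n L B k) x ^ 2) ^ β k : ℝ) ∂haar n := by
    have i1 : ∀ β ∈ T, Integrable (fun x : Tor n => (j.factorial : ℝ) *
      ((Nat.multinomial (Finset.range L) β : ℕ) *
      ∏ k ∈ Finset.range L, (fr M (eta n L B k) x ^ 2) ^ β k : ℝ)) (haar n) := fun β _ => cont_int
      (continuous_const.mul (continuous_const.mul (hprodc β)))
    rw [← integral_finsetSum _ i1, ← integral_const_mul]
    refine integral_congr_ae (Filter.Eventually.of_forall fun x => ?_)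
    simp only
    unfold Gr
    rw [Finset.sum_pow_eq_sum_piAntidiag, Finset.mul_sum]
  rw [h6]
  refine Finset.sum_le_sum fun β hβT => ?_
  refine integral_mono (cont_int (continuous_const.mul (hprodc β)))
    (cont_int (continuous_const.mul (continuous_const.mul (hprodc β)))) fun x => ?_
  have h7 : (Nat.multinomial (Finset.range L) β : ℝ) ≤ j.factorial := by
    rw [hT, Finset.mem_piAntidiag] at hβT
    have : Nat.multinomial (Finset.range L) β ≤ j.factorial := by
      unfold Nat.multinomial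
      refine (Nat.div_le_self _ _).trans ?_
      rw [hβT.1]
    exact_mod_cast this
  have h8 : (0 : ℝ) ≤ Nat.multinomial (Finset.range L) β := by positivity
  have h9 : 0 ≤ ∏ k ∈ Finset.range L, (fr M (eta n L B k) x ^ 2) ^ β k :=
    Finset.prod_nonneg fun _ _ => by positivity
  simp only
  rw [sq, mul_assoc]
  exact mul_le_mul_of_nonneg_right h7 (mul_nonneg h8 h9)

/-- the `L²` norm of `∑ x_k κ(u_k)` -/
lemma SG_sq {n L B M D : ℕ} (hn : 4 ≤ n) (hB : D + 3 ≤ B)
    (hj : M + M ≤ D) (hj2 : 2 ≤ D) :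
    ∫ x, ‖SG n L B M x‖ ^ 2 ∂haar n = L * aM M := by
  have h1 := orthoSum (D1 := M) (D2 := 0) hn hB (by omega) (Finset.range L)
    (fun i l => if l = i then (1 : ℤ) else 0) (fun i _ l _ => by
      have : (2 : ℤ) ≤ D := by exact_mod_cast hj2
      by_cases h : l = i
      · simp [h, this]
      · simp [h]) (fun i hi j hj hij => ⟨i, Finset.mem_range.1 hi, by simp [hij]⟩)
    (fun k => fk M (eta n L B k)) (fun i hi => H_mono (U_mono
      (Finset.singleton_subset_iff.2 hi) le_rfl) (fk_mem (Finset.mem_range.1 hi)))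
    (R := 1) (one_U _ _)
  have h2 : ∑ i ∈ Finset.range L, (mFourier (∑ l ∈ Finset.range L,
      (if l = i then (1 : ℤ) else 0) • xi n L B l) : C(Tor n, ℂ)) * fk M (eta n L B i) =
      SG n L B M := by
    unfold SG
    refine Finset.sum_congr rfl fun i hi => ?_
    rw [sum_single_xi (Finset.mem_range.1 hi)]
  rw [h2, intL_real _ (fun x => ‖SG n L B M x‖ ^ 2) (fun x => by
    rw [mul_one, mul_star_apply])] at h1
  have h3 : ∀ k ∈ Finset.range L, intL n (fk M (eta n L B k) * star (fk M (eta n L B k)) * 1) =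
      ((aM M : ℝ) : ℂ) := by
    intro k _
    rw [← int_fr_sq (n := n) M (ν := eta n L B k) (fun t ht => eta_inj hn (by omega) k t ht)]
    refine intL_real _ _ fun x => ?_
    rw [mul_one, mul_star_apply, fk_apply, Complex.norm_real, Real.norm_eq_abs,
      abs_of_nonneg (fr_nonneg _ _ _)]
  rw [Finset.sum_congr rfl h3, Finset.sum_const, Finset.card_range, nsmul_eq_mul] at h1
  exact_mod_cast h1

end

end MP_c03b66_an

end

section

/-! Existence of flat analytic polynomials `p = P₊F` with `‖p‖₂ = 1`, `‖F‖₁ ≤ ε`. -/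

open MeasureTheory UnitAddTorus

namespace MP_c03b66_an

noncomputable section

theorem exists_flat {n : ℕ} (hn : 4 ≤ n) (m : ℕ) (ε : ℝ) (hε : 0 < ε) :
    ∃ p ∈ H (Pos n), ∃ F ∈ H (Set.univ : Set (Fin n → ℤ)), F - p ∈ H (Pos n)ᶜ ∧
      ∫ x, ‖p x‖ ^ 2 ∂haar n = 1 ∧
      (∀ j ≤ m, ∫ x, ‖p x‖ ^ (2 * j) ∂haar n ≤ 2 * j.factorial) ∧
      ∫ x, ‖F x‖ ∂haar n ≤ ε := by
  obtain ⟨K, hK⟩ := exists_nat_ge (4 * (1 + (ε ^ 2)⁻¹))
  have hε2 : 0 < (ε ^ 2)⁻¹ := by positivity
  have hK0 : 0 < K := by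
    have : (0 : ℝ) < K := by linarith
    exact_mod_cast this
  set M := 2 * K with hMdef
  have hM : 0 < M := by omega
  have hA1 : 1 + (ε ^ 2)⁻¹ ≤ aM M := by
    have := aM_ge K hK0
    linarith
  have hApos : 0 < aM M := by linarith
  set L := 2 * m ^ 2 * M ^ 2 + 1 with hLdef
  have hL : 0 < L := by omega
  have hLr : (0 : ℝ) < L := by exact_mod_cast hL
  set D := 2 * M * (m + 1) + 2 * (m + 1) with hDdef
  set B := D + 3 with hBdef
  have hB : D + 3 ≤ B := le_rfl
  have hMD : M ≤ D := by rw [hDdef]; nlinarith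
  have h2D : 2 ≤ D := by rw [hDdef]; nlinarith
  have h2M : 2 * M ≤ D := by rw [hDdef]; nlinarith
  have hm2M : m * (2 * M) ≤ D := by rw [hDdef]; nlinarith
  have hLA : 0 < L * aM M := by positivity
  set α : ℝ := (Real.sqrt (L * aM M))⁻¹ with hα
  have hsq : 0 < Real.sqrt (L * aM M) := Real.sqrt_pos.2 hLA
  have hα0 : 0 < α := by positivity
  have hα2 : α ^ 2 = (L * aM M)⁻¹ := by
    rw [hα, inv_pow, Real.sq_sqrt hLA.le]
  have hnα : ‖(α : ℂ)‖ = α := by rw [Complex.norm_real, Real.norm_eq_abs, abs_of_pos hα0]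
  refine ⟨(α : ℂ) • SG n L B M, Submodule.smul_mem _ _ (SG_mem hB hMD),
    (α : ℂ) • (SX n L B * RR n L B M), ?_, ?_, ?_, ?_, ?_⟩
  · refine Submodule.smul_mem _ _ (H_mul (A := Set.univ) (B := Set.univ)
      (fun _ _ _ _ => Set.mem_univ _) ?_ ?_)
    · exact Submodule.sum_mem _ fun k _ => mF_mem (Set.mem_univ _)
    · exact H_mono (Set.subset_univ _) (prod_mem (n := n) (B := B) (M := M) (Finset.range L)
        (fun l hl => Finset.mem_range.1 hl))
  · have h1 : (α : ℂ) • (SX n L B * RR n L B M) - (α : ℂ) • SG n L B M =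
        (α : ℂ) • (SX n L B * RR n L B M - SG n L B M) := (smul_sub _ _ _).symm
    rw [h1]
    exact Submodule.smul_mem _ _ (diff_mem hn hM hB hMD)
  · have h1 : ∀ x, ‖((α : ℂ) • SG n L B M) x‖ ^ 2 = α ^ 2 * ‖SG n L B M x‖ ^ 2 := fun x => by
      rw [ContinuousMap.smul_apply, norm_smul, hnα, mul_pow]
    simp_rw [h1]
    rw [integral_const_mul, SG_sq hn hB (by omega) h2D, hα2, inv_mul_cancel₀ hLA.ne']
  · intro j hj
    have h1 : ∀ x, ‖((α : ℂ) • SG n L B M) x‖ ^ (2 * j) = α ^ (2 * j) * ‖SG n L B M x‖ ^ (2 * j) :=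
      fun x => by rw [ContinuousMap.smul_apply, norm_smul, hnα, mul_pow]
    simp_rw [h1]
    rw [integral_const_mul]
    have hjD1 : j * M + j * M ≤ D := by rw [hDdef]; nlinarith
    have hjD2 : 2 * j ≤ D := by rw [hDdef]; nlinarith
    have h2 := SG_mom (L := L) (M := M) hn hB j hjD1 hjD2
    have h3 := G_mom (L := L) (m := m) hn hB h2M hm2M j hj
    have hx0 : (0 : ℝ) ≤ m * M ^ 2 / (L * aM M) := by positivity
    have h4 : (1 + m * M ^ 2 / (L * aM M) : ℝ) ^ j ≤ 2 := by
      have h5 : (1 + m * M ^ 2 / (L * aM M) : ℝ) ^ j ≤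
          (Real.exp (m * M ^ 2 / (L * aM M))) ^ j := by
        refine pow_le_pow_left₀ (by positivity) ?_ j
        have := Real.add_one_le_exp (m * M ^ 2 / (L * aM M) : ℝ)
        linarith
      rw [← Real.exp_nat_mul] at h5
      have h6 : (j : ℝ) * (m * M ^ 2 / (L * aM M)) ≤ 1 / 2 := by
        have h7 : (j : ℝ) ≤ m := by exact_mod_cast hj
        have h8 : (j : ℝ) * (m * M ^ 2 / (L * aM M)) ≤ m * (m * M ^ 2 / (L * aM M)) :=
          mul_le_mul_of_nonneg_right h7 hx0
        refine h8.trans ?_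
        rw [mul_div_assoc', div_le_iff₀ hLA]
        have h9 : (L : ℝ) * 1 ≤ L * aM M := mul_le_mul_of_nonneg_left (by linarith) hLr.le
        have h10 : (L : ℝ) = 2 * m ^ 2 * M ^ 2 + 1 := by rw [hLdef]; push_cast; ring
        nlinarith
      have h11 : Real.exp (1 / 2) ≤ 2 := by
        have h12 : Real.exp (1 / 2) ^ 2 ≤ 2 ^ 2 := by
          rw [← Real.exp_nat_mul]
          have := Real.exp_one_lt_d9
          norm_num
          linarith
        exact le_of_sq_le_sq h12 (by norm_num)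
      exact h5.trans ((Real.exp_le_exp.2 h6).trans h11)
    calc α ^ (2 * j) * ∫ x, ‖SG n L B M x‖ ^ (2 * j) ∂haar n
        ≤ α ^ (2 * j) * (j.factorial * (L * aM M + m * M ^ 2) ^ j) := by
          refine mul_le_mul_of_nonneg_left (h2.trans ?_) (by positivity)
          exact mul_le_mul_of_nonneg_left h3 (by positivity)
      _ = j.factorial * (1 + m * M ^ 2 / (L * aM M)) ^ j := by
          rw [pow_mul, hα2]
          have h13 : (1 + m * M ^ 2 / (L * aM M) : ℝ) = (L * aM M)⁻¹ * (L * aM M + m * M ^ 2) := by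
            field_simp
          rw [h13, mul_pow]; ring
      _ ≤ j.factorial * 2 := mul_le_mul_of_nonneg_left h4 (by positivity)
      _ = 2 * j.factorial := by ring
  · have h1 : ∀ x, ‖((α : ℂ) • (SX n L B * RR n L B M)) x‖ = α * ‖(SX n L B * RR n L B M) x‖ :=
      fun x => by rw [ContinuousMap.smul_apply, norm_smul, hnα]
    simp_rw [h1]
    rw [integral_const_mul]
    have h2 := int_F (M := M) hn hM hB hMD h2D hL
    refine (mul_le_mul_of_nonneg_left h2 hα0.le).trans ?_
    rw [hα, Real.sqrt_mul hLr.le]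
    have hs1 : 0 < Real.sqrt L := Real.sqrt_pos.2 hLr
    have hs2 : 0 < Real.sqrt (aM M) := Real.sqrt_pos.2 hApos
    have h3 : (Real.sqrt L * Real.sqrt (aM M))⁻¹ * Real.sqrt L = (Real.sqrt (aM M))⁻¹ := by
      field_simp
    rw [h3]
    have h4 : ε⁻¹ ≤ Real.sqrt (aM M) := by
      refine Real.le_sqrt_of_sq_le ?_
      rw [inv_pow]
      linarith
    exact inv_le_of_inv_le₀ hε h4

end

end MP_c03b66_an

end

section

/-! Functions of the polydisc algebra have vanishing Fourier coefficients off `Z_+^n`. -/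

open MeasureTheory UnitAddTorus

namespace MP_c03b66_an

noncomputable section

/-- `f` has vanishing Fourier coefficients off `Z_+^n`. -/
def Analytic {n : ℕ} (f : Tor n → ℂ) : Prop := ∀ k, k ∉ Pos n → fc f k = 0

lemma int_circle {φ : ℂ → ℂ} (h : DiffContOnCl ℂ φ (Metric.ball 0 1)) :
    ∫ s : UnitAddCircle, φ (AddCircle.toCircle s) ∂AddCircle.haarAddCircle = φ 0 := by
  have h1 := fourierCoeff_eq_intervalIntegral (T := (1 : ℝ))
    (fun s : AddCircle (1 : ℝ) => φ (AddCircle.toCircle s)) 0 0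
  have h2 : fourierCoeff (fun s : AddCircle (1 : ℝ) => φ (AddCircle.toCircle s)) 0 =
      ∫ s : UnitAddCircle, φ (AddCircle.toCircle s) ∂AddCircle.haarAddCircle := by
    unfold fourierCoeff
    simp
  rw [← h2, h1]
  have h3 := DiffContOnCl.circleAverage (f := φ) (c := 0) (R := 1) (by simpa using h)
  rw [← h3]
  unfold Real.circleAverage
  have h4 := intervalIntegral.integral_comp_mul_left (a := 0) (b := 1)
    (fun θ : ℝ => φ (circleMap 0 1 θ)) (c := 2 * Real.pi) (by positivity)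
  rw [mul_zero, mul_one] at h4
  rw [← h4]
  simp only [neg_zero, fourier_zero, one_smul, zero_add, div_one]
  refine intervalIntegral.integral_congr fun x _ => ?_
  congr 1
  rw [AddCircle.toCircle_apply_mk, Circle.coe_exp, circleMap]
  push_cast
  simp

lemma fourier_nat (N : ℕ) (s : UnitAddCircle) :
    fourier (N : ℤ) s = ((AddCircle.toCircle s : Circle) : ℂ) ^ N := by
  induction N with
  | zero => simp
  | succ N ih =>
    rw [pow_succ, ← ih]
    push_cast
    rw [fourier_add, fourier_one]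

lemma mF_single {n : ℕ} (k : Fin n → ℤ) (i : Fin n) (s : UnitAddCircle) :
    mFourier k (Pi.single i s : Tor n) = fourier (k i) s := by
  simp only [mFourier, ContinuousMap.coe_mk]
  rw [Finset.prod_eq_single i]
  · simp
  · intro j _ hj
    rw [Pi.single_eq_of_ne hj]
    simp
  · intro h; exact absurd (Finset.mem_univ i) h

/-- the boundary point of the polydisc -/
def bp {n : ℕ} (x : Tor n) : Fin n → ℂ := fun j => ((AddCircle.toCircle (x j) : Circle) : ℂ)

lemma bp_cont {n : ℕ} : Continuous (bp : Tor n → Fin n → ℂ) := by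
  refine continuous_pi fun j => ?_
  exact continuous_subtype_val.comp (AddCircle.continuous_toCircle.comp (continuous_apply j))

lemma fc_dil {n : ℕ} (F : (Fin n → ℂ) → ℂ) (hc : ContinuousOn F {z | ∀ i, ‖z i‖ ≤ 1})
    (hd : DifferentiableOn ℂ F {z | ∀ i, ‖z i‖ < 1}) (r : ℝ) (hr0 : 0 < r) (hr1 : r < 1)
    (k : Fin n → ℤ) (i : Fin n) (hi : k i < 0) :
    ∫ x, mFourier (-k) x * F (fun j => r * bp x j) ∂haar n = 0 := by
  have hnb : ∀ (x : Tor n) j, ‖bp x j‖ = 1 := fun x j => Circle.norm_coe _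
  have hcl : ∀ x : Tor n, (fun j => (r : ℂ) * bp x j) ∈ {z : Fin n → ℂ | ∀ i, ‖z i‖ ≤ 1} := by
    intro x j
    rw [norm_mul, hnb, mul_one, Complex.norm_real, Real.norm_eq_abs, abs_of_nonneg hr0.le]
    exact hr1.le
  have hcont : Continuous (fun x : Tor n => mFourier (-k) x * F (fun j => r * bp x j)) := by
    refine (mFourier (-k)).continuous.mul ?_
    refine hc.comp_continuous ?_ hcl
    exact continuous_pi fun j => continuous_const.mul ((continuous_apply j).comp bp_cont)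
  set h : Tor n → ℂ := fun x => mFourier (-k) x * F (fun j => r * bp x j) with hh
  have hinner : ∀ x : Tor n, ∫ s : UnitAddCircle, h (x + Pi.single i s)
      ∂AddCircle.haarAddCircle = 0 := by
    intro x
    obtain ⟨N, hN⟩ : ∃ N : ℕ, -(k i) = (N : ℤ) := ⟨(-(k i)).toNat, by omega⟩
    have hN0 : N ≠ 0 := by omega
    set φ : ℂ → ℂ := fun w => mFourier (-k) x * (w ^ N *
      F (fun j => (r : ℂ) * (bp x j * (if j = i then w else 1)))) with hφ
    have hlt : ∀ w ∈ Metric.closedBall (0 : ℂ) 1, (fun j => (r : ℂ) * (bp x j *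
        (if j = i then w else 1))) ∈ {z : Fin n → ℂ | ∀ i, ‖z i‖ < 1} := by
      intro w hw j
      rw [norm_mul, norm_mul, hnb, one_mul, Complex.norm_real, Real.norm_eq_abs,
        abs_of_nonneg hr0.le]
      by_cases hj : j = i
      · rw [if_pos hj]
        have : ‖w‖ ≤ 1 := by simpa using hw
        nlinarith [norm_nonneg w]
      · rw [if_neg hj, norm_one, mul_one]; exact hr1
    have hdφ : DifferentiableOn ℂ φ (Metric.closedBall 0 1) := by
      refine (differentiableOn_const _).mul (DifferentiableOn.mul (differentiableOn_id.pow N) ?_)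
      refine hd.comp (fun w _ => ?_) hlt
      refine (differentiable_pi.2 fun j => ?_).differentiableAt.differentiableWithinAt
      by_cases hj : j = i
      · simp only [if_pos hj]
        fun_prop
      · simp only [if_neg hj]
        fun_prop
    have hφ0 : φ 0 = 0 := by simp [hφ, hN0]
    have h1 := int_circle (φ := φ) (DifferentiableOn.diffContOnCl (by
      rw [closure_ball (0 : ℂ) one_ne_zero]; exact hdφ))
    rw [hφ0] at h1
    rw [← h1]
    refine integral_congr_ae (Filter.Eventually.of_forall fun s => ?_)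
    simp only [hh, hφ]
    rw [mF_pt_add, mF_single, Pi.neg_apply, hN, fourier_nat, mul_assoc]
    congr 3
    funext j
    congr 1
    unfold bp
    rw [Pi.add_apply, AddCircle.toCircle_add]
    by_cases hj : j = i
    · rw [if_pos hj, hj, Pi.single_eq_same]; simp
    · rw [if_neg hj, Pi.single_eq_of_ne hj]; simp
  have h2 : ∫ x, h x ∂haar n =
      ∫ s : UnitAddCircle, (∫ x, h (x + Pi.single i s) ∂haar n) ∂AddCircle.haarAddCircle := by
    simp_rw [int_add h]
    simp
  have h3 : Continuous (fun q : UnitAddCircle × Tor n => h (q.2 + Pi.single i q.1)) := by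
    refine hcont.comp (continuous_snd.add ?_)
    exact (continuous_single i).comp continuous_fst
  change ∫ x, h x ∂haar n = 0
  rw [h2, integral_integral_swap]
  · simp_rw [hinner]; simp
  · exact h3.integrable_of_hasCompactSupport (HasCompactSupport.of_compactSpace _)

lemma analytic_of_polydisc {n : ℕ} {f : C(Tor n, ℂ)} (hf : InPolydiscAlgebra f) :
    Analytic f := by
  obtain ⟨F, hc, hd, hF⟩ := hf
  intro k hk
  obtain ⟨i, hi⟩ : ∃ i, k i < 0 := by
    by_contra h
    push Not at h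
    exact hk h
  have hcomp : IsCompact {z : Fin n → ℂ | ∀ i, ‖z i‖ ≤ 1} := by
    have : {z : Fin n → ℂ | ∀ i, ‖z i‖ ≤ 1} = Set.pi Set.univ (fun _ => Metric.closedBall 0 1) := by
      ext z; simp
    rw [this]
    exact isCompact_univ_pi fun _ => isCompact_closedBall _ _
  obtain ⟨C, hC⟩ := hcomp.exists_bound_of_continuousOn hc
  have hnb : ∀ (x : Tor n) j, ‖bp x j‖ = 1 := fun x j => Circle.norm_coe _
  set r : ℕ → ℝ := fun N => 1 - 1 / ((N : ℝ) + 2) with hr
  have hr0 : ∀ N, 0 < r N := fun N => by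
    have h1 : (0 : ℝ) < (N : ℝ) + 2 := by positivity
    have h2 : 1 / ((N : ℝ) + 2) < 1 := by
      rw [div_lt_one h1]; have : (0 : ℝ) ≤ N := by positivity
      linarith
    simp only [hr]; linarith
  have hr1 : ∀ N, r N < 1 := fun N => by
    have h1 : (0 : ℝ) < 1 / ((N : ℝ) + 2) := by positivity
    simp only [hr]; linarith
  have hrl : Filter.Tendsto r Filter.atTop (nhds 1) := by
    have h1 : Filter.Tendsto (fun N : ℕ => 1 / ((N : ℝ) + 2)) Filter.atTop (nhds 0) := by
      have h2 := (tendsto_one_div_add_atTop_nhds_zero_nat (𝕜 := ℝ)).comp (Filter.tendsto_add_atTop_nat 1)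
      refine h2.congr fun N => ?_
      simp only [Function.comp]
      push_cast
      ring_nf
    have h3 := h1.const_sub 1
    rw [sub_zero] at h3
    exact h3
  have hmem : ∀ N (x : Tor n), (fun j => ((r N : ℝ) : ℂ) * bp x j) ∈
      {z : Fin n → ℂ | ∀ i, ‖z i‖ ≤ 1} := by
    intro N x j
    rw [norm_mul, hnb, mul_one, Complex.norm_real, Real.norm_eq_abs, abs_of_nonneg (hr0 N).le]
    exact (hr1 N).le
  have hmem1 : ∀ (x : Tor n), bp x ∈ {z : Fin n → ℂ | ∀ i, ‖z i‖ ≤ 1} := fun x j => (hnb x j).le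
  have hlim : Filter.Tendsto (fun N => ∫ x, mFourier (-k) x * F (fun j => ((r N : ℝ) : ℂ) * bp x j)
      ∂haar n) Filter.atTop (nhds (∫ x, mFourier (-k) x * f x ∂haar n)) := by
    refine tendsto_integral_of_dominated_convergence (fun _ => C) (fun N => ?_)
      (integrable_const C) (fun N => ?_) ?_
    · refine Continuous.aestronglyMeasurable ?_
      refine (mFourier (-k)).continuous.mul (hc.comp_continuous ?_ (hmem N))
      exact continuous_pi fun j => continuous_const.mul ((continuous_apply j).comp bp_cont)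
    · refine Filter.Eventually.of_forall fun x => ?_
      rw [norm_mul, norm_mF, one_mul]
      exact hC _ (hmem N x)
    · refine Filter.Eventually.of_forall fun x => ?_
      refine Filter.Tendsto.mul tendsto_const_nhds ?_
      rw [← hF x]
      have h4 : Filter.Tendsto (fun N => (fun j => ((r N : ℝ) : ℂ) * bp x j)) Filter.atTop
          (nhdsWithin (bp x) {z : Fin n → ℂ | ∀ i, ‖z i‖ ≤ 1}) := by
        refine tendsto_nhdsWithin_iff.2 ⟨?_, Filter.Eventually.of_forall fun N => hmem N x⟩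
        refine tendsto_pi_nhds.2 fun j => ?_
        have h5 : Filter.Tendsto (fun N => ((r N : ℝ) : ℂ)) Filter.atTop (nhds ((1 : ℝ) : ℂ)) :=
          (Complex.continuous_ofReal.tendsto 1).comp hrl
        simpa using h5.mul_const (bp x j)
      exact (hc (bp x) (hmem1 x)).tendsto.comp h4
  have h0 : ∀ N, ∫ x, mFourier (-k) x * F (fun j => ((r N : ℝ) : ℂ) * bp x j) ∂haar n = 0 :=
    fun N => fc_dil F hc hd (r N) (hr0 N) (hr1 N) k i hi
  simp_rw [h0] at hlim
  exact (tendsto_nhds_unique hlim tendsto_const_nhds)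

end

end MP_c03b66_an

end
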